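import Pool.Agent.J6H44.BP.Q

/-!
# Modified bootstrap percolation: rectangles, internally spanned rectangles, basic facts
-/

set_option autoImplicit false

open Finset

namespace Pool.Agent.J6H44.BP

/-- a rectangle of sites of `ℕ × ℕ`: lower left site `(x, y)`, `a` columns, `b` rows -/
@[ext] structure Rc where
  x : ℕ
  y : ℕ
  a : ℕ
  b : ℕ
deriving DecidableEq

namespace Rc

/-- the sites of the rectangle -/
def sites (R : Rc) : Finset (ℕ × ℕ) :=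
  Finset.Ico R.x (R.x + R.a) ×ˢ Finset.Ico R.y (R.y + R.b)

/-- nonempty rectangle -/
def Ok (R : Rc) : Prop := 1 ≤ R.a ∧ 1 ≤ R.b

/-- `R'.Le R`: the rectangle `R'` is contained in `R` -/
def Le (R' R : Rc) : Prop :=
  R.x ≤ R'.x ∧ R'.x + R'.a ≤ R.x + R.a ∧ R.y ≤ R'.y ∧ R'.y + R'.b ≤ R.y + R.b

/-- semiperimeter -/
def sg (R : Rc) : ℕ := R.a + R.b

end Rc

theorem mem_sites (R : Rc) (v : ℕ × ℕ) : v ∈ R.sites ↔
    (R.x ≤ v.1 ∧ v.1 < R.x + R.a) ∧ (R.y ≤ v.2 ∧ v.2 < R.y + R.b) := by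
  simp [Rc.sites, Finset.mem_product, Finset.mem_Ico]

theorem Rc.Le.sites {R' R : Rc} (h : R'.Le R) : R'.sites ⊆ R.sites := by
  intro v hv
  rw [mem_sites] at hv ⊢
  obtain ⟨h1, h2, h3, h4⟩ := h
  omega

/-- stable sets of the modified process: a site with an occupied horizontal neighbour and an
occupied vertical neighbour is occupied -/
def Stab (S : Set (ℕ × ℕ)) : Prop :=
  ∀ x y x' y' : ℕ, (x' = x + 1 ∨ x = x' + 1) → (y' = y + 1 ∨ y = y' + 1) →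
    (x', y) ∈ S → (x, y') ∈ S → (x, y) ∈ S

/-- `R` is internally spanned by `A`: every stable set containing `A ∩ R` contains `R` -/
def IS (R : Rc) (A : Finset (ℕ × ℕ)) : Prop :=
  ∀ S : Set (ℕ × ℕ), Stab S → (∀ v ∈ A, v ∈ R.sites → v ∈ S) → ∀ v ∈ R.sites, v ∈ S

/-- the event that `R` is internally spanned -/
def isp (R : Rc) : Set (Finset (ℕ × ℕ)) := {A | IS R A}

/-- the rows and the columns of `R` that do not meet `R1` are hit by `A` (inside `R`) -/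
def Gr (R1 R : Rc) : Set (Finset (ℕ × ℕ)) :=
  {A | (∀ r, R.y ≤ r → r < R.y + R.b → (r < R1.y ∨ R1.y + R1.b ≤ r) →
          ∃ x, R.x ≤ x ∧ x < R.x + R.a ∧ (x, r) ∈ A) ∧
       (∀ c, R.x ≤ c → c < R.x + R.a → (c < R1.x ∨ R1.x + R1.a ≤ c) →
          ∃ y, R.y ≤ y ∧ y < R.y + R.b ∧ (c, y) ∈ A)}

/-- `R` is the smallest rectangle containing `R1` and `R2`, and `R1`, `R2` touch (distance at most
one in the sup norm) -/
def Join (R1 R2 R : Rc) : Prop :=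
  (R.x = min R1.x R2.x ∧ R.x + R.a = max (R1.x + R1.a) (R2.x + R2.a)) ∧
  (R.y = min R1.y R2.y ∧ R.y + R.b = max (R1.y + R1.b) (R2.y + R2.b)) ∧
  (R1.x ≤ R2.x + R2.a ∧ R2.x ≤ R1.x + R1.a) ∧ (R1.y ≤ R2.y + R2.b ∧ R2.y ≤ R1.y + R1.b)

theorem Join.left {R1 R2 R : Rc} (h : Join R1 R2 R) : R1.Le R := by
  obtain ⟨⟨h1, h2⟩, ⟨h3, h4⟩, h5, h6⟩ := h
  refine ⟨?_, ?_, ?_, ?_⟩ <;> omega

theorem Join.right {R1 R2 R : Rc} (h : Join R1 R2 R) : R2.Le R := by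
  obtain ⟨⟨h1, h2⟩, ⟨h3, h4⟩, h5, h6⟩ := h
  refine ⟨?_, ?_, ?_, ?_⟩ <;> omega

theorem Join.dims {R1 R2 R : Rc} (h : Join R1 R2 R) : R.a ≤ R1.a + R2.a ∧ R.b ≤ R1.b + R2.b := by
  obtain ⟨⟨h1, h2⟩, ⟨h3, h4⟩, h5, h6⟩ := h
  constructor <;> omega

theorem Rc.Le.dims {R' R : Rc} (h : R'.Le R) : R'.a ≤ R.a ∧ R'.b ≤ R.b := by
  obtain ⟨h1, h2, h3, h4⟩ := h
  constructor <;> omega

theorem Rc.Le.trans {R1 R2 R3 : Rc} (h : R1.Le R2) (h' : R2.Le R3) : R1.Le R3 := by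
  obtain ⟨h1, h2, h3, h4⟩ := h
  obtain ⟨g1, g2, g3, g4⟩ := h'
  refine ⟨?_, ?_, ?_, ?_⟩ <;> omega

theorem Rc.Le.refl (R : Rc) : R.Le R := ⟨le_rfl, le_rfl, le_rfl, le_rfl⟩

theorem Rc.Le.sg_lt {R' R : Rc} (h : R'.Le R) (hne : R' ≠ R) : R'.sg < R.sg := by
  obtain ⟨h1, h2, h3, h4⟩ := h
  unfold Rc.sg
  by_contra hc
  apply hne
  ext <;> omega

theorem IS.mono {R : Rc} {A B : Finset (ℕ × ℕ)} (h : IS R A) (hAB : A ⊆ B) : IS R B :=
  fun S hS hB => h S hS (fun v hv => hB v (hAB hv))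

theorem isp_up (R : Rc) : Up (isp R) := fun _ _ h hA => hA.mono h

theorem IS.inter {R : Rc} {A : Finset (ℕ × ℕ)} (h : IS R A) : IS R (A ∩ R.sites) :=
  fun S hS hB => h S hS (fun v hv hv' => hB v (Finset.mem_inter.2 ⟨hv, hv'⟩) hv')

theorem isp_local (R : Rc) (A : Finset (ℕ × ℕ)) : A ∈ isp R ↔ A ∩ R.sites ∈ isp R :=
  ⟨fun h => IS.inter h, fun h => IS.mono h Finset.inter_subset_left⟩

theorem Gr_up (R1 R : Rc) : Up (Gr R1 R) := by
  rintro S T hST ⟨h1, h2⟩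
  constructor
  · intro r a b c
    obtain ⟨x, hx, hx', hm⟩ := h1 r a b c
    exact ⟨x, hx, hx', hST hm⟩
  · intro r a b c
    obtain ⟨x, hx, hx', hm⟩ := h2 r a b c
    exact ⟨x, hx, hx', hST hm⟩

/-- every row of an internally spanned rectangle is hit -/
theorem IS.row {R : Rc} (hR : R.Ok) {A : Finset (ℕ × ℕ)} (h : IS R A) (r : ℕ) (h1 : R.y ≤ r)
    (h2 : r < R.y + R.b) : ∃ x, R.x ≤ x ∧ x < R.x + R.a ∧ (x, r) ∈ A := by
  by_contra hc
  push Not at hc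
  have hS : Stab {v : ℕ × ℕ | v.2 ≠ r} := by
    intro x y x' y' _ _ hh _
    exact hh
  have := h _ hS (fun v hv hv' => by
    intro hvr
    rw [mem_sites] at hv'
    exact hc v.1 hv'.1.1 hv'.1.2 (by rw [← hvr]; exact hv)) (R.x, r)
    (by rw [mem_sites]; have := hR.1; dsimp only; omega)
  exact this rfl

/-- every column of an internally spanned rectangle is hit -/
theorem IS.col {R : Rc} (hR : R.Ok) {A : Finset (ℕ × ℕ)} (h : IS R A) (c : ℕ) (h1 : R.x ≤ c)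
    (h2 : c < R.x + R.a) : ∃ y, R.y ≤ y ∧ y < R.y + R.b ∧ (c, y) ∈ A := by
  by_contra hc
  push Not at hc
  have hS : Stab {v : ℕ × ℕ | v.1 ≠ c} := by
    intro x y x' y' _ _ _ hh
    exact hh
  have := h _ hS (fun v hv hv' => by
    intro hvr
    rw [mem_sites] at hv'
    exact hc v.2 hv'.2.1 hv'.2.2 (by rw [← hvr]; exact hv)) (c, R.y)
    (by rw [mem_sites]; have := hR.2; dsimp only; omega)
  exact this rfl

theorem IS.gr {R : Rc} (hR : R.Ok) {A : Finset (ℕ × ℕ)} (h : IS R A) (R1 : Rc) : A ∈ Gr R1 R :=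
  ⟨fun r a b _ => h.row hR r a b, fun r a b _ => h.col hR r a b⟩

/-- the sites that witness `Gr R1 R` can be taken outside `R1` -/
theorem Gr_sdiff {R1 R : Rc} {A : Finset (ℕ × ℕ)} (h : A ∈ Gr R1 R) : A \ R1.sites ∈ Gr R1 R := by
  obtain ⟨h1, h2⟩ := h
  constructor
  · intro r a b c
    obtain ⟨x, hx, hx', hm⟩ := h1 r a b c
    refine ⟨x, hx, hx', ?_⟩
    rw [Finset.mem_sdiff, mem_sites]
    refine ⟨hm, ?_⟩
    dsimp only
    omega
  · intro r a b c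
    obtain ⟨x, hx, hx', hm⟩ := h2 r a b c
    refine ⟨x, hx, hx', ?_⟩
    rw [Finset.mem_sdiff, mem_sites]
    refine ⟨hm, ?_⟩
    dsimp only
    omega

/-- the nonempty rectangles contained in `R` -/
def subs (R : Rc) : Finset Rc :=
  ((((Finset.Ico R.x (R.x + R.a)) ×ˢ (Finset.Ico R.y (R.y + R.b))) ×ˢ
    ((Finset.Icc 1 R.a) ×ˢ (Finset.Icc 1 R.b))).image
      (fun t => (⟨t.1.1, t.1.2, t.2.1, t.2.2⟩ : Rc))).filter
    (fun R' => R'.x + R'.a ≤ R.x + R.a ∧ R'.y + R'.b ≤ R.y + R.b)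

theorem mem_subs (R R' : Rc) : R' ∈ subs R ↔ R'.Ok ∧ R'.Le R := by
  unfold subs Rc.Ok Rc.Le
  simp only [Finset.mem_filter, Finset.mem_image, Finset.mem_product, Finset.mem_Ico,
    Finset.mem_Icc, Prod.exists]
  constructor
  · rintro ⟨⟨x, y, a, b, h, rfl⟩, h2⟩
    dsimp only at *
    omega
  · intro h
    refine ⟨⟨R'.x, R'.y, R'.a, R'.b, ?_, rfl⟩, ?_⟩ <;> omega

theorem card_subs (R : Rc) (N : ℕ) (ha : R.a ≤ N) (hb : R.b ≤ N) : (subs R).card ≤ N ^ 4 := by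
  unfold subs
  refine (Finset.card_filter_le _ _).trans (Finset.card_image_le.trans ?_)
  simp only [Finset.card_product, Nat.card_Ico, Nat.card_Icc]
  have e1 : R.x + R.a - R.x = R.a := by omega
  have e2 : R.y + R.b - R.y = R.b := by omega
  have e3 : R.a + 1 - 1 = R.a := by omega
  have e4 : R.b + 1 - 1 = R.b := by omega
  rw [e1, e2, e3, e4]
  calc R.a * R.b * (R.a * R.b) ≤ N * N * (N * N) := by gcongr
    _ = N ^ 4 := by ring

/-! ### The numerical functions -/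

/-- the probability that a segment of `k` sites is hit -/
noncomputable def g (p : ℝ) (k : ℕ) : ℝ := 1 - (1 - p) ^ k

/-- `f p k = - log (g p k)` -/
noncomputable def f (p : ℝ) (k : ℕ) : ℝ := - Real.log (g p k)

/-- the bound of the growth lemma, from dimensions `(a1, b1)` to dimensions `(a, b)` -/
noncomputable def gr (p : ℝ) (a1 b1 a b : ℕ) : ℝ :=
  g p a1 ^ (b - b1) * g p b1 ^ (a - a1) *
    Real.exp (p * ((a - a1 : ℕ) : ℝ) * ((b - b1 : ℕ) : ℝ) / (g p a1 * g p b1))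

/-- the right side of the base recursion -/
noncomputable def brec (p : ℝ) (W : ℕ → ℕ → ℝ) (a b : ℕ) : ℝ :=
  (∑ b1 ∈ Finset.Ico 1 b, ((b - b1 + 1 : ℕ) : ℝ) * W a b1 * g p a ^ (b - b1)) +
  (∑ a1 ∈ Finset.Ico 1 a, ((a - a1 + 1 : ℕ) : ℝ) * W a1 b * g p b ^ (a - a1)) +
  4 * ∑ a1 ∈ Finset.Ico 1 a, ∑ a2 ∈ (Finset.Ico 1 a).filter (fun a2 => a ≤ a1 + a2),
      ∑ b1 ∈ Finset.Ico 1 b, ∑ b2 ∈ (Finset.Ico 1 b).filter (fun b2 => b ≤ b1 + b2),
        W a1 b1 * W a2 b2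

/-- the cost function: `2 ∑_{k ≤ m} φ(k) + (M - m) φ(m)` with `m = min a b`, `M = max a b` -/
noncomputable def Vf (φ : ℕ → ℝ) (a b : ℕ) : ℝ :=
  2 * ∑ k ∈ Finset.Icc 1 (min a b), φ k + ((max a b : ℕ) - (min a b : ℕ) : ℝ) * φ (min a b)

/-- the shift -/
noncomputable def Zz (δ p : ℝ) : ℕ := ⌊p ^ (-(1 / 2) - 6 * δ)⌋₊ + 1

/-- the largest side considered -/
noncomputable def LL (p : ℝ) : ℕ := ⌈8 / p * Real.log (1 / p)⌉₊

/-- the step -/
noncomputable def TT (p : ℝ) (M : ℕ) : ℕ := ⌈p ^ ((1 : ℝ) / 2) * M⌉₊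

/-- the exponent -/
noncomputable def Psi (δ p : ℝ) (a b : ℕ) : ℝ :=
  Vf (fun k => f p (k + Zz δ p)) a b - p ^ (1 / 2 - δ) * (a + b)

/-- the bound used in the induction: thin rectangles and thick rectangles -/
noncomputable def Uf (δ p : ℝ) (a b : ℕ) : ℝ :=
  if ((min a b : ℕ) : ℝ) ≤ p ^ (-(1 / 2) - 4 * δ) then p ^ ((1 / 2 - 5 * δ) * (a + b))
  else Real.exp (- Psi δ p a b)

end Pool.Agent.J6H44.BP
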