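import Pool.Agent.J6H44.BP.Stm

set_option autoImplicit false
open scoped Classical

namespace Pool.Agent.J6H44.BP

theorem frozen_of_asm (h : S_ASM) :
    ∃ ε : ℕ → ℝ, Filter.Tendsto ε Filter.atTop (nhds 0) ∧
      ∀ᶠ n : ℕ in Filter.atTop,
        sInf {p : ℝ | 0 ≤ p ∧ p ≤ 1 ∧
          (1 : ℝ) / 2 ≤ ∑ A : Finset (Fin n × Fin n),
            (if (∀ S : Finset (Fin n × Fin n), A ⊆ S →
                  (∀ v : Fin n × Fin n,
                    ((∃ u ∈ S, u.2 = v.2 ∧ ((u.1 : ℕ) + 1 = v.1 ∨ (v.1 : ℕ) + 1 = u.1)) ∧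
                     (∃ u ∈ S, u.1 = v.1 ∧ ((u.2 : ℕ) + 1 = v.2 ∨ (v.2 : ℕ) + 1 = u.2))) →
                    v ∈ S) →
                  S = Finset.univ)
              then p ^ A.card * (1 - p) ^ (n ^ 2 - A.card) else 0)}
        = Real.pi ^ 2 / (6 * Real.log n) - 1 / Real.log n ^ ((3 : ℝ) / 2 + ε n) := by
  obtain ⟨ε, h1, h2⟩ := h
  refine ⟨ε, h1, ?_⟩
  filter_upwards [h2] with n hn
  rw [← hn]
  congr 1

end Pool.Agent.J6H44.BP
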