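import Pool.Agent.J6H44.BP.Stm

/-! AN1 (assembly) and BASE. -/

set_option autoImplicit false

open Finset

namespace Pool.Agent.J6H44.BP

theorem Wf_symm (δ p : ℝ) (a b : ℕ) : Wf δ p a b = Wf δ p b a := by
  unfold Wf
  rw [add_comm (a : ℝ) b, mul_comm ((a : ℝ) ^ 2)]

theorem Wf_nonneg {δ p : ℝ} (hp : 0 < p) (a b : ℕ) : 0 ≤ Wf δ p a b := by
  unfold Wf; positivity

/-- `p^e ≤ c` for small `p`, `e > 0` -/
theorem exists_rpow_le {e c : ℝ} (he : 0 < e) (hc : 0 < c) :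
    ∃ p0 : ℝ, 0 < p0 ∧ ∀ p : ℝ, 0 < p → p ≤ p0 → p ^ e ≤ c := by
  refine ⟨c ^ (1 / e), by positivity, ?_⟩
  intro p hp hpp
  calc p ^ e ≤ (c ^ (1 / e)) ^ e := Real.rpow_le_rpow hp.le hpp he.le
    _ = c := by rw [← Real.rpow_mul hc.le]; rw [one_div, inv_mul_cancel₀ he.ne', Real.rpow_one]

theorem an1 (ha : S_AN1A) (hb : S_AN1B) (hc : S_AN1C) : S_AN1 := by
  intro δ hδ hδ1
  obtain ⟨p1, hp1, h1⟩ := ha δ hδ hδ1
  obtain ⟨p2, hp2, h2⟩ := hb δ hδ hδ1
  obtain ⟨p3, hp3, h3⟩ := exists_rpow_le (e := 1 / 2 - 5 * δ) (c := 1 / 2) (by linarith) (by norm_num)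
  obtain ⟨p4, hp4, h4⟩ := exists_rpow_le (e := 10 * δ) (c := 1 / 2400) (by linarith) (by norm_num)
  refine ⟨min (min p1 p2) (min p3 p4), by positivity, ?_⟩
  intro p hp hpp a b ha1 hb1 hab hmin
  have b1 : p ≤ p1 := hpp.trans ((min_le_left _ _).trans (min_le_left _ _))
  have b2 : p ≤ p2 := hpp.trans ((min_le_left _ _).trans (min_le_right _ _))
  have b3 : p ≤ p3 := hpp.trans ((min_le_right _ _).trans (min_le_left _ _))
  have b4 : p ≤ p4 := hpp.trans ((min_le_right _ _).trans (min_le_right _ _))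
  by_cases hcase : 4 / δ * ((min a b : ℕ) : ℝ) ≤ ((max a b : ℕ) : ℝ)
  · left
    have := h1 p hp b1 (min a b) (max a b) (by omega) hmin hcase
    refine this.trans (le_of_eq ?_)
    rcases le_total a b with h | h
    · rw [min_eq_left h, max_eq_right h]
    · rw [min_eq_right h, max_eq_left h, Wf_symm]
  · right
    have hmax : ((max a b : ℕ) : ℝ) ≤ 4 / δ * p ^ (-(1 / 2) - 4 * δ) := by
      refine (not_le.1 hcase).le.trans ?_
      gcongr
    have hamax : (a : ℝ) ≤ 4 / δ * p ^ (-(1 / 2) - 4 * δ) := by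
      refine le_trans ?_ hmax
      exact_mod_cast le_max_left a b
    have hbmax : (b : ℝ) ≤ 4 / δ * p ^ (-(1 / 2) - 4 * δ) := by
      refine le_trans ?_ hmax
      exact_mod_cast le_max_right a b
    have s1 := h2 p hp b2 a b ha1 hb1 hamax
    have s2 := h2 p hp b2 b a hb1 ha1 hbmax
    set l : ℝ := p ^ (1 / 2 - 5 * δ) with hl
    set κ : ℝ := p ^ (10 * δ) with hκ
    have hlpos : 0 < l := by positivity
    have hκpos : 0 < κ := by positivity
    have hl2 : l ≤ 1 / 2 := h3 p hp b3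
    have hκ2 : κ ≤ 1 / 2400 := h4 p hp b4
    have hWf : ∀ u v : ℕ, Wf δ p u v = κ * (l ^ u * l ^ v) / ((u : ℝ) ^ 2 * (v : ℝ) ^ 2) := by
      intro u v
      unfold Wf
      have : p ^ ((1 / 2 - 5 * δ) * ((u : ℝ) + v)) = l ^ u * l ^ v := by
        rw [mul_add, Real.rpow_add hp, Real.rpow_mul hp.le, Real.rpow_mul hp.le,
          Real.rpow_natCast, Real.rpow_natCast]
      rw [this]
    have s3 : 4 * ∑ a1 ∈ Finset.Ico 1 a, ∑ a2 ∈ (Finset.Ico 1 a).filter (fun a2 => a ≤ a1 + a2),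
        ∑ b1 ∈ Finset.Ico 1 b, ∑ b2 ∈ (Finset.Ico 1 b).filter (fun b2 => b ≤ b1 + b2),
          Wf δ p a1 b1 * Wf δ p a2 b2 ≤ Wf δ p a b / 3 := by
      have e1 : ∑ a1 ∈ Finset.Ico 1 a, ∑ a2 ∈ (Finset.Ico 1 a).filter (fun a2 => a ≤ a1 + a2),
          ∑ b1 ∈ Finset.Ico 1 b, ∑ b2 ∈ (Finset.Ico 1 b).filter (fun b2 => b ≤ b1 + b2),
            Wf δ p a1 b1 * Wf δ p a2 b2 =
          κ ^ 2 * ((∑ a1 ∈ Finset.Ico 1 a, ∑ a2 ∈ (Finset.Ico 1 a).filter (fun a2 => a ≤ a1 + a2),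
            l ^ (a1 + a2) / ((a1 : ℝ) ^ 2 * (a2 : ℝ) ^ 2)) *
          (∑ b1 ∈ Finset.Ico 1 b, ∑ b2 ∈ (Finset.Ico 1 b).filter (fun b2 => b ≤ b1 + b2),
            l ^ (b1 + b2) / ((b1 : ℝ) ^ 2 * (b2 : ℝ) ^ 2))) := by
        rw [Finset.sum_mul, Finset.mul_sum]
        refine Finset.sum_congr rfl (fun a1 _ => ?_)
        rw [Finset.sum_mul, Finset.mul_sum]
        refine Finset.sum_congr rfl (fun a2 _ => ?_)
        rw [Finset.mul_sum, Finset.mul_sum]
        refine Finset.sum_congr rfl (fun b1 _ => ?_)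
        rw [Finset.mul_sum, Finset.mul_sum]
        refine Finset.sum_congr rfl (fun b2 _ => ?_)
        rw [hWf, hWf, pow_add, pow_add]
        ring
      rw [e1, hWf]
      have t1 := hc l hlpos hl2 a ha1
      have t2 := hc l hlpos hl2 b hb1
      have ha0 : (0 : ℝ) < a := by exact_mod_cast ha1
      have hb0 : (0 : ℝ) < b := by exact_mod_cast hb1
      have t3 : 0 ≤ ∑ b1 ∈ Finset.Ico 1 b, ∑ b2 ∈ (Finset.Ico 1 b).filter (fun b2 => b ≤ b1 + b2),
            l ^ (b1 + b2) / ((b1 : ℝ) ^ 2 * (b2 : ℝ) ^ 2) := by positivity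
      calc 4 * (κ ^ 2 * ((∑ a1 ∈ Finset.Ico 1 a, ∑ a2 ∈ (Finset.Ico 1 a).filter (fun a2 => a ≤ a1 + a2),
            l ^ (a1 + a2) / ((a1 : ℝ) ^ 2 * (a2 : ℝ) ^ 2)) *
          (∑ b1 ∈ Finset.Ico 1 b, ∑ b2 ∈ (Finset.Ico 1 b).filter (fun b2 => b ≤ b1 + b2),
            l ^ (b1 + b2) / ((b1 : ℝ) ^ 2 * (b2 : ℝ) ^ 2))))
          ≤ 4 * (κ ^ 2 * ((14 * l ^ a / (a : ℝ) ^ 2) * (14 * l ^ b / (b : ℝ) ^ 2))) := by
            gcongr
        _ = (784 * κ) * (κ * (l ^ a * l ^ b) / ((a : ℝ) ^ 2 * (b : ℝ) ^ 2)) := by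
            field_simp; ring
        _ ≤ (1 / 3) * (κ * (l ^ a * l ^ b) / ((a : ℝ) ^ 2 * (b : ℝ) ^ 2)) := by
            gcongr
            linarith
        _ = _ := by ring
    have s2' : ∑ a1 ∈ Finset.Ico 1 a, ((a - a1 + 1 : ℕ) : ℝ) * Wf δ p a1 b * g p b ^ (a - a1) ≤
        Wf δ p a b / 3 := by
      rw [Wf_symm δ p a b]
      refine le_trans (le_of_eq ?_) s2
      refine Finset.sum_congr rfl (fun a1 _ => ?_)
      rw [Wf_symm δ p a1 b]
    unfold brec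
    linarith

theorem base (htriv : S_TRIV) (hbrec : S_BREC) (han1 : S_AN1) : S_BASE := by
  intro δ hδ hδ1
  obtain ⟨p1, hp1, h1⟩ := han1 δ hδ hδ1
  refine ⟨min p1 (1 / 2), by positivity, ?_⟩
  intro p hp hpp Λ
  have b1 : p ≤ p1 := hpp.trans (min_le_left _ _)
  have b2 : p ≤ 1 / 2 := hpp.trans (min_le_right _ _)
  have hp1' : p < 1 := by linarith
  have key : ∀ s : ℕ, ∀ R : Rc, R.sg = s → R.Ok →
      ((min R.a R.b : ℕ) : ℝ) ≤ p ^ (-(1 / 2) - 4 * δ) → q p Λ (isp R) ≤ Wf δ p R.a R.b := by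
    intro s
    induction s using Nat.strong_induction_on with
    | _ s ih =>
      intro R hs hR hmin
      obtain ⟨t1, t2⟩ := htriv p hp hp1' Λ R hR
      by_cases h3 : 3 ≤ R.sg
      · have hab : 3 ≤ R.a + R.b := h3
        rcases h1 p hp b1 R.a R.b hR.1 hR.2 hab hmin with h | h
        · refine le_trans ?_ h
          rcases le_total R.a R.b with h' | h'
          · rw [min_eq_left h', max_eq_right h']; exact t1
          · rw [min_eq_right h', max_eq_left h']; exact t2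
        · refine le_trans ?_ h
          refine hbrec p hp hp1' Λ R hR h3 (Wf δ p) (fun a b => Wf_nonneg hp a b) ?_
          intro R' hR' hle hne
          have hlt := hle.sg_lt hne
          have hd := hle.dims
          refine ih R'.sg (by omega) R' rfl hR' (le_trans ?_ hmin)
          exact_mod_cast (by omega : min R'.a R'.b ≤ min R.a R.b)
      · have hsg : R.a + R.b < 3 := not_le.1 h3
        have ha : R.a = 1 := by have := hR.1; have := hR.2; omega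
        have hb : R.b = 1 := by have := hR.1; have := hR.2; omega
        refine t1.trans (le_of_eq ?_)
        rw [ha, hb]
        unfold g Wf
        have : p ^ (10 * δ) * p ^ ((1 / 2 - 5 * δ) * (((1 : ℕ) : ℝ) + ((1 : ℕ) : ℝ))) = p := by
          rw [← Real.rpow_add hp]
          conv_rhs => rw [← Real.rpow_one p]
          congr 1
          push_cast
          ring
        rw [this]
        simp
  intro R hR hmin
  refine (key R.sg R rfl hR hmin).trans ?_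
  unfold Wf
  have ha : (1 : ℝ) ≤ (R.a : ℝ) := by exact_mod_cast hR.1
  have hb : (1 : ℝ) ≤ (R.b : ℝ) := by exact_mod_cast hR.2
  have h2 : (1 : ℝ) ≤ (R.a : ℝ) ^ 2 * (R.b : ℝ) ^ 2 :=
    one_le_mul_of_one_le_of_one_le (one_le_pow₀ ha) (one_le_pow₀ hb)
  have h3 : p ^ (10 * δ) ≤ 1 := Real.rpow_le_one hp.le hp1'.le (by linarith)
  rw [div_le_iff₀ (by linarith)]
  have h4 : 0 < p ^ ((1 / 2 - 5 * δ) * ((R.a : ℝ) + R.b)) := by positivity
  calc p ^ (10 * δ) * p ^ ((1 / 2 - 5 * δ) * ((R.a : ℝ) + R.b))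
      ≤ 1 * p ^ ((1 / 2 - 5 * δ) * ((R.a : ℝ) + R.b)) := by gcongr
    _ = p ^ ((1 / 2 - 5 * δ) * ((R.a : ℝ) + R.b)) * 1 := by ring
    _ ≤ _ := by gcongr

end Pool.Agent.J6H44.BP
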