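import Pool.Agent.J6H44.BP.Stm

/-!
# Module AN1A
-/

set_option autoImplicit false

open Finset

namespace Pool.Agent.J6H44.BP

theorem an1a : S_AN1A := by
  intro δ hδ hδ1
  refine ⟨Real.exp (-(8 / δ)), Real.exp_pos _, fun p hp hp0 m M hm hmN hM => ?_⟩
  have hlog : Real.log p ≤ -(8 / δ) := by
    have := Real.log_le_log hp hp0
    rwa [Real.log_exp] at this
  have h8 : (800 : ℝ) ≤ 8 / δ := by
    rw [le_div_iff₀ hδ]; linarith
  have hp1 : p ≤ 1 := by
    have h1 : Real.log p < 0 := by linarith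
    exact ((Real.log_neg_iff hp).1 h1).le
  have hm' : (1 : ℝ) ≤ m := by exact_mod_cast hm
  have h4 : (400 : ℝ) ≤ 4 / δ := by
    rw [le_div_iff₀ hδ]; linarith
  have hM1 : (400 : ℝ) ≤ M := by
    have : (4 / δ) * 1 ≤ 4 / δ * m := mul_le_mul_of_nonneg_left hm' (by linarith)
    linarith
  have hmM : (m : ℝ) ≤ δ * M / 4 := by
    rw [div_mul_eq_mul_div, div_le_iff₀ hδ] at hM
    linarith
  have hM0 : (0 : ℝ) < M := by linarith
  have hg0 : 0 ≤ g p m := by
    unfold g
    have : (1 - p) ^ m ≤ 1 := pow_le_one₀ (by linarith) (by linarith)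
    linarith
  have hg1 : g p m ≤ p * m := by
    unfold g
    have h := one_add_mul_le_pow (show (-2 : ℝ) ≤ -p by linarith) m
    have h2 : 1 + -p = 1 - p := by ring
    rw [h2] at h
    linarith
  have hg2 : g p m ≤ Real.exp (Real.log p * (1 / 2 - 4 * δ)) := by
    refine hg1.trans ?_
    have h1 : p * m ≤ p * p ^ (-(1 / 2) - 4 * δ) := mul_le_mul_of_nonneg_left hmN hp.le
    refine h1.trans (le_of_eq ?_)
    rw [Real.rpow_def_of_pos hp]
    nth_rewrite 1 [← Real.exp_log hp]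
    rw [← Real.exp_add]
    congr 1
    ring
  have hg3 : g p m ^ M ≤ Real.exp (Real.log p * (1 / 2 - 4 * δ) * M) := by
    refine (pow_le_pow_left₀ hg0 hg2 M).trans (le_of_eq ?_)
    rw [← Real.exp_nat_mul]
    congr 1
    ring
  refine hg3.trans ?_
  unfold Wf
  rw [le_div_iff₀ (by positivity), Real.rpow_def_of_pos hp, Real.rpow_def_of_pos hp,
    ← Real.exp_add]
  have hmM' : (m : ℝ) ≤ M := by nlinarith
  have h5 : (m : ℝ) ^ 2 * (M : ℝ) ^ 2 ≤ Real.exp (4 * M) := by
    have h6 : (M : ℝ) ≤ Real.exp M := by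
      have := Real.add_one_le_exp (M : ℝ)
      linarith
    calc (m : ℝ) ^ 2 * (M : ℝ) ^ 2 ≤ (M : ℝ) ^ 2 * (M : ℝ) ^ 2 := by gcongr
      _ = (M : ℝ) ^ 4 := by ring
      _ ≤ (Real.exp M) ^ 4 := by gcongr
      _ = Real.exp (4 * M) := by rw [← Real.exp_nat_mul]; push_cast; ring_nf
  calc Real.exp (Real.log p * (1 / 2 - 4 * δ) * M) * ((m : ℝ) ^ 2 * (M : ℝ) ^ 2)
      ≤ Real.exp (Real.log p * (1 / 2 - 4 * δ) * M) * Real.exp (4 * M) := by gcongr
    _ = Real.exp (Real.log p * (1 / 2 - 4 * δ) * M + 4 * M) := by rw [Real.exp_add]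
    _ ≤ _ := by
      apply Real.exp_le_exp.2
      -- the difference of the exponents
      have h7 : 10 * δ + (1 / 2 - 5 * δ) * (m + M) + δ * M / 2 ≤ (1 / 2 - 4 * δ) * M := by
        have h8 : (1 / 2 - 5 * δ) * m ≤ (1 / 2) * m := by nlinarith
        nlinarith
      have h9 : Real.log p * ((1 / 2 - 4 * δ) * M) ≤
          Real.log p * (10 * δ + (1 / 2 - 5 * δ) * (m + M) + δ * M / 2) :=
        mul_le_mul_of_nonpos_left h7 (by linarith)
      have h10 : Real.log p * (δ * M / 2) ≤ -(8 / δ) * (δ * M / 2) :=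
        mul_le_mul_of_nonneg_right hlog (by positivity)
      have h11 : -(8 / δ) * (δ * M / 2) = -(4 * M) := by
        field_simp
        ring
      nlinarith

end Pool.Agent.J6H44.BP
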