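import Pool.Agent.J6H44.BP.Stm

/-!
# Module AN1B (helper13)
-/

set_option autoImplicit false

open Finset

namespace Pool.Agent.J6H44.BP

namespace AN1Baux

lemma geo {y : ℝ} (hy0 : 0 ≤ y) (hy : y ≤ 1 / 4) (b : ℕ) :
    ∑ b1 ∈ Finset.Ico 1 b, y ^ (b - b1) ≤ 1 / 3 := by
  induction b with
  | zero => simp
  | succ b ih =>
    rcases Nat.eq_zero_or_pos b with h0 | hb
    · subst h0
      simp
    · rw [Finset.sum_Ico_succ_top hb]
      have h1 : ∑ b1 ∈ Finset.Ico 1 b, y ^ (b + 1 - b1) = y * ∑ b1 ∈ Finset.Ico 1 b, y ^ (b - b1) := by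
        rw [Finset.mul_sum]
        refine Finset.sum_congr rfl fun b1 hb1 => ?_
        rw [Finset.mem_Ico] at hb1
        rw [show b + 1 - b1 = (b - b1) + 1 by omega, pow_succ]
        ring
      rw [h1, show b + 1 - b = 1 by omega, pow_one]
      have h2 : y * ∑ b1 ∈ Finset.Ico 1 b, y ^ (b - b1) ≤ y * (1 / 3) :=
        mul_le_mul_of_nonneg_left ih hy0
      linarith

lemma g_le {p : ℝ} (hp0 : 0 < p) (hp1 : p ≤ 1) (k : ℕ) : g p k ≤ p * k := by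
  unfold g
  have h := one_add_mul_le_pow (a := -p) (by linarith) k
  rw [show (1 : ℝ) + -p = 1 - p by ring] at h
  linarith

lemma g_nonneg {p : ℝ} (hp0 : 0 < p) (hp1 : p ≤ 1) (k : ℕ) : 0 ≤ g p k := by
  unfold g
  have := pow_le_one₀ (n := k) (show (0 : ℝ) ≤ 1 - p by linarith) (by linarith)
  linarith

lemma cube_le (k : ℕ) : ((k : ℝ) + 1) ^ 3 ≤ 8 ^ k := by
  have h1 : (k : ℝ) + 1 ≤ 2 ^ k := by
    have : k + 1 ≤ 2 ^ k := Nat.lt_two_pow_self
    exact_mod_cast this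
  calc ((k : ℝ) + 1) ^ 3 ≤ (2 ^ k) ^ 3 := pow_le_pow_left₀ (by positivity) h1 3
    _ = 8 ^ k := by
      rw [← pow_mul, mul_comm, pow_mul]
      norm_num

end AN1Baux

open AN1Baux

theorem an1b : S_AN1B := by
  intro δ hδ hδ1
  obtain ⟨c, hc0, hc1, hc2⟩ : ∃ c : ℝ, 0 < c ∧ c ≤ δ / 4 ∧ c ≤ 1 / 32 :=
    ⟨min (δ / 4) (1 / 32), by positivity, min_le_left _ _, min_le_right _ _⟩
  refine ⟨c ^ (2 / δ), Real.rpow_pos_of_pos hc0 _, ?_⟩
  intro p hp hpc a b ha hb hab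
  obtain ⟨x, hx⟩ : ∃ x : ℝ, x = p ^ (δ / 2) := ⟨_, rfl⟩
  have hx0 : 0 < x := by rw [hx]; exact Real.rpow_pos_of_pos hp _
  have hxc : x ≤ c := by
    rw [hx]
    calc p ^ (δ / 2) ≤ (c ^ (2 / δ)) ^ (δ / 2) := Real.rpow_le_rpow hp.le hpc (by positivity)
      _ = c := by
        rw [← Real.rpow_mul hc0.le]
        have : 2 / δ * (δ / 2) = 1 := by field_simp
        rw [this, Real.rpow_one]
  have hp1 : p ≤ 1 := by
    refine hpc.trans ?_
    exact Real.rpow_le_one hc0.le (by linarith) (by positivity)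
  obtain ⟨l, hl⟩ : ∃ l : ℝ, l = p ^ (1 / 2 - 5 * δ) := ⟨_, rfl⟩
  have hl0 : 0 < l := by rw [hl]; exact Real.rpow_pos_of_pos hp _
  have ha0 : (1 : ℝ) ≤ a := by exact_mod_cast ha
  have hb0 : (1 : ℝ) ≤ b := by exact_mod_cast hb
  have hg : g p a ≤ l * x := by
    refine (g_le hp hp1 a).trans ?_
    calc p * (a : ℝ) ≤ p * (4 / δ * p ^ (-(1 / 2) - 4 * δ)) := mul_le_mul_of_nonneg_left hab hp.le
      _ = 4 / δ * (p ^ (1 : ℝ) * p ^ (-(1 / 2) - 4 * δ)) := by rw [Real.rpow_one]; ring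
      _ = 4 / δ * (l * (x * x)) := by
        rw [hl, hx, ← Real.rpow_add hp, ← Real.rpow_add hp, ← Real.rpow_add hp]
        congr 2
        ring
      _ = l * x * (4 / δ * x) := by ring
      _ ≤ l * x * 1 := by
        apply mul_le_mul_of_nonneg_left _ (by positivity)
        have : x ≤ δ / 4 := hxc.trans hc1
        calc 4 / δ * x ≤ 4 / δ * (δ / 4) := mul_le_mul_of_nonneg_left this (by positivity)
          _ = 1 := by field_simp
      _ = l * x := mul_one _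
  have hterm : ∀ b1 ∈ Finset.Ico 1 b, ((b - b1 + 1 : ℕ) : ℝ) * Wf δ p a b1 * g p a ^ (b - b1) ≤
      Wf δ p a b * (8 * x) ^ (b - b1) := by
    intro b1 hb1
    rw [Finset.mem_Ico] at hb1
    obtain ⟨k, hk⟩ : ∃ k, k = b - b1 := ⟨_, rfl⟩
    rw [← hk]
    have hbk : b = b1 + k := by omega
    have hb10 : (1 : ℝ) ≤ b1 := by exact_mod_cast hb1.1
    have hbR : (b : ℝ) = b1 + k := by rw [hbk]; push_cast; ring
    have hpow : g p a ^ k ≤ (l * x) ^ k := pow_le_pow_left₀ (g_nonneg hp hp1 a) hg k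
    have hA : 0 < p ^ (10 * δ) := Real.rpow_pos_of_pos hp _
    have hL : 0 < p ^ ((1 / 2 - 5 * δ) * ((a : ℝ) + b1)) := Real.rpow_pos_of_pos hp _
    have hsplit : p ^ ((1 / 2 - 5 * δ) * ((a : ℝ) + b)) =
        p ^ ((1 / 2 - 5 * δ) * ((a : ℝ) + b1)) * l ^ k := by
      rw [hl, ← Real.rpow_natCast, ← Real.rpow_mul hp.le, ← Real.rpow_add hp]
      congr 1
      rw [hbR]
      ring
    have hcomb : ((k : ℝ) + 1) / (b1 : ℝ) ^ 2 ≤ 8 ^ k / (b : ℝ) ^ 2 := by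
      rw [div_le_div_iff₀ (by positivity) (by positivity)]
      have h1 : (b : ℝ) ≤ b1 * (k + 1) := by
        rw [hbR]
        have : (0 : ℝ) ≤ k := Nat.cast_nonneg _
        nlinarith
      have h2 : (b : ℝ) ^ 2 ≤ (b1 * (k + 1)) ^ 2 := pow_le_pow_left₀ (by positivity) h1 2
      have h3 := cube_le k
      calc ((k : ℝ) + 1) * (b : ℝ) ^ 2 ≤ ((k : ℝ) + 1) * (b1 * (k + 1)) ^ 2 :=
            mul_le_mul_of_nonneg_left h2 (by positivity)
        _ = ((k : ℝ) + 1) ^ 3 * (b1 : ℝ) ^ 2 := by ring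
        _ ≤ 8 ^ k * (b1 : ℝ) ^ 2 := mul_le_mul_of_nonneg_right h3 (by positivity)
    have hc' : ((k + 1 : ℕ) : ℝ) = (k : ℝ) + 1 := by push_cast; ring
    rw [hc']
    unfold Wf
    rw [hsplit]
    set A := p ^ (10 * δ) with hAd
    set L1 := p ^ ((1 / 2 - 5 * δ) * ((a : ℝ) + b1)) with hL1
    calc ((k : ℝ) + 1) * (A * L1 / ((a : ℝ) ^ 2 * (b1 : ℝ) ^ 2)) * g p a ^ k
        ≤ ((k : ℝ) + 1) * (A * L1 / ((a : ℝ) ^ 2 * (b1 : ℝ) ^ 2)) * (l * x) ^ k :=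
          mul_le_mul_of_nonneg_left hpow (by positivity)
      _ = (A * L1 * l ^ k / (a : ℝ) ^ 2 * x ^ k) * (((k : ℝ) + 1) / (b1 : ℝ) ^ 2) := by
          rw [mul_pow]
          field_simp
      _ ≤ (A * L1 * l ^ k / (a : ℝ) ^ 2 * x ^ k) * (8 ^ k / (b : ℝ) ^ 2) :=
          mul_le_mul_of_nonneg_left hcomb (by positivity)
      _ = A * (L1 * l ^ k) / ((a : ℝ) ^ 2 * (b : ℝ) ^ 2) * (8 * x) ^ k := by
          rw [mul_pow]
          field_simp
  refine (Finset.sum_le_sum hterm).trans ?_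
  rw [← Finset.mul_sum]
  have hW : 0 ≤ Wf δ p a b := by
    unfold Wf
    have h1 : 0 < p ^ (10 * δ) := Real.rpow_pos_of_pos hp _
    have h2 : 0 < p ^ ((1 / 2 - 5 * δ) * ((a : ℝ) + b)) := Real.rpow_pos_of_pos hp _
    positivity
  have h8 : 8 * x ≤ 1 / 4 := by linarith
  have := mul_le_mul_of_nonneg_left (geo (by positivity) h8 b) hW
  linarith

end Pool.Agent.J6H44.BP
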