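import Pool.Agent.J6H44.BP.Stm

/-!
# AN1C: the double sum of the base recursion
-/

set_option autoImplicit false

open Finset

namespace Pool.Agent.J6H44.BP

namespace PAN1C

theorem sq_sum (n : ℕ) : ∑ k ∈ Finset.Ico 1 (n + 3), 1 / (k : ℝ) ^ 2 ≤ 7 / 4 - 1 / ((n : ℝ) + 2) := by
  induction n with
  | zero =>
    have : Finset.Ico 1 (0 + 3) = {1, 2} := by decide
    rw [this, Finset.sum_pair (by decide)]
    norm_num
  | succ n ih =>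
    rw [show n + 1 + 3 = (n + 3) + 1 by ring, Finset.sum_Ico_succ_top (by omega)]
    have h : 1 / ((n + 3 : ℕ) : ℝ) ^ 2 ≤ 1 / ((n : ℝ) + 2) - 1 / ((n : ℝ) + 3) := by
      have h2 : (0 : ℝ) < (n : ℝ) + 2 := by positivity
      have h3 : (0 : ℝ) < (n : ℝ) + 3 := by positivity
      push_cast
      rw [div_sub_div _ _ h2.ne' h3.ne', div_le_div_iff₀ (by positivity) (by positivity)]
      nlinarith
    have e : ((n + 1 : ℕ) : ℝ) + 2 = (n : ℝ) + 3 := by push_cast; ring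
    rw [e]
    linarith

theorem sq_sum' (a : ℕ) : ∑ k ∈ Finset.Ico 1 a, 1 / (k : ℝ) ^ 2 ≤ 7 / 4 := by
  refine (Finset.sum_le_sum_of_subset_of_nonneg (t := Finset.Ico 1 (a + 3))
    (Finset.Ico_subset_Ico le_rfl (by omega)) (fun k _ _ => by positivity)).trans
    ((sq_sum a).trans ?_)
  have : (0 : ℝ) ≤ 1 / ((a : ℝ) + 2) := by positivity
  linarith

theorem inner {l : ℝ} (h0 : 0 < l) (h1 : l ≤ 1 / 2) (a a1 : ℕ) (h : a1 ≤ a) :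
    ∑ a2 ∈ (Finset.Ico 1 a).filter (fun a2 => a ≤ a1 + a2), l ^ (a1 + a2) ≤ 2 * l ^ a := by
  have hs : (Finset.Ico 1 a).filter (fun a2 => a ≤ a1 + a2) ⊆ Finset.Ico (a - a1) a := by
    intro x hx
    rw [Finset.mem_filter, Finset.mem_Ico] at hx
    rw [Finset.mem_Ico]
    omega
  refine (Finset.sum_le_sum_of_subset_of_nonneg hs (fun k _ _ => by positivity)).trans ?_
  rw [Finset.sum_Ico_eq_sum_range]
  have e : ∀ k ∈ Finset.range (a - (a - a1)), l ^ (a1 + (a - a1 + k)) ≤ l ^ a * (1 / 2) ^ k := by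
    intro k _
    rw [show a1 + (a - a1 + k) = a + k by omega, pow_add]
    exact mul_le_mul_of_nonneg_left (pow_le_pow_left₀ h0.le h1 k) (by positivity)
  refine (Finset.sum_le_sum e).trans ?_
  rw [← Finset.mul_sum]
  have := sum_geometric_two_le (a - (a - a1))
  have hp : 0 < l ^ a := by positivity
  nlinarith

end PAN1C

open PAN1C in
theorem an1c : S_AN1C := by
  intro l h0 h1 a ha
  have haR : (0 : ℝ) < (a : ℝ) := by exact_mod_cast ha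
  -- pointwise bound
  have key : ∀ a1 ∈ Finset.Ico 1 a, ∀ a2 ∈ (Finset.Ico 1 a).filter (fun a2 => a ≤ a1 + a2),
      l ^ (a1 + a2) / ((a1 : ℝ) ^ 2 * (a2 : ℝ) ^ 2) ≤
        2 / (a : ℝ) ^ 2 * (1 / (a1 : ℝ) ^ 2 * l ^ (a1 + a2) + 1 / (a2 : ℝ) ^ 2 * l ^ (a1 + a2)) := by
    intro a1 m1 a2 m2
    rw [Finset.mem_Ico] at m1
    rw [Finset.mem_filter, Finset.mem_Ico] at m2
    have p1 : (0 : ℝ) < a1 := by exact_mod_cast m1.1
    have p2 : (0 : ℝ) < a2 := by exact_mod_cast m2.1.1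
    have hsum : (a : ℝ) ≤ (a1 : ℝ) + a2 := by exact_mod_cast m2.2
    have hl : 0 < l ^ (a1 + a2) := by positivity
    have hb : 1 / ((a1 : ℝ) ^ 2 * (a2 : ℝ) ^ 2) ≤
        2 / (a : ℝ) ^ 2 * (1 / (a1 : ℝ) ^ 2 + 1 / (a2 : ℝ) ^ 2) := by
      have e : 2 / (a : ℝ) ^ 2 * (1 / (a1 : ℝ) ^ 2 + 1 / (a2 : ℝ) ^ 2) =
          (2 * ((a1 : ℝ) ^ 2 + (a2 : ℝ) ^ 2)) / ((a : ℝ) ^ 2 * ((a1 : ℝ) ^ 2 * (a2 : ℝ) ^ 2)) := by
        field_simp
        ring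
      rw [e, div_le_div_iff₀ (by positivity) (by positivity)]
      have h3 : (a : ℝ) ^ 2 ≤ 2 * ((a1 : ℝ) ^ 2 + (a2 : ℝ) ^ 2) := by
        nlinarith [sq_nonneg ((a1 : ℝ) - a2)]
      have h4 : 0 < (a1 : ℝ) ^ 2 * (a2 : ℝ) ^ 2 := by positivity
      nlinarith
    calc l ^ (a1 + a2) / ((a1 : ℝ) ^ 2 * (a2 : ℝ) ^ 2)
        = l ^ (a1 + a2) * (1 / ((a1 : ℝ) ^ 2 * (a2 : ℝ) ^ 2)) := by ring
      _ ≤ l ^ (a1 + a2) * (2 / (a : ℝ) ^ 2 * (1 / (a1 : ℝ) ^ 2 + 1 / (a2 : ℝ) ^ 2)) :=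
          mul_le_mul_of_nonneg_left hb hl.le
      _ = _ := by ring
  have s1 : ∑ a1 ∈ Finset.Ico 1 a, ∑ a2 ∈ (Finset.Ico 1 a).filter (fun a2 => a ≤ a1 + a2),
      1 / (a1 : ℝ) ^ 2 * l ^ (a1 + a2) ≤ 7 / 4 * (2 * l ^ a) := by
    have : ∀ a1 ∈ Finset.Ico 1 a, ∑ a2 ∈ (Finset.Ico 1 a).filter (fun a2 => a ≤ a1 + a2),
        1 / (a1 : ℝ) ^ 2 * l ^ (a1 + a2) ≤ 1 / (a1 : ℝ) ^ 2 * (2 * l ^ a) := by
      intro a1 m1
      rw [Finset.mem_Ico] at m1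
      rw [← Finset.mul_sum]
      exact mul_le_mul_of_nonneg_left (inner h0 h1 a a1 m1.2.le) (by positivity)
    refine (Finset.sum_le_sum this).trans ?_
    rw [← Finset.sum_mul]
    exact mul_le_mul_of_nonneg_right (sq_sum' a) (by positivity)
  have s2 : ∑ a1 ∈ Finset.Ico 1 a, ∑ a2 ∈ (Finset.Ico 1 a).filter (fun a2 => a ≤ a1 + a2),
      1 / (a2 : ℝ) ^ 2 * l ^ (a1 + a2) ≤ 7 / 4 * (2 * l ^ a) := by
    refine le_of_eq_of_le ?_ s1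
    simp only [Finset.sum_filter]
    rw [Finset.sum_comm]
    refine Finset.sum_congr rfl (fun x _ => Finset.sum_congr rfl (fun y _ => ?_))
    rw [add_comm y x]
  calc _ ≤ ∑ a1 ∈ Finset.Ico 1 a, ∑ a2 ∈ (Finset.Ico 1 a).filter (fun a2 => a ≤ a1 + a2),
        2 / (a : ℝ) ^ 2 * (1 / (a1 : ℝ) ^ 2 * l ^ (a1 + a2) + 1 / (a2 : ℝ) ^ 2 * l ^ (a1 + a2)) :=
        Finset.sum_le_sum (fun a1 m1 => Finset.sum_le_sum (fun a2 m2 => key a1 m1 a2 m2))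
    _ = 2 / (a : ℝ) ^ 2 * ((∑ a1 ∈ Finset.Ico 1 a,
          ∑ a2 ∈ (Finset.Ico 1 a).filter (fun a2 => a ≤ a1 + a2),
            1 / (a1 : ℝ) ^ 2 * l ^ (a1 + a2)) + ∑ a1 ∈ Finset.Ico 1 a,
          ∑ a2 ∈ (Finset.Ico 1 a).filter (fun a2 => a ≤ a1 + a2),
            1 / (a2 : ℝ) ^ 2 * l ^ (a1 + a2)) := by
        simp only [Finset.mul_sum, ← Finset.sum_add_distrib, mul_add]
    _ ≤ 2 / (a : ℝ) ^ 2 * (7 / 4 * (2 * l ^ a) + 7 / 4 * (2 * l ^ a)) :=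
        mul_le_mul_of_nonneg_left (add_le_add s1 s2) (by positivity)
    _ = 14 * l ^ a / (a : ℝ) ^ 2 := by ring

end Pool.Agent.J6H44.BP
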