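import Pool.Agent.J6H44.BP.Stm

/-!
# Module ASM: the frozen statement from the bounds
-/

set_option autoImplicit false

open Finset Filter

namespace Pool.Agent.J6H44.BP

/-- the infimum of the frozen statement -/
noncomputable def pc (n : ℕ) : ℝ := sInf {p : ℝ | 0 ≤ p ∧ p ≤ 1 ∧ (1 : ℝ) / 2 ≤ Pf n p}

theorem pc_bdd (n : ℕ) : BddBelow {p : ℝ | 0 ≤ p ∧ p ≤ 1 ∧ (1 : ℝ) / 2 ≤ Pf n p} :=
  ⟨0, fun _ h => h.1⟩

theorem asm_upper (hup : S_UP) (hbr : S_BRIDGE) (hu : S_ASMU) : ∀ᶠ n : ℕ in atTop,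
    {p : ℝ | 0 ≤ p ∧ p ≤ 1 ∧ (1 : ℝ) / 2 ≤ Pf n p}.Nonempty ∧
    Real.log n ^ (-(3 / 2 : ℝ)) / 20 ≤ Real.pi ^ 2 / (6 * Real.log n) - pc n := by
  obtain ⟨p0, hp0, hU⟩ := hup
  filter_upwards [hu (min p0 1) (lt_min hp0 one_pos), eventually_ge_atTop 1] with n hn h1
  obtain ⟨h2, h3, h4, h5⟩ := hn
  have h6 := hU _ h2 (h3.trans (min_le_left _ _)) n h4 h5
  have h7 := h3.trans (min_le_right _ _)
  rw [← hbr n _ h1 h2.le h7] at h6
  have hmem : Real.pi ^ 2 / (6 * Real.log n) - Real.log n ^ (-(3 / 2 : ℝ)) / 20 ∈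
      {p : ℝ | 0 ≤ p ∧ p ≤ 1 ∧ (1 : ℝ) / 2 ≤ Pf n p} := ⟨h2.le, h7, h6⟩
  refine ⟨⟨_, hmem⟩, ?_⟩
  have := csInf_le (pc_bdd n) hmem
  unfold pc
  linarith

theorem asm_lower (hlow : S_LOW) (hup : S_UP) (hbr : S_BRIDGE) (hu : S_ASMU) (hl : S_ASML)
    (δ' : ℝ) (h0 : 0 < δ') (h1 : δ' ≤ 1 / 4) : ∀ᶠ n : ℕ in atTop,
    Real.pi ^ 2 / (6 * Real.log n) - pc n ≤ Real.log n ^ (-(3 / 2 : ℝ) + δ') := by
  obtain ⟨δ, hδ⟩ : ∃ δ, δ = min (1 / 100) (δ' / 20) := ⟨_, rfl⟩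
  have hδ0 : 0 < δ := by rw [hδ]; exact lt_min (by norm_num) (by positivity)
  have hδ1 : δ ≤ 1 / 100 := by rw [hδ]; exact min_le_left _ _
  have hδ2 : 20 * δ ≤ δ' := by
    have : δ ≤ δ' / 20 := by rw [hδ]; exact min_le_right _ _
    linarith
  obtain ⟨p0, hp0, hL⟩ := hlow δ hδ0 hδ1
  filter_upwards [hl δ δ' hδ0 hδ1 hδ2 h1 (min p0 1) (lt_min hp0 one_pos), eventually_ge_atTop 1,
    asm_upper hup hbr hu] with n hn hn1 hne
  obtain ⟨h2, h3, h4, h5⟩ := hn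
  have h6 := hL _ h2 (h3.trans (min_le_left _ _)) n h4 h5
    (Finset.range n ×ˢ Finset.range n)
  have h7 := h3.trans (min_le_right _ _)
  have h8 : Real.pi ^ 2 / (6 * Real.log n) - Real.log n ^ (-(3 / 2 : ℝ) + δ') ≤ pc n := by
    refine le_csInf hne.1 fun p hp => ?_
    obtain ⟨a1, a2, a3⟩ := hp
    by_contra hc
    push Not at hc
    rw [hbr n p hn1 a1 a2] at a3
    have := q_mono_p a1 hc.le h7 (Finset.range n ×ˢ Finset.range n) _ (isp_up ⟨0, 0, n, n⟩)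
    linarith
  linarith

theorem asm (hlow : S_LOW) (hup : S_UP) (hbr : S_BRIDGE) (hu : S_ASMU) (hl : S_ASML) : S_ASM := by
  have hlog : Tendsto (fun n : ℕ => Real.log n) atTop atTop :=
    Real.tendsto_log_atTop.comp tendsto_natCast_atTop_atTop
  have hloglog : Tendsto (fun n : ℕ => Real.log (Real.log n)) atTop atTop :=
    Real.tendsto_log_atTop.comp hlog
  refine ⟨fun n => -Real.log (Real.pi ^ 2 / (6 * Real.log n) - pc n) / Real.log (Real.log n) -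
    3 / 2, ?_, ?_⟩
  · rw [Metric.tendsto_atTop']
    intro e he
    obtain ⟨d, hd⟩ : ∃ d, d = min (e / 2) (1 / 4) := ⟨_, rfl⟩
    have hd0 : 0 < d := by rw [hd]; exact lt_min (by positivity) (by norm_num)
    have hd1 : d ≤ 1 / 4 := by rw [hd]; exact min_le_right _ _
    have hd2 : d ≤ e / 2 := by rw [hd]; exact min_le_left _ _
    have hev := ((asm_lower hlow hup hbr hu hl d hd0 hd1).and (asm_upper hup hbr hu)).and
      ((hlog.eventually_gt_atTop 0).and ((hloglog.eventually_gt_atTop 0).and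
        (hloglog.eventually_gt_atTop (Real.log 20 / e))))
    obtain ⟨n0, hn0⟩ := eventually_atTop.1 hev
    refine ⟨n0, fun n hn => ?_⟩
    obtain ⟨⟨h1, -, h2⟩, h3, h4, h5⟩ := hn0 n hn.le
    obtain ⟨ℓ, hℓ⟩ : ∃ ℓ, ℓ = Real.log n := ⟨_, rfl⟩
    obtain ⟨D, hD⟩ : ∃ D, D = Real.pi ^ 2 / (6 * ℓ) - pc n := ⟨_, rfl⟩
    rw [← hℓ] at h1 h2 h3 h4 h5
    rw [← hD] at h1 h2
    rw [← hℓ, ← hD, Real.dist_eq, sub_zero]
    have hp : 0 < ℓ ^ (-(3 / 2 : ℝ)) := Real.rpow_pos_of_pos h3 _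
    have hD0 : 0 < D := lt_of_lt_of_le (by positivity) h2
    -- upper bound of `D`
    have k1 : Real.log D ≤ (-(3 / 2) + d) * Real.log ℓ := by
      have := Real.log_le_log hD0 h1
      rwa [Real.log_rpow h3] at this
    have k2 : -(3 / 2) * Real.log ℓ - Real.log 20 ≤ Real.log D := by
      have := Real.log_le_log (by positivity) h2
      rwa [Real.log_div hp.ne' (by norm_num), Real.log_rpow h3] at this
    have k3 : Real.log 20 < e * Real.log ℓ := by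
      have h5' := (div_lt_iff₀ he).1 h5
      linarith
    have h4' : 0 < Real.log ℓ := h4
    rw [abs_lt]
    constructor
    · have : (3 / 2 - d) ≤ -Real.log D / Real.log ℓ := by
        rw [le_div_iff₀ h4']
        linarith
      linarith
    · have : -Real.log D / Real.log ℓ < 3 / 2 + e := by
        rw [div_lt_iff₀ h4']
        linarith
      linarith
  · filter_upwards [asm_upper hup hbr hu, hlog.eventually_gt_atTop 0,
      hloglog.eventually_gt_atTop 0] with n h1 h3 h4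
    obtain ⟨ℓ, hℓ⟩ : ∃ ℓ, ℓ = Real.log n := ⟨_, rfl⟩
    obtain ⟨D, hD⟩ : ∃ D, D = Real.pi ^ 2 / (6 * ℓ) - pc n := ⟨_, rfl⟩
    have h2 := h1.2
    rw [← hℓ] at h2 h3 h4
    rw [← hD] at h2
    have hp : 0 < ℓ ^ (-(3 / 2 : ℝ)) := Real.rpow_pos_of_pos h3 _
    have hD0 : 0 < D := lt_of_lt_of_le (by positivity) h2
    rw [← hℓ, ← hD]
    have e1 : ℓ ^ ((3 : ℝ) / 2 + (-Real.log D / Real.log ℓ - 3 / 2)) = D⁻¹ := by
      have e2 : (3 : ℝ) / 2 + (-Real.log D / Real.log ℓ - 3 / 2) = -Real.log D / Real.log ℓ := by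
        ring
      rw [e2, Real.rpow_def_of_pos h3]
      have e3 : Real.log ℓ * (-Real.log D / Real.log ℓ) = -Real.log D := by
        field_simp
      rw [e3, Real.exp_neg, Real.exp_log hD0]
    have e4 : 1 / D⁻¹ = D := by rw [one_div, inv_inv]
    rw [e1, e4, hD]
    unfold pc
    ring

end Pool.Agent.J6H44.BP
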