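import Pool.Agent.J6H44.BP.Stm

/-!
# ASML: the lower value of `p`
-/

set_option autoImplicit false

open Finset

namespace Pool.Agent.J6H44.BP

theorem asml : S_ASML := by
  intro δ δ' hδ hδ1 hδ' hδ'1 p0 hp0
  have hpi1 : (9.8 : ℝ) < Real.pi ^ 2 := by
    have := Real.pi_gt_d2
    nlinarith
  have hpi2 : Real.pi ^ 2 < 10 := by
    have h1 := Real.pi_lt_d2
    have h2 := Real.pi_pos
    nlinarith
  have hlog : Filter.Tendsto (fun n : ℕ => Real.log n) Filter.atTop Filter.atTop :=
    Real.tendsto_log_atTop.comp tendsto_natCast_atTop_atTop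
  have hx : Filter.Tendsto (fun l : ℝ => l ^ (-(1 / 2 - δ'))) Filter.atTop (nhds 0) :=
    tendsto_rpow_neg_atTop (by linarith)
  have hev : ∀ᶠ l : ℝ in Filter.atTop, 2 ≤ l ∧ l ^ (-(1 / 2 - δ')) ≤ 1 / 2 ∧ 2 / p0 ≤ l ∧
      8 * l ^ 2 ≤ Real.exp l := by
    refine (Filter.eventually_ge_atTop 2).and ((hx.eventually_le_const (by norm_num)).and
      ((Filter.eventually_ge_atTop _).and ?_))
    have h1 := (Real.isLittleO_pow_exp_atTop (n := 2)).bound (show (0:ℝ) < 1 / 8 by norm_num)
    filter_upwards [h1] with l hl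
    rw [Real.norm_of_nonneg (by positivity), Real.norm_of_nonneg (Real.exp_pos l).le] at hl
    linarith
  filter_upwards [hlog.eventually hev, Filter.eventually_ge_atTop 1] with n hn hn1
  obtain ⟨h2, hxl, hp0l, hexp⟩ := hn
  have hn0 : (0:ℝ) < n := by exact_mod_cast hn1
  rw [Real.exp_log hn0] at hexp
  set l := Real.log n with hl
  have hl0 : 0 < l := by linarith
  set x := l ^ (-(1 / 2 - δ')) with hxd
  have hx0 : 0 < x := Real.rpow_pos_of_pos hl0 _
  have e1 : l ^ (-(3 / 2 : ℝ) + δ') = x / l := by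
    rw [hxd, eq_div_iff hl0.ne', ← Real.rpow_add_one hl0.ne']
    congr 1
    ring
  have e2 : l ^ (1 / 2 + δ') = x * l := by
    rw [hxd, ← Real.rpow_add_one hl0.ne']
    congr 1
    ring
  rw [e1]
  set P := Real.pi ^ 2 / (6 * l) - x / l with hP
  have eP : P * l = Real.pi ^ 2 / 6 - x := by
    rw [hP]
    field_simp
  have hP1 : 1 / l ≤ P := by
    rw [div_le_iff₀ hl0, eP]
    linarith
  have hP2 : P ≤ 2 / l := by
    rw [le_div_iff₀ hl0, eP]
    linarith
  have hP0 : 0 < P := lt_of_lt_of_le (by positivity) hP1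
  have hinv : 1 / P ≤ l := by
    rw [div_le_iff₀ hP0, mul_comm, eP]
    linarith
  have hPle1 : P ≤ 1 := hP2.trans (by rw [div_le_one hl0]; exact h2)
  refine ⟨hP0, ?_, ?_, ?_⟩
  · refine hP2.trans ?_
    rw [div_le_iff₀ hl0]
    rw [div_le_iff₀ hp0] at hp0l
    linarith
  · unfold LL
    rw [Nat.ceil_le]
    have h1 : Real.log (1 / P) ≤ l := by
      refine (Real.log_le_log (by positivity) hinv).trans ?_
      have := Real.log_le_sub_one_of_pos hl0
      linarith
    have h3 : 0 ≤ Real.log (1 / P) := by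
      apply Real.log_nonneg
      rw [le_div_iff₀ hP0, one_mul]
      exact hPle1
    have h4 : 8 / P ≤ 8 * l := by
      have : 8 / P = 8 * (1 / P) := by ring
      rw [this]
      linarith
    calc 8 / P * Real.log (1 / P) ≤ 8 * l * l := mul_le_mul h4 h1 h3 (by positivity)
      _ = 8 * l ^ 2 := by ring
      _ ≤ n := hexp
  · have h1 : P ^ (-(1 / 2) - 9 * δ) ≤ x * l := by
      have h3 : P ^ (-(1 / 2) - 9 * δ) ≤ (1 / l) ^ (-(1 / 2) - 9 * δ) :=
        Real.rpow_le_rpow_of_nonpos (by positivity) hP1 (by linarith)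
      refine h3.trans ?_
      rw [← e2, one_div, Real.inv_rpow hl0.le, ← Real.rpow_neg hl0.le]
      refine Real.rpow_le_rpow_of_exponent_le (by linarith) ?_
      linarith
    have h3 : 2 * l + x * l ≤ Real.pi ^ 2 / (3 * P) := by
      rw [le_div_iff₀ (by positivity)]
      have h4 : (2 * l + x * l) * (3 * P) = (2 + x) * 3 * (P * l) := by ring
      rw [h4, eP]
      have h5 : (2 + x) * 3 * (Real.pi ^ 2 / 6 - x) =
          Real.pi ^ 2 - x * (6 - Real.pi ^ 2 / 2) - 3 * x ^ 2 := by ring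
      rw [h5]
      have h6 : 0 ≤ x * (6 - Real.pi ^ 2 / 2) := mul_nonneg hx0.le (by linarith)
      have h7 : 0 ≤ 3 * x ^ 2 := by positivity
      linarith
    linarith

end Pool.Agent.J6H44.BP
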