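import Pool.Agent.J6H44.BP.Stm

/-!
# Module ASMU
-/

set_option autoImplicit false

open Finset

namespace Pool.Agent.J6H44.BP

namespace AsmU

theorem sq_rpow_half {s : ℝ} (hs : 0 < s) : (s ^ 2) ^ (-(1 / 2 : ℝ)) = s⁻¹ := by
  rw [← Real.rpow_natCast s 2, ← Real.rpow_mul hs.le]
  have : ((2 : ℕ) : ℝ) * (-(1 / 2 : ℝ)) = -1 := by norm_num
  rw [this, Real.rpow_neg hs.le, Real.rpow_one]

theorem sq_rpow_three {s : ℝ} (hs : 0 < s) : (s ^ 2) ^ (-(3 / 2 : ℝ)) = (s ^ 3)⁻¹ := by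
  rw [← Real.rpow_natCast s 2, ← Real.rpow_mul hs.le]
  have : ((2 : ℕ) : ℝ) * (-(3 / 2 : ℝ)) = -((3 : ℕ) : ℝ) := by norm_num
  rw [this, Real.rpow_neg hs.le, Real.rpow_natCast]

theorem core {p0 : ℝ} (hp0 : 0 < p0) {s : ℝ} (hs16 : 16 ≤ s) (hs : 2 / p0 ≤ s ^ 2) :
    0 < Real.pi ^ 2 / (6 * s ^ 2) - (s ^ 2) ^ (-(3 / 2 : ℝ)) / 20 ∧
    Real.pi ^ 2 / (6 * s ^ 2) - (s ^ 2) ^ (-(3 / 2 : ℝ)) / 20 ≤ p0 ∧
    Real.pi ^ 2 / (3 * (Real.pi ^ 2 / (6 * s ^ 2) - (s ^ 2) ^ (-(3 / 2 : ℝ)) / 20)) -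
      (3 / 10) * (Real.pi ^ 2 / (6 * s ^ 2) - (s ^ 2) ^ (-(3 / 2 : ℝ)) / 20) ^ (-(1 / 2 : ℝ))
        ≤ 2 * s ^ 2 ∧
    2 * s ^ 2 ≤
      (Real.pi ^ 2 / (6 * s ^ 2) - (s ^ 2) ^ (-(3 / 2 : ℝ)) / 20) ^ (-(3 / 2 : ℝ)) := by
  have hs0 : 0 < s := by linarith
  obtain ⟨c, hc⟩ : ∃ c, c = Real.pi ^ 2 / 6 := ⟨_, rfl⟩
  have hpi1 := Real.pi_gt_three
  have hpi2 := Real.pi_lt_d2
  have hc1 : 3 / 2 ≤ c := by rw [hc]; nlinarith
  have hc2 : c ≤ 2 := by rw [hc]; nlinarith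
  rw [sq_rpow_three hs0]
  have e1 : Real.pi ^ 2 / (6 * s ^ 2) = c / s ^ 2 := by rw [hc]; field_simp
  have e2 : Real.pi ^ 2 = 6 * c := by rw [hc]; ring
  rw [e1]
  obtain ⟨P, hP⟩ : ∃ P, P = c / s ^ 2 - (s ^ 3)⁻¹ / 20 := ⟨_, rfl⟩
  rw [← hP]
  have hP' : P = (c * s - 1 / 20) / s ^ 3 := by
    rw [hP]; field_simp
  have hcs : 0 < c * s - 1 / 20 := by nlinarith
  have hP0 : 0 < P := by rw [hP']; positivity
  have hPle : P ≤ c / s ^ 2 := by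
    rw [hP]
    have : 0 ≤ (s ^ 3)⁻¹ / 20 := by positivity
    linarith
  have hPle2 : P ≤ (2 / s) ^ 2 := by
    refine hPle.trans ?_
    rw [div_pow]
    gcongr
    linarith
  have h2s : 0 < 2 / s := by positivity
  have g1 : s / 2 ≤ P ^ (-(1 / 2 : ℝ)) := by
    have := Real.rpow_le_rpow_of_nonpos hP0 hPle2 (show (-(1 / 2 : ℝ)) ≤ 0 by norm_num)
    rw [sq_rpow_half h2s, inv_div] at this
    exact this
  have g2 : (s / 2) ^ 3 ≤ P ^ (-(3 / 2 : ℝ)) := by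
    have := Real.rpow_le_rpow_of_nonpos hP0 hPle2 (show (-(3 / 2 : ℝ)) ≤ 0 by norm_num)
    rw [sq_rpow_three h2s, ← inv_pow, inv_div] at this
    exact this
  refine ⟨hP0, ?_, ?_, ?_⟩
  · refine hPle.trans ?_
    rw [div_le_iff₀ (by positivity)]
    rw [div_le_iff₀ hp0] at hs
    linarith
  · have h1 : Real.pi ^ 2 / (3 * P) ≤ 2 * s ^ 2 + 3 / 20 * s := by
      rw [e2, div_le_iff₀ (by positivity), hP']
      have h2 : (2 * s ^ 2 + 3 / 20 * s) * (3 * ((c * s - 1 / 20) / s ^ 3)) =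
          6 * c + (3 * ((3 / 20) * (c * s - 1 / 20) - (1 / 10) * s)) / s ^ 2 := by
        field_simp
        ring
      rw [h2]
      have h3 : 0 ≤ (3 * ((3 / 20) * (c * s - 1 / 20) - (1 / 10) * s)) / s ^ 2 := by
        apply div_nonneg _ (by positivity)
        nlinarith
      linarith
    linarith
  · refine le_trans ?_ g2
    nlinarith [mul_pos hs0 hs0]

end AsmU

theorem asmu : S_ASMU := by
  intro p0 hp0
  have h1 : Filter.Tendsto (fun n : ℕ => Real.log n) Filter.atTop Filter.atTop :=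
    Real.tendsto_log_atTop.comp tendsto_natCast_atTop_atTop
  filter_upwards [h1.eventually_ge_atTop (16 ^ 2), h1.eventually_ge_atTop (2 / p0)] with n hn hn2
  obtain ⟨s, hs⟩ : ∃ s, s = √(Real.log n) := ⟨_, rfl⟩
  have hl : Real.log n = s ^ 2 := by
    rw [hs, Real.sq_sqrt (by linarith)]
  have hs16 : 16 ≤ s := by
    rw [hs]
    exact Real.le_sqrt_of_sq_le hn
  rw [hl] at hn2 ⊢
  exact AsmU.core hp0 hs16 hn2

end Pool.Agent.J6H44.BP
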