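import Pool.Agent.J6H44.BP.Stm

/-! # BREC: the base recursion -/

set_option autoImplicit false

open Finset

namespace Pool.Agent.J6H44.BP

namespace PBREC

lemma q_or {α : Type*} [DecidableEq α] {p : ℝ} (h0 : 0 ≤ p) (h1 : p ≤ 1) (Λ : Finset α)
    {E A B : Set (Finset α)} (h : ∀ S ∈ E, S ∈ A ∨ S ∈ B) : q p Λ E ≤ q p Λ A + q p Λ B := by
  classical
  unfold q
  rw [← Finset.sum_add_distrib]
  refine Finset.sum_le_sum fun S _ => ?_
  have hw := wt_nonneg h0 h1 Λ S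
  by_cases hE : S ∈ E
  · rw [if_pos hE]
    rcases h S hE with hA | hB
    · rw [if_pos hA]
      split_ifs <;> linarith
    · rw [if_pos hB]
      split_ifs <;> linarith
  · rw [if_neg hE]
    split_ifs <;> linarith

lemma q_un {α ι : Type*} [DecidableEq α] {p : ℝ} (h0 : 0 ≤ p) (h1 : p ≤ 1) (Λ : Finset α)
    (s : Finset ι) (A : ι → Set (Finset α)) (c : ι → ℝ) (h : ∀ i ∈ s, q p Λ (A i) ≤ c i) :
    q p Λ (⋃ i ∈ s, A i) ≤ ∑ i ∈ s, c i :=
  (q_iUnion_le h0 h1 Λ s A).trans (Finset.sum_le_sum h)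

lemma q_const {α ι : Type*} [DecidableEq α] {p : ℝ} (h0 : 0 ≤ p) (h1 : p ≤ 1) (Λ : Finset α)
    (s : Finset ι) (A : ι → Set (Finset α)) (c : ℝ) (h : ∀ i ∈ s, q p Λ (A i) ≤ c) :
    q p Λ (⋃ i ∈ s, A i) ≤ s.card * c := by
  refine (q_un h0 h1 Λ s A (fun _ => c) h).trans (le_of_eq ?_)
  rw [Finset.sum_const, nsmul_eq_mul]

/-- growth from one of the parts -/
lemma mem_grow {R R1 : Rc} (hR : R.Ok) {A A1 : Finset (ℕ × ℕ)} (hA : IS R A) (h1 : A1 ⊆ A)
    (h2 : A1 ⊆ R1.sites) (h3 : IS R1 A1) : A ∈ box (isp R1) (Gr R1 R) := by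
  refine ⟨A1, A \ R1.sites, ?_, h1, Finset.sdiff_subset, h3, Gr_sdiff (hA.gr hR R1)⟩
  rw [Finset.disjoint_left]
  intro v hv hv'
  exact (Finset.mem_sdiff.1 hv').2 (h2 hv)

lemma gr_w {p : ℝ} (a b1 b : ℕ) : gr p a b1 a b = g p a ^ (b - b1) := by
  unfold gr
  simp

lemma gr_h {p : ℝ} (a1 a b : ℕ) : gr p a1 b a b = g p b ^ (a - a1) := by
  unfold gr
  simp

lemma g_nonneg {p : ℝ} (h0 : 0 < p) (h1 : p < 1) (k : ℕ) : 0 ≤ g p k := by
  unfold g
  have : (1 - p) ^ k ≤ 1 := pow_le_one₀ (by linarith) (by linarith)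
  linarith

end PBREC

open PBREC

theorem brec_le (hsplit : S_SPLIT) (hgrow : S_GROW) : S_BREC := by
  intro p hp0 hp1 Λ R hR hsg W hW0 hW
  have h0 : 0 ≤ p := hp0.le
  have h1 : p ≤ 1 := hp1.le
  -- the three families
  let P1 : ℕ → ℕ → Rc := fun b1 i => ⟨R.x, R.y + i, R.a, b1⟩
  let P2 : ℕ → ℕ → Rc := fun a1 i => ⟨R.x + i, R.y, a1, R.b⟩
  let QL : ℕ → ℕ → Bool → Bool → Rc := fun a1 b1 s t =>
    ⟨if s then R.x else R.x + R.a - a1, if t then R.y else R.y + R.b - b1, a1, b1⟩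
  let E1 : Set (Finset (ℕ × ℕ)) := ⋃ b1 ∈ Finset.Ico 1 R.b, ⋃ i ∈ Finset.range (R.b - b1 + 1),
    box (isp (P1 b1 i)) (Gr (P1 b1 i) R)
  let E2 : Set (Finset (ℕ × ℕ)) := ⋃ a1 ∈ Finset.Ico 1 R.a, ⋃ i ∈ Finset.range (R.a - a1 + 1),
    box (isp (P2 a1 i)) (Gr (P2 a1 i) R)
  let E3 : Set (Finset (ℕ × ℕ)) := ⋃ a1 ∈ Finset.Ico 1 R.a,
    ⋃ a2 ∈ (Finset.Ico 1 R.a).filter (fun a2 => R.a ≤ a1 + a2), ⋃ b1 ∈ Finset.Ico 1 R.b,
    ⋃ b2 ∈ (Finset.Ico 1 R.b).filter (fun b2 => R.b ≤ b1 + b2),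
    ⋃ st ∈ (Finset.univ : Finset (Bool × Bool)),
      box (isp (QL a1 b1 st.1 st.2)) (isp (QL a2 b2 (!st.1) (!st.2)))
  have hcov : ∀ A ∈ isp R, A ∈ E1 ∨ A ∈ {A | A ∈ E2 ∨ A ∈ E3} := by
    intro A hA
    obtain ⟨R1, R2, A1, A2, ok1, ok2, ne1, ne2, hj, s1, s2, hd, t1, t2, i1, i2⟩ :=
      hsplit R A hR hsg hA
    have le1 := hj.left
    have le2 := hj.right
    -- a part of full width
    have fullw : ∀ (R' : Rc) (A' : Finset (ℕ × ℕ)), R'.Ok → R'.Le R → R' ≠ R → A' ⊆ A →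
        A' ⊆ R'.sites → IS R' A' → R'.a = R.a → A ∈ E1 := by
      intro R' A' ok le ne hs ht hi ha
      obtain ⟨l1, l2, l3, l4⟩ := le
      have hb : R'.b < R.b := by
        by_contra hc
        apply ne
        ext <;> omega
      have e : R' = P1 R'.b (R'.y - R.y) := by
        ext
        · change R'.x = R.x; omega
        · change R'.y = R.y + (R'.y - R.y); omega
        · exact ha
        · rfl
      have hmem := mem_grow hR hA hs ht hi
      rw [e] at hmem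
      simp only [E1, Set.mem_iUnion]
      exact ⟨R'.b, Finset.mem_Ico.2 ⟨ok.2, hb⟩, R'.y - R.y,
        Finset.mem_range.2 (by omega), hmem⟩
    have fullh : ∀ (R' : Rc) (A' : Finset (ℕ × ℕ)), R'.Ok → R'.Le R → R' ≠ R → A' ⊆ A →
        A' ⊆ R'.sites → IS R' A' → R'.b = R.b → A ∈ E2 := by
      intro R' A' ok le ne hs ht hi ha
      obtain ⟨l1, l2, l3, l4⟩ := le
      have hb : R'.a < R.a := by
        by_contra hc
        apply ne
        ext <;> omega
      have e : R' = P2 R'.a (R'.x - R.x) := by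
        ext
        · change R'.x = R.x + (R'.x - R.x); omega
        · change R'.y = R.y; omega
        · rfl
        · exact ha
      have hmem := mem_grow hR hA hs ht hi
      rw [e] at hmem
      simp only [E2, Set.mem_iUnion]
      exact ⟨R'.a, Finset.mem_Ico.2 ⟨ok.1, hb⟩, R'.x - R.x,
        Finset.mem_range.2 (by omega), hmem⟩
    by_cases c1 : R1.a = R.a
    · exact Or.inl (fullw R1 A1 ok1 le1 ne1 s1 t1 i1 c1)
    by_cases c2 : R2.a = R.a
    · exact Or.inl (fullw R2 A2 ok2 le2 ne2 s2 t2 i2 c2)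
    by_cases c3 : R1.b = R.b
    · exact Or.inr (Or.inl (fullh R1 A1 ok1 le1 ne1 s1 t1 i1 c3))
    by_cases c4 : R2.b = R.b
    · exact Or.inr (Or.inl (fullh R2 A2 ok2 le2 ne2 s2 t2 i2 c4))
    refine Or.inr (Or.inr ?_)
    obtain ⟨⟨j1, j2⟩, ⟨j3, j4⟩, j5, j6⟩ := hj
    obtain ⟨d1, d2⟩ := le1.dims
    obtain ⟨d3, d4⟩ := le2.dims
    have hmem : A ∈ box (isp R1) (isp R2) := ⟨A1, A2, hd, s1, s2, i1, i2⟩
    have ex : ∃ s : Bool, R1.x = (if s then R.x else R.x + R.a - R1.a) ∧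
        R2.x = (if (!s) then R.x else R.x + R.a - R2.a) := by
      by_cases hx : R1.x = R.x
      · refine ⟨true, by simpa using hx, ?_⟩
        simp only [Bool.not_true, Bool.false_eq_true, if_false]
        omega
      · refine ⟨false, ?_, ?_⟩
        · simp only [Bool.false_eq_true, if_false]
          omega
        · simp only [Bool.not_false, if_true]
          omega
    have ey : ∃ t : Bool, R1.y = (if t then R.y else R.y + R.b - R1.b) ∧
        R2.y = (if (!t) then R.y else R.y + R.b - R2.b) := by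
      by_cases hy : R1.y = R.y
      · refine ⟨true, by simpa using hy, ?_⟩
        simp only [Bool.not_true, Bool.false_eq_true, if_false]
        omega
      · refine ⟨false, ?_, ?_⟩
        · simp only [Bool.false_eq_true, if_false]
          omega
        · simp only [Bool.not_false, if_true]
          omega
    obtain ⟨s, hs1, hs2⟩ := ex
    obtain ⟨t, ht1, ht2⟩ := ey
    have e1 : R1 = QL R1.a R1.b s t := by
      ext
      · exact hs1
      · exact ht1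
      · rfl
      · rfl
    have e2 : R2 = QL R2.a R2.b (!s) (!t) := by
      ext
      · exact hs2
      · exact ht2
      · rfl
      · rfl
    rw [e1, e2] at hmem
    have o1 := ok1.1
    have o2 := ok1.2
    have o3 := ok2.1
    have o4 := ok2.2
    simp only [E3, Set.mem_iUnion]
    refine ⟨R1.a, Finset.mem_Ico.2 ⟨o1, by omega⟩, R2.a, Finset.mem_filter.2
      ⟨Finset.mem_Ico.2 ⟨o3, by omega⟩, by omega⟩, R1.b, Finset.mem_Ico.2 ⟨o2, by omega⟩, R2.b,
      Finset.mem_filter.2 ⟨Finset.mem_Ico.2 ⟨o4, by omega⟩, by omega⟩, (s, t),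
      Finset.mem_univ _, hmem⟩
  have hE1 : q p Λ E1 ≤ ∑ b1 ∈ Finset.Ico 1 R.b, ((R.b - b1 + 1 : ℕ) : ℝ) * W R.a b1 *
      g p R.a ^ (R.b - b1) := by
    refine q_un h0 h1 Λ _ _ _ fun b1 hb1 => ?_
    rw [Finset.mem_Ico] at hb1
    refine (q_const h0 h1 Λ _ _ (W R.a b1 * g p R.a ^ (R.b - b1)) fun i hi => ?_).trans
      (le_of_eq ?_)
    · rw [Finset.mem_range] at hi
      have ok : (P1 b1 i).Ok := ⟨hR.1, hb1.1⟩
      have le : (P1 b1 i).Le R := by
        refine ⟨?_, ?_, ?_, ?_⟩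
        · change R.x ≤ R.x; omega
        · change R.x + R.a ≤ R.x + R.a; omega
        · change R.y ≤ R.y + i; omega
        · change R.y + i + b1 ≤ R.y + R.b; omega
      have ne : P1 b1 i ≠ R := by
        intro he
        have : b1 = R.b := congrArg Rc.b he
        omega
      refine (bk h0 h1 Λ _ _ (isp_up _) (Gr_up _ _)).trans ?_
      have e1 := hW _ ok le ne
      have e2 := hgrow p hp0 hp1 Λ _ R ok le
      have e3 : gr p (P1 b1 i).a (P1 b1 i).b R.a R.b = g p R.a ^ (R.b - b1) := gr_w _ _ _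
      rw [e3] at e2
      exact mul_le_mul e1 e2 (q_nonneg h0 h1 _ _) (hW0 _ _)
    · rw [Finset.card_range]
      ring
  have hE2 : q p Λ E2 ≤ ∑ a1 ∈ Finset.Ico 1 R.a, ((R.a - a1 + 1 : ℕ) : ℝ) * W a1 R.b *
      g p R.b ^ (R.a - a1) := by
    refine q_un h0 h1 Λ _ _ _ fun a1 ha1 => ?_
    rw [Finset.mem_Ico] at ha1
    refine (q_const h0 h1 Λ _ _ (W a1 R.b * g p R.b ^ (R.a - a1)) fun i hi => ?_).trans
      (le_of_eq ?_)
    · rw [Finset.mem_range] at hi
      have ok : (P2 a1 i).Ok := ⟨ha1.1, hR.2⟩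
      have le : (P2 a1 i).Le R := by
        refine ⟨?_, ?_, ?_, ?_⟩
        · change R.x ≤ R.x + i; omega
        · change R.x + i + a1 ≤ R.x + R.a; omega
        · change R.y ≤ R.y; omega
        · change R.y + R.b ≤ R.y + R.b; omega
      have ne : P2 a1 i ≠ R := by
        intro he
        have : a1 = R.a := congrArg Rc.a he
        omega
      refine (bk h0 h1 Λ _ _ (isp_up _) (Gr_up _ _)).trans ?_
      have e1 := hW _ ok le ne
      have e2 := hgrow p hp0 hp1 Λ _ R ok le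
      have e3 : gr p (P2 a1 i).a (P2 a1 i).b R.a R.b = g p R.b ^ (R.a - a1) := gr_h _ _ _
      rw [e3] at e2
      exact mul_le_mul e1 e2 (q_nonneg h0 h1 _ _) (hW0 _ _)
    · rw [Finset.card_range]
      ring
  have hQ : ∀ a1 b1 s t, 1 ≤ a1 → a1 < R.a → 1 ≤ b1 → b1 < R.b →
      q p Λ (isp (QL a1 b1 s t)) ≤ W a1 b1 := by
    intro a1 b1 s t ha ha' hb hb'
    have ok : (QL a1 b1 s t).Ok := ⟨ha, hb⟩
    have le : (QL a1 b1 s t).Le R := by
      refine ⟨?_, ?_, ?_, ?_⟩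
      · change R.x ≤ if s then R.x else R.x + R.a - a1
        split_ifs <;> omega
      · change (if s then R.x else R.x + R.a - a1) + a1 ≤ R.x + R.a
        split_ifs <;> omega
      · change R.y ≤ if t then R.y else R.y + R.b - b1
        split_ifs <;> omega
      · change (if t then R.y else R.y + R.b - b1) + b1 ≤ R.y + R.b
        split_ifs <;> omega
    have ne : QL a1 b1 s t ≠ R := by
      intro he
      have : a1 = R.a := congrArg Rc.a he
      omega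
    exact hW _ ok le ne
  have hE3 : q p Λ E3 ≤ 4 * ∑ a1 ∈ Finset.Ico 1 R.a,
      ∑ a2 ∈ (Finset.Ico 1 R.a).filter (fun a2 => R.a ≤ a1 + a2),
      ∑ b1 ∈ Finset.Ico 1 R.b, ∑ b2 ∈ (Finset.Ico 1 R.b).filter (fun b2 => R.b ≤ b1 + b2),
        W a1 b1 * W a2 b2 := by
    rw [Finset.mul_sum]
    refine q_un h0 h1 Λ _ _ _ fun a1 ha1 => ?_
    rw [Finset.mul_sum]
    refine q_un h0 h1 Λ _ _ _ fun a2 ha2 => ?_
    rw [Finset.mul_sum]
    refine q_un h0 h1 Λ _ _ _ fun b1 hb1 => ?_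
    rw [Finset.mul_sum]
    refine q_un h0 h1 Λ _ _ _ fun b2 hb2 => ?_
    rw [Finset.mem_Ico] at ha1 hb1
    rw [Finset.mem_filter, Finset.mem_Ico] at ha2 hb2
    refine (q_const h0 h1 Λ _ _ (W a1 b1 * W a2 b2) fun st _ => ?_).trans (le_of_eq ?_)
    · refine (bk h0 h1 Λ _ _ (isp_up _) (isp_up _)).trans ?_
      exact mul_le_mul (hQ _ _ _ _ ha1.1 ha1.2 hb1.1 hb1.2)
        (hQ _ _ _ _ ha2.1.1 ha2.1.2 hb2.1.1 hb2.1.2) (q_nonneg h0 h1 _ _) (hW0 _ _)
    · rw [Finset.card_univ, Fintype.card_prod, Fintype.card_bool]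
      norm_num
  have hfin : q p Λ (isp R) ≤ q p Λ E1 + (q p Λ E2 + q p Λ E3) :=
    (q_or h0 h1 Λ hcov).trans (add_le_add le_rfl (q_or h0 h1 Λ fun S hS => hS))
  unfold brec
  linarith

end Pool.Agent.J6H44.BP
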