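import Pool.Agent.J6H44.BP.Stm

set_option autoImplicit false

open Finset

namespace Pool.Agent.J6H44.BP

namespace Br17

/-- the embedding of the grid -/
def em (n : ℕ) : Fin n × Fin n ↪ ℕ × ℕ :=
  ⟨fun v => ((v.1 : ℕ), (v.2 : ℕ)), fun v w h => by
    rw [Prod.mk.injEq] at h
    exact Prod.ext (Fin.ext h.1) (Fin.ext h.2)⟩

lemma map_univ (n : ℕ) : (univ : Finset (Fin n × Fin n)).map (em n) = range n ×ˢ range n := by
  ext ⟨x, y⟩
  rw [mem_map, mem_product, mem_range, mem_range]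
  constructor
  · rintro ⟨v, -, hv⟩
    have h : ((v.1 : ℕ), (v.2 : ℕ)) = (x, y) := hv
    rw [Prod.mk.injEq] at h
    dsimp only
    exact ⟨h.1 ▸ v.1.2, h.2 ▸ v.2.2⟩
  · rintro ⟨h1, h2⟩
    exact ⟨(⟨x, h1⟩, ⟨y, h2⟩), mem_univ _, rfl⟩

lemma cond_iff (n : ℕ) (A : Finset (Fin n × Fin n)) :
    (∀ S : Finset (Fin n × Fin n), A ⊆ S →
      (∀ v : Fin n × Fin n,
        ((∃ u ∈ S, u.2 = v.2 ∧ ((u.1 : ℕ) + 1 = v.1 ∨ (v.1 : ℕ) + 1 = u.1)) ∧
         (∃ u ∈ S, u.1 = v.1 ∧ ((u.2 : ℕ) + 1 = v.2 ∨ (v.2 : ℕ) + 1 = u.2))) →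
        v ∈ S) → S = Finset.univ) ↔ A.map (em n) ∈ isp ⟨0, 0, n, n⟩ := by
  classical
  constructor
  · intro h T hT hA v hv
    have h1 := h (univ.filter (fun v => em n v ∈ T)) (fun v hv => by
      rw [mem_filter]
      refine ⟨mem_univ _, hA _ (mem_map_of_mem _ hv) ?_⟩
      rw [mem_sites]
      have h1 := v.1.2
      have h2 := v.2.2
      change (0 ≤ (v.1 : ℕ) ∧ (v.1 : ℕ) < 0 + n) ∧ (0 ≤ (v.2 : ℕ) ∧ (v.2 : ℕ) < 0 + n)
      omega) (by
      rintro v ⟨⟨u, hu, hu1, hu2⟩, ⟨u', hu', hu1', hu2'⟩⟩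
      rw [mem_filter] at hu hu' ⊢
      refine ⟨mem_univ _, ?_⟩
      refine hT (v.1 : ℕ) (v.2 : ℕ) (u.1 : ℕ) (u'.2 : ℕ) ?_ ?_ ?_ ?_
      · rcases hu2 with h | h
        · exact Or.inr h.symm
        · exact Or.inl h.symm
      · rcases hu2' with h | h
        · exact Or.inr h.symm
        · exact Or.inl h.symm
      · have h3 : em n u = ((u.1 : ℕ), (v.2 : ℕ)) := by rw [← hu1]; rfl
        rw [← h3]
        exact hu.2
      · have h3 : em n u' = ((v.1 : ℕ), (u'.2 : ℕ)) := by rw [← hu1']; rfl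
        rw [← h3]
        exact hu'.2)
    rw [mem_sites] at hv
    dsimp only at hv
    have h2 : ((⟨v.1, by omega⟩, ⟨v.2, by omega⟩) : Fin n × Fin n) ∈
        univ.filter (fun v => em n v ∈ T) := by
      rw [h1]
      exact mem_univ _
    rw [mem_filter] at h2
    exact h2.2
  · intro h S hAS hS
    have hT : Stab {v : ℕ × ℕ | ∃ u ∈ S, em n u = v} := by
      rintro x y x' y' hx hy ⟨u, hu, hu1⟩ ⟨u', hu', hu1'⟩
      have e1 : ((u.1 : ℕ), (u.2 : ℕ)) = (x', y) := hu1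
      have e2 : ((u'.1 : ℕ), (u'.2 : ℕ)) = (x, y') := hu1'
      rw [Prod.mk.injEq] at e1 e2
      refine ⟨(u'.1, u.2), hS _ ⟨⟨u, hu, rfl, ?_⟩, ⟨u', hu', rfl, ?_⟩⟩, ?_⟩
      · dsimp only
        omega
      · dsimp only
        omega
      · change ((u'.1 : ℕ), (u.2 : ℕ)) = (x, y)
        rw [e1.2, e2.1]
    have h1 := h _ hT (fun v hv _ => by
      rw [mem_map] at hv
      obtain ⟨u, hu, hu1⟩ := hv
      exact ⟨u, hAS hu, hu1⟩)
    rw [eq_univ_iff_forall]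
    intro v
    have hv1 := v.1.2
    have hv2 := v.2.2
    obtain ⟨u, hu, hu1⟩ := h1 (em n v) (by
      rw [mem_sites]
      change (0 ≤ (v.1 : ℕ) ∧ (v.1 : ℕ) < 0 + n) ∧ (0 ≤ (v.2 : ℕ) ∧ (v.2 : ℕ) < 0 + n)
      omega)
    rwa [← (em n).injective hu1]

lemma wt_eq (p : ℝ) (n : ℕ) (A : Finset (Fin n × Fin n)) :
    wt p (range n ×ˢ range n) (A.map (em n)) = p ^ A.card * (1 - p) ^ (n ^ 2 - A.card) := by
  classical
  have hsub : A.map (em n) ⊆ range n ×ˢ range n := by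
    rw [← map_univ]
    exact map_subset_map.2 (subset_univ _)
  unfold wt
  rw [prod_ite, prod_const, prod_const]
  have h1 : (range n ×ˢ range n).filter (fun x => x ∈ A.map (em n)) = A.map (em n) := by
    ext x
    rw [mem_filter]
    exact ⟨fun h => h.2, fun h => ⟨hsub h, h⟩⟩
  have h2 : (range n ×ˢ range n).filter (fun x => x ∉ A.map (em n)) =
      (range n ×ˢ range n) \ A.map (em n) := by
    ext x
    rw [mem_filter, mem_sdiff]
  rw [h1, h2, card_sdiff_of_subset hsub, card_map, card_product, card_range, pow_two]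

end Br17

open Br17

/-- MODULE BRIDGE -/
theorem bridge : S_BRIDGE := by
  classical
  intro n p hn h0 h1
  unfold Pf q
  refine sum_bij (fun A _ => A.map (em n)) ?_ ?_ ?_ ?_
  · intro A _
    rw [mem_powerset, ← map_univ]
    exact map_subset_map.2 (subset_univ _)
  · intro A _ B _ h
    exact map_injective _ h
  · intro S hS
    rw [mem_powerset, ← map_univ] at hS
    obtain ⟨A, -, hA⟩ := subset_map_iff.1 hS
    exact ⟨A, mem_univ _, hA.symm⟩
  · intro A _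
    rw [wt_eq]
    by_cases h : A.map (em n) ∈ isp ⟨0, 0, n, n⟩
    · rw [if_pos h]
      exact if_pos ((cond_iff n A).2 h)
    · rw [if_neg h]
      exact if_neg fun h' => h ((cond_iff n A).1 h')

end Pool.Agent.J6H44.BP
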