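import Pool.Agent.J6H44.BP.Stm

/-!
# Modified bootstrap percolation, module BUDB: the gain of the growth beats the entropy
-/

set_option autoImplicit false

open Finset

namespace Pool.Agent.J6H44.BP

namespace BUDB

/-- `2 log (2 L ^ 4) ≤ p ^ (-δ) / 9` for small `p` -/
theorem ent (δ : ℝ) (hδ : 0 < δ) (p : ℝ) (hp : 0 < p) (hp1 : p ≤ 1 / 100)
    (hp2 : p ≤ (δ / 468) ^ (2 / δ)) : 2 * Real.log (2 * (LL p : ℝ) ^ 4) ≤ p ^ (-δ) / 9 := by
  have hp1' : p ≤ 1 := by linarith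
  have hinv : (100 : ℝ) ≤ 1 / p := by
    rw [le_div_iff₀ hp]
    linarith
  have hlog0 : 0 < Real.log (1 / p) := Real.log_pos (by linarith)
  have hlog1 : Real.log (1 / p) ≤ 1 / p := by
    have := Real.log_le_sub_one_of_pos (show 0 < 1 / p by positivity)
    linarith
  have hL1 : 0 < (LL p : ℝ) := by
    have : 0 < 8 / p * Real.log (1 / p) := by positivity
    have h2 := Nat.ceil_pos.2 this
    unfold LL
    exact_mod_cast h2
  have hL2 : (LL p : ℝ) ≤ (1 / p) ^ 3 := by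
    have h0 : 0 ≤ 8 / p * Real.log (1 / p) := by positivity
    have h1 : (LL p : ℝ) < 8 / p * Real.log (1 / p) + 1 := by
      unfold LL
      exact Nat.ceil_lt_add_one h0
    have h2 : 8 / p * Real.log (1 / p) ≤ 8 / p * (1 / p) :=
      mul_le_mul_of_nonneg_left hlog1 (by positivity)
    have h3 : 8 / p * (1 / p) = 8 * (1 / p) ^ 2 := by ring
    have h4 : (1 : ℝ) ≤ (1 / p) ^ 2 := by nlinarith
    have h5 : 9 * (1 / p) ^ 2 ≤ (1 / p) ^ 3 := by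
      have : (1 / p) ^ 3 = (1 / p) * (1 / p) ^ 2 := by ring
      rw [this]
      apply mul_le_mul_of_nonneg_right _ (by positivity)
      linarith
    linarith
  have hL3 : 2 * (LL p : ℝ) ^ 4 ≤ (1 / p) ^ 13 := by
    have h1 : (LL p : ℝ) ^ 4 ≤ ((1 / p) ^ 3) ^ 4 := by gcongr
    have h2 : (1 / p) ^ 13 = (1 / p) * ((1 / p) ^ 3) ^ 4 := by ring
    rw [h2]
    have h3 : (0 : ℝ) ≤ ((1 / p) ^ 3) ^ 4 := by positivity
    nlinarith
  have h1 : Real.log (2 * (LL p : ℝ) ^ 4) ≤ 13 * Real.log (1 / p) := by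
    have := Real.log_le_log (by positivity) hL3
    rwa [Real.log_pow, Nat.cast_ofNat] at this
  have h2 : Real.log (1 / p) ≤ (1 / p) ^ (δ / 2) / (δ / 2) :=
    Real.log_le_rpow_div (by positivity) (by positivity)
  have h3 : p ^ (δ / 2) ≤ δ / 468 := by
    calc p ^ (δ / 2) ≤ ((δ / 468) ^ (2 / δ)) ^ (δ / 2) :=
          Real.rpow_le_rpow hp.le hp2 (by positivity)
      _ = δ / 468 := by
          rw [← Real.rpow_mul (by positivity)]
          have : 2 / δ * (δ / 2) = 1 := by field_simp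
          rw [this, Real.rpow_one]
  have h4 : (1 / p) ^ (δ / 2) = (p ^ (δ / 2))⁻¹ := by
    rw [one_div, Real.inv_rpow hp.le]
  have h5 : p ^ (-δ) = (p ^ (δ / 2))⁻¹ * (p ^ (δ / 2))⁻¹ := by
    rw [← mul_inv, ← Real.rpow_add hp, Real.rpow_neg hp.le]
    congr 2
    ring
  have hx : 0 < p ^ (δ / 2) := Real.rpow_pos_of_pos hp _
  have h6 : 468 / δ ≤ (p ^ (δ / 2))⁻¹ := by
    rw [div_le_iff₀ hδ, inv_mul_eq_div, le_div_iff₀ hx]
    rw [le_div_iff₀ (by norm_num)] at h3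
    linarith
  rw [h5]
  rw [h4] at h2
  have h7 : 0 < (p ^ (δ / 2))⁻¹ := inv_pos.2 hx
  have h8 : 468 / δ * (p ^ (δ / 2))⁻¹ ≤ (p ^ (δ / 2))⁻¹ * (p ^ (δ / 2))⁻¹ :=
    mul_le_mul_of_nonneg_right h6 h7.le
  have h9 : 26 * Real.log (1 / p) ≤ 26 * ((p ^ (δ / 2))⁻¹ / (δ / 2)) :=
    mul_le_mul_of_nonneg_left h2 (by norm_num)
  have h10 : 26 * ((p ^ (δ / 2))⁻¹ / (δ / 2)) = 468 / δ * (p ^ (δ / 2))⁻¹ / 9 := by
    field_simp
    norm_num
  linarith

end BUDB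

theorem budb (hf : S_FPROP) : S_BUDB := by
  intro δ hδ hδ1
  refine ⟨min (1 / 100) ((δ / 468) ^ (2 / δ)), by positivity, ?_⟩
  intro p hp hpp a1 b1 s t ha1 hb1 ha hb hmin h2T hT
  have hp1 : p ≤ 1 / 100 := hpp.trans (min_le_left _ _)
  have hp2 : p ≤ (δ / 468) ^ (2 / δ) := hpp.trans (min_le_right _ _)
  have hp1' : p ≤ 1 := by linarith
  obtain ⟨-, -, -, f4, -, f6, -, -⟩ := hf p hp (by linarith)
  refine (BUDB.ent δ hδ p hp hp1 hp2).trans ?_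
  -- the shift
  set Z : ℕ := Zz δ p with hZ
  have hZ1 : 1 ≤ Z := by
    rw [hZ]
    unfold Zz
    omega
  have hZlo : p ^ (-(1 / 2) - 6 * δ) ≤ (Z : ℝ) := by
    rw [hZ]
    unfold Zz
    push_cast
    exact (Nat.lt_floor_add_one _).le
  have hZhi : (Z : ℝ) ≤ p ^ (-(1 / 2) - 6 * δ) + 1 := by
    rw [hZ]
    unfold Zz
    push_cast
    have := Nat.floor_le (show 0 ≤ p ^ (-(1 / 2) - 6 * δ) from Real.rpow_nonneg hp.le _)
    linarith
  have hZp : p * Z ≤ 1 := by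
    have h1 : p * Z ≤ p * (p ^ (-(1 / 2) - 6 * δ) + 1) := mul_le_mul_of_nonneg_left hZhi hp.le
    have h2 : p * p ^ (-(1 / 2) - 6 * δ) = p ^ (1 / 2 - 6 * δ) := by
      nth_rewrite 1 [← Real.rpow_one p]
      rw [← Real.rpow_add hp]
      congr 1
      ring
    have h3 : p ^ (1 / 2 - 6 * δ) ≤ p ^ (1 / 4 : ℝ) :=
      Real.rpow_le_rpow_of_exponent_ge hp hp1' (by linarith)
    have h4 : p ^ (1 / 4 : ℝ) ≤ 1 / 2 := by
      have h5 : p ≤ (1 / 2 : ℝ) ^ (4 : ℕ) := by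
        norm_num
        linarith
      calc p ^ (1 / 4 : ℝ) ≤ ((1 / 2 : ℝ) ^ (4 : ℕ)) ^ (1 / 4 : ℝ) :=
            Real.rpow_le_rpow hp.le h5 (by norm_num)
        _ = 1 / 2 := by
            rw [← Real.rpow_natCast, ← Real.rpow_mul (by norm_num)]
            norm_num
    rw [mul_add, h2, mul_one] at h1
    linarith
  -- the step
  set M : ℕ := max (a1 + s) (b1 + t) with hM
  have hTM : p ^ ((1 : ℝ) / 2) * M ≤ (TT p M : ℝ) := by
    unfold TT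
    exact Nat.le_ceil _
  have hst : (TT p M : ℝ) ≤ s + t := by exact_mod_cast hT
  have hs0 : (0 : ℝ) ≤ s := Nat.cast_nonneg _
  have ht0 : (0 : ℝ) ≤ t := Nat.cast_nonneg _
  have hph : 0 < p ^ ((1 : ℝ) / 2) := Real.rpow_pos_of_pos hp _
  have hC0 : 0 < p ^ (1 / 2 - δ) := Real.rpow_pos_of_pos hp _
  have hMM : max a1 b1 ≤ M := by omega
  have hMM' : ((max a1 b1 : ℕ) : ℝ) ≤ M := by exact_mod_cast hMM
  have hmM : min (a1 + s) (b1 + t) ≤ M := by omega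
  have hmM' : ((min (a1 + s) (b1 + t) : ℕ) : ℝ) ≤ M := by exact_mod_cast hmM
  have hN0 : p ^ (-(1 / 2) - 4 * δ) ≤ (M : ℝ) := hmin.le.trans hmM'
  have n1 : 0 ≤ f p a1 - f p (a1 + Z) := by
    have := f4 a1 (a1 + Z) ha1 (by omega)
    linarith
  have n2 : 0 ≤ f p b1 - f p (b1 + Z) := by
    have := f4 b1 (b1 + Z) hb1 (by omega)
    linarith
  unfold Bf
  rw [← hZ]
  have hexp : p ^ (-δ) ≤ p ^ (-(4 * δ)) :=
    Real.rpow_le_rpow_of_exponent_ge hp hp1' (by linarith)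
  rcases le_or_gt (p * ((max a1 b1 : ℕ) : ℝ)) 1 with hM1 | hM1
  · -- both sides at most `1 / p`
    set M1 : ℕ := max a1 b1 with hM1d
    have ca : (a1 : ℝ) ≤ M1 := by exact_mod_cast le_max_left a1 b1
    have cb : (b1 : ℝ) ≤ M1 := by exact_mod_cast le_max_right a1 b1
    have ha0 : (0 : ℝ) ≤ a1 := Nat.cast_nonneg _
    have hb0 : (0 : ℝ) ≤ b1 := Nat.cast_nonneg _
    have hZ0 : (0 : ℝ) < Z := by exact_mod_cast hZ1
    have hM10 : (0 : ℝ) < M1 := by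
      have : (1 : ℝ) ≤ a1 := by exact_mod_cast ha1
      linarith
    have e1 := f6 a1 Z ha1 hZ1 ((mul_le_mul_of_nonneg_left ca hp.le).trans hM1) hZp
    have e2 := f6 b1 Z hb1 hZ1 ((mul_le_mul_of_nonneg_left cb hp.le).trans hM1) hZp
    have d1 : (Z : ℝ) / (8 * M1 + Z) ≤ Z / (8 * a1 + Z) :=
      div_le_div_of_nonneg_left hZ0.le (by positivity) (by linarith)
    have d2 : (Z : ℝ) / (8 * M1 + Z) ≤ Z / (8 * b1 + Z) :=
      div_le_div_of_nonneg_left hZ0.le (by positivity) (by linarith)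
    have hx0 : 0 ≤ (Z : ℝ) / (8 * M1 + Z) := by positivity
    have g1 : (t : ℝ) * ((Z : ℝ) / (8 * M1 + Z)) ≤ t * (f p a1 - f p (a1 + Z)) :=
      mul_le_mul_of_nonneg_left (d1.trans e1) ht0
    have g2 : (s : ℝ) * ((Z : ℝ) / (8 * M1 + Z)) ≤ s * (f p b1 - f p (b1 + Z)) :=
      mul_le_mul_of_nonneg_left (d2.trans e2) hs0
    have g3 : 0 ≤ p ^ (1 / 2 - δ) * ((s : ℝ) + t) := by positivity
    have g4 : (TT p M : ℝ) * ((Z : ℝ) / (8 * M1 + Z)) ≤ (s + t) * ((Z : ℝ) / (8 * M1 + Z)) :=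
      mul_le_mul_of_nonneg_right hst hx0
    have g5 : p ^ (-(4 * δ)) / 9 ≤ (TT p M : ℝ) * ((Z : ℝ) / (8 * M1 + Z)) := by
      rcases le_or_gt (Z : ℝ) M1 with hc | hc
      · have k1 : (Z : ℝ) / (9 * M1) ≤ (Z : ℝ) / (8 * M1 + Z) :=
          div_le_div_of_nonneg_left hZ0.le (by positivity) (by linarith)
        have k2 : p ^ ((1 : ℝ) / 2) * M1 ≤ (TT p M : ℝ) :=
          (mul_le_mul_of_nonneg_left hMM' hph.le).trans hTM
        have k3 : p ^ ((1 : ℝ) / 2) * M1 * ((Z : ℝ) / (9 * M1)) ≤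
            (TT p M : ℝ) * ((Z : ℝ) / (8 * M1 + Z)) :=
          mul_le_mul k2 k1 (by positivity) (Nat.cast_nonneg _)
        have k4 : p ^ ((1 : ℝ) / 2) * M1 * ((Z : ℝ) / (9 * M1)) = p ^ ((1 : ℝ) / 2) * Z / 9 := by
          field_simp
        have k5 : p ^ ((1 : ℝ) / 2) * p ^ (-(1 / 2) - 6 * δ) ≤ p ^ ((1 : ℝ) / 2) * Z :=
          mul_le_mul_of_nonneg_left hZlo hph.le
        have k6 : p ^ (-(4 * δ)) ≤ p ^ ((1 : ℝ) / 2) * p ^ (-(1 / 2) - 6 * δ) := by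
          rw [← Real.rpow_add hp]
          exact Real.rpow_le_rpow_of_exponent_ge hp hp1' (by linarith)
        linarith
      · have k1 : (1 : ℝ) / 9 ≤ (Z : ℝ) / (8 * M1 + Z) := by
          rw [div_le_div_iff₀ (by norm_num) (by positivity)]
          linarith
        have k2 : p ^ ((1 : ℝ) / 2) * p ^ (-(1 / 2) - 4 * δ) ≤ (TT p M : ℝ) :=
          (mul_le_mul_of_nonneg_left hN0 hph.le).trans hTM
        have k3 : p ^ (-(4 * δ)) = p ^ ((1 : ℝ) / 2) * p ^ (-(1 / 2) - 4 * δ) := by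
          rw [← Real.rpow_add hp]
          congr 1
          ring
        have k4 : (TT p M : ℝ) * (1 / 9) ≤ (TT p M : ℝ) * ((Z : ℝ) / (8 * M1 + Z)) :=
          mul_le_mul_of_nonneg_left k1 (Nat.cast_nonneg _)
        linarith
    have g6 : ((s : ℝ) + t) * ((Z : ℝ) / (8 * M1 + Z)) =
      t * ((Z : ℝ) / (8 * M1 + Z)) + s * ((Z : ℝ) / (8 * M1 + Z)) := by ring
    linarith
  · have g1 : 0 ≤ (t : ℝ) * (f p a1 - f p (a1 + Z)) := mul_nonneg ht0 n1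
    have g2 : 0 ≤ (s : ℝ) * (f p b1 - f p (b1 + Z)) := mul_nonneg hs0 n2
    have hMp : 1 ≤ p * (M : ℝ) :=
      hM1.le.trans (mul_le_mul_of_nonneg_left hMM' hp.le)
    have g3 : p ^ (1 / 2 - δ) * (p ^ ((1 : ℝ) / 2) * M) ≤ p ^ (1 / 2 - δ) * ((s : ℝ) + t) :=
      mul_le_mul_of_nonneg_left (hTM.trans hst) hC0.le
    have g4 : p ^ (1 / 2 - δ) * (p ^ ((1 : ℝ) / 2) * M) = p ^ (-δ) * (p * M) := by
      rw [← mul_assoc, ← Real.rpow_add hp, ← mul_assoc]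
      congr 1
      nth_rewrite 3 [← Real.rpow_one p]
      rw [← Real.rpow_add hp]
      congr 1
      ring
    have hpd : 0 < p ^ (-δ) := Real.rpow_pos_of_pos hp _
    have g5 : p ^ (-δ) ≤ p ^ (-δ) * (p * M) := le_mul_of_one_le_right hpd.le hMp
    linarith

end Pool.Agent.J6H44.BP
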