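import Pool.Agent.J6H44.BP.Stm

/-! BUDGET (assembly). -/

set_option autoImplicit false

open Finset

namespace Pool.Agent.J6H44.BP

theorem budget (hf : S_FPROP) (hpath : S_PATH) (hk : S_BUDK) (hb : S_BUDB) : S_BUDGET := by
  intro δ hδ hδ1
  obtain ⟨p1, hp1, h1⟩ := hk δ hδ hδ1
  obtain ⟨p2, hp2, h2⟩ := hb δ hδ hδ1
  refine ⟨min (min p1 p2) (1 / 2), by positivity, ?_⟩
  intro p hp hpp a b a1 b1 ha1 hb1 haa hbb haL hbL hmin hinc
  have c1 : p ≤ p1 := hpp.trans ((min_le_left _ _).trans (min_le_left _ _))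
  have c2 : p ≤ p2 := hpp.trans ((min_le_left _ _).trans (min_le_right _ _))
  have c3 : p ≤ 1 / 2 := hpp.trans (min_le_right _ _)
  obtain ⟨f1, f2, f3, f4, f5, f6, f7, f8⟩ := hf p hp c3
  obtain ⟨s, rfl⟩ := Nat.exists_eq_add_of_le haa
  obtain ⟨t, rfl⟩ := Nat.exists_eq_add_of_le hbb
  have es : a1 + s - a1 = s := by omega
  have et : b1 + t - b1 = t := by omega
  rw [es, et] at hinc
  have K1 := h1 p hp c1 a1 b1 s t ha1 hb1 haL hbL hmin hinc
  have K2 := h2 p hp c2 a1 b1 s t ha1 hb1 haL hbL hmin hinc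
  have hZ : 1 ≤ Zz δ p := by unfold Zz; omega
  have hanti : Antitone (fun k => f p (k + Zz δ p)) := by
    intro k l hkl
    exact f4 _ _ (by omega) (by omega)
  have hconv : ∀ k, f p (k + 1 + Zz δ p) - f p (k + Zz δ p) ≤
      f p (k + 2 + Zz δ p) - f p (k + 1 + Zz δ p) := by
    intro k
    have := f5 (k + Zz δ p) (by omega)
    rw [show k + 1 + Zz δ p = k + Zz δ p + 1 by ring, show k + 2 + Zz δ p = k + Zz δ p + 2 by ring]
    exact this
  have hP := hpath (fun k => f p (k + Zz δ p)) hanti hconv a1 b1 (a1 + s) (b1 + t) ha1 hb1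
    (by omega) (by omega)
  have hPsi : Psi δ p (a1 + s) (b1 + t) ≤ Psi δ p a1 b1 + t * f p a1 + s * f p b1 -
      Bf δ p a1 b1 s t := by
    unfold Psi Bf
    push_cast at hP ⊢
    linarith
  have hga : g p a1 = Real.exp (- f p a1) := by
    unfold f; rw [neg_neg, Real.exp_log (f1 a1 ha1).1]
  have hgb : g p b1 = Real.exp (- f p b1) := by
    unfold f; rw [neg_neg, Real.exp_log (f1 b1 hb1).1]
  have hgr : gr p a1 b1 (a1 + s) (b1 + t) = Real.exp (-(t * f p a1) - s * f p b1 +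
      p * s * t / (g p a1 * g p b1)) := by
    unfold gr
    rw [es, et]
    rw [Real.exp_add, sub_eq_add_neg, Real.exp_add]
    congr 1
    rw [hga, hgb, ← Real.exp_nat_mul, ← Real.exp_nat_mul]
    congr 2 <;> ring
  have hB0 : 0 ≤ Bf δ p a1 b1 s t := by
    unfold Bf
    have e1 : 0 ≤ f p a1 - f p (a1 + Zz δ p) := by
      have := f4 a1 (a1 + Zz δ p) ha1 (by omega); linarith
    have e2 : 0 ≤ f p b1 - f p (b1 + Zz δ p) := by
      have := f4 b1 (b1 + Zz δ p) hb1 (by omega); linarith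
    positivity
  constructor
  · rw [hgr, ← Real.exp_add, Real.exp_le_exp]
    linarith
  · intro hT
    rw [es, et] at hT
    have K3 := K2 hT
    have hL0 : (0 : ℝ) < LL p := by
      have : 0 < LL p := by omega
      exact_mod_cast this
    have hL4 : (0 : ℝ) < 2 * (LL p : ℝ) ^ 4 := by positivity
    rw [hgr, ← Real.exp_add]
    have : Real.exp (-Psi δ p (a1 + s) (b1 + t)) * (1 / (2 * (LL p : ℝ) ^ 4)) =
        Real.exp (-Psi δ p (a1 + s) (b1 + t) - Real.log (2 * (LL p : ℝ) ^ 4)) := by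
      rw [Real.exp_sub, Real.exp_log hL4]; ring
    rw [this, Real.exp_le_exp]
    linarith

end Pool.Agent.J6H44.BP
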