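import Pool.Agent.J6H44.BP.Stm

/-!
# Modified bootstrap percolation: module BUDK
-/

set_option autoImplicit false

open Finset

namespace Pool.Agent.J6H44.BP

namespace BUDKs

/-- for small `p` the number `p ^ (-δ)` is large, also compared with `log (1 / p)` -/
theorem small (δ : ℝ) (h0 : 0 < δ) (C : ℝ) : ∃ p0 : ℝ, 0 < p0 ∧ ∀ p : ℝ, 0 < p → p ≤ p0 →
    p ≤ 1 / 16 ∧ C ≤ p ^ (-δ) ∧ Real.log (1 / p) ≤ p ^ (-δ) / 256 := by
  have hX1 : (1 : ℝ) ≤ max (max C 1) (512 / δ) := (le_max_right C 1).trans (le_max_left _ _)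
  have hXC : C ≤ max (max C 1) (512 / δ) := (le_max_left C 1).trans (le_max_left _ _)
  have hXδ : 512 / δ ≤ max (max C 1) (512 / δ) := le_max_right _ _
  generalize max (max C 1) (512 / δ) = X at hX1 hXC hXδ
  have hX : 0 < X := lt_of_lt_of_le one_pos hX1
  refine ⟨min (1 / 16) (X ^ (-(2 / δ))), lt_min (by norm_num) (Real.rpow_pos_of_pos hX _), ?_⟩
  intro p hp hpp
  have hw : X ≤ p ^ (-(δ / 2)) := by
    have h1 := Real.rpow_le_rpow_of_nonpos hp (hpp.trans (min_le_right _ _))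
      (show -(δ / 2) ≤ 0 by linarith)
    rw [← Real.rpow_mul hX.le] at h1
    have e : -(2 / δ) * -(δ / 2) = 1 := by field_simp
    rw [e, Real.rpow_one] at h1
    exact h1
  have hww : p ^ (-δ) = p ^ (-(δ / 2)) * p ^ (-(δ / 2)) := by
    rw [← Real.rpow_add hp]
    congr 1
    ring
  have hlog : Real.log (1 / p) ≤ p ^ (-(δ / 2)) / (δ / 2) := by
    have h1 := Real.log_le_rpow_div (x := 1 / p) (by positivity) (show 0 < δ / 2 by linarith)
    have e : (1 / p) ^ (δ / 2) = p ^ (-(δ / 2)) := by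
      rw [one_div, Real.inv_rpow hp.le, Real.rpow_neg hp.le]
    rw [e] at h1
    exact h1
  generalize p ^ (-(δ / 2)) = w at hw hww hlog
  have hw1 : 1 ≤ w := hX1.trans hw
  refine ⟨hpp.trans (min_le_left _ _), ?_, ?_⟩
  · rw [hww]
    nlinarith
  · rw [hww]
    refine hlog.trans ?_
    have h2 : 512 / δ ≤ w := hXδ.trans hw
    rw [div_le_iff₀ h0] at h2
    rw [div_le_iff₀ (by linarith)]
    nlinarith

/-- powers of `p` in terms of `u = p ^ (-1/2)` and `x = p ^ (-δ)` -/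
theorem powers (δ p : ℝ) (hp : 0 < p) (n : ℕ) :
    p ^ (-(1 / 2) - n * δ) = p ^ (-(1 / 2) : ℝ) * (p ^ (-δ)) ^ n := by
  rw [← Real.rpow_natCast, ← Real.rpow_mul hp.le, ← Real.rpow_add hp]
  congr 1
  ring

theorem puu (p : ℝ) (hp : 0 < p) : p * (p ^ (-(1 / 2) : ℝ) * p ^ (-(1 / 2) : ℝ)) = 1 := by
  rw [← Real.rpow_add hp]
  have e : (-(1 / 2) + -(1 / 2) : ℝ) = -1 := by norm_num
  rw [e, Real.rpow_neg_one, mul_inv_cancel₀ hp.ne']

theorem half_pow (p : ℝ) (hp : 0 < p) : p ^ ((1 : ℝ) / 2) = p * p ^ (-(1 / 2) : ℝ) := by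
  nth_rw 2 [← Real.rpow_one p]
  rw [← Real.rpow_add hp]
  congr 1
  norm_num

theorem half_sub (δ p : ℝ) (hp : 0 < p) :
    p ^ (1 / 2 - δ) = p * p ^ (-(1 / 2) : ℝ) * p ^ (-δ) := by
  rw [← half_pow p hp, ← Real.rpow_add hp]
  congr 1

theorem core (p u x ga gb a b s t Z Fa Fb : ℝ) (hp : 0 < p) (hu : 4 ≤ u)
    (hx : 64 ≤ x) (hs : 0 ≤ s) (ht : 0 ≤ t) (hst : s + t ≤ u * x / 8) (hab : a ≤ b)
    (hga : min 1 (p * a) / 2 ≤ ga) (hgb : min 1 (p * b) / 2 ≤ gb) (ha : u * x ^ 4 / 2 ≤ a)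
    (hsb : s ≤ 8 * (p * u) * b) (hZ : u * x ^ 6 ≤ Z)
    (hFa : p * a ≤ 1 → Z / (8 * a + Z) ≤ Fa) (hFa0 : 0 ≤ Fa) (hFb0 : 0 ≤ Fb) :
    p * s * t / (ga * gb) ≤ (t * Fa + s * Fb + p * u * x * (s + t)) / 2 := by
  have hu0 : 0 < u := by linarith
  have hx0 : 0 < x := by linarith
  have ha0 : 0 < a := lt_of_lt_of_le (by positivity) ha
  have hb0 : 0 < b := ha0.trans_le hab
  have hZ0 : 0 < Z := lt_of_lt_of_le (by positivity) hZ
  have hga0 : 0 < ga := lt_of_lt_of_le (by positivity) hga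
  have hgb0 : 0 < gb := lt_of_lt_of_le (by positivity) hgb
  have hK0 : 0 ≤ p * u * x * (s + t) := by positivity
  have hsF : 0 ≤ s * Fb := mul_nonneg hs hFb0
  have htF : 0 ≤ t * Fa := mul_nonneg ht hFa0
  by_cases hpa : p * a ≤ 1
  · -- thin first side
    have h1 : s ≤ u * x / 4 * gb := by
      by_cases hpb : p * b ≤ 1
      · rw [min_eq_right hpb] at hgb
        have k1 : u * x / 4 * (p * b / 2) ≤ u * x / 4 * gb :=
          mul_le_mul_of_nonneg_left hgb (by positivity)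
        have k2 : 8 * (p * u) * b ≤ u * x / 4 * (p * b / 2) := by
          have : (p * u * b) * 64 ≤ (p * u * b) * x :=
            mul_le_mul_of_nonneg_left hx (by positivity)
          linarith
        linarith
      · rw [min_eq_left (not_le.1 hpb).le] at hgb
        have k1 : u * x / 4 * (1 / 2) ≤ u * x / 4 * gb :=
          mul_le_mul_of_nonneg_left hgb (by positivity)
        linarith
    rw [min_eq_right hpa] at hga
    have h2 : p * s * t / (ga * gb) ≤ p * t * (u * x / 4) / ga := by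
      rw [div_le_div_iff₀ (mul_pos hga0 hgb0) hga0]
      have : p * t * ga * s ≤ p * t * ga * (u * x / 4 * gb) :=
        mul_le_mul_of_nonneg_left h1 (by positivity)
      linarith
    have h3 : p * t * (u * x / 4) / ga ≤ t * (u * x / a) / 2 := by
      rw [div_le_iff₀ hga0]
      have k1 : t * (u * x / a) / 2 * (p * a / 2) ≤ t * (u * x / a) / 2 * ga :=
        mul_le_mul_of_nonneg_left hga (by positivity)
      have k2 : t * (u * x / a) / 2 * (p * a / 2) = p * t * (u * x / 4) := by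
        field_simp
        ring
      linarith
    have h4 : u * x / a ≤ Fa := by
      refine le_trans ?_ (hFa hpa)
      rw [div_le_div_iff₀ ha0 (by positivity)]
      have x3 : 4 * x ≤ x ^ 4 := by
        have : (64 : ℝ) ^ 3 ≤ x ^ 3 := pow_le_pow_left₀ (by norm_num) hx 3
        have e : x ^ 4 = x ^ 3 * x := by ring
        rw [e]
        nlinarith
      have x5 : 16 * x ≤ x ^ 6 := by
        have : (64 : ℝ) ^ 5 ≤ x ^ 5 := pow_le_pow_left₀ (by norm_num) hx 5
        have e : x ^ 6 = x ^ 5 * x := by ring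
        rw [e]
        nlinarith
      have z1 : 16 * (u * x) ≤ Z := by
        have := mul_le_mul_of_nonneg_left x5 hu0.le
        linarith
      have z2 : 2 * (u * x) ≤ a := by
        have := mul_le_mul_of_nonneg_left x3 hu0.le
        linarith
      have z3 := mul_le_mul_of_nonneg_right z1 ha0.le
      have z4 := mul_le_mul_of_nonneg_right z2 hZ0.le
      linarith
    have h5 := mul_le_mul_of_nonneg_left h4 ht
    linarith
  · -- both sides thick
    have hpa' : 1 ≤ p * a := (not_le.1 hpa).le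
    have hpb' : 1 ≤ p * b := hpa'.trans (mul_le_mul_of_nonneg_left hab hp.le)
    rw [min_eq_left hpa'] at hga
    rw [min_eq_left hpb'] at hgb
    have h1 : (1 / 4 : ℝ) ≤ ga * gb := by
      have := mul_le_mul hga hgb (by norm_num) hga0.le
      linarith
    have h2 : p * s * t / (ga * gb) ≤ 4 * (p * s * t) := by
      rw [div_le_iff₀ (mul_pos hga0 hgb0)]
      have : 4 * (p * s * t) * (1 / 4) ≤ 4 * (p * s * t) * (ga * gb) :=
        mul_le_mul_of_nonneg_left h1 (by positivity)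
      linarith
    have h3 : 4 * (p * s * t) ≤ p * u * x * t / 2 := by
      have : (4 * p * t) * s ≤ (4 * p * t) * (u * x / 8) :=
        mul_le_mul_of_nonneg_left (by linarith) (by positivity)
      linarith
    have h4 : 0 ≤ p * u * x * s := by positivity
    linarith

end BUDKs

open BUDKs in
theorem budk (hf : S_FPROP) : S_BUDK := by
  intro δ hδ hδ1
  obtain ⟨p0, hp0, H⟩ := small δ hδ 64
  refine ⟨p0, hp0, ?_⟩
  intro p hp hpp a1 b1 s t ha1 hb1 hs ht hmin hst
  obtain ⟨hp16, hx, hlog⟩ := H p hp hpp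
  obtain ⟨-, -, f3, f4, -, f6, -, -⟩ := hf p hp (by linarith)
  have e1 : p ^ (-(1 / 2) - 4 * δ) = p ^ (-(1 / 2) : ℝ) * (p ^ (-δ)) ^ 4 := by
    have := powers δ p hp 4
    exact_mod_cast this
  have e2 : p ^ (-(1 / 2) - 6 * δ) = p ^ (-(1 / 2) : ℝ) * (p ^ (-δ)) ^ 6 := by
    have := powers δ p hp 6
    exact_mod_cast this
  have e3 := half_sub δ p hp
  have e4 := half_pow p hp
  have hpuu := puu p hp
  have hZ1 : p ^ (-(1 / 2) : ℝ) * (p ^ (-δ)) ^ 6 ≤ (Zz δ p : ℝ) := by
    unfold Zz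
    rw [Nat.cast_add, Nat.cast_one, ← e2]
    exact (Nat.lt_floor_add_one _).le
  have hZ2 : p * (Zz δ p : ℝ) ≤ 1 := by
    have h1 : (Zz δ p : ℝ) ≤ p ^ (-(1 / 2) - 6 * δ) + 1 := by
      unfold Zz
      rw [Nat.cast_add, Nat.cast_one]
      have := Nat.floor_le (Real.rpow_nonneg hp.le (-(1 / 2) - 6 * δ))
      linarith
    have h2 : p * p ^ (-(1 / 2) - 6 * δ) = p ^ (1 / 2 - 6 * δ) := by
      nth_rw 1 [← Real.rpow_one p]
      rw [← Real.rpow_add hp]
      congr 1
      ring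
    have h3 : p ^ (1 / 2 - 6 * δ) ≤ 1 / 2 := by
      have k1 : p ^ (1 / 2 - 6 * δ) ≤ (1 / 16 : ℝ) ^ (1 / 2 - 6 * δ) :=
        Real.rpow_le_rpow hp.le hp16 (by linarith)
      have k2 : (1 / 16 : ℝ) ^ (1 / 2 - 6 * δ) ≤ (1 / 16 : ℝ) ^ (1 / 4 : ℝ) :=
        Real.rpow_le_rpow_of_exponent_ge (by norm_num) (by norm_num) (by linarith)
      have k3 : (1 / 16 : ℝ) ^ (1 / 4 : ℝ) = 1 / 2 := by
        have : (1 / 16 : ℝ) = (1 / 2 : ℝ) ^ (4 : ℝ) := by
          rw [show (4 : ℝ) = ((4 : ℕ) : ℝ) by norm_num, Real.rpow_natCast]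
          norm_num
        rw [this, ← Real.rpow_mul (by norm_num)]
        norm_num
      linarith
    have h4 := mul_le_mul_of_nonneg_left h1 hp.le
    rw [mul_add, h2] at h4
    linarith
  have hZ1' : 1 ≤ Zz δ p := by
    unfold Zz
    omega
  have hx' : 64 ≤ p ^ (-δ) := hx
  have hL : (LL p : ℝ) ≤ p ^ (-δ) / (32 * p) + 1 := by
    have hlog0 : 0 ≤ Real.log (1 / p) := Real.log_nonneg (by
      rw [le_div_iff₀ hp]
      linarith)
    have h1 : (LL p : ℝ) < 8 / p * Real.log (1 / p) + 1 := by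
      unfold LL
      exact Nat.ceil_lt_add_one (by positivity)
    have h2 : 8 / p * Real.log (1 / p) ≤ 8 / p * (p ^ (-δ) / 256) :=
      mul_le_mul_of_nonneg_left hlog (by positivity)
    have h3 : 8 / p * (p ^ (-δ) / 256) = p ^ (-δ) / (32 * p) := by
      field_simp
      ring
    linarith
  unfold Bf
  rw [e1] at hmin
  rw [e3]
  generalize hux : p ^ (-δ) = x at *
  generalize huu : p ^ (-(1 / 2) : ℝ) = u at *
  have hu0 : 0 < u := by
    rw [← huu]
    exact Real.rpow_pos_of_pos hp _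
  have hu4 : 4 ≤ u := by
    by_contra hcon
    have hcon' := not_le.1 hcon
    have : u * u < 16 := by nlinarith
    have : p * (u * u) < 1 / 16 * 16 := by
      calc p * (u * u) < p * 16 := mul_lt_mul_of_pos_left this hp
        _ ≤ 1 / 16 * 16 := by linarith
    linarith
  have hx0 : 0 < x := by linarith
  have hpu1 : p * u ≤ 1 / 4 := by
    have : p * u * 4 ≤ p * u * u := mul_le_mul_of_nonneg_left hu4 (by positivity)
    have e : p * u * u = 1 := by linarith
    linarith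
  -- the step
  have hTT : ∀ M : ℕ, (TT p M : ℝ) ≤ p * u * M + 1 := by
    intro M
    unfold TT
    rw [e4]
    exact (Nat.ceil_lt_add_one (by positivity)).le
  have hstR : (s : ℝ) + t ≤ 2 * (p * u * ((max (a1 + s) (b1 + t) : ℕ) : ℝ) + 1) := by
    have h1 : ((s + t : ℕ) : ℝ) ≤ ((2 * TT p (max (a1 + s) (b1 + t)) : ℕ) : ℝ) := by
      exact_mod_cast hst
    rw [Nat.cast_add, Nat.cast_mul] at h1
    have h2 := hTT (max (a1 + s) (b1 + t))
    push_cast at h1 h2 ⊢
    linarith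
  have hML : ((max (a1 + s) (b1 + t) : ℕ) : ℝ) ≤ x / (32 * p) + 1 := by
    refine le_trans ?_ hL
    exact_mod_cast max_le hs ht
  have hst8 : (s : ℝ) + t ≤ u * x / 8 := by
    have h1 : p * u * ((max (a1 + s) (b1 + t) : ℕ) : ℝ) ≤ p * u * (x / (32 * p) + 1) :=
      mul_le_mul_of_nonneg_left hML (by positivity)
    have h2 : p * u * (x / (32 * p) + 1) = u * x / 32 + p * u := by
      field_simp
    have h3 : (256 : ℝ) ≤ u * x := by
      have := mul_le_mul hu4 hx' (by norm_num) hu0.le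
      linarith
    linarith
  have hs0 : (0 : ℝ) ≤ s := Nat.cast_nonneg _
  have ht0 : (0 : ℝ) ≤ t := Nat.cast_nonneg _
  have hx4 : u * x / 8 ≤ u * x ^ 4 / 2 := by
    have h1 : x ≤ x ^ 4 := le_self_pow₀ (by linarith) (by norm_num)
    have h2 := mul_le_mul_of_nonneg_left h1 hu0.le
    have h3 : 0 ≤ u * x := by positivity
    linarith
  have ha : u * x ^ 4 / 2 ≤ (a1 : ℝ) := by
    have h1 : ((min (a1 + s) (b1 + t) : ℕ) : ℝ) ≤ ((a1 + s : ℕ) : ℝ) := by
      exact_mod_cast min_le_left _ _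
    rw [Nat.cast_add] at h1
    linarith
  have hb : u * x ^ 4 / 2 ≤ (b1 : ℝ) := by
    have h1 : ((min (a1 + s) (b1 + t) : ℕ) : ℝ) ≤ ((b1 + t : ℕ) : ℝ) := by
      exact_mod_cast min_le_right _ _
    rw [Nat.cast_add] at h1
    linarith
  -- the second bound of the increments
  have hM1 : ∀ B : ℝ, (a1 : ℝ) ≤ B → (b1 : ℝ) ≤ B → (s : ℝ) + t ≤ 8 * (p * u) * B := by
    intro B h1 h2
    have h3 : ((max (a1 + s) (b1 + t) : ℕ) : ℝ) ≤ B + (s + t) := by
      rw [Nat.cast_max]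
      apply max_le
      · push_cast
        linarith
      · push_cast
        linarith
    have h4 : p * u * ((max (a1 + s) (b1 + t) : ℕ) : ℝ) ≤ p * u * (B + (s + t)) :=
      mul_le_mul_of_nonneg_left h3 (by positivity)
    have h5 : p * u * ((s : ℝ) + t) ≤ 1 / 4 * ((s : ℝ) + t) :=
      mul_le_mul_of_nonneg_right hpu1 (by linarith)
    have h6 : 1 ≤ p * u * B := by
      have k1 : p * u * (u * x ^ 4 / 2) ≤ p * u * B :=
        mul_le_mul_of_nonneg_left (ha.trans h1) (by positivity)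
      have k2 : p * u * (u * x ^ 4 / 2) = x ^ 4 / 2 := by
        have : p * u * (u * x ^ 4 / 2) = p * (u * u) * (x ^ 4 / 2) := by ring
        rw [this, hpuu, one_mul]
      have k3 : (64 : ℝ) ^ 4 ≤ x ^ 4 := pow_le_pow_left₀ (by norm_num) hx' 4
      norm_num at k3
      linarith
    linarith
  have hF : ∀ k : ℕ, 1 ≤ k → 0 ≤ f p k - f p (k + Zz δ p) := fun k hk => by
    have := f4 k (k + Zz δ p) hk (by omega)
    linarith
  rcases le_total a1 b1 with hab | hab
  · have key := core p u x (g p a1) (g p b1) a1 b1 s t (Zz δ p) (f p a1 - f p (a1 + Zz δ p))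
      (f p b1 - f p (b1 + Zz δ p)) hp hu4 hx' hs0 ht0 hst8 (by exact_mod_cast hab) (f3 a1) (f3 b1)
      ha (by
        have := hM1 b1 (by exact_mod_cast hab) le_rfl
        linarith) hZ1 (fun h => f6 a1 (Zz δ p) ha1 hZ1' h hZ2) (hF a1 ha1) (hF b1 hb1)
    exact key
  · have key := core p u x (g p b1) (g p a1) b1 a1 t s (Zz δ p) (f p b1 - f p (b1 + Zz δ p))
      (f p a1 - f p (a1 + Zz δ p)) hp hu4 hx' ht0 hs0 (by linarith) (by exact_mod_cast hab) (f3 b1)
      (f3 a1) hb (by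
        have := hM1 a1 le_rfl (by exact_mod_cast hab)
        linarith) hZ1 (fun h => f6 b1 (Zz δ p) hb1 hZ1' h hZ2) (hF b1 hb1) (hF a1 ha1)
    have e : p * s * t / (g p a1 * g p b1) = p * t * s / (g p b1 * g p a1) := by
      rw [mul_comm (g p b1), mul_right_comm]
    rw [e]
    linarith

end Pool.Agent.J6H44.BP
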