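import Pool.Agent.J6H44.BP.Stm

/-!
# Modified bootstrap percolation: the end value of the exponent (`S_ENDV`)
-/

set_option autoImplicit false

open Finset

namespace Pool.Agent.J6H44.BP

namespace EndV

/-- `V(a,b) ≥ 2 ∑_{k ≤ X} φ(k)` when `2X ≤ max a b` -/
theorem vf_ge (φ : ℕ → ℝ) (h0 : ∀ k, 1 ≤ k → 0 ≤ φ k) (hanti : ∀ k l, 1 ≤ k → k ≤ l → φ l ≤ φ k)
    (a b X : ℕ) (ha : 1 ≤ a) (hb : 1 ≤ b) (hX : 2 * X ≤ max a b) :
    2 * ∑ k ∈ Finset.Icc 1 X, φ k ≤ Vf φ a b := by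
  unfold Vf
  set m := min a b with hm
  set M := max a b with hM
  have hm1 : 1 ≤ m := by rw [hm]; exact le_min ha hb
  have hmM : m ≤ M := by rw [hm, hM]; exact min_le_max
  have hmM' : (m : ℝ) ≤ M := by exact_mod_cast hmM
  rcases le_or_gt X m with h | h
  · have h1 : ∑ k ∈ Finset.Icc 1 X, φ k ≤ ∑ k ∈ Finset.Icc 1 m, φ k := by
      apply Finset.sum_le_sum_of_subset_of_nonneg
      · exact Finset.Icc_subset_Icc le_rfl h
      · intro i hi _
        exact h0 i (Finset.mem_Icc.1 hi).1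
    have h2 : 0 ≤ ((M : ℝ) - m) * φ m := mul_nonneg (by linarith) (h0 m hm1)
    linarith
  · have hsplit : ∑ k ∈ Finset.Icc 1 X, φ k =
        ∑ k ∈ Finset.Icc 1 m, φ k + ∑ k ∈ Finset.Ioc m X, φ k := by
      have e1 : Finset.Icc 1 X = Finset.Icc 1 m ∪ Finset.Ioc m X := by
        ext k
        simp only [Finset.mem_union, Finset.mem_Icc, Finset.mem_Ioc]
        omega
      rw [e1, Finset.sum_union]
      rw [Finset.disjoint_left]
      intro k hk hk'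
      rw [Finset.mem_Icc] at hk
      rw [Finset.mem_Ioc] at hk'
      omega
    have h3 : ∑ k ∈ Finset.Ioc m X, φ k ≤ ((X : ℝ) - m) * φ m := by
      have : ∑ k ∈ Finset.Ioc m X, φ k ≤ ∑ _k ∈ Finset.Ioc m X, φ m := by
        apply Finset.sum_le_sum
        intro k hk
        exact hanti m k hm1 (Finset.mem_Ioc.1 hk).1.le
      rw [Finset.sum_const, Nat.card_Ioc, nsmul_eq_mul, Nat.cast_sub h.le] at this
      exact this
    have h4 : 2 * (X : ℝ) ≤ M := by exact_mod_cast hX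
    have h5 : 0 ≤ φ m := h0 m hm1
    have h6 : 2 * (((X : ℝ) - m) * φ m) ≤ ((M : ℝ) - m) * φ m := by
      have : 0 ≤ (((M : ℝ) - m) - 2 * ((X : ℝ) - m)) * φ m := by
        apply mul_nonneg _ h5
        have : (0 : ℝ) ≤ m := Nat.cast_nonneg m
        linarith
      nlinarith [this]
    rw [hsplit]
    linarith

/-- shifting the sum -/
theorem sum_shift (ψ : ℕ → ℝ) (X Z : ℕ) :
    ∑ k ∈ Finset.Icc 1 (X + Z), ψ k =
      ∑ k ∈ Finset.Icc 1 Z, ψ k + ∑ k ∈ Finset.Icc 1 X, ψ (k + Z) := by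
  induction X with
  | zero => simp
  | succ X ih =>
    rw [show X + 1 + Z = (X + Z) + 1 by ring, Finset.sum_Icc_succ_top (by omega), ih,
      Finset.sum_Icc_succ_top (by omega), show X + Z + 1 = X + 1 + Z by ring]
    ring

end EndV

theorem endv (hser : S_SERLO) (hf : S_FPROP) : S_ENDV := by
  intro δ hδ hδ'
  have hc0 : 0 < δ / 64 := by positivity
  refine ⟨min (1 / 4) ((δ / 64) ^ (1 / δ)), lt_min (by norm_num) (Real.rpow_pos_of_pos hc0 _), ?_⟩
  intro p hp hp0 a b ha hb haL hbL hmax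
  have hp4 : p ≤ 1 / 4 := hp0.trans (min_le_left _ _)
  have hpc : p ≤ (δ / 64) ^ (1 / δ) := hp0.trans (min_le_right _ _)
  have hp2 : p ≤ 1 / 2 := by linarith
  obtain ⟨f1, -, -, f4, -, -, f7, -⟩ := hf p hp hp2
  set ℓ := Real.log (1 / p) with hℓ
  -- log (1/p) ≥ 1
  have hℓ1 : 1 ≤ ℓ := by
    rw [hℓ, Real.le_log_iff_exp_le (by positivity)]
    have h1 : Real.exp 1 ≤ 4 := by have := Real.exp_one_lt_d9; linarith
    have h2 : (4 : ℝ) ≤ 1 / p := by
      rw [le_div_iff₀ hp]; linarith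
    linarith
  -- p^(-δ) ≥ 64/δ
  have hpd : 64 / δ ≤ p ^ (-δ) := by
    have h1 : p ^ δ ≤ δ / 64 := by
      calc p ^ δ ≤ ((δ / 64) ^ (1 / δ)) ^ δ := Real.rpow_le_rpow hp.le hpc hδ.le
        _ = δ / 64 := by
          rw [← Real.rpow_mul hc0.le, one_div, inv_mul_cancel₀ hδ.ne', Real.rpow_one]
    rw [Real.rpow_neg hp.le]
    have h2 : (δ / 64)⁻¹ ≤ (p ^ δ)⁻¹ := by
      apply inv_anti₀ (Real.rpow_pos_of_pos hp _) h1
    rw [inv_div] at h2
    exact h2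
  -- log (1/p) ≤ p^(-δ)/δ
  have hlog : ℓ ≤ p ^ (-δ) / δ := by
    have h1 := Real.log_le_rpow_div (x := 1 / p) (by positivity) hδ
    have h2 : (1 / p) ^ δ = p ^ (-δ) := by
      rw [Real.rpow_neg hp.le, one_div, Real.inv_rpow hp.le]
    rw [h2] at h1
    exact h1
  -- the final comparison
  set D := p ^ (-(1 / 2) - 6 * δ) with hD
  have hDpos : 0 < D := Real.rpow_pos_of_pos hp _
  have hD1 : 1 ≤ D := by
    rw [hD]
    apply Real.one_le_rpow_of_pos_of_le_one_of_nonpos hp (by linarith)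
    linarith
  have hend : 64 * D * ℓ ≤ p ^ (-(1 / 2) - 8 * δ) := by
    have h1 : p ^ (-(1 / 2) - 8 * δ) = D * p ^ (-δ) * p ^ (-δ) := by
      rw [hD, ← Real.rpow_add hp, ← Real.rpow_add hp]
      congr 1
      ring
    rw [h1]
    have h2 : 64 * ℓ ≤ p ^ (-δ) * p ^ (-δ) := by
      have h3 : 64 * ℓ ≤ (64 / δ) * p ^ (-δ) := by
        calc 64 * ℓ ≤ 64 * (p ^ (-δ) / δ) := by linarith
          _ = (64 / δ) * p ^ (-δ) := by ring
      have h4 : (64 / δ) * p ^ (-δ) ≤ p ^ (-δ) * p ^ (-δ) :=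
        mul_le_mul_of_nonneg_right hpd (Real.rpow_pos_of_pos hp _).le
      linarith
    calc 64 * D * ℓ = D * (64 * ℓ) := by ring
      _ ≤ D * (p ^ (-δ) * p ^ (-δ)) := mul_le_mul_of_nonneg_left h2 hDpos.le
      _ = _ := by ring
  -- the sum
  set Z := Zz δ p with hZ
  have hZ1 : 1 ≤ Z := by rw [hZ]; unfold Zz; omega
  have hZle : (Z : ℝ) ≤ D + 1 := by
    rw [hZ]
    unfold Zz
    push_cast
    have := Nat.floor_le hDpos.le
    linarith
  set X := max a b / 2 with hX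
  have hX2 : 2 * X ≤ max a b := by omega
  have hXZ : LL p + 2 ≤ 4 * (X + Z) := by omega
  have hLLlow : 8 / p * ℓ ≤ (LL p : ℝ) := Nat.le_ceil _
  have hLLup : (LL p : ℝ) ≤ 8 / p * ℓ + 1 := by
    have : (0 : ℝ) ≤ 8 / p * ℓ := by positivity
    exact (Nat.ceil_lt_add_one this).le
  have hXZ' : 2 / p * ℓ ≤ ((X + Z : ℕ) : ℝ) := by
    have h1 : ((LL p + 2 : ℕ) : ℝ) ≤ ((4 * (X + Z) : ℕ) : ℝ) := by exact_mod_cast hXZ
    push_cast at h1 ⊢
    have h2 : 8 / p * ℓ = 4 * (2 / p * ℓ) := by ring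
    linarith
  have hpow : (1 - p) ^ (X + Z) ≤ p ^ 2 := by
    have h1 : (1 - p) ^ (X + Z) ≤ Real.exp (-p) ^ (X + Z) := by
      apply pow_le_pow_left₀ (by linarith)
      have := Real.add_one_le_exp (-p)
      linarith
    have h2 : Real.exp (-p) ^ (X + Z) = Real.exp (-(p * ((X + Z : ℕ) : ℝ))) := by
      rw [← Real.exp_nat_mul]
      congr 1
      ring
    have h3 : 2 * ℓ ≤ p * ((X + Z : ℕ) : ℝ) := by
      calc 2 * ℓ = p * (2 / p * ℓ) := by field_simp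
        _ ≤ p * ((X + Z : ℕ) : ℝ) := mul_le_mul_of_nonneg_left hXZ' hp.le
    have h4 : Real.exp (-(2 * ℓ)) = p ^ 2 := by
      rw [hℓ, one_div, Real.log_inv]
      rw [show -(2 * -Real.log p) = Real.log p + Real.log p by ring, Real.exp_add,
        Real.exp_log hp]
      ring
    calc (1 - p) ^ (X + Z) ≤ _ := h1
      _ = _ := h2
      _ ≤ Real.exp (-(2 * ℓ)) := Real.exp_le_exp.2 (by linarith)
      _ = p ^ 2 := h4
  have hpow' : 2 * (1 - p) ^ (X + Z) / p ≤ 1 := by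
    rw [div_le_one hp]
    have : p ^ 2 ≤ p * (1 / 2) := by
      rw [pow_two]
      exact mul_le_mul_of_nonneg_left hp2 hp.le
    linarith
  have hs := hser p hp hp2 (X + Z)
  rw [EndV.sum_shift] at hs
  have hsZ : ∑ k ∈ Finset.Icc 1 Z, f p k ≤ (Z : ℝ) * ℓ := by
    have : ∑ k ∈ Finset.Icc 1 Z, f p k ≤ ∑ _k ∈ Finset.Icc 1 Z, ℓ := by
      apply Finset.sum_le_sum
      intro k hk
      exact f7 k (Finset.mem_Icc.1 hk).1
    rw [Finset.sum_const, Nat.card_Icc, nsmul_eq_mul] at this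
    simpa using this
  have hV := EndV.vf_ge (fun k => f p (k + Z)) (fun k hk => (f1 (k + Z) (by omega)).2.2)
    (fun k l hk hkl => f4 (k + Z) (l + Z) (by omega) (by omega)) a b X ha hb hX2
  -- the linear part
  have hlin : p ^ (1 / 2 - δ) * ((a : ℝ) + b) ≤ 16 * D * ℓ + 2 := by
    have h1 : (a : ℝ) + b ≤ 16 / p * ℓ + 2 := by
      have ha' : (a : ℝ) ≤ LL p := by exact_mod_cast haL
      have hb' : (b : ℝ) ≤ LL p := by exact_mod_cast hbL
      have : 16 / p * ℓ = 8 / p * ℓ + 8 / p * ℓ := by ring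
      linarith
    have hq0 : 0 < p ^ (1 / 2 - δ) := Real.rpow_pos_of_pos hp _
    have hq1 : p ^ (1 / 2 - δ) ≤ 1 := Real.rpow_le_one hp.le (by linarith) (by linarith)
    have h2 : p ^ (1 / 2 - δ) / p ≤ D := by
      have e1 : p ^ (1 / 2 - δ) / p = p ^ (-(1 / 2) - δ) := by
        rw [show (-(1 / 2) - δ : ℝ) = (1 / 2 - δ) - 1 by ring, Real.rpow_sub_one hp.ne']
      rw [e1, hD]
      apply Real.rpow_le_rpow_of_exponent_ge hp (by linarith)
      linarith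
    calc p ^ (1 / 2 - δ) * ((a : ℝ) + b) ≤ p ^ (1 / 2 - δ) * (16 / p * ℓ + 2) :=
          mul_le_mul_of_nonneg_left h1 hq0.le
      _ = 16 * (p ^ (1 / 2 - δ) / p) * ℓ + 2 * p ^ (1 / 2 - δ) := by ring
      _ ≤ 16 * D * ℓ + 2 := by
        have : (p ^ (1 / 2 - δ) / p) * ℓ ≤ D * ℓ :=
          mul_le_mul_of_nonneg_right h2 (by linarith)
        have e7 : 16 * (p ^ (1 / 2 - δ) / p) * ℓ = 16 * ((p ^ (1 / 2 - δ) / p) * ℓ) := by ring
        have e8 : 16 * D * ℓ = 16 * (D * ℓ) := by ring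
        rw [e7, e8]
        linarith
  unfold Psi
  rw [← hZ]
  have hZl : (Z : ℝ) * ℓ ≤ (D + 1) * ℓ := mul_le_mul_of_nonneg_right hZle (by linarith)
  have hDl : D ≤ D * ℓ := le_mul_of_one_le_right hDpos.le hℓ1
  have hll : ℓ ≤ D * ℓ := le_mul_of_one_le_left (by linarith) hD1
  have hone : 1 ≤ D * ℓ := by linarith
  have e3 : Real.pi ^ 2 / (3 * p) = 2 * (Real.pi ^ 2 / (6 * p)) := by
    field_simp
    ring
  rw [e3]
  rw [← hℓ] at hs
  have e4 : (64 : ℝ) * D * ℓ = 64 * (D * ℓ) := by ring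
  have e5 : (16 : ℝ) * D * ℓ = 16 * (D * ℓ) := by ring
  have e6 : (D + 1) * ℓ = D * ℓ + ℓ := by ring
  rw [e4] at hend
  rw [e5] at hlin
  rw [e6] at hZl
  generalize D * ℓ = y at *
  linarith

end Pool.Agent.J6H44.BP
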