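import Pool.Agent.J6H44.BP.Stm

/-! FILL: a stable set containing two touching rectangles contains their hull. -/

set_option autoImplicit false

open Finset

namespace Pool.Agent.J6H44.BP

theorem Stab.hspread {S : Set (ℕ × ℕ)} (hS : Stab S) {x0 a r r' x : ℕ}
    (hr : r' = r + 1 ∨ r = r' + 1) (hrow : ∀ z, x0 ≤ z → z < x0 + a → (z, r') ∈ S)
    (h1 : x0 ≤ x + 1) (h2 : x ≤ x0 + a) (hx : (x, r) ∈ S) :
    ∀ z, x0 ≤ z → z < x0 + a → (z, r) ∈ S := by
  have up : ∀ d z, z = x + d → x0 ≤ z → z < x0 + a → (z, r) ∈ S := by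
    intro d
    induction d with
    | zero => intro z hz _ _; rw [hz]; exact hx
    | succ d ih =>
      intro z hz h3 h4
      have hprev : (x + d, r) ∈ S := by
        rcases Nat.eq_zero_or_pos d with h | h
        · subst h; exact hx
        · exact ih _ rfl (by omega) (by omega)
      exact hS z r (x + d) r' (by right; omega) hr hprev (hrow z h3 h4)
  have dn : ∀ d z, z + d = x → x0 ≤ z → z < x0 + a → (z, r) ∈ S := by
    intro d
    induction d with
    | zero => intro z hz _ _; rw [show z = x by omega]; exact hx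
    | succ d ih =>
      intro z hz h3 h4
      have hprev : (z + 1, r) ∈ S := by
        rcases Nat.eq_zero_or_pos d with h | h
        · subst h; rw [hz]; exact hx
        · exact ih _ (by omega) (by omega) (by omega)
      exact hS z r (z + 1) r' (by left; rfl) hr hprev (hrow z h3 h4)
  intro z h3 h4
  rcases le_total x z with h | h
  · exact up (z - x) z (by omega) h3 h4
  · exact dn (x - z) z (by omega) h3 h4

theorem Stab.vspread {S : Set (ℕ × ℕ)} (hS : Stab S) {y0 b c c' y : ℕ}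
    (hc : c' = c + 1 ∨ c = c' + 1) (hcol : ∀ z, y0 ≤ z → z < y0 + b → (c', z) ∈ S)
    (h1 : y0 ≤ y + 1) (h2 : y ≤ y0 + b) (hy : (c, y) ∈ S) :
    ∀ z, y0 ≤ z → z < y0 + b → (c, z) ∈ S := by
  have up : ∀ d z, z = y + d → y0 ≤ z → z < y0 + b → (c, z) ∈ S := by
    intro d
    induction d with
    | zero => intro z hz _ _; rw [hz]; exact hy
    | succ d ih =>
      intro z hz h3 h4
      have hprev : (c, y + d) ∈ S := by
        rcases Nat.eq_zero_or_pos d with h | h
        · subst h; exact hy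
        · exact ih _ rfl (by omega) (by omega)
      exact hS c z c' (y + d) hc (by right; omega) (hcol z h3 h4) hprev
  have dn : ∀ d z, z + d = y → y0 ≤ z → z < y0 + b → (c, z) ∈ S := by
    intro d
    induction d with
    | zero => intro z hz _ _; rw [show z = y by omega]; exact hy
    | succ d ih =>
      intro z hz h3 h4
      have hprev : (c, z + 1) ∈ S := by
        rcases Nat.eq_zero_or_pos d with h | h
        · subst h; rw [hz]; exact hy
        · exact ih _ (by omega) (by omega) (by omega)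
      exact hS c z c' (z + 1) hc (by left; rfl) (hcol z h3 h4) hprev
  intro z h3 h4
  rcases le_total y z with h | h
  · exact up (z - y) z (by omega) h3 h4
  · exact dn (y - z) z (by omega) h3 h4

theorem fill44 : S_FILL := by
  intro S R1 R2 R hS hR1 hR2 hJ h1 h2
  have key : ∀ k : ℕ, ∀ Q : Rc, R1.Le Q → Q.Le R → (∀ v ∈ Q.sites, v ∈ S) →
      R.sg ≤ Q.sg + k → ∀ v ∈ R.sites, v ∈ S := by
    intro k
    induction k with
    | zero =>
      intro Q hQ1 hQ2 hQS hk
      have : Q = R := by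
        by_contra hne
        have := hQ2.sg_lt hne
        omega
      rw [← this]
      exact hQS
    | succ k ih =>
      intro Q hQ1 hQ2 hQS hk
      obtain ⟨⟨j1, j2⟩, ⟨j3, j4⟩, ⟨j5, j6⟩, ⟨j7, j8⟩⟩ := hJ
      obtain ⟨u1, u2⟩ := hR1
      obtain ⟨w1, w2⟩ := hR2
      obtain ⟨q1, q2, q3, q4⟩ := id hQ1
      obtain ⟨r1, r2, r3, r4⟩ := id hQ2
      have hmem : ∀ x y, Q.x ≤ x → x < Q.x + Q.a → Q.y ≤ y → y < Q.y + Q.b → (x, y) ∈ S := by
        intro x y a b c d
        exact hQS _ (by rw [mem_sites]; exact ⟨⟨a, b⟩, c, d⟩)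
      have hmem2 : ∀ x y, R2.x ≤ x → x < R2.x + R2.a → R2.y ≤ y → y < R2.y + R2.b →
          (x, y) ∈ S := by
        intro x y a b c d
        exact h2 _ (by rw [mem_sites]; exact ⟨⟨a, b⟩, c, d⟩)
      by_cases c1 : Q.y + Q.b < R2.y + R2.b
      · -- enlarge upwards
        obtain ⟨x, hx1, hx2, hx3, hx4⟩ : ∃ x, R2.x ≤ x ∧ x < R2.x + R2.a ∧ Q.x ≤ x + 1 ∧
            x ≤ Q.x + Q.a := by
          refine ⟨max R2.x (Q.x - 1), ?_, ?_, ?_, ?_⟩ <;> omega
        have hx : (x, Q.y + Q.b) ∈ S := hmem2 _ _ hx1 hx2 (by omega) (by omega)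
        have hrow := hS.hspread (x0 := Q.x) (a := Q.a) (r := Q.y + Q.b) (r' := Q.y + Q.b - 1)
          (by omega) (fun z a b => hmem z _ a b (by omega) (by omega)) hx3 hx4 hx
        refine ih ⟨Q.x, Q.y, Q.a, Q.b + 1⟩ ⟨?_, ?_, ?_, ?_⟩ ⟨?_, ?_, ?_, ?_⟩ ?_ ?_
        all_goals first | (dsimp only [Rc.sg] at *; omega) | skip
        rintro ⟨vx, vy⟩ hv
        rw [mem_sites] at hv
        dsimp only at hv
        by_cases hvy : vy = Q.y + Q.b
        · rw [hvy]; exact hrow vx hv.1.1 hv.1.2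
        · exact hmem _ _ hv.1.1 hv.1.2 hv.2.1 (by omega)
      by_cases c2 : R2.y < Q.y
      · obtain ⟨x, hx1, hx2, hx3, hx4⟩ : ∃ x, R2.x ≤ x ∧ x < R2.x + R2.a ∧ Q.x ≤ x + 1 ∧
            x ≤ Q.x + Q.a := by
          refine ⟨max R2.x (Q.x - 1), ?_, ?_, ?_, ?_⟩ <;> omega
        have hx : (x, Q.y - 1) ∈ S := hmem2 _ _ hx1 hx2 (by omega) (by omega)
        have hrow := hS.hspread (x0 := Q.x) (a := Q.a) (r := Q.y - 1) (r' := Q.y)
          (by omega) (fun z a b => hmem z _ a b (by omega) (by omega)) hx3 hx4 hx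
        refine ih ⟨Q.x, Q.y - 1, Q.a, Q.b + 1⟩ ⟨?_, ?_, ?_, ?_⟩ ⟨?_, ?_, ?_, ?_⟩ ?_ ?_
        all_goals first | (dsimp only [Rc.sg] at *; omega) | skip
        rintro ⟨vx, vy⟩ hv
        rw [mem_sites] at hv
        dsimp only at hv
        by_cases hvy : vy = Q.y - 1
        · rw [hvy]; exact hrow vx hv.1.1 hv.1.2
        · exact hmem _ _ hv.1.1 hv.1.2 (by omega) (by omega)
      by_cases c3 : Q.x + Q.a < R2.x + R2.a
      · obtain ⟨y, hy1, hy2, hy3, hy4⟩ : ∃ y, R2.y ≤ y ∧ y < R2.y + R2.b ∧ Q.y ≤ y + 1 ∧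
            y ≤ Q.y + Q.b := by
          refine ⟨max R2.y (Q.y - 1), ?_, ?_, ?_, ?_⟩ <;> omega
        have hy : (Q.x + Q.a, y) ∈ S := hmem2 _ _ (by omega) (by omega) hy1 hy2
        have hcol := hS.vspread (y0 := Q.y) (b := Q.b) (c := Q.x + Q.a) (c' := Q.x + Q.a - 1)
          (by omega) (fun z a b => hmem _ z (by omega) (by omega) a b) hy3 hy4 hy
        refine ih ⟨Q.x, Q.y, Q.a + 1, Q.b⟩ ⟨?_, ?_, ?_, ?_⟩ ⟨?_, ?_, ?_, ?_⟩ ?_ ?_
        all_goals first | (dsimp only [Rc.sg] at *; omega) | skip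
        rintro ⟨vx, vy⟩ hv
        rw [mem_sites] at hv
        dsimp only at hv
        by_cases hvx : vx = Q.x + Q.a
        · rw [hvx]; exact hcol vy hv.2.1 hv.2.2
        · exact hmem _ _ hv.1.1 (by omega) hv.2.1 hv.2.2
      by_cases c4 : R2.x < Q.x
      · obtain ⟨y, hy1, hy2, hy3, hy4⟩ : ∃ y, R2.y ≤ y ∧ y < R2.y + R2.b ∧ Q.y ≤ y + 1 ∧
            y ≤ Q.y + Q.b := by
          refine ⟨max R2.y (Q.y - 1), ?_, ?_, ?_, ?_⟩ <;> omega
        have hy : (Q.x - 1, y) ∈ S := hmem2 _ _ (by omega) (by omega) hy1 hy2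
        have hcol := hS.vspread (y0 := Q.y) (b := Q.b) (c := Q.x - 1) (c' := Q.x)
          (by omega) (fun z a b => hmem _ z (by omega) (by omega) a b) hy3 hy4 hy
        refine ih ⟨Q.x - 1, Q.y, Q.a + 1, Q.b⟩ ⟨?_, ?_, ?_, ?_⟩ ⟨?_, ?_, ?_, ?_⟩ ?_ ?_
        all_goals first | (dsimp only [Rc.sg] at *; omega) | skip
        rintro ⟨vx, vy⟩ hv
        rw [mem_sites] at hv
        dsimp only at hv
        by_cases hvx : vx = Q.x - 1
        · rw [hvx]; exact hcol vy hv.2.1 hv.2.2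
        · exact hmem _ _ (by omega) (by omega) hv.2.1 hv.2.2
      · have : Q = R := by
          ext <;> omega
        rw [← this]
        exact hQS
  exact key R.sg R1 (Rc.Le.refl R1) hJ.left h1 (by omega)

end Pool.Agent.J6H44.BP
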