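import Pool.Agent.J6H44.BP.Stm

/-! # BP-FPROP: elementary properties of `g` and `f` (helper84) -/

set_option autoImplicit false

open Finset

namespace Pool.Agent.J6H44.BP

namespace FPr

variable {p : ℝ}

lemma w_pos (h1 : p ≤ 1 / 2) : 0 < 1 - p := by linarith

lemma pow_pos' (h1 : p ≤ 1 / 2) (k : ℕ) : 0 < (1 - p) ^ k := pow_pos (w_pos h1) k

lemma g_pos (h0 : 0 < p) (h1 : p ≤ 1 / 2) {k : ℕ} (hk : 1 ≤ k) : 0 < g p k := by
  unfold g
  have := pow_lt_one₀ (w_pos h1).le (by linarith : 1 - p < 1) (by omega : k ≠ 0)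
  linarith

lemma g_lt_one (h1 : p ≤ 1 / 2) (k : ℕ) : g p k < 1 := by
  unfold g
  have := pow_pos' h1 k
  linarith

lemma f_nonneg (h0 : 0 < p) (h1 : p ≤ 1 / 2) {k : ℕ} (hk : 1 ≤ k) : 0 ≤ f p k := by
  unfold f
  have := Real.log_nonpos (g_pos h0 h1 hk).le (g_lt_one h1 k).le
  linarith

lemma g_le (h1 : p ≤ 1 / 2) (k : ℕ) : g p k ≤ p * k := by
  unfold g
  have := one_add_mul_le_pow (by linarith : (-2 : ℝ) ≤ -p) k
  have e : (1 + -p : ℝ) = 1 - p := by ring
  rw [e] at this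
  linarith

lemma g_ge (h0 : 0 < p) (h1 : p ≤ 1 / 2) (k : ℕ) : min 1 (p * k) / 2 ≤ g p k := by
  unfold g
  set x : ℝ := min 1 (p * k) with hx
  have hx0 : 0 ≤ x := le_min zero_le_one (by positivity)
  have hx1 : x ≤ 1 := min_le_left _ _
  have hx2 : x ≤ p * k := min_le_right _ _
  have e1 : (1 - p) ^ k ≤ Real.exp (-(p * k)) := by
    have h2 : 1 - p ≤ Real.exp (-p) := by
      have := Real.add_one_le_exp (-p)
      linarith
    calc (1 - p) ^ k ≤ Real.exp (-p) ^ k := pow_le_pow_left₀ (w_pos h1).le h2 k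
      _ = Real.exp (-(p * k)) := by
          rw [← Real.exp_nat_mul]
          congr 1
          ring
  have e2 : Real.exp (-(p * k)) ≤ Real.exp (-x) := Real.exp_le_exp.2 (by linarith)
  have e3 : Real.exp (-x) ≤ 1 / (1 + x) := by
    rw [Real.exp_neg, ← one_div]
    apply one_div_le_one_div_of_le (by linarith)
    have := Real.add_one_le_exp x
    linarith
  have e4 : 1 / (1 + x) ≤ 1 - x / 2 := by
    rw [div_le_iff₀ (by linarith)]
    nlinarith
  linarith

lemma g_mono (h0 : 0 < p) (h1 : p ≤ 1 / 2) {k l : ℕ} (h : k ≤ l) : g p k ≤ g p l := by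
  unfold g
  have := pow_le_pow_of_le_one (w_pos h1).le (by linarith : 1 - p ≤ 1) h
  linarith

lemma quarter (h0 : 0 < p) (h1 : p ≤ 1 / 2) {k : ℕ} (hk : p * k ≤ 1) : 1 / 4 ≤ (1 - p) ^ k := by
  have e1 : ((1 : ℝ) + (-(1 / 2))) ^ (2 * p) ≤ 1 + (2 * p) * (-(1 / 2)) :=
    rpow_one_add_le_one_add_mul_self (by norm_num) (by linarith) (by linarith)
  have e2 : ((1 : ℝ) / 2) ^ (2 * p) ≤ 1 - p := by
    have a : (1 : ℝ) + (-(1 / 2)) = 1 / 2 := by norm_num
    rw [a] at e1
    linarith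
  have e3 : (((1 : ℝ) / 2) ^ (2 * p)) ^ k ≤ (1 - p) ^ k :=
    pow_le_pow_left₀ (Real.rpow_nonneg (by norm_num) _) e2 k
  have e4 : (((1 : ℝ) / 2) ^ (2 * p)) ^ k = ((1 : ℝ) / 2) ^ (2 * p * k) := by
    rw [← Real.rpow_natCast, ← Real.rpow_mul (by norm_num)]
  have e5 : ((1 : ℝ) / 2) ^ (2 : ℝ) ≤ ((1 : ℝ) / 2) ^ (2 * p * k) :=
    Real.rpow_le_rpow_of_exponent_ge (by norm_num) (by norm_num) (by nlinarith)
  have e6 : ((1 : ℝ) / 2) ^ (2 : ℝ) = 1 / 4 := by
    norm_num
  rw [e4] at e3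
  rw [e6] at e5
  exact e5.trans e3

end FPr

open FPr

theorem fprop : S_FPROP := by
  intro p h0 h1
  refine ⟨fun k hk => ⟨g_pos h0 h1 hk, g_lt_one h1 k, f_nonneg h0 h1 hk⟩, g_le h1, g_ge h0 h1,
    ?_, ?_, ?_, ?_, ?_⟩
  · intro k l hk hl
    unfold f
    have := Real.log_le_log (g_pos h0 h1 hk) (g_mono h0 h1 hl)
    linarith
  · intro k hk
    unfold f
    have a0 := g_pos h0 h1 hk
    have a1 := g_pos h0 h1 (by omega : 1 ≤ k + 1)
    have a2 := g_pos h0 h1 (by omega : 1 ≤ k + 2)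
    have key : g p k * g p (k + 2) ≤ g p (k + 1) * g p (k + 1) := by
      unfold g
      have hx := pow_pos' h1 k
      have e : (1 - (1 - p) ^ (k + 1)) * (1 - (1 - p) ^ (k + 1)) -
          (1 - (1 - p) ^ k) * (1 - (1 - p) ^ (k + 2)) = (1 - p) ^ k * p ^ 2 := by
        ring
      have e2 : 0 ≤ (1 - p) ^ k * p ^ 2 := by positivity
      linarith
    have h2 := Real.log_le_log (mul_pos a0 a2) key
    rw [Real.log_mul a0.ne' a2.ne', Real.log_mul a1.ne' a1.ne'] at h2
    linarith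
  · intro k Z hk hZ hpk hpZ
    have a0 := g_pos h0 h1 hk
    have a1 := g_pos h0 h1 (by omega : 1 ≤ k + Z)
    have hk0 : (0 : ℝ) < k := by exact_mod_cast hk
    have hZ0 : (0 : ℝ) < Z := by exact_mod_cast hZ
    have e1 : g p (k + Z) = g p k + (1 - p) ^ k * g p Z := by
      unfold g
      ring
    have e2 : p * Z / 2 ≤ g p Z := by
      have := g_ge h0 h1 Z
      rwa [min_eq_right hpZ] at this
    have e3 := g_le h1 k
    have e4 := quarter h0 h1 hpk
    have e5 : p * Z / 8 ≤ (1 - p) ^ k * g p Z := by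
      have e6 : (1 : ℝ) / 4 * (p * Z / 2) ≤ (1 - p) ^ k * g p Z :=
        mul_le_mul e4 e2 (by positivity) (by linarith)
      linarith
    unfold f
    have e7 : -Real.log (g p k) - -Real.log (g p (k + Z)) = -Real.log (g p k / g p (k + Z)) := by
      rw [Real.log_div a0.ne' a1.ne']
      ring
    rw [e7]
    have e8 : Real.log (g p k / g p (k + Z)) ≤ g p k / g p (k + Z) - 1 :=
      Real.log_le_sub_one_of_pos (div_pos a0 a1)
    have e9 : g p k / g p (k + Z) ≤ 1 - Z / (8 * k + Z) := by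
      have h3 : (1 : ℝ) - Z / (8 * k + Z) = 8 * k / (8 * k + Z) := by
        field_simp
        ring
      rw [h3, div_le_div_iff₀ a1 (by positivity), e1]
      have h4 : g p k * Z ≤ 8 * k * ((1 - p) ^ k * g p Z) := by
        have h5 : g p k * Z ≤ p * k * Z := mul_le_mul_of_nonneg_right e3 hZ0.le
        have h6 : 8 * (k : ℝ) * (p * Z / 8) ≤ 8 * k * ((1 - p) ^ k * g p Z) :=
          mul_le_mul_of_nonneg_left e5 (by positivity)
        nlinarith
      nlinarith
    linarith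
  · intro k hk
    unfold f
    have e1 : g p 1 = p := by
      unfold g
      ring
    have e2 : p ≤ g p k := by
      have := g_mono h0 h1 hk
      rwa [e1] at this
    rw [one_div, Real.log_inv]
    have := Real.log_le_log h0 e2
    linarith
  · intro k hk hpk
    unfold f
    have hk0 : (0 : ℝ) < k := by exact_mod_cast hk
    have e2 : p * k / 2 ≤ g p k := by
      have := g_ge h0 h1 k
      rwa [min_eq_right hpk] at this
    have e3 := Real.log_le_log (by positivity : 0 < p * k / 2) e2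
    rw [Real.log_div (by positivity) (by norm_num)] at e3
    rw [one_div, Real.log_inv]
    linarith

end Pool.Agent.J6H44.BP
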