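import Pool.Agent.J6H44.BP.Stm

/-!
# Modified bootstrap percolation: module GAIN (helper92)
-/

set_option autoImplicit false

open Finset

namespace Pool.Agent.J6H44.BP

namespace PGAIN

lemma sum_k (n : ℕ) : ∑ k ∈ Finset.Icc 1 n, (k : ℝ) = n * (n + 1) / 2 := by
  induction n with
  | zero => simp
  | succ n ih =>
    rw [Finset.sum_Icc_succ_top (by omega), ih]
    push_cast
    ring

lemma sum_sub (n : ℕ) : ∑ k ∈ Finset.Icc 1 n, ((n : ℝ) - k) = n * (n - 1) / 2 := by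
  rw [Finset.sum_sub_distrib, sum_k, Finset.sum_const, Nat.card_Icc, nsmul_eq_mul]
  push_cast [Nat.add_sub_cancel]
  ring

/-- the deficit -/
noncomputable def D (p : ℝ) (Z m : ℕ) : ℝ :=
  ∑ k ∈ Finset.Icc 1 m, f p (k + Z) - m * f p (m + Z)

lemma D_mono {p : ℝ} {Z : ℕ} (h : ∀ k l : ℕ, 1 ≤ k → k ≤ l → f p l ≤ f p k) {m n : ℕ}
    (hm : 1 ≤ m) (hmn : m ≤ n) : D p Z m ≤ D p Z n := by
  induction n, hmn using Nat.le_induction with
  | base => exact le_rfl
  | succ n hn ih =>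
    refine ih.trans ?_
    unfold D
    rw [Finset.sum_Icc_succ_top (by omega)]
    have h1 := h (n + Z) (n + 1 + Z) (by omega) (by omega)
    have h2 : (0 : ℝ) ≤ n := Nat.cast_nonneg n
    push_cast
    nlinarith

lemma D_ge {p : ℝ} {Z m : ℕ} (hZ : 1 ≤ Z) (hmZ : m ≤ Z)
    (h : ∀ k Z : ℕ, 1 ≤ k → 1 ≤ Z → p * k ≤ 1 → p * Z ≤ 1 →
      (Z : ℝ) / (8 * k + Z) ≤ f p k - f p (k + Z)) (hp : 0 < p) (hpZ : p * (2 * Z) ≤ 1) :
    (m : ℝ) * (m - 1) / (32 * Z) ≤ D p Z m := by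
  have hZ0 : (0 : ℝ) < Z := by exact_mod_cast hZ
  have h1 : D p Z m = ∑ k ∈ Finset.Icc 1 m, (f p (k + Z) - f p (m + Z)) := by
    unfold D
    rw [Finset.sum_sub_distrib, Finset.sum_const, Nat.card_Icc, nsmul_eq_mul]
    simp
  have h2 : ∀ k ∈ Finset.Icc 1 m, ((m : ℝ) - k) * (1 / (16 * Z)) ≤
      f p (k + Z) - f p (m + Z) := by
    intro k hk
    rw [Finset.mem_Icc] at hk
    rcases hk.2.eq_or_lt with h3 | h3
    · rw [h3]; simp
    · have hkZ : ((k + Z : ℕ) : ℝ) ≤ 2 * Z := by push_cast; have : (k : ℝ) ≤ Z := by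
                                                    exact_mod_cast (by omega : k ≤ Z)
                                                 linarith
      have hmk : ((m - k : ℕ) : ℝ) ≤ 2 * Z := by
        have : ((m - k : ℕ) : ℝ) ≤ Z := by exact_mod_cast (by omega : m - k ≤ Z)
        linarith
      have h4 := h (k + Z) (m - k) (by omega) (by omega)
        ((mul_le_mul_of_nonneg_left hkZ hp.le).trans hpZ)
        ((mul_le_mul_of_nonneg_left hmk hp.le).trans hpZ)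
      rw [show k + Z + (m - k) = m + Z by omega] at h4
      refine le_trans ?_ h4
      rw [mul_one_div]
      have hmk2 : ((m - k : ℕ) : ℝ) = (m : ℝ) - k := by rw [Nat.cast_sub h3.le]
      rw [hmk2]
      have h5 : (0 : ℝ) ≤ (m : ℝ) - k := by rw [← hmk2]; exact Nat.cast_nonneg _
      apply div_le_div_of_nonneg_left h5
      · have : (0 : ℝ) ≤ k := Nat.cast_nonneg k
        push_cast
        linarith
      · push_cast
        have h6 : (m : ℝ) ≤ Z := by exact_mod_cast hmZ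
        have h7 : (k : ℝ) ≤ m := by exact_mod_cast hk.2
        linarith
  rw [h1]
  refine le_trans (le_of_eq ?_) (Finset.sum_le_sum h2)
  rw [← Finset.sum_mul, sum_sub]
  field_simp
  ring

end PGAIN

open PGAIN in
theorem gain (hf : S_FPROP) : S_GAIN := by
  intro δ hδ hδ1
  refine ⟨(1 / 64 : ℝ) ^ (2 / δ), by positivity, fun p hp hp0 m hm => ?_⟩
  have hbase : p ≤ (1 / 64 : ℝ) ^ (4 : ℝ) := by
    refine hp0.trans ?_
    apply Real.rpow_le_rpow_of_exponent_ge (by norm_num) (by norm_num)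
    rw [le_div_iff₀ hδ]
    linarith
  have h64 : p ^ (δ / 2) ≤ 1 / 64 := by
    calc p ^ (δ / 2) ≤ ((1 / 64 : ℝ) ^ (2 / δ)) ^ (δ / 2) :=
          Real.rpow_le_rpow hp.le hp0 (by positivity)
      _ = 1 / 64 := by
          rw [← Real.rpow_mul (by norm_num), show 2 / δ * (δ / 2) = 1 by field_simp, Real.rpow_one]
  have hp4 : p ^ (1 / 4 : ℝ) ≤ 1 / 64 := by
    calc p ^ (1 / 4 : ℝ) ≤ ((1 / 64 : ℝ) ^ (4 : ℝ)) ^ (1 / 4 : ℝ) :=
          Real.rpow_le_rpow hp.le hbase (by norm_num)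
      _ = 1 / 64 := by
          rw [← Real.rpow_mul (by norm_num)]; norm_num
  have hp64 : p ≤ 1 / 64 := by
    refine hbase.trans ?_
    rw [show (4 : ℝ) = ((4 : ℕ) : ℝ) by norm_num, Real.rpow_natCast]
    norm_num
  have hp1 : p ≤ 1 := by linarith
  obtain ⟨-, -, -, hmono, -, hdiff, -, -⟩ := hf p hp (by linarith)
  set X : ℝ := p ^ (-(1 / 2) - 6 * δ) with hX
  set N : ℝ := p ^ (-(1 / 2) - 4 * δ) with hN
  have hX0 : 0 < X := Real.rpow_pos_of_pos hp _
  have hN0 : 0 < N := Real.rpow_pos_of_pos hp _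
  have hN1 : 1 ≤ N := Real.one_le_rpow_of_pos_of_le_one_of_nonpos hp hp1 (by linarith)
  have hNX : N ≤ X := Real.rpow_le_rpow_of_exponent_ge hp hp1 (by linarith)
  have hX1 : 1 ≤ X := hN1.trans hNX
  have hZdef : Zz δ p = ⌊X⌋₊ + 1 := rfl
  set Z := Zz δ p with hZ
  have hZ1 : 1 ≤ Z := by omega
  have hZX : (Z : ℝ) ≤ X + 1 := by
    rw [hZdef]; push_cast
    linarith [Nat.floor_le hX0.le]
  set m0 : ℕ := ⌊N⌋₊ + 1 with hm0
  have hm0Z : m0 ≤ Z := by
    rw [hZdef, hm0]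
    have := Nat.floor_mono hNX
    omega
  have hm0m : m0 ≤ m := by
    have := (Nat.floor_lt hN0.le).2 hm
    omega
  have hm0N : N < m0 := by rw [hm0]; push_cast; exact Nat.lt_floor_add_one N
  have hm02 : 2 ≤ m0 := by
    have := Nat.floor_mono hN1
    rw [Nat.floor_one] at this
    omega
  have hpX : p * X ≤ 1 / 64 := by
    have e1 : p * X = p ^ (1 / 2 - 6 * δ) := by
      rw [hX]
      nth_rewrite 1 [← Real.rpow_one p]
      rw [← Real.rpow_add hp]
      congr 1; ring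
    rw [e1]
    exact (Real.rpow_le_rpow_of_exponent_ge hp hp1 (by linarith)).trans hp4
  have hpZ : p * (2 * Z) ≤ 1 := by
    have := mul_le_mul_of_nonneg_left hZX hp.le
    nlinarith
  have hD := (D_ge hZ1 hm0Z hdiff hp hpZ).trans (D_mono (Z := Z) hmono (by omega) hm0m)
  have hgoal : 2 * (∑ k ∈ Finset.Icc 1 m, f p (k + Z) - m * f p (m + Z)) = 2 * D p Z m := rfl
  rw [hgoal]
  have hm0R : (2 : ℝ) ≤ m0 := by exact_mod_cast hm02
  have hZ0 : (0 : ℝ) < Z := by exact_mod_cast hZ1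
  have hZ2 : (Z : ℝ) ≤ 2 * X := by linarith
  have h1 : N ^ 2 / (64 * X) ≤ 2 * ((m0 : ℝ) * (m0 - 1) / (32 * Z)) := by
    have e1 : N ^ 2 / 2 ≤ (m0 : ℝ) * (m0 - 1) := by nlinarith
    have e2 : 2 * ((m0 : ℝ) * (m0 - 1) / (32 * Z)) = ((m0 : ℝ) * (m0 - 1)) / (16 * Z) := by
      field_simp; ring
    have e3 : N ^ 2 / (64 * X) = (N ^ 2 / 2) / (32 * X) := by field_simp; ring
    rw [e2, e3]
    exact div_le_div₀ (by nlinarith) e1 (by positivity) (by linarith)
  have h2 : p ^ (-(1 / 2) - (3 / 2) * δ) ≤ N ^ 2 / (64 * X) := by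
    have e1 : N ^ 2 / (64 * X) = p ^ (-(1 / 2) - 2 * δ) * (1 / 64) := by
      have e2 : N ^ 2 = p ^ (-(1 / 2) - 2 * δ) * X := by
        rw [hN, hX, ← Real.rpow_natCast, ← Real.rpow_mul hp.le, ← Real.rpow_add hp]
        congr 1; push_cast; ring
      rw [e2]
      field_simp
    have e3 : p ^ (-(1 / 2) - (3 / 2) * δ) = p ^ (-(1 / 2) - 2 * δ) * p ^ (δ / 2) := by
      rw [← Real.rpow_add hp]
      congr 1; ring
    rw [e1, e3]
    exact mul_le_mul_of_nonneg_left h64 (Real.rpow_pos_of_pos hp _).le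
  linarith

end Pool.Agent.J6H44.BP
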