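import Pool.Agent.J6H44.BP.Stm

/-!
# The growth lemma of the BP project (`S_GROW`)
-/

set_option autoImplicit false

open Finset

namespace Pool.Agent.J6H44.BP

namespace PGrow

section gen

variable {α : Type*} [DecidableEq α]

/-- all the sets `F i`, `i ∈ s`, are hit -/
def All {ι : Type*} (s : Finset ι) (F : ι → Finset α) : Set (Finset α) :=
  {A | ∀ i ∈ s, ∃ e ∈ F i, e ∈ A}

omit [DecidableEq α] in
theorem All_up {ι : Type*} (s : Finset ι) (F : ι → Finset α) : Up (All s F) := by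
  intro S T hST h i hi
  obtain ⟨e, he, hes⟩ := h i hi
  exact ⟨e, he, hST hes⟩

theorem q_univ (p : ℝ) (Λ : Finset α) : q p Λ (Set.univ : Set (Finset α)) = 1 := by
  induction Λ using Finset.induction_on with
  | empty => simp [q, wt]
  | insert e Λ he ih =>
    rw [q_insert p he]
    have e1 : addE e (Set.univ : Set (Finset α)) = Set.univ := by
      ext S; simp [addE]
    rw [e1, ih]
    ring

theorem q_congr (p : ℝ) (Λ : Finset α) {A B : Set (Finset α)}
    (h : ∀ S, S ⊆ Λ → (S ∈ A ↔ S ∈ B)) : q p Λ A = q p Λ B := by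
  classical
  unfold q
  refine Finset.sum_congr rfl fun S hS => ?_
  rw [Finset.mem_powerset] at hS
  simp only [h S hS]

/-- the set `F` is hit -/
def Hit (F : Finset α) : Set (Finset α) := {A | ∃ e ∈ F, e ∈ A}

omit [DecidableEq α] in
theorem Hit_up (F : Finset α) : Up (Hit F) := by
  rintro S T hST ⟨e, he, hes⟩
  exact ⟨e, he, hST hes⟩

theorem q_hit_le {p : ℝ} (h0 : 0 ≤ p) (h1 : p ≤ 1) (Λ : Finset α) :
    ∀ F : Finset α, q p Λ (Hit F) ≤ 1 - (1 - p) ^ F.card := by
  have hp : 0 ≤ 1 - p := by linarith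
  induction Λ using Finset.induction_on with
  | empty =>
    intro F
    have e1 : q p (∅ : Finset α) (Hit F) = 0 := by
      simp [q, Hit]
    rw [e1]
    have := pow_le_one₀ (n := F.card) hp (by linarith)
    linarith
  | insert e Λ he ih =>
    intro F
    rw [q_insert p he]
    by_cases heF : e ∈ F
    · have e1 : addE e (Hit F) = Set.univ := by
        ext S
        simp only [addE, Hit, Set.mem_ofPred_eq, Set.mem_univ, iff_true]
        exact ⟨e, heF, Finset.mem_insert_self _ _⟩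
      have e2 : q p Λ (Hit F) = q p Λ (Hit (F.erase e)) := by
        refine q_congr p Λ fun S hS => ?_
        constructor
        · rintro ⟨x, hx, hxS⟩
          refine ⟨x, Finset.mem_erase.2 ⟨?_, hx⟩, hxS⟩
          rintro rfl
          exact he (hS hxS)
        · rintro ⟨x, hx, hxS⟩
          exact ⟨x, Finset.mem_of_mem_erase hx, hxS⟩
      rw [e1, q_univ, e2]
      have h2 := ih (F.erase e)
      have h3 : F.card = (F.erase e).card + 1 := (Finset.card_erase_add_one heF).symm
      rw [h3, pow_succ]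
      nlinarith [mul_le_mul_of_nonneg_left h2 hp]
    · have e1 : addE e (Hit F) = Hit F := by
        ext S
        simp only [addE, Hit, Set.mem_ofPred_eq]
        constructor
        · rintro ⟨x, hx, hxS⟩
          rcases Finset.mem_insert.1 hxS with h | h
          · exact absurd (h ▸ hx) heF
          · exact ⟨x, hx, h⟩
        · rintro ⟨x, hx, hxS⟩
          exact ⟨x, hx, Finset.mem_insert_of_mem hxS⟩
      rw [e1]
      have := ih F
      linarith

theorem q_all_le {p : ℝ} (h0 : 0 ≤ p) (h1 : p ≤ 1) (Λ : Finset α) {ι : Type*} [DecidableEq ι]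
    (F : ι → Finset α) (s : Finset ι) (hd : ∀ i ∈ s, ∀ j ∈ s, i ≠ j → Disjoint (F i) (F j)) :
    q p Λ (All s F) ≤ ∏ i ∈ s, (1 - (1 - p) ^ (F i).card) := by
  have hp : 0 ≤ 1 - p := by linarith
  induction s using Finset.induction_on with
  | empty =>
    rw [Finset.prod_empty, ← q_univ p Λ]
    exact q_mono h0 h1 Λ fun S _ => Set.mem_univ S
  | insert i s hi ih =>
    rw [Finset.prod_insert hi]
    have h2 := ih fun a ha b hb => hd a (Finset.mem_insert_of_mem ha) b (Finset.mem_insert_of_mem hb)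
    have h3 : q p Λ (All (insert i s) F) ≤ q p Λ (box (Hit (F i)) (All s F)) := by
      refine q_mono h0 h1 Λ fun S hS => ?_
      refine ⟨S ∩ F i, S ∩ s.biUnion F, ?_, Finset.inter_subset_left, Finset.inter_subset_left,
        ?_, ?_⟩
      · refine Finset.disjoint_of_subset_left Finset.inter_subset_right
          (Finset.disjoint_of_subset_right Finset.inter_subset_right ?_)
        rw [Finset.disjoint_biUnion_right]
        intro j hj
        exact hd i (Finset.mem_insert_self _ _) j (Finset.mem_insert_of_mem hj)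
          (fun h => hi (h ▸ hj))
      · obtain ⟨e, he, heS⟩ := hS i (Finset.mem_insert_self _ _)
        exact ⟨e, he, Finset.mem_inter.2 ⟨heS, he⟩⟩
      · intro j hj
        obtain ⟨e, he, heS⟩ := hS j (Finset.mem_insert_of_mem hj)
        exact ⟨e, he, Finset.mem_inter.2 ⟨heS, Finset.mem_biUnion.2 ⟨j, hj, he⟩⟩⟩
    refine h3.trans ((bk h0 h1 Λ _ _ (Hit_up _) (All_up _ _)).trans ?_)
    have h4 : 0 ≤ 1 - (1 - p) ^ (F i).card := by
      have := pow_le_one₀ (n := (F i).card) hp (by linarith)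
      linarith
    exact mul_le_mul (q_hit_le h0 h1 Λ (F i)) h2 (q_nonneg h0 h1 _ _) h4

end gen

/-- the rows in `U` and the columns in `W` are hit in the window of `R` -/
def EE (R : Rc) (U W : Finset ℕ) : Set (Finset (ℕ × ℕ)) :=
  {A | (∀ r ∈ U, ∃ x, R.x ≤ x ∧ x < R.x + R.a ∧ (x, r) ∈ A) ∧
       (∀ c ∈ W, ∃ y, R.y ≤ y ∧ y < R.y + R.b ∧ (c, y) ∈ A)}

/-- the rows of `R` that do not meet `R1` -/
def rows (R1 R : Rc) : Finset ℕ :=
  (Finset.Ico R.y (R.y + R.b)).filter fun r => r < R1.y ∨ R1.y + R1.b ≤ r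

/-- the columns of `R` that do not meet `R1` -/
def cols (R1 R : Rc) : Finset ℕ :=
  (Finset.Ico R.x (R.x + R.a)).filter fun c => c < R1.x ∨ R1.x + R1.a ≤ c

theorem mem_rows (R1 R : Rc) (r : ℕ) : r ∈ rows R1 R ↔
    (R.y ≤ r ∧ r < R.y + R.b) ∧ (r < R1.y ∨ R1.y + R1.b ≤ r) := by
  simp [rows, Finset.mem_filter, Finset.mem_Ico]

theorem mem_cols (R1 R : Rc) (c : ℕ) : c ∈ cols R1 R ↔
    (R.x ≤ c ∧ c < R.x + R.a) ∧ (c < R1.x ∨ R1.x + R1.a ≤ c) := by
  simp [cols, Finset.mem_filter, Finset.mem_Ico]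

theorem card_rows {R1 R : Rc} (h : R1.Le R) : (rows R1 R).card = R.b - R1.b := by
  obtain ⟨h1, h2, h3, h4⟩ := h
  have e : rows R1 R = Finset.Ico R.y (R.y + R.b) \ Finset.Ico R1.y (R1.y + R1.b) := by
    ext r
    simp only [mem_rows, Finset.mem_sdiff, Finset.mem_Ico]
    omega
  rw [e, Finset.card_sdiff_of_subset, Nat.card_Ico, Nat.card_Ico]
  · omega
  · intro r hr
    simp only [Finset.mem_Ico] at hr ⊢
    omega

theorem card_cols {R1 R : Rc} (h : R1.Le R) : (cols R1 R).card = R.a - R1.a := by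
  obtain ⟨h1, h2, h3, h4⟩ := h
  have e : cols R1 R = Finset.Ico R.x (R.x + R.a) \ Finset.Ico R1.x (R1.x + R1.a) := by
    ext r
    simp only [mem_cols, Finset.mem_sdiff, Finset.mem_Ico]
    omega
  rw [e, Finset.card_sdiff_of_subset, Nat.card_Ico, Nat.card_Ico]
  · omega
  · intro r hr
    simp only [Finset.mem_Ico] at hr ⊢
    omega

theorem Gr_eq (R1 R : Rc) : Gr R1 R = EE R (rows R1 R) (cols R1 R) := by
  ext A
  simp only [Gr, EE, Set.mem_ofPred_eq]
  constructor
  · rintro ⟨h1, h2⟩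
    refine ⟨fun r hr => ?_, fun c hc => ?_⟩
    · rw [mem_rows] at hr
      exact h1 r hr.1.1 hr.1.2 hr.2
    · rw [mem_cols] at hc
      exact h2 c hc.1.1 hc.1.2 hc.2
  · rintro ⟨h1, h2⟩
    refine ⟨fun r a b c => h1 r ?_, fun r a b c => h2 r ?_⟩
    · rw [mem_rows]; exact ⟨⟨a, b⟩, c⟩
    · rw [mem_cols]; exact ⟨⟨a, b⟩, c⟩

/-- the segments -/
def seg (R1 : Rc) : ℕ ⊕ ℕ → Finset (ℕ × ℕ)
  | .inl r => Finset.Ico R1.x (R1.x + R1.a) ×ˢ {r}
  | .inr c => {c} ×ˢ Finset.Ico R1.y (R1.y + R1.b)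

/-- without the corner sites -/
theorem base {p : ℝ} (h0 : 0 ≤ p) (h1 : p ≤ 1) (Λ : Finset (ℕ × ℕ)) (R1 R : Rc)
    (hΛ : ∀ c r, (c, r) ∈ Λ → ¬ (c ∈ cols R1 R ∧ r ∈ rows R1 R)) (U W : Finset ℕ)
    (hU : U ⊆ rows R1 R) (hW : W ⊆ cols R1 R) :
    q p Λ (EE R U W) ≤ g p R1.a ^ U.card * g p R1.b ^ W.card := by
  have h2 : q p Λ (EE R U W) ≤ q p Λ (All (U.disjSum W) (seg R1)) := by
    have e : q p Λ (EE R U W) = q p Λ (EE R U W ∩ {A | A ⊆ Λ}) := by
      refine q_congr p Λ fun S hS => ?_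
      simp only [Set.mem_inter_iff, Set.mem_ofPred_eq, hS, and_true]
    rw [e]
    refine q_mono h0 h1 Λ fun S hS => ?_
    obtain ⟨⟨hr, hc⟩, hS2⟩ := hS
    intro i hi
    rcases i with r | c
    · rw [Finset.inl_mem_disjSum] at hi
      obtain ⟨x, hx1, hx2, hx3⟩ := hr r hi
      refine ⟨(x, r), ?_, hx3⟩
      have h3 := hΛ x r (hS2 hx3)
      have h4 := hU hi
      have h5 : ¬ x ∈ cols R1 R := fun h => h3 ⟨h, h4⟩
      rw [mem_cols] at h5
      simp only [seg, Finset.mem_product, Finset.mem_Ico, Finset.mem_singleton, and_true]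
      omega
    · rw [Finset.inr_mem_disjSum] at hi
      obtain ⟨y, hy1, hy2, hy3⟩ := hc c hi
      refine ⟨(c, y), ?_, hy3⟩
      have h3 := hΛ c y (hS2 hy3)
      have h4 := hW hi
      have h5 : ¬ y ∈ rows R1 R := fun h => h3 ⟨h4, h⟩
      rw [mem_rows] at h5
      simp only [seg, Finset.mem_product, Finset.mem_Ico, Finset.mem_singleton, true_and]
      omega
  refine h2.trans ((q_all_le h0 h1 Λ (seg R1) (U.disjSum W) ?_).trans (le_of_eq ?_))
  · intro i hi j hj hij
    rw [Finset.disjoint_left]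
    rintro ⟨x, y⟩ hx hy
    rcases i with r | c <;> rcases j with r' | c'
    · simp only [seg, Finset.mem_product, Finset.mem_Ico, Finset.mem_singleton] at hx hy
      exact hij (by rw [← hx.2, ← hy.2])
    · simp only [seg, Finset.mem_product, Finset.mem_Ico, Finset.mem_singleton] at hx hy
      rw [Finset.inl_mem_disjSum] at hi
      have := hU hi
      rw [mem_rows] at this
      omega
    · simp only [seg, Finset.mem_product, Finset.mem_Ico, Finset.mem_singleton] at hx hy
      rw [Finset.inl_mem_disjSum] at hj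
      have := hU hj
      rw [mem_rows] at this
      omega
    · simp only [seg, Finset.mem_product, Finset.mem_Ico, Finset.mem_singleton] at hx hy
      exact hij (by rw [← hx.1, ← hy.1])
  · rw [Finset.prod_disjSum]
    have e1 : ∀ r : ℕ, (1 - (1 - p) ^ (seg R1 (.inl r)).card) = g p R1.a := by
      intro r
      simp [seg, g]
    have e2 : ∀ r : ℕ, (1 - (1 - p) ^ (seg R1 (.inr r)).card) = g p R1.b := by
      intro r
      simp [seg, g]
    simp only [e1, e2, Finset.prod_const]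

theorem g_pos {p : ℝ} (h0 : 0 < p) (h1 : p < 1) {k : ℕ} (hk : 1 ≤ k) : 0 < g p k := by
  unfold g
  have := pow_lt_one₀ (n := k) (by linarith : 0 ≤ 1 - p) (by linarith) (by omega)
  linarith

theorem g_le_one {p : ℝ} (h1 : p < 1) (k : ℕ) : g p k ≤ 1 := by
  unfold g
  have := pow_nonneg (by linarith : 0 ≤ 1 - p) k
  linarith

/-- a power with an exponent that is smaller by at most one -/
theorem pow_erase {x : ℝ} (hx : 0 < x) (hx1 : x ≤ 1) (U : Finset ℕ) (r : ℕ) :
    x ^ (U.erase r).card ≤ x ^ U.card / x := by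
  rw [le_div_iff₀ hx, ← pow_succ]
  refine pow_le_pow_of_le_one hx.le hx1 ?_
  have := Finset.pred_card_le_card_erase (s := U) (a := r)
  omega

/-- with the corner sites -/
theorem corner {p : ℝ} (h0 : 0 < p) (h1 : p < 1) (Λ0 : Finset (ℕ × ℕ)) (R1 R : Rc) (hR1 : R1.Ok)
    (hΛ : ∀ c r, (c, r) ∈ Λ0 → ¬ (c ∈ cols R1 R ∧ r ∈ rows R1 R)) (C : Finset (ℕ × ℕ)) :
    Disjoint C Λ0 → ∀ U W : Finset ℕ, U ⊆ rows R1 R → W ⊆ cols R1 R →
    q p (C ∪ Λ0) (EE R U W) ≤ g p R1.a ^ U.card * g p R1.b ^ W.card *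
      (1 - p + p / (g p R1.a * g p R1.b)) ^ C.card := by
  have ga := g_pos h0 h1 hR1.1
  have gb := g_pos h0 h1 hR1.2
  have ga1 := g_le_one h1 R1.a
  have gb1 := g_le_one h1 R1.b
  have hp : 0 < 1 - p := by linarith
  set x : ℝ := 1 - p + p / (g p R1.a * g p R1.b) with hx
  have hx0 : 0 < x := by positivity
  induction C using Finset.induction_on with
  | empty =>
    intro _ U W hU hW
    rw [Finset.empty_union, Finset.card_empty, pow_zero, mul_one]
    exact base h0.le h1.le Λ0 R1 R hΛ U W hU hW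
  | insert e C he ih =>
    intro hd U W hU hW
    rw [Finset.disjoint_insert_left] at hd
    have he' : e ∉ C ∪ Λ0 := by
      rw [Finset.mem_union, not_or]
      exact ⟨he, hd.1⟩
    rw [Finset.insert_union, q_insert p he', Finset.card_insert_of_notMem he, pow_succ]
    have a1 := ih hd.2 U W hU hW
    have a2 := ih hd.2 (U.erase e.2) (W.erase e.1) ((Finset.erase_subset _ _).trans hU)
      ((Finset.erase_subset _ _).trans hW)
    have a3 : q p (C ∪ Λ0) (addE e (EE R U W)) ≤
        q p (C ∪ Λ0) (EE R (U.erase e.2) (W.erase e.1)) := by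
      refine q_mono h0.le h1.le _ fun S hS => ?_
      obtain ⟨b1, b2⟩ := hS
      constructor
      · intro r hr
        rw [Finset.mem_erase] at hr
        obtain ⟨z, hz1, hz2, hz3⟩ := b1 r hr.2
        refine ⟨z, hz1, hz2, ?_⟩
        rcases Finset.mem_insert.1 hz3 with h | h
        · exact absurd (by rw [← h]) hr.1
        · exact h
      · intro c hc
        rw [Finset.mem_erase] at hc
        obtain ⟨z, hz1, hz2, hz3⟩ := b2 c hc.2
        refine ⟨z, hz1, hz2, ?_⟩
        rcases Finset.mem_insert.1 hz3 with h | h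
        · exact absurd (by rw [← h]) hc.1
        · exact h
    have a4 : g p R1.a ^ (U.erase e.2).card * g p R1.b ^ (W.erase e.1).card * x ^ C.card ≤
        (g p R1.a ^ U.card / g p R1.a) * (g p R1.b ^ W.card / g p R1.b) * x ^ C.card := by
      refine mul_le_mul_of_nonneg_right ?_ (by positivity)
      exact mul_le_mul (pow_erase ga ga1 U e.2) (pow_erase gb gb1 W e.1) (by positivity)
        (by positivity)
    have a5 := a3.trans (a2.trans a4)
    calc (1 - p) * q p (C ∪ Λ0) (EE R U W) + p * q p (C ∪ Λ0) (addE e (EE R U W))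
        ≤ (1 - p) * (g p R1.a ^ U.card * g p R1.b ^ W.card * x ^ C.card) +
          p * ((g p R1.a ^ U.card / g p R1.a) * (g p R1.b ^ W.card / g p R1.b) * x ^ C.card) :=
        add_le_add (mul_le_mul_of_nonneg_left a1 hp.le) (mul_le_mul_of_nonneg_left a5 h0.le)
      _ = g p R1.a ^ U.card * g p R1.b ^ W.card * (x ^ C.card * x) := by
        rw [hx]
        field_simp

end PGrow

open PGrow in
theorem grow : S_GROW := by
  intro p h0 h1 Λ R1 R hR1 hle
  classical
  have ga := g_pos h0 h1 hR1.1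
  have gb := g_pos h0 h1 hR1.2
  have ga1 := g_le_one h1 R1.a
  have gb1 := g_le_one h1 R1.b
  have hp : 0 < 1 - p := by linarith
  set C : Finset (ℕ × ℕ) := Λ ∩ (cols R1 R ×ˢ rows R1 R) with hC
  set Λ0 : Finset (ℕ × ℕ) := Λ \ (cols R1 R ×ˢ rows R1 R) with hΛ0
  have e1 : Λ = C ∪ Λ0 := by
    rw [hC, hΛ0]
    ext v
    simp only [Finset.mem_union, Finset.mem_inter, Finset.mem_sdiff]
    tauto
  have e2 : Disjoint C Λ0 := by
    rw [Finset.disjoint_left]
    intro v hv hv'
    rw [hC, Finset.mem_inter] at hv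
    rw [hΛ0, Finset.mem_sdiff] at hv'
    exact hv'.2 hv.2
  have e3 : ∀ c r, (c, r) ∈ Λ0 → ¬ (c ∈ cols R1 R ∧ r ∈ rows R1 R) := by
    intro c r h h'
    rw [hΛ0, Finset.mem_sdiff, Finset.mem_product] at h
    exact h.2 h'
  have h2 := corner h0 h1 Λ0 R1 R hR1 e3 C e2 (rows R1 R) (cols R1 R) (Finset.Subset.refl _)
    (Finset.Subset.refl _)
  rw [← e1, ← Gr_eq, card_rows hle, card_cols hle] at h2
  refine h2.trans ?_
  unfold gr
  refine mul_le_mul_of_nonneg_left ?_ (by positivity)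
  have h3 : C.card ≤ (R.a - R1.a) * (R.b - R1.b) := by
    rw [← card_cols hle, ← card_rows hle, ← Finset.card_product]
    exact Finset.card_le_card Finset.inter_subset_right
  have hgg : 0 < g p R1.a * g p R1.b := mul_pos ga gb
  have hgg1 : g p R1.a * g p R1.b ≤ 1 := mul_le_one₀ ga1 gb.le gb1
  have h4 : p ≤ p / (g p R1.a * g p R1.b) := by
    rw [le_div_iff₀ hgg]
    nlinarith
  have h5 : 1 ≤ 1 - p + p / (g p R1.a * g p R1.b) := by linarith
  have h6 : 1 - p + p / (g p R1.a * g p R1.b) ≤ Real.exp (p / (g p R1.a * g p R1.b)) := by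
    have := Real.add_one_le_exp (p / (g p R1.a * g p R1.b))
    linarith
  calc (1 - p + p / (g p R1.a * g p R1.b)) ^ C.card
      ≤ (1 - p + p / (g p R1.a * g p R1.b)) ^ ((R.a - R1.a) * (R.b - R1.b)) :=
        pow_le_pow_right₀ h5 h3
    _ ≤ Real.exp (p / (g p R1.a * g p R1.b)) ^ ((R.a - R1.a) * (R.b - R1.b)) :=
        pow_le_pow_left₀ (by linarith) h6 _
    _ = Real.exp (p * ((R.a - R1.a : ℕ) : ℝ) * ((R.b - R1.b : ℕ) : ℝ) /
          (g p R1.a * g p R1.b)) := by
        rw [← Real.exp_nat_mul]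
        congr 1
        push_cast
        ring

end Pool.Agent.J6H44.BP
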