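import Pool.Agent.J6H44.BP.Stm

/-!
# Harris' inequality and independence for random subsets
-/

set_option autoImplicit false

open Finset

namespace Pool.Agent.J6H44.BP

namespace PINDEP

theorem addE_inter (e : ℕ × ℕ) (E F : Set (Finset (ℕ × ℕ))) :
    addE e (E ∩ F) = addE e E ∩ addE e F := rfl

theorem q_empty_mem (p : ℝ) {E : Set (Finset (ℕ × ℕ))} (h : (∅ : Finset (ℕ × ℕ)) ∈ E) :
    q p ∅ E = 1 := by
  unfold q wt
  rw [Finset.powerset_empty, Finset.sum_singleton, Finset.prod_empty, if_pos h]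

theorem q_empty_not (p : ℝ) {E : Set (Finset (ℕ × ℕ))} (h : (∅ : Finset (ℕ × ℕ)) ∉ E) :
    q p ∅ E = 0 := by
  unfold q wt
  rw [Finset.powerset_empty, Finset.sum_singleton, Finset.prod_empty, if_neg h]

theorem dep_addE {e : ℕ × ℕ} {Λ1 : Finset (ℕ × ℕ)} {E : Set (Finset (ℕ × ℕ))}
    (hE : ∀ S, S ∈ E ↔ S ∩ Λ1 ∈ E) : ∀ S, S ∈ addE e E ↔ S ∩ Λ1 ∈ addE e E := by
  intro S
  have e1 : insert e (S ∩ Λ1) ∩ Λ1 = insert e S ∩ Λ1 := by
    ext x
    simp only [Finset.mem_inter, Finset.mem_insert]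
    tauto
  show insert e S ∈ E ↔ insert e (S ∩ Λ1) ∈ E
  rw [hE (insert e S), hE (insert e (S ∩ Λ1)), e1]

theorem dep_eq {e : ℕ × ℕ} {Λ1 : Finset (ℕ × ℕ)} {E : Set (Finset (ℕ × ℕ))}
    (hE : ∀ S, S ∈ E ↔ S ∩ Λ1 ∈ E) (he : e ∉ Λ1) : addE e E = E := by
  ext S
  show insert e S ∈ E ↔ S ∈ E
  rw [hE (insert e S), hE S]
  have e1 : insert e S ∩ Λ1 = S ∩ Λ1 := by
    ext x
    simp only [Finset.mem_inter, Finset.mem_insert]
    constructor
    · rintro ⟨h | h, h'⟩
      · exact absurd (h ▸ h') he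
      · exact ⟨h, h'⟩
    · rintro ⟨h, h'⟩
      exact ⟨Or.inr h, h'⟩
  rw [e1]

end PINDEP

open PINDEP

theorem harris : S_HARRIS := by
  intro p h0 h1 Λ
  induction Λ using Finset.induction_on with
  | empty =>
    intro E F _ _
    by_cases hE : (∅ : Finset (ℕ × ℕ)) ∈ E
    · by_cases hF : (∅ : Finset (ℕ × ℕ)) ∈ F
      · rw [q_empty_mem p hE, q_empty_mem p hF, q_empty_mem p (Set.mem_inter hE hF)]; norm_num
      · rw [q_empty_not p hF, q_empty_not p (fun h => hF (Set.mem_of_mem_inter_right h))]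
        norm_num
    · rw [q_empty_not p hE, q_empty_not p (fun h => hE (Set.mem_of_mem_inter_left h))]
      norm_num
  | insert e Λ he ih =>
    intro E F hE hF
    rw [q_insert p he, q_insert p he, q_insert p he, addE_inter]
    have i1 := ih E F hE hF
    have i2 := ih (addE e E) (addE e F) (hE.addE e) (hF.addE e)
    have m1 := q_mono h0 h1 Λ (sub_addE hE e)
    have m2 := q_mono h0 h1 Λ (sub_addE hF e)
    have hq : 0 ≤ 1 - p := by linarith
    have j1 := mul_le_mul_of_nonneg_left i1 hq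
    have j2 := mul_le_mul_of_nonneg_left i2 h0
    have j3 : 0 ≤ p * (1 - p) * ((q p Λ (addE e E) - q p Λ E) * (q p Λ (addE e F) - q p Λ F)) :=
      mul_nonneg (mul_nonneg h0 hq) (mul_nonneg (by linarith) (by linarith))
    have e1 : (1 - p) * (q p Λ E * q p Λ F) + p * (q p Λ (addE e E) * q p Λ (addE e F)) =
        ((1 - p) * q p Λ E + p * q p Λ (addE e E)) * ((1 - p) * q p Λ F + p * q p Λ (addE e F)) +
        p * (1 - p) * ((q p Λ (addE e E) - q p Λ E) * (q p Λ (addE e F) - q p Λ F)) := by ring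
    linarith

theorem indep : S_INDEP := by
  intro p h0 h1 Λ
  induction Λ using Finset.induction_on with
  | empty =>
    intro Λ1 Λ2 E F _ _ _
    by_cases hE : (∅ : Finset (ℕ × ℕ)) ∈ E
    · by_cases hF : (∅ : Finset (ℕ × ℕ)) ∈ F
      · rw [q_empty_mem p hE, q_empty_mem p hF, q_empty_mem p (Set.mem_inter hE hF)]; norm_num
      · rw [q_empty_not p hF, q_empty_not p (fun h => hF (Set.mem_of_mem_inter_right h))]
        norm_num
    · rw [q_empty_not p hE, q_empty_not p (fun h => hE (Set.mem_of_mem_inter_left h))]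
      norm_num
  | insert e Λ he ih =>
    intro Λ1 Λ2 E F hd hE hF
    rw [q_insert p he, q_insert p he, q_insert p he, addE_inter]
    have i1 := ih Λ1 Λ2 E F hd hE hF
    by_cases h : e ∈ Λ1
    · have h' : e ∉ Λ2 := Finset.disjoint_left.1 hd h
      rw [dep_eq hF h']
      have i2 := ih Λ1 Λ2 (addE e E) F hd (dep_addE hE) hF
      rw [i1, i2]
      ring
    · rw [dep_eq hE h]
      have i2 := ih Λ1 Λ2 E (addE e F) hd hE (dep_addE hF)
      rw [i1, i2]
      ring

end Pool.Agent.J6H44.BP
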