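import Pool.Agent.J6H44.BP.Stm

/-!
# Modified bootstrap percolation: module JOIN
-/

set_option autoImplicit false

open Finset

namespace Pool.Agent.J6H44.BP

namespace PJoin

lemma small (e : ℝ) (he : 0 < e) (K : ℝ) :
    ∃ p0 : ℝ, 0 < p0 ∧ ∀ p : ℝ, 0 < p → p ≤ p0 → K ≤ p ^ (-e) := by
  have hK : 0 < max K 1 := lt_of_lt_of_le one_pos (le_max_right _ _)
  refine ⟨(max K 1) ^ (-(1/e)), Real.rpow_pos_of_pos hK _, fun p hp hp0 => ?_⟩
  have h1 : ((max K 1) ^ (-(1/e))) ^ (-e) ≤ p ^ (-e) :=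
    Real.rpow_le_rpow_of_nonpos hp hp0 (by linarith)
  rw [← Real.rpow_mul hK.le] at h1
  have h2 : -(1/e) * -e = 1 := by field_simp
  rw [h2, Real.rpow_one] at h1
  exact (le_max_left _ _).trans h1

/-- all the numerical facts about small `p` -/
lemma numer (δ : ℝ) (hδ : 0 < δ) (hδ1 : δ ≤ 1/100) : ∃ p0 : ℝ, 0 < p0 ∧ ∀ p : ℝ, 0 < p → p ≤ p0 →
    p ≤ 1/2 ∧ p ^ (1/2 - δ) ≤ 1/2 ∧ (1:ℝ) ≤ LL p ∧
    Real.log (2 * (LL p : ℝ) ^ 12) ≤ p ^ (-(4*δ)) / 2 ∧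
    p ^ (1/2 - δ) * (2 * LL p) + Real.log (2 * (LL p : ℝ) ^ 12) ≤ p ^ (-(1/2) - (3/2) * δ) := by
  obtain ⟨q0, hq0, hq⟩ := small (δ/4) (by positivity) (1000/δ)
  refine ⟨min q0 (1/16), lt_min hq0 (by norm_num), fun p hp hp0 => ?_⟩
  have hy := hq p hp (hp0.trans (min_le_left _ _))
  have hp16 : p ≤ 1/16 := hp0.trans (min_le_right _ _)
  have hp1 : p ≤ 1 := by linarith
  set y : ℝ := p ^ (-(δ/4)) with hydef
  have hypos : 0 < y := Real.rpow_pos_of_pos hp _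
  set ℓ : ℝ := Real.log (1/p) with hl
  have hinv : (16:ℝ) ≤ 1/p := by
    rw [le_div_iff₀ hp]; linarith
  have hlpos : 1 ≤ ℓ := by
    have : Real.exp 1 ≤ 1/p := by
      have := Real.exp_one_lt_d9
      linarith
    calc (1:ℝ) = Real.log (Real.exp 1) := by rw [Real.log_exp]
      _ ≤ ℓ := Real.log_le_log (Real.exp_pos 1) this
  have hly : ℓ ≤ 4/δ * y := by
    have h1 := Real.log_le_rpow_div (x := 1/p) (ε := δ/4) (by positivity) (by positivity)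
    have h2 : (1/p) ^ (δ/4) = y := by
      rw [one_div, Real.inv_rpow hp.le, hydef, Real.rpow_neg hp.le]
    rw [h2] at h1
    calc ℓ ≤ y / (δ/4) := h1
      _ = 4/δ * y := by field_simp
  have hl1 : ℓ ≤ 1/p := by
    have := Real.log_le_sub_one_of_pos (x := 1/p) (by positivity)
    linarith
  have hLLle : (LL p : ℝ) ≤ 8/p * ℓ + 1 := by
    unfold LL
    have : 0 ≤ 8/p * Real.log (1/p) := by
      have : 0 ≤ Real.log (1/p) := by linarith
      positivity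
    exact (Nat.ceil_lt_add_one this).le
  have hLL9 : (LL p : ℝ) ≤ 9/p * ℓ := by
    have : 1 ≤ 1/p * ℓ := by nlinarith
    have e : 9/p * ℓ = 8/p * ℓ + 1/p * ℓ := by ring
    rw [e]; linarith
  have hLL1 : (1:ℝ) ≤ LL p := by
    have : 0 < LL p := by
      unfold LL
      rw [Nat.ceil_pos]
      have : 0 < Real.log (1/p) := by linarith
      positivity
    exact_mod_cast this
  have hLL3 : (LL p : ℝ) ≤ (1/p) ^ 3 := by
    calc (LL p : ℝ) ≤ 9/p * ℓ := hLL9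
      _ ≤ 9/p * (1/p) := by gcongr
      _ = 9 * (1/p)^2 := by ring
      _ ≤ (1/p) * (1/p)^2 := by gcongr; linarith
      _ = (1/p)^3 := by ring
  have hlog : Real.log (2 * (LL p : ℝ) ^ 12) ≤ 37 * ℓ := by
    have h1 : Real.log (2 * (LL p : ℝ)^12) ≤ Real.log ((1/p) * ((1/p)^3)^12) := by
      apply Real.log_le_log (by positivity)
      gcongr
      linarith
    have h2 : Real.log ((1/p) * ((1/p)^3)^12) = 37 * ℓ := by
      have : (1/p) * ((1/p)^3)^12 = (1/p)^37 := by ring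
      rw [this, Real.log_pow, ← hl]; norm_num
    linarith
  have hy2 : p ^ (-(δ/2)) = y * y := by
    rw [hydef, ← Real.rpow_add hp]; congr 1; ring
  have hC : p ^ (1/2 - δ) ≤ 1/2 := by
    calc p ^ (1/2 - δ) ≤ p ^ ((1:ℝ)/4) := 
          Real.rpow_le_rpow_of_exponent_ge hp hp1 (by linarith)
      _ ≤ (1/16 : ℝ) ^ ((1:ℝ)/4) := by
          apply Real.rpow_le_rpow hp.le hp16 (by norm_num)
      _ = 1/2 := by
          have : (1/16:ℝ) = (1/2)^(4:ℝ) := by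
            rw [show (4:ℝ) = ((4:ℕ):ℝ) by norm_num, Real.rpow_natCast]; norm_num
          rw [this, ← Real.rpow_mul (by norm_num)]
          norm_num
  have hlogy : Real.log (2 * (LL p : ℝ) ^ 12) ≤ 148/δ * y := by
    calc Real.log (2 * (LL p : ℝ) ^ 12) ≤ 37 * ℓ := hlog
      _ ≤ 37 * (4/δ * y) := by gcongr
      _ = 148/δ * y := by ring
  refine ⟨by linarith, hC, hLL1, ?_, ?_⟩
  · have h1 : y * y ≤ p ^ (-(4*δ)) := by
      rw [← hy2]
      exact Real.rpow_le_rpow_of_exponent_ge hp hp1 (by linarith)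
    have h2 : 148/δ * y ≤ y * y / 2 := by
      have : 148/δ ≤ y/2 := by
        have : 1000/δ = 2*(148/δ) + 704/δ := by ring
        have h3 : 0 < 704/δ := by positivity
        linarith
      nlinarith
    linarith
  · have hD : 0 < p ^ (-(1/2) - δ) := Real.rpow_pos_of_pos hp _
    have hD1 : 1 ≤ p ^ (-(1/2) - δ) := Real.one_le_rpow_of_pos_of_le_one_of_nonpos hp hp1 (by linarith)
    have e1 : p ^ (-(1/2) - (3/2)*δ) = p ^ (-(1/2) - δ) * (y * y) := by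
      rw [← hy2, ← Real.rpow_add hp]; congr 1; ring
    have e2 : p ^ (1/2 - δ) * (1/p) = p ^ (-(1/2) - δ) := by
      have e3 : 1 / p = p ^ (-1:ℝ) := by rw [Real.rpow_neg_one, one_div]
      rw [e3, ← Real.rpow_add hp]; congr 1; ring
    have h3 : p ^ (1/2 - δ) * (2 * LL p) ≤ 72/δ * y * p ^ (-(1/2) - δ) := by
      have h4 : (0:ℝ) ≤ p ^ (1/2 - δ) := (Real.rpow_pos_of_pos hp _).le
      calc p ^ (1/2 - δ) * (2 * LL p) ≤ p ^ (1/2 - δ) * (2 * (9/p * (4/δ * y))) := by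
            gcongr
            exact hLL9.trans (by gcongr)
        _ = 72/δ * y * (p ^ (1/2 - δ) * (1/p)) := by ring
        _ = _ := by rw [e2]
    have h5 : 148/δ * y ≤ 148/δ * y * p ^ (-(1/2) - δ) := by
      have : 0 ≤ 148/δ * y := by positivity
      nlinarith
    rw [e1]
    have h6 : 220/δ * y * p ^ (-(1/2) - δ) ≤ p ^ (-(1/2) - δ) * (y * y) := by
      have : 220/δ ≤ y := by
        have : 1000/δ = 220/δ + 780/δ := by ring
        have h3 : 0 < 780/δ := by positivity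
        linarith
      have h7 : 220/δ * y ≤ y * y := by gcongr
      calc 220/δ * y * p ^ (-(1/2) - δ) ≤ (y * y) * p ^ (-(1/2) - δ) := by gcongr
        _ = _ := by ring
    have h8 : 72/δ * y * p ^ (-(1/2) - δ) + 148/δ * y * p ^ (-(1/2) - δ)
        = 220/δ * y * p ^ (-(1/2) - δ) := by ring
    linarith

/-- the thin case -/
lemma thin_case (hmerge : S_MERGE) {δ p : ℝ} (hp : 0 < p)
    (hanti : Antitone (fun k => f p (k + Zz δ p))) (hnn : ∀ k, 0 ≤ f p (k + Zz δ p))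
    (hconv : ∀ k, f p (k + 1 + Zz δ p) - f p (k + Zz δ p) ≤
      f p (k + 2 + Zz δ p) - f p (k + 1 + Zz δ p))
    (hC : p ^ (1/2 - δ) ≤ 1/2) (hLL : (1:ℝ) ≤ LL p)
    (hlog : Real.log (2 * (LL p : ℝ) ^ 12) ≤ p ^ (-(4*δ)) / 2)
    {a b a1 b1 a2 b2 T : ℕ} (ha1 : 1 ≤ a1) (hb1 : 1 ≤ b1) (ha2 : 1 ≤ a2) (hb2 : 1 ≤ b2)
    (h1 : a1 ≤ a) (h2 : a2 ≤ a) (h3 : a ≤ a1 + a2) (h4 : b1 ≤ b) (h5 : b2 ≤ b) (h6 : b ≤ b1 + b2)
    (hT : p ^ (-(4 * δ)) ≤ (T : ℝ)) (h7 : a1 + b1 + T ≤ a + b)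
    (u1 : Uf δ p a1 b1 ≤ Real.exp (- Psi δ p a1 b1))
    (u2 : Uf δ p a2 b2 ≤ Real.exp (- Psi δ p a2 b2) * Real.exp (-((a2:ℝ) + b2)))
    (u20 : 0 ≤ Uf δ p a2 b2) :
    Uf δ p a1 b1 * Uf δ p a2 b2 ≤ Real.exp (- Psi δ p a b) * (1 / (2 * (LL p : ℝ) ^ 12)) := by
  have hm := hmerge (fun k => f p (k + Zz δ p)) hanti hnn hconv a1 b1 a2 b2 a b 1 le_rfl ha1 hb1 ha2
    hb2 h1 h2 h3 h4 h5 h6
  simp only [Finset.Icc_self, Finset.sum_singleton, Nat.cast_one, one_mul, sub_self, mul_zero,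
    add_zero] at hm
  have hT2 : (T:ℝ) ≤ (a2:ℝ) + b2 := by
    have : T ≤ a2 + b2 := by omega
    exact_mod_cast this
  have hC0 : 0 < p ^ (1/2 - δ) := Real.rpow_pos_of_pos hp _
  have ha1' : (a1:ℝ) ≤ a := by exact_mod_cast h1
  have hb1' : (b1:ℝ) ≤ b := by exact_mod_cast h4
  have key : - Psi δ p a1 b1 + (- Psi δ p a2 b2 + (-((a2:ℝ) + b2))) ≤
      - Psi δ p a b - Real.log (2 * (LL p : ℝ) ^ 12) := by
    unfold Psi
    have h8 : p ^ (1/2 - δ) * ((a1:ℝ) + b1) ≤ p ^ (1/2 - δ) * ((a:ℝ) + b) := by gcongr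
    have h9 : p ^ (1/2 - δ) * ((a2:ℝ) + b2) ≤ 1/2 * ((a2:ℝ) + b2) := by gcongr
    nlinarith [hm, h8, h9, hT2, hT, hlog]
  calc Uf δ p a1 b1 * Uf δ p a2 b2
      ≤ Real.exp (- Psi δ p a1 b1) * (Real.exp (- Psi δ p a2 b2) * Real.exp (-((a2:ℝ) + b2))) :=
        mul_le_mul u1 u2 u20 (Real.exp_pos _).le
    _ = Real.exp (- Psi δ p a1 b1 + (- Psi δ p a2 b2 + (-((a2:ℝ) + b2)))) := by
        rw [Real.exp_add, Real.exp_add]
    _ ≤ Real.exp (- Psi δ p a b - Real.log (2 * (LL p : ℝ) ^ 12)) := Real.exp_le_exp.mpr key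
    _ = Real.exp (- Psi δ p a b) * (1 / (2 * (LL p : ℝ) ^ 12)) := by
        rw [Real.exp_sub, Real.exp_log (by positivity)]; ring

end PJoin

open PJoin in
theorem join (hf : S_FPROP) (hmerge : S_MERGE) (hthin : S_THIN) (hgain : S_GAIN) : S_JOIN := by
  intro δ hδ hδ1
  obtain ⟨q1, hq1, hnum⟩ := numer δ hδ hδ1
  obtain ⟨q2, hq2, hth⟩ := hthin δ hδ hδ1
  obtain ⟨q3, hq3, hga⟩ := hgain δ hδ hδ1
  refine ⟨min q1 (min q2 q3), lt_min hq1 (lt_min hq2 hq3), ?_⟩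
  intro p hp hp0 a b a1 b1 a2 b2 T ha1 hb1 ha2 hb2 h1 h2 h3 h4 h5 h6 haL hbL hT h7 h8
  obtain ⟨hp12, hC, hLL, hlog1, hlog2⟩ := hnum p hp (hp0.trans (min_le_left _ _))
  have hth := hth p hp (hp0.trans ((min_le_right _ _).trans (min_le_left _ _)))
  have hga := hga p hp (hp0.trans ((min_le_right _ _).trans (min_le_right _ _)))
  obtain ⟨f1, f2, f3, f4, f5, f6, f7, f8⟩ := hf p hp hp12
  have hZ : 1 ≤ Zz δ p := by unfold Zz; omega
  have hanti : Antitone (fun k => f p (k + Zz δ p)) := by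
    intro k l hkl
    exact f4 (k + Zz δ p) (l + Zz δ p) (by omega) (by omega)
  have hnn : ∀ k, 0 ≤ f p (k + Zz δ p) := fun k => (f1 (k + Zz δ p) (by omega)).2.2
  have hconv : ∀ k, f p (k + 1 + Zz δ p) - f p (k + Zz δ p) ≤
      f p (k + 2 + Zz δ p) - f p (k + 1 + Zz δ p) := by
    intro k
    have := f5 (k + Zz δ p) (by omega)
    have e1 : k + Zz δ p + 1 = k + 1 + Zz δ p := by omega
    have e2 : k + Zz δ p + 2 = k + 2 + Zz δ p := by omega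
    rw [e1, e2] at this
    exact this
  -- the bounds for Uf
  have hU : ∀ x y : ℕ, 1 ≤ x → 1 ≤ y → Uf δ p x y ≤ Real.exp (- Psi δ p x y) := by
    intro x y hx hy
    unfold Uf
    split_ifs
    · refine (hth x y hx hy).trans ?_
      have : Real.exp (-((x:ℝ) + y)) ≤ 1 := by
        rw [Real.exp_le_one_iff]
        have : (0:ℝ) ≤ (x:ℝ) + y := by positivity
        linarith
      calc Real.exp (- Psi δ p x y) * Real.exp (-((x:ℝ) + y)) ≤ Real.exp (- Psi δ p x y) * 1 := by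
            gcongr
        _ = _ := mul_one _
    · exact le_rfl
  have hU0 : ∀ x y : ℕ, 0 ≤ Uf δ p x y := by
    intro x y
    unfold Uf
    split_ifs
    · exact (Real.rpow_pos_of_pos hp _).le
    · exact (Real.exp_pos _).le
  have hUt : ∀ x y : ℕ, 1 ≤ x → 1 ≤ y → ((min x y : ℕ) : ℝ) ≤ p ^ (-(1 / 2) - 4 * δ) →
      Uf δ p x y ≤ Real.exp (- Psi δ p x y) * Real.exp (-((x:ℝ) + y)) := by
    intro x y hx hy hxy
    unfold Uf
    rw [if_pos hxy]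
    exact hth x y hx hy
  by_cases c2 : ((min a2 b2 : ℕ) : ℝ) ≤ p ^ (-(1 / 2) - 4 * δ)
  · exact thin_case hmerge hp hanti hnn hconv hC hLL hlog1 ha1 hb1 ha2 hb2 h1 h2 h3 h4 h5 h6 hT h7
      (hU a1 b1 ha1 hb1) (hUt a2 b2 ha2 hb2 c2) (hU0 a2 b2)
  by_cases c1 : ((min a1 b1 : ℕ) : ℝ) ≤ p ^ (-(1 / 2) - 4 * δ)
  · rw [mul_comm]
    exact thin_case hmerge hp hanti hnn hconv hC hLL hlog1 ha2 hb2 ha1 hb1 h2 h1 (by omega) h5 h4
      (by omega) hT h8 (hU a2 b2 ha2 hb2) (hUt a1 b1 ha1 hb1 c1) (hU0 a1 b1)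
  push Not at c1 c2
  set m : ℕ := min (min a1 b1) (min a2 b2) with hm
  have hmN : p ^ (-(1 / 2) - 4 * δ) < (m : ℝ) := by
    rw [hm]
    rcases min_choice (min a1 b1) (min a2 b2) with h | h <;> rw [h] <;> assumption
  have hm1 : 1 ≤ m := by omega
  have hga := hga m hmN
  have hme := hmerge (fun k => f p (k + Zz δ p)) hanti hnn hconv a1 b1 a2 b2 a b m hm1 (by omega)
    (by omega) (by omega) (by omega) h1 h2 h3 h4 h5 h6
  have hC0 : 0 < p ^ (1/2 - δ) := Real.rpow_pos_of_pos hp _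
  have ha' : (a1:ℝ) ≤ LL p := by exact_mod_cast h1.trans haL
  have hb' : (b1:ℝ) ≤ LL p := by exact_mod_cast h4.trans hbL
  have ha2' : (a2:ℝ) ≤ a := by exact_mod_cast h2
  have hb2' : (b2:ℝ) ≤ b := by exact_mod_cast h5
  have key : - Psi δ p a1 b1 + - Psi δ p a2 b2 ≤
      - Psi δ p a b - Real.log (2 * (LL p : ℝ) ^ 12) := by
    unfold Psi
    have g1 : p ^ (1/2 - δ) * ((a1:ℝ) + b1) ≤ p ^ (1/2 - δ) * (2 * LL p) := by
      gcongr; linarith
    have g2 : p ^ (1/2 - δ) * ((a2:ℝ) + b2) ≤ p ^ (1/2 - δ) * ((a:ℝ) + b) := by gcongr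
    linarith
  calc Uf δ p a1 b1 * Uf δ p a2 b2
      ≤ Real.exp (- Psi δ p a1 b1) * Real.exp (- Psi δ p a2 b2) :=
        mul_le_mul (hU a1 b1 ha1 hb1) (hU a2 b2 ha2 hb2) (hU0 _ _) (Real.exp_pos _).le
    _ = Real.exp (- Psi δ p a1 b1 + - Psi δ p a2 b2) := by rw [Real.exp_add]
    _ ≤ Real.exp (- Psi δ p a b - Real.log (2 * (LL p : ℝ) ^ 12)) := Real.exp_le_exp.mpr key
    _ = Real.exp (- Psi δ p a b) * (1 / (2 * (LL p : ℝ) ^ 12)) := by
        rw [Real.exp_sub, Real.exp_log (by positivity)]; ring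

end Pool.Agent.J6H44.BP
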