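import Pool.Agent.J6H44.BP.Stm

/-! LOW: below the threshold the square is internally spanned with probability `< 1/2`. -/

set_option autoImplicit false

open Finset

namespace Pool.Agent.J6H44.BP

namespace LOW

theorem geo (hsplit : S_SPLIT) (A : Finset (ℕ × ℕ)) (L : ℕ) (hL : 1 ≤ L) :
    ∀ s : ℕ, ∀ R : Rc, R.sg = s → R.Ok → IS R A → L ≤ 2 * max R.a R.b →
      ∃ R' : Rc, R'.Ok ∧ R'.Le R ∧ IS R' A ∧ L ≤ 2 * max R'.a R'.b ∧ R'.a ≤ L ∧ R'.b ≤ L := by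
  intro s
  induction s using Nat.strong_induction_on with
  | _ s ih =>
    intro R hs hR hA hm
    by_cases hc : R.a ≤ L ∧ R.b ≤ L
    · exact ⟨R, hR, Rc.Le.refl R, hA, hm, hc.1, hc.2⟩
    · have h3 : 3 ≤ R.sg := by
        unfold Rc.sg
        have := hR.1
        have := hR.2
        omega
      obtain ⟨R1, R2, A1, A2, ok1, ok2, ne1, ne2, hj, hA1, hA2, -, -, -, is1, is2⟩ :=
        hsplit R A hR h3 hA
      obtain ⟨hd1, hd2⟩ := hj.dims
      have hle1 := hj.left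
      have hle2 := hj.right
      have hlt1 := hle1.sg_lt ne1
      have hlt2 := hle2.sg_lt ne2
      by_cases h1 : L ≤ 2 * max R1.a R1.b
      · obtain ⟨R', a, b, c, d, e, f⟩ := ih R1.sg (by omega) R1 rfl ok1 (is1.mono hA1) h1
        exact ⟨R', a, b.trans hle1, c, d, e, f⟩
      · by_cases h2 : L ≤ 2 * max R2.a R2.b
        · obtain ⟨R', a, b, c, d, e, f⟩ := ih R2.sg (by omega) R2 rfl ok2 (is2.mono hA2) h2
          exact ⟨R', a, b.trans hle2, c, d, e, f⟩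
        · exfalso
          omega

/-- the union bound -/
theorem union (hsplit : S_SPLIT) {p : ℝ} (h0 : 0 ≤ p) (h1 : p ≤ 1) (Λ : Finset (ℕ × ℕ))
    (n L : ℕ) (hL : 1 ≤ L) (hn : L ≤ n) (B : ℝ) (hB0 : 0 ≤ B)
    (hB : ∀ R : Rc, R.Ok → R.a ≤ L → R.b ≤ L → L ≤ 2 * max R.a R.b → q p Λ (isp R) ≤ B) :
    q p Λ (isp ⟨0, 0, n, n⟩) ≤ (n : ℝ) ^ 2 * (L : ℝ) ^ 2 * B := by
  classical
  set s : Finset ((ℕ × ℕ) × (ℕ × ℕ)) :=
    ((Finset.range n ×ˢ Finset.range n) ×ˢ (Finset.Icc 1 L ×ˢ Finset.Icc 1 L)).filter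
      (fun t => L ≤ 2 * max t.2.1 t.2.2) with hs
  have hcard : (s.card : ℝ) ≤ (n : ℝ) ^ 2 * (L : ℝ) ^ 2 := by
    have : s.card ≤ n ^ 2 * L ^ 2 := by
      refine (Finset.card_filter_le _ _).trans (le_of_eq ?_)
      simp only [Finset.card_product, Finset.card_range, Nat.card_Icc]
      have : L + 1 - 1 = L := by omega
      rw [this]
      ring
    exact_mod_cast this
  have hsub : q p Λ (isp ⟨0, 0, n, n⟩) ≤
      q p Λ (⋃ t ∈ s, isp (⟨t.1.1, t.1.2, t.2.1, t.2.2⟩ : Rc)) := by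
    apply q_mono h0 h1
    intro A hA
    have hA' : IS ⟨0, 0, n, n⟩ A := hA
    obtain ⟨R', ok, le, is, hm, ha, hb⟩ := geo hsplit A L hL _ ⟨0, 0, n, n⟩ rfl
      ⟨by dsimp only; omega, by dsimp only; omega⟩ hA' (by dsimp only; omega)
    simp only [Set.mem_iUnion]
    refine ⟨((R'.x, R'.y), (R'.a, R'.b)), ?_, is⟩
    rw [hs, Finset.mem_filter]
    simp only [Finset.mem_product, Finset.mem_range, Finset.mem_Icc]
    obtain ⟨l1, l2, l3, l4⟩ := le
    obtain ⟨o1, o2⟩ := ok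
    dsimp only at l1 l2 l3 l4
    refine ⟨⟨⟨?_, ?_⟩, ⟨?_, ?_⟩, ⟨?_, ?_⟩⟩, ?_⟩ <;> omega
  refine hsub.trans ((q_iUnion_le h0 h1 Λ s _).trans ?_)
  calc ∑ t ∈ s, q p Λ (isp (⟨t.1.1, t.1.2, t.2.1, t.2.2⟩ : Rc)) ≤ ∑ t ∈ s, B := by
        apply Finset.sum_le_sum
        intro t ht
        rw [hs, Finset.mem_filter] at ht
        simp only [Finset.mem_product, Finset.mem_range, Finset.mem_Icc] at ht
        obtain ⟨⟨⟨t1, t2⟩, ⟨t3, t4⟩, ⟨t5, t6⟩⟩, t7⟩ := ht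
        exact hB _ ⟨t3, t5⟩ t4 t6 t7
    _ = (s.card : ℝ) * B := by rw [Finset.sum_const, nsmul_eq_mul]
    _ ≤ (n : ℝ) ^ 2 * (L : ℝ) ^ 2 * B := by gcongr

theorem tiny (x : ℝ) (hx : 10 ^ 9 ≤ x) : 81 * x ^ 8 * Real.exp (-x) < 1 / 2 := by
  have hx0 : 0 < x := by linarith
  have h := Real.pow_div_factorial_le_exp x hx0.le 9
  have hf : ((Nat.factorial 9 : ℕ) : ℝ) = 362880 := by
    norm_num [Nat.factorial]
  rw [hf] at h
  rw [Real.exp_neg]
  have he := Real.exp_pos x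
  rw [← div_eq_mul_inv, div_lt_iff₀ he]
  have h9 : x ^ 9 = x * x ^ 8 := by ring
  have h8 : 0 < x ^ 8 := by positivity
  calc 81 * x ^ 8 < 1 / 2 * (x ^ 9 / 362880) := by
        rw [h9]
        have : 81 * x ^ 8 < (x / 725760) * x ^ 8 := by
          apply mul_lt_mul_of_pos_right _ h8
          linarith
        linarith
    _ ≤ 1 / 2 * Real.exp x := by linarith

theorem LL_le {p : ℝ} (hp : 0 < p) (hp1 : p ≤ 1) : (LL p : ℝ) ≤ 9 / p ^ 2 := by
  unfold LL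
  have hl : Real.log (1 / p) ≤ 1 / p := by
    have := Real.log_le_sub_one_of_pos (show 0 < 1 / p by positivity)
    linarith
  have hl0 : 0 ≤ Real.log (1 / p) := Real.log_nonneg (by rw [le_div_iff₀ hp]; linarith)
  have h1 : 8 / p * Real.log (1 / p) ≤ 8 / p ^ 2 := by
    calc 8 / p * Real.log (1 / p) ≤ 8 / p * (1 / p) := by gcongr
      _ = 8 / p ^ 2 := by field_simp
  have h2 : (⌈8 / p * Real.log (1 / p)⌉₊ : ℝ) < 8 / p * Real.log (1 / p) + 1 :=
    Nat.ceil_lt_add_one (by positivity)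
  have h3 : 1 ≤ 1 / p ^ 2 := by
    rw [le_div_iff₀ (by positivity)]
    nlinarith
  have h4 : 9 / p ^ 2 = 8 / p ^ 2 + 1 / p ^ 2 := by ring
  rw [h4]
  linarith

end LOW

theorem low (hsplit : S_SPLIT) (hmain : S_MAIN) (hend : S_ENDV) : S_LOW := by
  intro δ hδ hδ1
  obtain ⟨p1, hp1, h1⟩ := hmain δ hδ hδ1
  obtain ⟨p2, hp2, h2⟩ := hend δ hδ hδ1
  refine ⟨min (min p1 p2) (min ((1 / 2 : ℝ) ^ (1 / δ)) (1 / 10 ^ 18)), by positivity, ?_⟩
  intro p hp hpp n hn hlog Λ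
  have a1 : p ≤ p1 := hpp.trans ((min_le_left _ _).trans (min_le_left _ _))
  have a2 : p ≤ p2 := hpp.trans ((min_le_left _ _).trans (min_le_right _ _))
  have a3 : p ≤ (1 / 2 : ℝ) ^ (1 / δ) :=
    hpp.trans ((min_le_right _ _).trans (min_le_left _ _))
  have a4 : p ≤ 1 / 10 ^ 18 := hpp.trans ((min_le_right _ _).trans (min_le_right _ _))
  have hp1' : p ≤ 1 := a4.trans (by norm_num)
  have hplt : p < 1 := a4.trans_lt (by norm_num)
  -- `LL p ≥ 1`
  have hL : 1 ≤ LL p := by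
    unfold LL
    rw [Nat.one_le_ceil_iff]
    have : 0 < Real.log (1 / p) := Real.log_pos (by rw [lt_div_iff₀ hp]; linarith)
    positivity
  have hn1 : 1 ≤ n := hL.trans hn
  set E : ℝ := Real.pi ^ 2 / (3 * p) with hE
  set y : ℝ := p ^ (-(1 / 2) - 8 * δ) with hy
  have hy' : 2 * y ≤ p ^ (-(1 / 2) - 9 * δ) := by
    have e : p ^ (-(1 / 2) - 9 * δ) = p ^ (-δ) * y := by
      rw [hy, ← Real.rpow_add hp]
      congr 1
      ring
    rw [e]
    have : (2 : ℝ) ≤ p ^ (-δ) := by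
      have h := Real.rpow_le_rpow hp.le a3 hδ.le
      rw [← Real.rpow_mul (by norm_num)] at h
      have e2 : 1 / δ * δ = 1 := by field_simp
      rw [e2, Real.rpow_one] at h
      rw [Real.rpow_neg hp.le]
      rw [le_inv_comm₀ (by norm_num) (by positivity)]
      linarith
    have hy0 : 0 ≤ y := by positivity
    nlinarith
  set x : ℝ := p ^ (-(1 / 2) : ℝ) with hx
  have hxy : x ≤ y := by
    rw [hx, hy]
    apply Real.rpow_le_rpow_of_exponent_ge hp hp1'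
    linarith
  have hx9 : (10 : ℝ) ^ 9 ≤ x := by
    have h := Real.rpow_le_rpow_of_nonpos hp a4 (show (-(1 / 2) : ℝ) ≤ 0 by norm_num)
    have e : ((1 / 10 ^ 18 : ℝ)) ^ (-(1 / 2) : ℝ) = 10 ^ 9 := by
      have e1 : (1 / 10 ^ 18 : ℝ) = ((10 : ℝ) ^ 9) ^ (-2 : ℝ) := by
        rw [Real.rpow_neg (by positivity)]
        norm_num
      rw [e1, ← Real.rpow_mul (by positivity)]
      norm_num
    rw [e] at h
    exact h
  have hx8 : x ^ 8 = 1 / p ^ 4 := by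
    rw [hx, ← Real.rpow_natCast, ← Real.rpow_mul hp.le]
    have : (-(1 / 2) : ℝ) * ((8 : ℕ) : ℝ) = -((4 : ℕ) : ℝ) := by push_cast; norm_num
    rw [this, Real.rpow_neg hp.le, Real.rpow_natCast, one_div]
  have hB : ∀ R : Rc, R.Ok → R.a ≤ LL p → R.b ≤ LL p → LL p ≤ 2 * max R.a R.b →
      q p Λ (isp R) ≤ Real.exp (-(E - y)) := by
    intro R hR ha hb hm
    refine (h1 p hp a1 Λ R hR ha hb).trans ?_
    rw [Real.exp_le_exp]
    have := h2 p hp a2 R.a R.b hR.1 hR.2 ha hb hm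
    linarith
  have key := LOW.union hsplit hp.le hp1' Λ n (LL p) hL hn _ (Real.exp_pos _).le hB
  refine key.trans_lt ?_
  have hLb := LOW.LL_le hp hp1'
  have hL2 : (LL p : ℝ) ^ 2 ≤ 81 * x ^ 8 := by
    rw [hx8]
    calc (LL p : ℝ) ^ 2 ≤ (9 / p ^ 2) ^ 2 := by gcongr
      _ = 81 * (1 / p ^ 4) := by field_simp; norm_num
  have hn2 : (n : ℝ) ^ 2 ≤ Real.exp (E - 2 * y) := by
    have hnpos : (0 : ℝ) < n := by exact_mod_cast hn1
    have e : (n : ℝ) ^ 2 = Real.exp (2 * Real.log n) := by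
      rw [two_mul, Real.exp_add, Real.exp_log hnpos]
      ring
    rw [e, Real.exp_le_exp]
    linarith
  calc (n : ℝ) ^ 2 * (LL p : ℝ) ^ 2 * Real.exp (-(E - y))
      ≤ Real.exp (E - 2 * y) * (81 * x ^ 8) * Real.exp (-(E - y)) := by gcongr
    _ = 81 * x ^ 8 * (Real.exp (E - 2 * y) * Real.exp (-(E - y))) := by ring
    _ = 81 * x ^ 8 * Real.exp (-y) := by
        rw [← Real.exp_add]
        congr 2
        ring
    _ ≤ 81 * x ^ 8 * Real.exp (-x) := by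
        have : Real.exp (-y) ≤ Real.exp (-x) := by
          rw [Real.exp_le_exp]; linarith
        gcongr
    _ < 1 / 2 := LOW.tiny x hx9

end Pool.Agent.J6H44.BP
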