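import Pool.Agent.J6H44.BP.Stm

/-! MAIN: the induction over all rectangles with sides at most `LL p`. -/

set_option autoImplicit false

open Finset

namespace Pool.Agent.J6H44.BP

theorem LL_tendsto_aux : ∀ C : ℝ, ∃ p0 : ℝ, 0 < p0 ∧ ∀ p : ℝ, 0 < p → p ≤ p0 → C ≤ 1 / p := by
  intro C
  refine ⟨1 / (|C| + 1), by positivity, ?_⟩
  intro p hp hp0
  rw [le_div_iff₀ hp]
  have h1 : C ≤ |C| + 1 := by linarith [le_abs_self C]
  have h2 : (0 : ℝ) < |C| + 1 := by positivity
  calc C * p ≤ (|C| + 1) * p := by gcongr
    _ ≤ (|C| + 1) * (1 / (|C| + 1)) := by gcongr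
    _ = 1 := by field_simp

theorem main_ind (hbase : S_BASE) (hmrec : S_MREC) (hthin : S_THIN) (hbud : S_BUDGET)
    (hjoin : S_JOIN) : S_MAIN := by
  intro δ hδ hδ1
  obtain ⟨p1, hp1, h1⟩ := hbase δ hδ hδ1
  obtain ⟨p2, hp2, h2⟩ := hthin δ hδ hδ1
  obtain ⟨p3, hp3, h3⟩ := hbud δ hδ hδ1
  obtain ⟨p4, hp4, h4⟩ := hjoin δ hδ hδ1
  refine ⟨min (min p1 p2) (min (min p3 p4) (1 / 64)), by positivity, ?_⟩
  intro p hp hpp Λ
  have a1 : p ≤ p1 := hpp.trans ((min_le_left _ _).trans (min_le_left _ _))
  have a2 : p ≤ p2 := hpp.trans ((min_le_left _ _).trans (min_le_right _ _))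
  have a3 : p ≤ p3 := hpp.trans ((min_le_right _ _).trans ((min_le_left _ _).trans (min_le_left _ _)))
  have a4 : p ≤ p4 := hpp.trans ((min_le_right _ _).trans ((min_le_left _ _).trans (min_le_right _ _)))
  have a5 : p ≤ 1 / 64 := hpp.trans ((min_le_right _ _).trans (min_le_right _ _))
  have hp1' : p < 1 := by linarith
  have thin := h2 p hp a2
  have hUexp : ∀ a b : ℕ, 1 ≤ a → 1 ≤ b → Uf δ p a b ≤ Real.exp (- Psi δ p a b) := by
    intro a b ha hb
    unfold Uf
    split_ifs with h
    · refine (thin a b ha hb).trans ?_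
      refine mul_le_of_le_one_right (Real.exp_pos _).le ?_
      rw [Real.exp_le_one_iff]
      have : (0 : ℝ) ≤ a := Nat.cast_nonneg _
      have : (0 : ℝ) ≤ b := Nat.cast_nonneg _
      linarith
    · exact le_rfl
  have hUnn : ∀ a b : ℕ, 0 ≤ Uf δ p a b := by
    intro a b
    unfold Uf
    split_ifs
    · positivity
    · positivity
  have key : ∀ s : ℕ, ∀ R : Rc, R.sg = s → R.Ok → R.a ≤ LL p → R.b ≤ LL p →
      q p Λ (isp R) ≤ Uf δ p R.a R.b := by
    intro s
    induction s using Nat.strong_induction_on with
    | _ s ih =>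
      intro R hs hR ha hb
      by_cases hthinR : ((min R.a R.b : ℕ) : ℝ) ≤ p ^ (-(1 / 2) - 4 * δ)
      · unfold Uf
        rw [if_pos hthinR]
        exact h1 p hp a1 Λ R hR hthinR
      · have hthick : p ^ (-(1 / 2) - 4 * δ) < ((min R.a R.b : ℕ) : ℝ) := not_le.1 hthinR
        have hU : Uf δ p R.a R.b = Real.exp (- Psi δ p R.a R.b) := by
          unfold Uf; rw [if_neg hthinR]
        rw [hU]
        -- sizes
        have hmin8 : (8 : ℝ) < ((min R.a R.b : ℕ) : ℝ) := by
          refine lt_of_le_of_lt ?_ hthick
          have : (8 : ℝ) = (1 / 64 : ℝ) ^ (-(1 / 2 : ℝ)) := by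
            rw [Real.rpow_neg (by norm_num), show (1 / 64 : ℝ) = (1 / 8) ^ (2 : ℝ) by norm_num,
              ← Real.rpow_mul (by norm_num)]
            norm_num
          rw [this]
          calc (1 / 64 : ℝ) ^ (-(1 / 2 : ℝ)) ≤ p ^ (-(1 / 2 : ℝ)) :=
                Real.rpow_le_rpow_of_nonpos hp a5 (by norm_num)
            _ ≤ p ^ (-(1 / 2) - 4 * δ) :=
                Real.rpow_le_rpow_of_exponent_ge hp hp1'.le (by linarith)
        have hmin8' : 8 < min R.a R.b := by exact_mod_cast hmin8
        set M := max R.a R.b with hM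
        have hM8 : 8 < M := lt_of_lt_of_le hmin8' (min_le_max)
        set T := TT p M with hT
        have hTle : T + 2 ≤ R.sg := by
          have e1 : p ^ ((1 : ℝ) / 2) * M ≤ (M : ℝ) / 8 := by
            have : p ^ ((1 : ℝ) / 2) ≤ 1 / 8 := by
              calc p ^ ((1 : ℝ) / 2) ≤ (1 / 64 : ℝ) ^ ((1 : ℝ) / 2) :=
                    Real.rpow_le_rpow hp.le a5 (by norm_num)
                _ = 1 / 8 := by
                    rw [show (1 / 64 : ℝ) = (1 / 8) ^ (2 : ℝ) by norm_num,
                      ← Real.rpow_mul (by norm_num)]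
                    norm_num
            have hM0 : (0 : ℝ) ≤ M := Nat.cast_nonneg _
            nlinarith
          have e2 : (T : ℝ) < (M : ℝ) / 8 + 1 := by
            have : (T : ℝ) < p ^ ((1 : ℝ) / 2) * M + 1 := by
              rw [hT]; unfold TT
              exact Nat.ceil_lt_add_one (by positivity)
            linarith
          have e3 : (T : ℝ) + 2 ≤ (M : ℝ) := by
            have : (8 : ℝ) < M := by exact_mod_cast hM8
            linarith
          have e4 : T + 2 ≤ M := by exact_mod_cast e3
          have e5 : M ≤ R.sg := by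
            unfold Rc.sg; omega
          omega
        have hTlow : p ^ (-(4 * δ)) ≤ (T : ℝ) := by
          have e1 : p ^ ((1 : ℝ) / 2) * M ≤ T := by
            rw [hT]; unfold TT; exact Nat.le_ceil _
          have e2 : p ^ (-(1 / 2) - 4 * δ) ≤ (M : ℝ) := by
            refine hthick.le.trans ?_
            exact_mod_cast (min_le_max : min R.a R.b ≤ max R.a R.b)
          calc p ^ (-(4 * δ)) = p ^ ((1 : ℝ) / 2) * p ^ (-(1 / 2) - 4 * δ) := by
                rw [← Real.rpow_add hp]; congr 1; ring
            _ ≤ p ^ ((1 : ℝ) / 2) * M := by gcongr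
            _ ≤ T := e1
        have hT1 : 1 ≤ T := by
          have : (0 : ℝ) < T := lt_of_lt_of_le (by positivity) hTlow
          have : 0 < T := by exact_mod_cast this
          omega
        have hLpos : 0 < LL p := by
          have : 0 < R.a := hR.1
          omega
        have hLpos' : (0 : ℝ) < (LL p : ℝ) := by exact_mod_cast hLpos
        set X := Real.exp (- Psi δ p R.a R.b) with hX
        have hXpos : 0 < X := Real.exp_pos _
        have := hmrec p hp hp1' Λ R hR T (LL p) hT1 hTle ha hb (Uf δ p) hUnn
          (by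
            intro R' hR' hle hne
            have hlt := hle.sg_lt hne
            have hd := hle.dims
            exact ih R'.sg (by omega) R' rfl hR' (by omega) (by omega))
          (X * (1 / (2 * (LL p : ℝ) ^ 4))) (X * (1 / (2 * (LL p : ℝ) ^ 12)))
          (by positivity) (by positivity)
          (by
            intro a1' b1' k1 k2 k3 k4 k5 k6
            have hg := (h3 p hp a3 R.a R.b a1' b1' k1 k3 k2 k4 ha hb hthick k6).2 k5
            refine le_trans ?_ hg
            refine mul_le_mul_of_nonneg_right (hUexp _ _ k1 k3) ?_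
            unfold gr
            have g1 : 0 ≤ g p a1' := by
              unfold g
              have : (1 - p) ^ a1' ≤ 1 := pow_le_one₀ (by linarith) (by linarith)
              linarith
            have g2 : 0 ≤ g p b1' := by
              unfold g
              have : (1 - p) ^ b1' ≤ 1 := pow_le_one₀ (by linarith) (by linarith)
              linarith
            positivity)
          (by
            intro a' b' a1' b1' a2' b2' k1 k2 k3 k4 k5 k6 k7 k8 k9 k10 k11 k12 k13 k14 k15
            have hj := h4 p hp a4 a' b' a1' b1' a2' b2' T k4 k5 k6 k7 k8 k9 k10 k11 k12 k13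
              (k1.trans ha) (k2.trans hb) hTlow k14 k15
            have hTM : TT p (max R.a R.b) = T := rfl
            have hg := (h3 p hp a3 R.a R.b a' b' (by omega) (by omega) k1 k2 ha hb hthick
              (by rw [hTM]; omega)).1
            have hgr : 0 ≤ gr p a' b' R.a R.b := by
              unfold gr
              have g1 : 0 ≤ g p a' := by
                unfold g
                have : (1 - p) ^ a' ≤ 1 := pow_le_one₀ (by linarith) (by linarith)
                linarith
              have g2 : 0 ≤ g p b' := by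
                unfold g
                have : (1 - p) ^ b' ≤ 1 := pow_le_one₀ (by linarith) (by linarith)
                linarith
              positivity
            calc Uf δ p a1' b1' * Uf δ p a2' b2' * gr p a' b' R.a R.b
                ≤ Real.exp (- Psi δ p a' b') * (1 / (2 * (LL p : ℝ) ^ 12)) *
                    gr p a' b' R.a R.b := mul_le_mul_of_nonneg_right hj hgr
              _ = (Real.exp (- Psi δ p a' b') * gr p a' b' R.a R.b) *
                    (1 / (2 * (LL p : ℝ) ^ 12)) := by ring
              _ ≤ X * (1 / (2 * (LL p : ℝ) ^ 12)) :=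
                  mul_le_mul_of_nonneg_right hg (by positivity))
        refine this.trans (le_of_eq ?_)
        field_simp
        ring
  intro R hR ha hb
  exact (key R.sg R rfl hR ha hb).trans (hUexp _ _ hR.1 hR.2)

end Pool.Agent.J6H44.BP
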