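import Pool.Agent.J6H44.BP.Stm

/-!
# Modified bootstrap percolation: `S_PATH` and `S_MERGE` (module of helper37)
-/

set_option autoImplicit false

open Finset

namespace Pool.Agent.J6H44.BP

namespace PM

theorem Vf_comm (φ : ℕ → ℝ) (a b : ℕ) : Vf φ a b = Vf φ b a := by
  unfold Vf
  rw [min_comm, max_comm]

/-- increments are increasing -/
theorem incr {φ : ℕ → ℝ} (hc : ∀ k, φ (k + 1) - φ k ≤ φ (k + 2) - φ (k + 1)) (b d : ℕ) :
    φ (b + 1) - φ b ≤ φ (b + d + 1) - φ (b + d) := by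
  induction d with
  | zero => exact le_rfl
  | succ d ih =>
    have h := hc (b + d)
    have e1 : b + (d + 1) + 1 = b + d + 2 := by ring
    have e2 : b + (d + 1) = b + d + 1 := by ring
    rw [e1, e2]
    linarith

theorem conv {φ : ℕ → ℝ} (hc : ∀ k, φ (k + 1) - φ k ≤ φ (k + 2) - φ (k + 1)) (b d : ℕ) :
    φ (b + 1) + d * (φ (b + 1) - φ b) ≤ φ (b + 1 + d) := by
  induction d with
  | zero => simp
  | succ d ih =>
    have h := incr hc b (d + 1)
    have e1 : b + (d + 1) + 1 = b + 1 + (d + 1) := by ring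
    have e2 : b + (d + 1) = b + 1 + d := by ring
    rw [e1, e2] at h
    push_cast
    linarith

theorem step {φ : ℕ → ℝ} (ha : Antitone φ)
    (hc : ∀ k, φ (k + 1) - φ k ≤ φ (k + 2) - φ (k + 1)) (a b : ℕ) :
    Vf φ a (b + 1) ≤ Vf φ a b + φ a := by
  rcases le_or_gt a b with h | h
  · have e1 : min a b = a := min_eq_left h
    have e2 : min a (b + 1) = a := min_eq_left (by omega)
    have e3 : max a b = b := max_eq_right h
    have e4 : max a (b + 1) = b + 1 := max_eq_right (by omega)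
    unfold Vf
    rw [e1, e2, e3, e4]
    push_cast
    linarith
  · obtain ⟨d, rfl⟩ := Nat.exists_eq_add_of_lt h
    have e1 : min (b + d + 1) b = b := min_eq_right (by omega)
    have e2 : min (b + d + 1) (b + 1) = b + 1 := min_eq_right (by omega)
    have e3 : max (b + d + 1) b = b + d + 1 := max_eq_left (by omega)
    have e4 : max (b + d + 1) (b + 1) = b + d + 1 := max_eq_left (by omega)
    unfold Vf
    rw [e1, e2, e3, e4, Finset.sum_Icc_succ_top (by omega)]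
    have h1 := conv hc b d
    have h2 : φ (b + 1) ≤ φ b := ha (by omega)
    have e5 : b + 1 + d = b + d + 1 := by ring
    rw [e5] at h1
    push_cast
    nlinarith

theorem steps {φ : ℕ → ℝ} (ha : Antitone φ)
    (hc : ∀ k, φ (k + 1) - φ k ≤ φ (k + 2) - φ (k + 1)) (a b d : ℕ) :
    Vf φ a (b + d) ≤ Vf φ a b + d * φ a := by
  induction d with
  | zero => simp
  | succ d ih =>
    have h := step ha hc a (b + d)
    have e : b + (d + 1) = b + d + 1 := by ring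
    rw [e]
    push_cast
    linarith

end PM

theorem path : S_PATH := by
  intro φ ha hc a b a' b' _ _ h1 h2
  obtain ⟨s, rfl⟩ := Nat.exists_eq_add_of_le h1
  obtain ⟨t, rfl⟩ := Nat.exists_eq_add_of_le h2
  have i1 := PM.steps ha hc (a + s) b t
  have i2 := PM.steps ha hc b a s
  rw [PM.Vf_comm φ b, PM.Vf_comm φ b] at i2
  have i3 : φ (a + s) ≤ φ a := ha (by omega)
  have i4 : (t : ℝ) * φ (a + s) ≤ t * φ a := mul_le_mul_of_nonneg_left i3 (Nat.cast_nonneg t)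
  push_cast
  linarith

namespace PM

theorem mono {φ : ℕ → ℝ} (ha : Antitone φ) (m d : ℕ) :
    ∑ k ∈ Finset.Icc 1 m, φ k - m * φ m ≤ ∑ k ∈ Finset.Icc 1 (m + d), φ k - ((m + d : ℕ) : ℝ) * φ (m + d) := by
  induction d with
  | zero => simp
  | succ d ih =>
    refine ih.trans ?_
    have e : m + (d + 1) = m + d + 1 := by ring
    rw [e, Finset.sum_Icc_succ_top (by omega)]
    have h : φ (m + d + 1) ≤ φ (m + d) := ha (by omega)
    have h0 : (0 : ℝ) ≤ ((m + d : ℕ) : ℝ) := Nat.cast_nonneg _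
    have h3 := mul_le_mul_of_nonneg_left h h0
    push_cast at h3 ⊢
    linarith

theorem half (hpath : S_PATH) {φ : ℕ → ℝ} (ha : Antitone φ) (hn : ∀ k, 0 ≤ φ k)
    (hc : ∀ k, φ (k + 1) - φ k ≤ φ (k + 2) - φ (k + 1))
    {a1 b1 a2 b2 a b m : ℕ} (hm : 1 ≤ m) (g1 : m ≤ a1) (g2 : m ≤ b1) (g3 : m ≤ a2) (g4 : m ≤ b2)
    (k1 : a1 ≤ a) (k2 : a2 ≤ a) (k3 : a ≤ a1 + a2) (k4 : b1 ≤ b) (_k5 : b2 ≤ b) (k6 : b ≤ b1 + b2)
    (hb : min a2 b2 ≤ b1) :
    Vf φ a b + 2 * (∑ k ∈ Finset.Icc 1 m, φ k - m * φ m) ≤ Vf φ a1 b1 + Vf φ a2 b2 := by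
  have p1 := hpath φ ha hc a1 b1 a b1 (by omega) (by omega) k1 le_rfl
  have p2 := hpath φ ha hc a b1 a b (by omega) (by omega) le_rfl k4
  have q1 : φ b1 ≤ φ (min a2 b2) := ha hb
  have q2 : φ a ≤ φ (min a2 b2) := ha ((min_le_left _ _).trans k2)
  have r1 : ((a : ℝ) - a1) ≤ a2 := by
    have : (a : ℝ) ≤ a1 + a2 := by exact_mod_cast k3
    linarith
  have r2 : ((b : ℝ) - b1) ≤ b2 := by
    have : (b : ℝ) ≤ b1 + b2 := by exact_mod_cast k6
    linarith
  have s1 : ((a : ℝ) - a1) * φ b1 ≤ a2 * φ (min a2 b2) :=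
    (mul_le_mul_of_nonneg_right r1 (hn _)).trans
      (mul_le_mul_of_nonneg_left q1 (Nat.cast_nonneg _))
  have s2 : ((b : ℝ) - b1) * φ a ≤ b2 * φ (min a2 b2) :=
    (mul_le_mul_of_nonneg_right r2 (hn _)).trans
      (mul_le_mul_of_nonneg_left q2 (Nat.cast_nonneg _))
  obtain ⟨d, hd⟩ := Nat.exists_eq_add_of_le (le_min g3 g4)
  have t1 := mono ha m d
  rw [← hd] at t1
  have t2 : (a2 : ℝ) + b2 = ((max a2 b2 : ℕ) : ℝ) + ((min a2 b2 : ℕ) : ℝ) := by
    have : a2 + b2 = max a2 b2 + min a2 b2 := by omega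
    exact_mod_cast this
  have t3 : Vf φ a2 b2 = 2 * (∑ k ∈ Finset.Icc 1 (min a2 b2), φ k) +
      (((max a2 b2 : ℕ) : ℝ) - ((min a2 b2 : ℕ) : ℝ)) * φ (min a2 b2) := rfl
  have t4 : (a2 : ℝ) * φ (min a2 b2) + b2 * φ (min a2 b2) =
      (((max a2 b2 : ℕ) : ℝ) + ((min a2 b2 : ℕ) : ℝ)) * φ (min a2 b2) := by
    rw [← t2]; ring
  rw [t3]
  simp only [sub_self, zero_mul, add_zero] at p1 p2
  linarith

end PM

theorem merge (hpath : S_PATH) : S_MERGE := by
  intro φ ha hn hc a1 b1 a2 b2 a b m hm g1 g2 g3 g4 k1 k2 k3 k4 k5 k6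
  by_cases hb : min a2 b2 ≤ b1
  · exact PM.half hpath ha hn hc hm g1 g2 g3 g4 k1 k2 k3 k4 k5 k6 hb
  · have hb' : min a1 b1 ≤ b2 := by omega
    rw [add_comm (Vf φ a1 b1)]
    exact PM.half hpath ha hn hc hm g3 g4 g1 g2 k2 k1 (by omega) k5 k4 (by omega) hb'

end Pool.Agent.J6H44.BP
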