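import Pool.Agent.J6H44.BP.Stm

/-!
# The main recursion (module MREC)
-/

set_option autoImplicit false

open Finset

namespace Pool.Agent.J6H44.BP

namespace MRec

theorem box_up {α : Type*} (A B : Set (Finset α)) : Up (box A B) := by
  rintro S T hST ⟨I, J, h1, h2, h3, h4, h5⟩
  exact ⟨I, J, h1, h2.trans hST, h3.trans hST, h4, h5⟩

theorem q_union_le {α : Type*} [DecidableEq α] {p : ℝ} (h0 : 0 ≤ p) (h1 : p ≤ 1) (Λ : Finset α)
    (A B : Set (Finset α)) : q p Λ (A ∪ B) ≤ q p Λ A + q p Λ B := by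
  classical
  unfold q
  rw [← Finset.sum_add_distrib]
  apply Finset.sum_le_sum
  intro S _
  have hw := wt_nonneg h0 h1 Λ S
  by_cases hA : S ∈ A
  · rw [if_pos (show S ∈ A ∪ B from Or.inl hA), if_pos hA]
    split_ifs <;> linarith
  · by_cases hB : S ∈ B
    · rw [if_pos (show S ∈ A ∪ B from Or.inr hB), if_neg hA, if_pos hB]
      linarith
    · rw [if_neg (show ¬ S ∈ A ∪ B from fun h => h.elim hA hB), if_neg hA, if_neg hB]
      linarith

/-- the index set of the large parts -/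
def s1 (R : Rc) (T : ℕ) : Finset Rc :=
  (subs R).filter (fun R1 => T ≤ (R.a - R1.a) + (R.b - R1.b) ∧
    (R.a - R1.a) + (R.b - R1.b) ≤ 2 * T)

/-- the index set of the merges -/
def s2 (R : Rc) (T : ℕ) : Finset (Rc × Rc × Rc) :=
  (subs R ×ˢ (subs R ×ˢ subs R)).filter (fun t =>
    (R.a - t.1.a) + (R.b - t.1.b) < T ∧
    (t.2.1.a ≤ t.1.a ∧ t.2.2.a ≤ t.1.a ∧ t.1.a ≤ t.2.1.a + t.2.2.a) ∧
    (t.2.1.b ≤ t.1.b ∧ t.2.2.b ≤ t.1.b ∧ t.1.b ≤ t.2.1.b + t.2.2.b) ∧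
    t.2.1.a + t.2.1.b + T ≤ t.1.a + t.1.b ∧ t.2.2.a + t.2.2.b + T ≤ t.1.a + t.1.b)

theorem cover (hsplit : S_SPLIT) (R : Rc) (hR : R.Ok) (T : ℕ) (hT : 1 ≤ T) (hTR : T + 2 ≤ R.sg)
    (A : Finset (ℕ × ℕ)) (hA : IS R A) :
    A ∈ (⋃ R1 ∈ s1 R T, box (isp R1) (Gr R1 R)) ∪
      ⋃ t ∈ s2 R T, box (box (isp t.2.1) (isp t.2.2)) (Gr t.1 R) := by
  classical
  obtain ⟨R', hR', hmin⟩ := Finset.exists_min_image
    ((subs R).filter (fun Q => IS Q A ∧ R.sg < Q.sg + T)) (fun Q => Q.sg)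
    ⟨R, by
      rw [Finset.mem_filter, mem_subs]
      exact ⟨⟨hR, Rc.Le.refl R⟩, hA, by omega⟩⟩
  rw [Finset.mem_filter, mem_subs] at hR'
  obtain ⟨⟨hok', hle'⟩, hIS', hsg'⟩ := hR'
  obtain ⟨R1, R2, A1, A2, hok1, hok2, hne1, hne2, hJ, hA1, hA2, hd, hs1, hs2, hI1, hI2⟩ :=
    hsplit R' A hok' (by omega) hIS'
  have hl1 := hJ.left
  have hl2 := hJ.right
  have hlt1 := hl1.sg_lt hne1
  have hlt2 := hl2.sg_lt hne2
  have hIA1 : IS R1 A := hI1.mono hA1
  have hIA2 : IS R2 A := hI2.mono hA2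
  have hLe1 := hl1.trans hle'
  have hLe2 := hl2.trans hle'
  have hb1 : R1.sg + T ≤ R.sg := by
    by_contra hc
    have := hmin R1 (by
      rw [Finset.mem_filter, mem_subs]
      exact ⟨⟨hok1, hLe1⟩, hIA1, by omega⟩)
    omega
  have hb2 : R2.sg + T ≤ R.sg := by
    by_contra hc
    have := hmin R2 (by
      rw [Finset.mem_filter, mem_subs]
      exact ⟨⟨hok2, hLe2⟩, hIA2, by omega⟩)
    omega
  have big : ∀ Q : Rc, Q.Ok → Q.Le R → IS Q A → Q.sg + T ≤ R.sg → R.sg ≤ Q.sg + 2 * T →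
      A ∈ (⋃ R1 ∈ s1 R T, box (isp R1) (Gr R1 R)) := by
    intro Q hQ hQR hQA h1 h2
    have hd := hQR.dims
    unfold Rc.sg at h1 h2
    simp only [Set.mem_iUnion]
    refine ⟨Q, ?_, A ∩ Q.sites, A \ Q.sites, ?_, Finset.inter_subset_left, Finset.sdiff_subset,
      hQA.inter, Gr_sdiff (hA.gr hR Q)⟩
    · unfold s1
      rw [Finset.mem_filter, mem_subs]
      refine ⟨⟨hQ, hQR⟩, ?_, ?_⟩ <;> omega
    · rw [Finset.disjoint_left]
      intro v hv hv'
      exact (Finset.mem_sdiff.1 hv').2 (Finset.mem_inter.1 hv).2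
  rcases Nat.lt_or_ge (R1.sg + 2 * T) R.sg with h1 | h1
  · rcases Nat.lt_or_ge (R2.sg + 2 * T) R.sg with h2 | h2
    · right
      simp only [Set.mem_iUnion]
      refine ⟨(R', R1, R2), ?_, A1 ∪ A2, A \ R'.sites, ?_, Finset.union_subset hA1 hA2,
        Finset.sdiff_subset, ⟨A1, A2, hd, Finset.subset_union_left, Finset.subset_union_right,
          hI1, hI2⟩, Gr_sdiff (hA.gr hR R')⟩
      · unfold s2
        rw [Finset.mem_filter, Finset.mem_product, Finset.mem_product, mem_subs, mem_subs, mem_subs]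
        have hdm := hJ.dims
        have d1 := hl1.dims
        have d2 := hl2.dims
        have d' := hle'.dims
        unfold Rc.sg at *
        dsimp only
        refine ⟨⟨⟨hok', hle'⟩, ⟨hok1, hLe1⟩, ⟨hok2, hLe2⟩⟩, ?_, ⟨?_, ?_, ?_⟩, ⟨?_, ?_, ?_⟩, ?_, ?_⟩
          <;> omega
      · rw [Finset.disjoint_left]
        intro v hv hv'
        apply (Finset.mem_sdiff.1 hv').2
        rcases Finset.mem_union.1 hv with h | h
        · exact hl1.sites (hs1 h)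
        · exact hl2.sites (hs2 h)
    · left
      exact big R2 hok2 hLe2 hIA2 hb2 h2
  · left
    exact big R1 hok1 hLe1 hIA1 hb1 h1

end MRec

theorem mrec (hsplit : S_SPLIT) (hgrow : S_GROW) : S_MREC := by
  classical
  intro p hp0 hp1 Λ R hR T N hT hTR hNa hNb U hU hUR X1 X2 hX1 hX2 hc1 hc2
  have h0 := hp0.le
  have h1 := hp1.le
  have hstep : q p Λ (isp R) ≤ q p Λ ((⋃ R1 ∈ MRec.s1 R T, box (isp R1) (Gr R1 R)) ∪
      ⋃ t ∈ MRec.s2 R T, box (box (isp t.2.1) (isp t.2.2)) (Gr t.1 R)) :=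
    q_mono h0 h1 Λ (fun A hA => MRec.cover hsplit R hR T hT hTR A hA)
  refine hstep.trans ((MRec.q_union_le h0 h1 Λ _ _).trans (add_le_add ?_ ?_))
  · refine (q_iUnion_le h0 h1 Λ _ _).trans ?_
    have hterm : ∀ R1 ∈ MRec.s1 R T, q p Λ (box (isp R1) (Gr R1 R)) ≤ X1 := by
      intro R1 hR1
      unfold MRec.s1 at hR1
      rw [Finset.mem_filter, mem_subs] at hR1
      obtain ⟨⟨hok, hle⟩, ht1, ht2⟩ := hR1
      have hd := hle.dims
      refine (bk h0 h1 Λ _ _ (isp_up R1) (Gr_up R1 R)).trans ?_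
      refine le_trans ?_ (hc1 R1.a R1.b hok.1 hd.1 hok.2 hd.2 ht1 ht2)
      refine mul_le_mul (hUR R1 hok hle ?_) (hgrow p hp0 hp1 Λ R1 R hok hle)
        (q_nonneg h0 h1 _ _) (hU _ _)
      rintro rfl
      omega
    refine (Finset.sum_le_sum hterm).trans ?_
    rw [Finset.sum_const, nsmul_eq_mul]
    refine mul_le_mul_of_nonneg_right ?_ hX1
    have : (MRec.s1 R T).card ≤ N ^ 4 := (Finset.card_filter_le _ _).trans (card_subs R N hNa hNb)
    exact_mod_cast this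
  · refine (q_iUnion_le h0 h1 Λ _ _).trans ?_
    have hterm : ∀ t ∈ MRec.s2 R T,
        q p Λ (box (box (isp t.2.1) (isp t.2.2)) (Gr t.1 R)) ≤ X2 := by
      rintro ⟨R', R1, R2⟩ ht
      unfold MRec.s2 at ht
      rw [Finset.mem_filter, Finset.mem_product, Finset.mem_product, mem_subs, mem_subs,
        mem_subs] at ht
      dsimp only at ht ⊢
      obtain ⟨⟨⟨hok', hle'⟩, ⟨hok1, hle1⟩, ⟨hok2, hle2⟩⟩, ht1, ⟨ha1, ha2, ha3⟩, ⟨hb1, hb2, hb3⟩,
        hs1, hs2⟩ := ht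
      have hd := hle'.dims
      refine (bk h0 h1 Λ _ _ (MRec.box_up _ _) (Gr_up R' R)).trans ?_
      refine le_trans ?_ (hc2 R'.a R'.b R1.a R1.b R2.a R2.b hd.1 hd.2 ht1 hok1.1 hok1.2 hok2.1
        hok2.2 ha1 ha2 ha3 hb1 hb2 hb3 hs1 hs2)
      refine mul_le_mul ?_ (hgrow p hp0 hp1 Λ R' R hok' hle') (q_nonneg h0 h1 _ _)
        (mul_nonneg (hU _ _) (hU _ _))
      refine (bk h0 h1 Λ _ _ (isp_up R1) (isp_up R2)).trans ?_
      have hd1 := hle1.dims
      have hd2 := hle2.dims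
      refine mul_le_mul (hUR R1 hok1 hle1 ?_) (hUR R2 hok2 hle2 ?_) (q_nonneg h0 h1 _ _) (hU _ _)
      · rintro rfl
        omega
      · rintro rfl
        omega
    refine (Finset.sum_le_sum hterm).trans ?_
    rw [Finset.sum_const, nsmul_eq_mul]
    refine mul_le_mul_of_nonneg_right ?_ hX2
    have : (MRec.s2 R T).card ≤ N ^ 12 := by
      refine (Finset.card_filter_le _ _).trans ?_
      rw [Finset.card_product, Finset.card_product]
      have hc := card_subs R N hNa hNb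
      calc (subs R).card * ((subs R).card * (subs R).card) ≤ N ^ 4 * (N ^ 4 * N ^ 4) := by gcongr
        _ = N ^ 12 := by ring
    exact_mod_cast this

end Pool.Agent.J6H44.BP
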