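import Pool.Agent.J6H44.BP.Stm

/-!
# Modified bootstrap percolation: the lower bound for the series `∑ f` (`S_SERLO`)
-/

set_option autoImplicit false

open Finset

namespace Pool.Agent.J6H44.BP

namespace SerLo

/-- partial sums of the logarithmic series -/
theorem f_ge (p : ℝ) (hp : 0 < p) (hp1 : p ≤ 1 / 2) (k : ℕ) (hk : 1 ≤ k) (I : ℕ) :
    ∑ i ∈ Finset.range I, ((1 - p) ^ k) ^ (i + 1) / ((i : ℝ) + 1) ≤ f p k := by
  have hw0 : (0 : ℝ) ≤ 1 - p := by linarith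
  have hw1 : 1 - p < 1 := by linarith
  have hx0 : 0 ≤ (1 - p) ^ k := pow_nonneg hw0 k
  have hx1 : (1 - p) ^ k < 1 := pow_lt_one₀ hw0 hw1 (by omega)
  have habs : |(1 - p) ^ k| < 1 := by rw [abs_of_nonneg hx0]; exact hx1
  have h := Real.hasSum_pow_div_log_of_abs_lt_one habs
  have h2 := sum_le_hasSum (Finset.range I) (fun i _ => by positivity) h
  exact h2

/-- the geometric sum -/
theorem geo_ge (p : ℝ) (hp : 0 < p) (hp1 : p ≤ 1 / 2) (N i : ℕ) :
    (1 - p * ((i : ℝ) + 1) - (1 - p) ^ N) / (p * ((i : ℝ) + 1)) ≤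
      ∑ k ∈ Finset.Icc 1 N, ((1 - p) ^ k) ^ (i + 1) := by
  have hw0 : (0 : ℝ) ≤ 1 - p := by linarith
  have hw1 : 1 - p < 1 := by linarith
  set u : ℝ := (1 - p) ^ (i + 1) with hu
  have hu0 : 0 ≤ u := pow_nonneg hw0 _
  have hu1 : u < 1 := pow_lt_one₀ hw0 hw1 (by omega)
  have hub : 1 - u ≤ p * ((i : ℝ) + 1) := by
    have := one_add_mul_le_pow (a := -p) (by linarith) (i + 1)
    push_cast at this
    have e : (1 + -p) = 1 - p := by ring
    rw [e] at this
    rw [hu]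
    nlinarith
  have hs : ∑ k ∈ Finset.Icc 1 N, ((1 - p) ^ k) ^ (i + 1) = ∑ k ∈ Finset.Ico 1 (N + 1), u ^ k := by
    apply Finset.sum_congr
    · ext k; simp only [Finset.mem_Icc, Finset.mem_Ico]; omega
    · intro k _
      rw [hu, ← pow_mul, ← pow_mul, mul_comm]
  rw [hs, geom_sum_Ico' (ne_of_lt hu1) (by omega)]
  have hpi : 0 < p * ((i : ℝ) + 1) := by positivity
  have h1u : 0 < 1 - u := by linarith
  have hnum : 0 ≤ u ^ 1 - u ^ (N + 1) := by
    have := pow_le_pow_of_le_one hu0 hu1.le (show 1 ≤ N + 1 by omega)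
    linarith
  have hA : (u ^ 1 - u ^ (N + 1)) / (p * ((i : ℝ) + 1)) ≤ (u ^ 1 - u ^ (N + 1)) / (1 - u) :=
    div_le_div_of_nonneg_left hnum h1u hub
  refine le_trans ?_ hA
  apply div_le_div_of_nonneg_right _ hpi.le
  have hB : u ^ (N + 1) ≤ (1 - p) ^ N := by
    rw [hu, ← pow_mul]
    apply pow_le_pow_of_le_one hw0 hw1.le
    nlinarith
  rw [pow_one]
  linarith

/-- partial sums of `∑ 1/i²` -/
theorem zeta_ge (I : ℕ) (hI : 1 ≤ I) :
    Real.pi ^ 2 / 6 - 1 / (I : ℝ) ≤ ∑ i ∈ Finset.range I, 1 / ((i : ℝ) + 1) ^ 2 := by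
  have hz := hasSum_zeta_two
  have ht := hz.tendsto_sum_nat
  have hle : ∀ n : ℕ, I + 1 ≤ n → ∑ i ∈ Finset.range n, 1 / (i : ℝ) ^ 2 ≤
      (∑ i ∈ Finset.range I, 1 / ((i : ℝ) + 1) ^ 2) + 1 / (I : ℝ) := by
    intro n hn
    have e1 : ∑ i ∈ Finset.range n, 1 / (i : ℝ) ^ 2 =
        ∑ i ∈ Finset.range (I + 1), 1 / (i : ℝ) ^ 2 + ∑ i ∈ Finset.Ioc I (n - 1), 1 / (i : ℝ) ^ 2 := by
      rw [← Finset.sum_range_add_sum_Ico _ hn]
      congr 1
      apply Finset.sum_congr _ (fun _ _ => rfl)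
      ext k
      simp only [Finset.mem_Ico, Finset.mem_Ioc]
      omega
    have e2 : ∑ i ∈ Finset.range (I + 1), 1 / (i : ℝ) ^ 2 =
        ∑ i ∈ Finset.range I, 1 / ((i : ℝ) + 1) ^ 2 := by
      rw [Finset.sum_range_succ']
      simp
    have e3 : ∑ i ∈ Finset.Ioc I (n - 1), 1 / (i : ℝ) ^ 2 ≤ 1 / (I : ℝ) := by
      have h := sum_Ioc_inv_sq_le_sub (α := ℝ) (k := I) (n := n - 1) (by omega) (by omega)
      have h0 : (0 : ℝ) ≤ (((n - 1 : ℕ) : ℝ))⁻¹ := by positivity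
      simp only [one_div]
      linarith
    rw [e1, e2]
    linarith
  have := le_of_tendsto ht (Filter.eventually_atTop.2 ⟨I + 1, hle⟩)
  linarith

theorem zeta_le (I : ℕ) : ∑ i ∈ Finset.range I, 1 / ((i : ℝ) + 1) ^ 2 ≤ 2 := by
  have hz := hasSum_zeta_two
  have h := sum_le_hasSum (Finset.range (I + 1)) (fun i _ => by positivity) hz
  have e2 : ∑ i ∈ Finset.range (I + 1), 1 / (i : ℝ) ^ 2 =
      ∑ i ∈ Finset.range I, 1 / ((i : ℝ) + 1) ^ 2 := by
    rw [Finset.sum_range_succ']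
    simp
  rw [e2] at h
  have hpi : Real.pi < 3.15 := Real.pi_lt_d2
  have hpi0 := Real.pi_pos
  nlinarith

theorem harm_le (I : ℕ) : ∑ i ∈ Finset.range I, 1 / ((i : ℝ) + 1) ≤ 1 + Real.log I := by
  have h := harmonic_le_one_add_log I
  have e : ((harmonic I : ℚ) : ℝ) = ∑ i ∈ Finset.range I, 1 / ((i : ℝ) + 1) := by
    unfold harmonic
    push_cast
    apply Finset.sum_congr rfl
    intro i _
    rw [one_div]
  rw [← e]
  exact h

end SerLo

theorem serlo : S_SERLO := by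
  intro p hp hp1 N
  have hw0 : (0 : ℝ) ≤ 1 - p := by linarith
  set W : ℝ := (1 - p) ^ N with hW
  have hW0 : 0 ≤ W := pow_nonneg hw0 N
  set I : ℕ := ⌈1 / p⌉₊ with hI
  have hpinv : 2 ≤ 1 / p := by
    rw [le_div_iff₀ hp]; linarith
  have hI1 : 1 / p ≤ (I : ℝ) := Nat.le_ceil _
  have hI2 : (I : ℝ) < 1 / p + 1 := Nat.ceil_lt_add_one (by positivity)
  have hIpos : 1 ≤ I := by
    have : (0 : ℝ) < I := by linarith
    exact_mod_cast this
  -- the sum
  have h1 : ∑ i ∈ Finset.range I, (1 - p * ((i : ℝ) + 1) - W) / (p * ((i : ℝ) + 1)) /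
      ((i : ℝ) + 1) ≤ ∑ k ∈ Finset.Icc 1 N, f p k := by
    calc ∑ i ∈ Finset.range I, (1 - p * ((i : ℝ) + 1) - W) / (p * ((i : ℝ) + 1)) / ((i : ℝ) + 1)
        ≤ ∑ i ∈ Finset.range I, (∑ k ∈ Finset.Icc 1 N, ((1 - p) ^ k) ^ (i + 1)) /
            ((i : ℝ) + 1) := by
          apply Finset.sum_le_sum
          intro i _
          apply div_le_div_of_nonneg_right (SerLo.geo_ge p hp hp1 N i) (by positivity)
      _ = ∑ k ∈ Finset.Icc 1 N, ∑ i ∈ Finset.range I, ((1 - p) ^ k) ^ (i + 1) /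
            ((i : ℝ) + 1) := by
          rw [Finset.sum_comm]
          apply Finset.sum_congr rfl
          intro i _
          rw [Finset.sum_div]
      _ ≤ ∑ k ∈ Finset.Icc 1 N, f p k := by
          apply Finset.sum_le_sum
          intro k hk
          exact SerLo.f_ge p hp hp1 k (Finset.mem_Icc.1 hk).1 I
  have h2 : ∑ i ∈ Finset.range I, (1 - p * ((i : ℝ) + 1) - W) / (p * ((i : ℝ) + 1)) /
      ((i : ℝ) + 1) = (1 - W) / p * ∑ i ∈ Finset.range I, 1 / ((i : ℝ) + 1) ^ 2 -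
        ∑ i ∈ Finset.range I, 1 / ((i : ℝ) + 1) := by
    rw [Finset.mul_sum, ← Finset.sum_sub_distrib]
    apply Finset.sum_congr rfl
    intro i _
    have : (i : ℝ) + 1 ≠ 0 := by positivity
    field_simp
    ring
  have hz1 := SerLo.zeta_ge I hIpos
  have hz2 := SerLo.zeta_le I
  have hh := SerLo.harm_le I
  set Z : ℝ := ∑ i ∈ Finset.range I, 1 / ((i : ℝ) + 1) ^ 2 with hZ
  have h3 : Real.pi ^ 2 / (6 * p) - 1 - 2 * W / p ≤ (1 - W) / p * Z := by
    have e1 : (1 - W) / p * Z = Z / p - W * Z / p := by ring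
    have e2 : Real.pi ^ 2 / (6 * p) - 1 ≤ Z / p := by
      have : (Real.pi ^ 2 / 6 - 1 / (I : ℝ)) / p ≤ Z / p :=
        div_le_div_of_nonneg_right hz1 hp.le
      have e3 : 1 / (I : ℝ) / p ≤ 1 := by
        rw [div_div, div_le_one (by positivity)]
        rw [div_le_iff₀ hp] at hI1
        linarith
      have e4 : (Real.pi ^ 2 / 6 - 1 / (I : ℝ)) / p = Real.pi ^ 2 / (6 * p) - 1 / (I : ℝ) / p := by
        rw [sub_div, div_div]
      rw [e4] at this
      linarith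
    have e5 : W * Z / p ≤ 2 * W / p := by
      apply div_le_div_of_nonneg_right _ hp.le
      nlinarith
    rw [e1]
    linarith
  have h4 : Real.log I ≤ 1 + Real.log (1 / p) := by
    have hlog : Real.log I ≤ Real.log (2 * (1 / p)) := by
      apply Real.log_le_log
      · linarith
      · linarith
    rw [Real.log_mul (by norm_num) (by positivity)] at hlog
    have := Real.log_two_lt_d9
    linarith
  have h5 : 0 ≤ Real.log (1 / p) := Real.log_nonneg (by linarith)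
  linarith

end Pool.Agent.J6H44.BP
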