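import Pool.Agent.J6H44.BP.Stm

/-!
# SERUP: the sum of `f p k` is at most `π²/(6p)`
-/

set_option autoImplicit false

open Finset

namespace Pool.Agent.J6H44.BP

namespace SerUp

/-- `x^(n+1) * (p (n+1)) ≤ 1 - x^(n+1)` for `x = 1 - p` -/
theorem one_sub_pow_ge {p : ℝ} (h0 : 0 < p) (h1 : p < 1) (i : ℕ) :
    (1 - p) ^ i * (p * i) ≤ 1 - (1 - p) ^ i := by
  have hw0 : 0 ≤ 1 - p := by linarith
  have hw1 : 1 - p ≤ 1 := by linarith
  induction i with
  | zero => simp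
  | succ i ih =>
    have hx0 : 0 ≤ (1 - p) ^ i := pow_nonneg hw0 i
    have hx1 : (1 - p) ^ i ≤ 1 := pow_le_one₀ hw0 hw1
    have e : (1 - p) ^ (i + 1) = (1 - p) ^ i * (1 - p) := pow_succ _ _
    rw [e]
    push_cast
    have hi : (0 : ℝ) ≤ i := Nat.cast_nonneg i
    have h2 : 0 ≤ (1 - p) ^ i * (p * i) * p := by positivity
    have h3 : 0 ≤ (1 - p) ^ i * p * p := by positivity
    nlinarith

theorem geom_le {p : ℝ} (h0 : 0 < p) (h1 : p < 1) (i : ℕ) (hi : 1 ≤ i) (N : ℕ) :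
    ∑ k ∈ Finset.Icc 1 N, ((1 - p) ^ i) ^ k ≤ 1 / (p * i) := by
  have hw0 : 0 < 1 - p := by linarith
  have hw1 : 1 - p < 1 := by linarith
  set x : ℝ := (1 - p) ^ i with hx
  have hx0 : 0 < x := pow_pos hw0 i
  have hx1 : x < 1 := pow_lt_one₀ hw0.le hw1 (by omega)
  have hpi : 0 < p * i := by
    have : (0 : ℝ) < i := by exact_mod_cast hi
    positivity
  have key : ∀ N : ℕ, ∑ k ∈ Finset.Icc 1 N, x ^ k ≤ (x - x ^ (N + 1)) / (1 - x) := by
    intro N
    induction N with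
    | zero => simp
    | succ N ih =>
      rw [Finset.sum_Icc_succ_top (by omega)]
      refine (add_le_add_left ih _).trans (le_of_eq ?_)
      have : 1 - x ≠ 0 := by linarith
      field_simp
      ring
  refine (key N).trans ?_
  have h2 : 0 < 1 - x := by linarith
  have h3 : x * (p * i) ≤ 1 - x := one_sub_pow_ge h0 h1 i
  rw [div_le_div_iff₀ h2 hpi]
  have h4 : 0 ≤ x ^ (N + 1) := by positivity
  nlinarith [mul_nonneg h4 hpi.le]

end SerUp

theorem serup : S_SERUP := by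
  intro p h0 h1 N
  have hw0 : 0 < 1 - p := by linarith
  have hw1 : 1 - p < 1 := by linarith
  have hz : HasSum (fun n : ℕ => 1 / p * (1 / ((n + 1 : ℕ) : ℝ) ^ 2)) (1 / p * (Real.pi ^ 2 / 6)) := by
    have h := (hasSum_nat_add_iff' 1).2 hasSum_zeta_two
    simp only [Finset.range_one, Finset.sum_singleton, Nat.cast_zero] at h
    have e0 : Real.pi ^ 2 / 6 - 1 / (0 : ℝ) ^ 2 = Real.pi ^ 2 / 6 := by norm_num
    rw [e0] at h
    exact h.mul_left (1 / p)
  have hs : HasSum (fun n : ℕ => ∑ k ∈ Finset.Icc 1 N, ((1 - p) ^ k) ^ (n + 1) / ((n : ℝ) + 1))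
      (∑ k ∈ Finset.Icc 1 N, f p k) := by
    apply hasSum_sum
    intro k hk
    have hk1 : 1 ≤ k := (Finset.mem_Icc.1 hk).1
    unfold f g
    apply Real.hasSum_pow_div_log_of_abs_lt_one
    rw [abs_of_pos (pow_pos hw0 k)]
    exact pow_lt_one₀ hw0.le hw1 (by omega)
  have hle := hasSum_le (fun n => ?_) hs hz
  · refine hle.trans (le_of_eq ?_)
    field_simp
  · have hn : (0 : ℝ) < ((n + 1 : ℕ) : ℝ) := by exact_mod_cast Nat.succ_pos n
    have hg := SerUp.geom_le h0 h1 (n + 1) (by omega) N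
    have e1 : ∑ k ∈ Finset.Icc 1 N, ((1 - p) ^ k) ^ (n + 1) / ((n : ℝ) + 1) =
        (∑ k ∈ Finset.Icc 1 N, ((1 - p) ^ (n + 1)) ^ k) / ((n + 1 : ℕ) : ℝ) := by
      rw [Finset.sum_div]
      apply Finset.sum_congr rfl
      intro k _
      rw [← pow_mul, ← pow_mul, mul_comm k (n + 1)]
      push_cast
      rfl
    rw [e1, div_le_iff₀ hn]
    refine hg.trans (le_of_eq ?_)
    field_simp

end Pool.Agent.J6H44.BP
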