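import Pool.Agent.J6H44.BP.Stm

set_option autoImplicit false

open Finset

namespace Pool.Agent.J6H44.BP

namespace Sp17

lemma spread_row {S : Set (ℕ × ℕ)} (hS : Stab S) {r r' lo hi x0 : ℕ} (hr : r' = r + 1 ∨ r = r' + 1)
    (h : ∀ x, lo ≤ x → x < hi → (x, r') ∈ S) (h0 : (x0, r) ∈ S) (h1 : lo ≤ x0 + 1)
    (h2 : x0 ≤ hi) : ∀ x, lo ≤ x → x < hi → (x, r) ∈ S := by
  have hR : ∀ k, lo ≤ x0 + k → x0 + k < hi → (x0 + k, r) ∈ S := by
    intro k
    induction k with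
    | zero => exact fun _ _ => h0
    | succ k ih =>
      intro h3 h4
      rcases Nat.eq_zero_or_pos k with hk | hk
      · subst hk
        exact hS (x0 + (0 + 1)) r x0 r' (Or.inr (by omega)) hr h0 (h _ h3 h4)
      · exact hS (x0 + (k + 1)) r (x0 + k) r' (Or.inr (by omega)) hr (ih (by omega) (by omega))
          (h _ h3 h4)
  have hL : ∀ k, k ≤ x0 → lo ≤ x0 - k → x0 - k < hi → (x0 - k, r) ∈ S := by
    intro k
    induction k with
    | zero => exact fun _ _ _ => h0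
    | succ k ih =>
      intro h5 h3 h4
      rcases Nat.eq_zero_or_pos k with hk | hk
      · subst hk
        exact hS (x0 - (0 + 1)) r x0 r' (Or.inl (by omega)) hr h0 (h _ h3 h4)
      · exact hS (x0 - (k + 1)) r (x0 - k) r' (Or.inl (by omega)) hr
          (ih (by omega) (by omega) (by omega)) (h _ h3 h4)
  intro x hx hx'
  rcases Nat.le_total x0 x with h3 | h3
  · have := hR (x - x0) (by omega) (by omega)
    rwa [show x0 + (x - x0) = x by omega] at this
  · have := hL (x0 - x) (by omega) (by omega) (by omega)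
    rwa [show x0 - (x0 - x) = x by omega] at this

lemma stab_swap {S : Set (ℕ × ℕ)} (hS : Stab S) : Stab {v : ℕ × ℕ | (v.2, v.1) ∈ S} := by
  intro x y x' y' hx hy h1 h2
  exact hS y x y' x' hy hx h2 h1

lemma spread_col {S : Set (ℕ × ℕ)} (hS : Stab S) {c c' lo hi y0 : ℕ} (hc : c' = c + 1 ∨ c = c' + 1)
    (h : ∀ y, lo ≤ y → y < hi → (c', y) ∈ S) (h0 : (c, y0) ∈ S) (h1 : lo ≤ y0 + 1)
    (h2 : y0 ≤ hi) : ∀ y, lo ≤ y → y < hi → (c, y) ∈ S :=
  spread_row (stab_swap hS) hc h h0 h1 h2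

end Sp17

open Sp17

/-- MODULE FILL -/
theorem fill : S_FILL := by
  intro S R1 R2 R hS hR1 hR2 hJ h1 h2
  have key : ∀ k : ℕ, ∀ Q : Rc, R1.Le Q → Q.Le R → R.sg - Q.sg ≤ k → (∀ v ∈ Q.sites, v ∈ S) →
      ∀ v ∈ R.sites, v ∈ S := by
    intro k
    induction k with
    | zero =>
      intro Q hQ1 hQ2 hk hQ
      have : Q = R := by
        by_contra hne
        have := hQ2.sg_lt hne
        omega
      rwa [this] at hQ
    | succ k ih =>
      intro Q hQ1 hQ2 hk hQ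
      obtain ⟨⟨j1, j2⟩, ⟨j3, j4⟩, ⟨j5, j6⟩, j7, j8⟩ := hJ
      obtain ⟨a1, a2⟩ := hR1
      obtain ⟨b1, b2⟩ := hR2
      obtain ⟨q1, q2, q3, q4⟩ := hQ1
      obtain ⟨p1, p2, p3, p4⟩ := hQ2
      have hQs : ∀ x y : ℕ, Q.x ≤ x → x < Q.x + Q.a → Q.y ≤ y → y < Q.y + Q.b → (x, y) ∈ S :=
        fun x y e1 e2 e3 e4 => hQ (x, y) ((mem_sites Q _).2 ⟨⟨e1, e2⟩, e3, e4⟩)
      have h2s : ∀ x y : ℕ, R2.x ≤ x → x < R2.x + R2.a → R2.y ≤ y → y < R2.y + R2.b → (x, y) ∈ S :=
        fun x y e1 e2 e3 e4 => h2 (x, y) ((mem_sites R2 _).2 ⟨⟨e1, e2⟩, e3, e4⟩)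
      by_cases c1 : Q.y + Q.b < R2.y + R2.b
      · refine ih ⟨Q.x, Q.y, Q.a, Q.b + 1⟩ ⟨q1, q2, q3, by dsimp only; omega⟩
          ⟨p1, p2, p3, by dsimp only; omega⟩ (by unfold Rc.sg at *; dsimp only; omega) ?_
        rintro ⟨x, y⟩ hv
        rw [mem_sites] at hv
        dsimp only at hv
        by_cases hy : y < Q.y + Q.b
        · exact hQs x y hv.1.1 hv.1.2 hv.2.1 hy
        · have hy' : y = Q.y + Q.b := by omega
          subst hy'
          obtain ⟨x0, e1, e2, e3, e4⟩ : ∃ x0, R2.x ≤ x0 ∧ x0 < R2.x + R2.a ∧ Q.x ≤ x0 + 1 ∧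
              x0 ≤ Q.x + Q.a := by
            by_cases hh : Q.x ≤ R2.x + 1
            · exact ⟨R2.x, by omega, by omega, by omega, by omega⟩
            · exact ⟨Q.x - 1, by omega, by omega, by omega, by omega⟩
          exact spread_row hS (r := Q.y + Q.b) (r' := Q.y + Q.b - 1) (lo := Q.x) (hi := Q.x + Q.a)
            (x0 := x0) (Or.inr (by omega))
            (fun x e5 e6 => hQs x _ e5 e6 (by omega) (by omega))
            (h2s x0 _ e1 e2 (by omega) (by omega)) e3 e4 x hv.1.1 hv.1.2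
      by_cases c2 : R2.y < Q.y
      · refine ih ⟨Q.x, Q.y - 1, Q.a, Q.b + 1⟩
          ⟨q1, q2, by dsimp only; omega, by dsimp only; omega⟩
          ⟨p1, p2, by dsimp only; omega, by dsimp only; omega⟩
          (by unfold Rc.sg at *; dsimp only; omega) ?_
        rintro ⟨x, y⟩ hv
        rw [mem_sites] at hv
        dsimp only at hv
        by_cases hy : Q.y ≤ y
        · exact hQs x y hv.1.1 hv.1.2 hy (by omega)
        · have hy' : y = Q.y - 1 := by omega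
          subst hy'
          obtain ⟨x0, e1, e2, e3, e4⟩ : ∃ x0, R2.x ≤ x0 ∧ x0 < R2.x + R2.a ∧ Q.x ≤ x0 + 1 ∧
              x0 ≤ Q.x + Q.a := by
            by_cases hh : Q.x ≤ R2.x + 1
            · exact ⟨R2.x, by omega, by omega, by omega, by omega⟩
            · exact ⟨Q.x - 1, by omega, by omega, by omega, by omega⟩
          exact spread_row hS (r := Q.y - 1) (r' := Q.y) (lo := Q.x) (hi := Q.x + Q.a)
            (x0 := x0) (Or.inl (by omega))
            (fun x e5 e6 => hQs x _ e5 e6 (by omega) (by omega))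
            (h2s x0 _ e1 e2 (by omega) (by omega)) e3 e4 x hv.1.1 hv.1.2
      by_cases c3 : Q.x + Q.a < R2.x + R2.a
      · refine ih ⟨Q.x, Q.y, Q.a + 1, Q.b⟩ ⟨q1, by dsimp only; omega, q3, q4⟩
          ⟨p1, by dsimp only; omega, p3, p4⟩ (by unfold Rc.sg at *; dsimp only; omega) ?_
        rintro ⟨x, y⟩ hv
        rw [mem_sites] at hv
        dsimp only at hv
        by_cases hy : x < Q.x + Q.a
        · exact hQs x y hv.1.1 hy hv.2.1 hv.2.2
        · have hy' : x = Q.x + Q.a := by omega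
          subst hy'
          obtain ⟨y0, e1, e2, e3, e4⟩ : ∃ y0, R2.y ≤ y0 ∧ y0 < R2.y + R2.b ∧ Q.y ≤ y0 + 1 ∧
              y0 ≤ Q.y + Q.b := by
            by_cases hh : Q.y ≤ R2.y + 1
            · exact ⟨R2.y, by omega, by omega, by omega, by omega⟩
            · exact ⟨Q.y - 1, by omega, by omega, by omega, by omega⟩
          exact spread_col hS (c := Q.x + Q.a) (c' := Q.x + Q.a - 1) (lo := Q.y) (hi := Q.y + Q.b)
            (y0 := y0) (Or.inr (by omega))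
            (fun y e5 e6 => hQs _ y (by omega) (by omega) e5 e6)
            (h2s _ y0 (by omega) (by omega) e1 e2) e3 e4 y hv.2.1 hv.2.2
      by_cases c4 : R2.x < Q.x
      · refine ih ⟨Q.x - 1, Q.y, Q.a + 1, Q.b⟩
          ⟨by dsimp only; omega, by dsimp only; omega, q3, q4⟩
          ⟨by dsimp only; omega, by dsimp only; omega, p3, p4⟩
          (by unfold Rc.sg at *; dsimp only; omega) ?_
        rintro ⟨x, y⟩ hv
        rw [mem_sites] at hv
        dsimp only at hv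
        by_cases hy : Q.x ≤ x
        · exact hQs x y hy (by omega) hv.2.1 hv.2.2
        · have hy' : x = Q.x - 1 := by omega
          subst hy'
          obtain ⟨y0, e1, e2, e3, e4⟩ : ∃ y0, R2.y ≤ y0 ∧ y0 < R2.y + R2.b ∧ Q.y ≤ y0 + 1 ∧
              y0 ≤ Q.y + Q.b := by
            by_cases hh : Q.y ≤ R2.y + 1
            · exact ⟨R2.y, by omega, by omega, by omega, by omega⟩
            · exact ⟨Q.y - 1, by omega, by omega, by omega, by omega⟩
          exact spread_col hS (c := Q.x - 1) (c' := Q.x) (lo := Q.y) (hi := Q.y + Q.b)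
            (y0 := y0) (Or.inl (by omega))
            (fun y e5 e6 => hQs _ y (by omega) (by omega) e5 e6)
            (h2s _ y0 (by omega) (by omega) e1 e2) e3 e4 y hv.2.1 hv.2.2
      have : Q = R := by
        ext <;> omega
      rwa [this] at hQ
  exact key _ R1 (Rc.Le.refl R1) hJ.left le_rfl h1

namespace Sp17

/-- the hull of two rectangles -/
def hull (P Q : Rc) : Rc :=
  ⟨min P.x Q.x, min P.y Q.y, max (P.x + P.a) (Q.x + Q.a) - min P.x Q.x,
    max (P.y + P.b) (Q.y + Q.b) - min P.y Q.y⟩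

/-- the rectangles touch -/
def Tch (P Q : Rc) : Prop :=
  (P.x ≤ Q.x + Q.a ∧ Q.x ≤ P.x + P.a) ∧ (P.y ≤ Q.y + Q.b ∧ Q.y ≤ P.y + P.b)

lemma join_hull {P Q : Rc} (h : Tch P Q) : Join P Q (hull P Q) := by
  refine ⟨⟨rfl, ?_⟩, ⟨rfl, ?_⟩, h.1, h.2⟩ <;> (unfold hull; dsimp only; omega)

lemma hull_ok {P Q : Rc} (hP : P.Ok) : (hull P Q).Ok := by
  obtain ⟨h1, h2⟩ := hP
  constructor <;> (unfold hull; dsimp only; omega)

lemma hull_le {P Q R : Rc} (hP : P.Le R) (hQ : Q.Le R) : (hull P Q).Le R := by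
  obtain ⟨h1, h2, h3, h4⟩ := hP
  obtain ⟨g1, g2, g3, g4⟩ := hQ
  refine ⟨?_, ?_, ?_, ?_⟩ <;> (unfold hull; dsimp only; omega)

/-- valid families -/
structure Fam (R : Rc) (A : Finset (ℕ × ℕ)) (F : Finset Rc) (W : Rc → Finset (ℕ × ℕ)) : Prop where
  ok : ∀ Q ∈ F, Q.Ok
  le : ∀ Q ∈ F, Q.Le R
  ne : ∀ Q ∈ F, Q ≠ R
  sub : ∀ Q ∈ F, W Q ⊆ A
  loc : ∀ Q ∈ F, W Q ⊆ Q.sites
  is : ∀ Q ∈ F, IS Q (W Q)
  disj : ∀ Q ∈ F, ∀ Q' ∈ F, Q ≠ Q' → Disjoint (W Q) (W Q')
  cov : ∀ v ∈ A, v ∈ R.sites → ∃ Q ∈ F, v ∈ Q.sites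

lemma is_hull {P Q : Rc} {B C : Finset (ℕ × ℕ)} (hP : P.Ok) (hQ : Q.Ok) (hT : Tch P Q)
    (h1 : IS P B) (h2 : IS Q C) : IS (hull P Q) (B ∪ C) := by
  intro S hS hB
  have hJ := join_hull hT
  refine fill S P Q (hull P Q) hS hP hQ hJ ?_ ?_
  · exact h1 S hS fun v hv hv' => hB v (mem_union_left _ hv) (hJ.left.sites hv')
  · exact h2 S hS fun v hv hv' => hB v (mem_union_right _ hv) (hJ.right.sites hv')

/-- no two members touch: impossible -/
lemma no_touch {R : Rc} {A : Finset (ℕ × ℕ)} {F : Finset Rc} {W : Rc → Finset (ℕ × ℕ)} (hR : R.Ok)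
    (hA : IS R A) (hF : Fam R A F W)
    (h : ∀ Q ∈ F, ∀ Q' ∈ F, Q ≠ Q' → ¬ Tch Q Q') : False := by
  set U : Set (ℕ × ℕ) := {v | ∃ Q ∈ F, v ∈ Q.sites} with hU
  have hStab : Stab U := by
    rintro x y x' y' hx hy ⟨Q, hQ, h1⟩ ⟨Q', hQ', h2⟩
    rw [mem_sites] at h1 h2
    dsimp only at h1 h2
    have : Q = Q' := by
      by_contra hne
      exact h Q hQ Q' hQ' hne ⟨⟨by omega, by omega⟩, by omega, by omega⟩
    subst this
    refine ⟨Q, hQ, (mem_sites Q _).2 ?_⟩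
    dsimp only
    omega
  have hall := hA U hStab fun v hv hv' => hF.cov v hv hv'
  obtain ⟨ha, hb⟩ := hR
  obtain ⟨Q0, hQ0, h0⟩ := hall (R.x, R.y) ((mem_sites R _).2 (by dsimp only; omega))
  have step : ∀ x y x' y' : ℕ, (x, y) ∈ Q0.sites → (x' ≤ x + 1) → (x ≤ x' + 1) → (y' ≤ y + 1) →
      (y ≤ y' + 1) → (x', y') ∈ R.sites → (x', y') ∈ Q0.sites := by
    intro x y x' y' hm e1 e2 e3 e4 hm'
    obtain ⟨Q', hQ', h2⟩ := hall (x', y') hm'
    have : Q0 = Q' := by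
      by_contra hne
      refine h Q0 hQ0 Q' hQ' hne ?_
      rw [mem_sites] at hm h2
      dsimp only at hm h2
      exact ⟨⟨by omega, by omega⟩, by omega, by omega⟩
    rwa [this]
  have hrow : ∀ i, i < R.a → (R.x + i, R.y) ∈ Q0.sites := by
    intro i
    induction i with
    | zero => exact fun _ => h0
    | succ i ih =>
      intro hi
      exact step (R.x + i) R.y _ _ (ih (by omega)) (by omega) (by omega) (by omega) (by omega)
        ((mem_sites R _).2 (by dsimp only; omega))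
  have hcol : ∀ j, j < R.b → (R.x + (R.a - 1), R.y + j) ∈ Q0.sites := by
    intro j
    induction j with
    | zero => exact fun _ => hrow _ (by omega)
    | succ j ih =>
      intro hj
      exact step (R.x + (R.a - 1)) (R.y + j) _ _ (ih (by omega)) (by omega) (by omega) (by omega)
        (by omega) ((mem_sites R _).2 (by dsimp only; omega))
  have h1 := hcol (R.b - 1) (by omega)
  rw [mem_sites] at h0 h1
  dsimp only at h0 h1
  obtain ⟨g1, g2, g3, g4⟩ := hF.le Q0 hQ0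
  refine hF.ne Q0 hQ0 ?_
  ext <;> omega

lemma fam_merge {R : Rc} {A : Finset (ℕ × ℕ)} {F : Finset Rc} {W : Rc → Finset (ℕ × ℕ)}
    (hF : Fam R A F W) {P Q : Rc} (hP : P ∈ F) (hQ : Q ∈ F) (hne : P ≠ Q) (hT : Tch P Q)
    (hH : hull P Q ≠ R) : ∃ F' : Finset Rc, ∃ W' : Rc → Finset (ℕ × ℕ), F'.card < F.card ∧
      Fam R A F' W' := by
  classical
  set H := hull P Q with hHd
  have hJ := join_hull hT
  refine ⟨insert H ((F.erase P).erase Q), Function.update W H (W P ∪ W Q), ?_, ?_⟩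
  · have h1 : ((F.erase P).erase Q).card = F.card - 2 := by
      rw [card_erase_of_mem (mem_erase.2 ⟨hne.symm, hQ⟩), card_erase_of_mem hP]
      omega
    have h2 : 2 ≤ F.card := by
      have : ({P, Q} : Finset Rc) ⊆ F := by
        intro z hz
        rw [mem_insert, mem_singleton] at hz
        rcases hz with rfl | rfl <;> assumption
      have h3 := card_le_card this
      rwa [card_pair hne] at h3
    have := card_insert_le H ((F.erase P).erase Q)
    omega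
  · have hmem : ∀ Z ∈ insert H ((F.erase P).erase Q), Z ≠ H → Z ∈ F ∧ Z ≠ P ∧ Z ≠ Q := by
      intro Z hZ hZH
      rw [mem_insert, mem_erase, mem_erase] at hZ
      rcases hZ with h | ⟨h1, h2, h3⟩
      · exact absurd h hZH
      · exact ⟨h3, h2, h1⟩
    have hWH : Function.update W H (W P ∪ W Q) H = W P ∪ W Q := Function.update_self _ _ _
    have hWZ : ∀ Z, Z ≠ H → Function.update W H (W P ∪ W Q) Z = W Z :=
      fun Z hZ => Function.update_of_ne hZ _ _
    constructor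
    · intro Z hZ
      by_cases hZH : Z = H
      · rw [hZH]; exact hull_ok (hF.ok P hP)
      · exact hF.ok Z (hmem Z hZ hZH).1
    · intro Z hZ
      by_cases hZH : Z = H
      · rw [hZH]; exact hull_le (hF.le P hP) (hF.le Q hQ)
      · exact hF.le Z (hmem Z hZ hZH).1
    · intro Z hZ
      by_cases hZH : Z = H
      · rw [hZH]; exact hH
      · exact hF.ne Z (hmem Z hZ hZH).1
    · intro Z hZ
      by_cases hZH : Z = H
      · rw [hZH, hWH]; exact union_subset (hF.sub P hP) (hF.sub Q hQ)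
      · rw [hWZ Z hZH]; exact hF.sub Z (hmem Z hZ hZH).1
    · intro Z hZ
      by_cases hZH : Z = H
      · rw [hZH, hWH]
        exact union_subset ((hF.loc P hP).trans hJ.left.sites) ((hF.loc Q hQ).trans hJ.right.sites)
      · rw [hWZ Z hZH]; exact hF.loc Z (hmem Z hZ hZH).1
    · intro Z hZ
      by_cases hZH : Z = H
      · rw [hZH, hWH]
        exact is_hull (hF.ok P hP) (hF.ok Q hQ) hT (hF.is P hP) (hF.is Q hQ)
      · rw [hWZ Z hZH]; exact hF.is Z (hmem Z hZ hZH).1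
    · intro Z hZ Z' hZ' hZZ
      by_cases hZH : Z = H
      · have hZH' : Z' ≠ H := fun h => hZZ (hZH.trans h.symm)
        obtain ⟨m1, m2, m3⟩ := hmem Z' hZ' hZH'
        rw [hZH, hWH, hWZ Z' hZH', disjoint_union_left]
        exact ⟨hF.disj P hP Z' m1 m2.symm, hF.disj Q hQ Z' m1 m3.symm⟩
      · obtain ⟨m1, m2, m3⟩ := hmem Z hZ hZH
        by_cases hZH' : Z' = H
        · rw [hZH', hWH, hWZ Z hZH, disjoint_union_right]
          exact ⟨hF.disj Z m1 P hP m2, hF.disj Z m1 Q hQ m3⟩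
        · rw [hWZ Z hZH, hWZ Z' hZH']
          exact hF.disj Z m1 Z' (hmem Z' hZ' hZH').1 hZZ
    · intro v hv hv'
      obtain ⟨Z, hZ, hvZ⟩ := hF.cov v hv hv'
      by_cases h1 : Z = P
      · exact ⟨H, mem_insert_self _ _, hJ.left.sites (h1 ▸ hvZ)⟩
      · by_cases h2 : Z = Q
        · exact ⟨H, mem_insert_self _ _, hJ.right.sites (h2 ▸ hvZ)⟩
        · exact ⟨Z, mem_insert_of_mem (mem_erase.2 ⟨h2, mem_erase.2 ⟨h1, hZ⟩⟩), hvZ⟩

lemma fam_start {R : Rc} {A : Finset (ℕ × ℕ)} (hR : 3 ≤ R.sg) :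
    ∃ F : Finset Rc, ∃ W : Rc → Finset (ℕ × ℕ), Fam R A F W := by
  classical
  refine ⟨(A.filter (fun v => v ∈ R.sites)).image (fun v => (⟨v.1, v.2, 1, 1⟩ : Rc)),
    fun Q => {(Q.x, Q.y)}, ?_⟩
  have hm : ∀ Q ∈ (A.filter (fun v => v ∈ R.sites)).image (fun v => (⟨v.1, v.2, 1, 1⟩ : Rc)),
      ∃ v : ℕ × ℕ, v ∈ A ∧ v ∈ R.sites ∧ (⟨v.1, v.2, 1, 1⟩ : Rc) = Q := by
    intro Q hQ
    rw [mem_image] at hQ
    obtain ⟨v, hv, hvQ⟩ := hQ
    rw [mem_filter] at hv
    exact ⟨v, hv.1, hv.2, hvQ⟩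
  constructor
  · intro Q hQ
    obtain ⟨v, h1, h2, rfl⟩ := hm Q hQ
    exact ⟨le_rfl, le_rfl⟩
  · intro Q hQ
    obtain ⟨v, h1, h2, rfl⟩ := hm Q hQ
    rw [mem_sites] at h2
    refine ⟨?_, ?_, ?_, ?_⟩ <;> (dsimp only; omega)
  · intro Q hQ hQR
    obtain ⟨v, h1, h2, rfl⟩ := hm Q hQ
    rw [← hQR] at hR
    unfold Rc.sg at hR
    dsimp only at hR
    omega
  · intro Q hQ
    obtain ⟨v, h1, h2, rfl⟩ := hm Q hQ
    rw [singleton_subset_iff]
    exact h1
  · intro Q hQ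
    obtain ⟨v, h1, h2, rfl⟩ := hm Q hQ
    rw [singleton_subset_iff, mem_sites]
    dsimp only
    omega
  · intro Q hQ
    obtain ⟨v, h1, h2, rfl⟩ := hm Q hQ
    intro S _ hB w hw
    rw [mem_sites] at hw
    dsimp only at hw
    have hwv : w = (v.1, v.2) := by
      ext <;> (dsimp only; omega)
    refine hB w ?_ ?_
    · rw [mem_singleton]
      exact hwv
    · rw [mem_sites]
      dsimp only
      omega
  · intro Q hQ Q' hQ' hne
    obtain ⟨v, h1, h2, rfl⟩ := hm Q hQ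
    obtain ⟨v', h1', h2', rfl⟩ := hm Q' hQ'
    rw [disjoint_singleton]
    intro h
    apply hne
    rw [Prod.mk.injEq] at h
    dsimp only at h
    rw [h.1, h.2]
  · intro v hv hv'
    refine ⟨⟨v.1, v.2, 1, 1⟩, mem_image.2 ⟨v, mem_filter.2 ⟨hv, hv'⟩, rfl⟩, ?_⟩
    rw [mem_sites]
    dsimp only
    omega

end Sp17

/-- MODULE SPLIT -/
theorem split : S_SPLIT := by
  intro R A hR hsg hA
  have key : ∀ n : ℕ, ∀ (F : Finset Rc) (W : Rc → Finset (ℕ × ℕ)), F.card ≤ n → Fam R A F W →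
      ∃ (R1 R2 : Rc) (A1 A2 : Finset (ℕ × ℕ)), R1.Ok ∧ R2.Ok ∧ R1 ≠ R ∧ R2 ≠ R ∧ Join R1 R2 R ∧
        A1 ⊆ A ∧ A2 ⊆ A ∧ Disjoint A1 A2 ∧ A1 ⊆ R1.sites ∧ A2 ⊆ R2.sites ∧ IS R1 A1 ∧
          IS R2 A2 := by
    intro n
    induction n with
    | zero =>
      intro F W hc hF
      exfalso
      refine no_touch hR hA hF ?_
      intro Q hQ
      rw [Nat.le_zero, card_eq_zero] at hc
      rw [hc] at hQ
      exact absurd hQ (notMem_empty _)
    | succ n ih =>
      intro F W hc hF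
      by_cases h : ∀ Q ∈ F, ∀ Q' ∈ F, Q ≠ Q' → ¬ Tch Q Q'
      · exact (no_touch hR hA hF h).elim
      · push Not at h
        obtain ⟨P, hP, Q, hQ, hne, hT⟩ := h
        by_cases hH : hull P Q = R
        · have hJ := join_hull hT
          rw [hH] at hJ
          exact ⟨P, Q, W P, W Q, hF.ok P hP, hF.ok Q hQ, hF.ne P hP, hF.ne Q hQ, hJ,
            hF.sub P hP, hF.sub Q hQ, hF.disj P hP Q hQ hne, hF.loc P hP, hF.loc Q hQ,
            hF.is P hP, hF.is Q hQ⟩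
        · obtain ⟨F', W', h1, h2⟩ := fam_merge hF hP hQ hne hT hH
          exact ih F' W' (by omega) h2
  obtain ⟨F, W, hF⟩ := fam_start (A := A) hsg
  exact key _ F W le_rfl hF

end Pool.Agent.J6H44.BP
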