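import Pool.Agent.J6H44.BP.Stm

/-! THIN: the exponent of thin rectangles. -/

set_option autoImplicit false

open Finset

namespace Pool.Agent.J6H44.BP

theorem thin (hf : S_FPROP) : S_THIN := by
  intro δ h0 h1
  refine ⟨min (1 / 100) (Real.exp (-(2 / δ))), by positivity, ?_⟩
  intro p hp hp0 a b ha hb
  have hp1 : p ≤ 1 / 100 := hp0.trans (min_le_left _ _)
  have hp2 : p ≤ Real.exp (-(2 / δ)) := hp0.trans (min_le_right _ _)
  obtain ⟨f1, f2, f3, f4, f5, f6, f7, f8⟩ := hf p hp (by linarith)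
  have hZ : p ^ (-(1 / 2 : ℝ) - 6 * δ) ≤ ((Zz δ p : ℕ) : ℝ) := by
    unfold Zz
    push_cast
    exact (Nat.lt_floor_add_one _).le
  have hZ' : ((Zz δ p : ℕ) : ℝ) ≤ p ^ (-(1 / 2 : ℝ) - 6 * δ) + 1 := by
    unfold Zz
    push_cast
    have := Nat.floor_le (Real.rpow_nonneg hp.le (-(1 / 2 : ℝ) - 6 * δ))
    linarith
  have hlp : Real.log p ≤ -(2 / δ) := by
    rw [← Real.log_exp (-(2 / δ))]
    exact Real.log_le_log hp hp2
  have hmul : p * p ^ (-(1 / 2 : ℝ) - 6 * δ) = p ^ (1 / 2 - 6 * δ : ℝ) := by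
    nth_rewrite 1 [← Real.rpow_one p]
    rw [← Real.rpow_add hp]
    congr 1
    ring
  have hsmall : p ^ (1 / 2 - 6 * δ : ℝ) ≤ 1 / 2 := by
    have e1 : p ^ (1 / 2 - 6 * δ : ℝ) ≤ p ^ (1 / 4 : ℝ) :=
      Real.rpow_le_rpow_of_exponent_ge hp (by linarith) (by linarith)
    have e2 : p ^ (1 / 4 : ℝ) ≤ (1 / 16 : ℝ) ^ (1 / 4 : ℝ) :=
      Real.rpow_le_rpow hp.le (by linarith) (by norm_num)
    have e3 : (1 / 16 : ℝ) ^ (1 / 4 : ℝ) = 1 / 2 := by
      rw [show (1 / 16 : ℝ) = (1 / 2) ^ (4 : ℝ) by norm_num, ← Real.rpow_mul (by norm_num)]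
      norm_num
    linarith
  have hZ1 : ((1 + Zz δ p : ℕ) : ℝ) = 1 + ((Zz δ p : ℕ) : ℝ) := by push_cast; ring
  have hlow : p ^ (1 / 2 - 6 * δ : ℝ) ≤ p * ((1 + Zz δ p : ℕ) : ℝ) := by
    rw [← hmul, hZ1]
    apply mul_le_mul_of_nonneg_left _ hp.le
    linarith
  have hup : p * ((1 + Zz δ p : ℕ) : ℝ) ≤ 1 := by
    rw [hZ1]
    have : p * (1 + ((Zz δ p : ℕ) : ℝ)) ≤ p * (p ^ (-(1 / 2 : ℝ) - 6 * δ) + 2) := by
      apply mul_le_mul_of_nonneg_left _ hp.le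
      linarith
    have e : p * (p ^ (-(1 / 2 : ℝ) - 6 * δ) + 2) = p ^ (1 / 2 - 6 * δ : ℝ) + p * 2 := by
      rw [mul_add, hmul]
    linarith
  have hφ1 : f p (1 + Zz δ p) ≤ 1 - (1 / 2 - 6 * δ) * Real.log p := by
    have e1 := f8 (1 + Zz δ p) (by omega) hup
    have hpos : 0 < p ^ (1 / 2 - 6 * δ : ℝ) := Real.rpow_pos_of_pos hp _
    have e2 : Real.log (1 / (p * ((1 + Zz δ p : ℕ) : ℝ))) ≤
        -((1 / 2 - 6 * δ) * Real.log p) := by
      rw [one_div, Real.log_inv, ← Real.log_rpow hp]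
      apply neg_le_neg
      exact Real.log_le_log hpos hlow
    have e3 : Real.log 2 ≤ 1 := by
      have := Real.log_two_lt_d9
      linarith
    linarith
  have hφ : ∀ k : ℕ, 1 ≤ k → f p (k + Zz δ p) ≤ f p (1 + Zz δ p) := fun k hk =>
    f4 (1 + Zz δ p) (k + Zz δ p) (by omega) (by omega)
  have hm1 : 1 ≤ min a b := le_min ha hb
  have hV : Vf (fun k => f p (k + Zz δ p)) a b ≤ ((a : ℝ) + b) * f p (1 + Zz δ p) := by
    unfold Vf
    have s1 : ∑ k ∈ Finset.Icc 1 (min a b), f p (k + Zz δ p) ≤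
        ((min a b : ℕ) : ℝ) * f p (1 + Zz δ p) := by
      have := Finset.sum_le_card_nsmul (Finset.Icc 1 (min a b)) (fun k => f p (k + Zz δ p))
        (f p (1 + Zz δ p)) (fun k hk => hφ k (Finset.mem_Icc.1 hk).1)
      rw [Nat.card_Icc, nsmul_eq_mul] at this
      simpa using this
    have s2 : (((max a b : ℕ) : ℝ) - ((min a b : ℕ) : ℝ)) * f p (min a b + Zz δ p) ≤
        (((max a b : ℕ) : ℝ) - ((min a b : ℕ) : ℝ)) * f p (1 + Zz δ p) := by
      apply mul_le_mul_of_nonneg_left (hφ _ hm1)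
      have : ((min a b : ℕ) : ℝ) ≤ ((max a b : ℕ) : ℝ) := by
        exact_mod_cast min_le_max
      linarith
    have s3 : ((min a b : ℕ) : ℝ) + ((max a b : ℕ) : ℝ) = (a : ℝ) + b := by
      exact_mod_cast min_add_max a b
    have s4 : ((a : ℝ) + b) * f p (1 + Zz δ p) =
      2 * (((min a b : ℕ) : ℝ) * f p (1 + Zz δ p)) +
        (((max a b : ℕ) : ℝ) - ((min a b : ℕ) : ℝ)) * f p (1 + Zz δ p) := by
      rw [← s3]; ring
    rw [s4]
    dsimp only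
    linarith
  have hab : (0 : ℝ) ≤ (a : ℝ) + b := by positivity
  have hPsi : Psi δ p a b ≤ ((a : ℝ) + b) * f p (1 + Zz δ p) := by
    unfold Psi
    have : 0 ≤ p ^ (1 / 2 - δ) * ((a : ℝ) + b) := by positivity
    linarith
  rw [← Real.exp_add, Real.rpow_def_of_pos hp]
  apply Real.exp_le_exp.2
  have h5 : ((a : ℝ) + b) * f p (1 + Zz δ p) ≤
      ((a : ℝ) + b) * (1 - (1 / 2 - 6 * δ) * Real.log p) :=
    mul_le_mul_of_nonneg_left hφ1 hab
  have h6 : 2 ≤ -(δ * Real.log p) := by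
    have := mul_le_mul_of_nonneg_left hlp h0.le
    have e : δ * (-(2 / δ)) = -2 := by field_simp
    rw [e] at this
    linarith
  have h7 : ((a : ℝ) + b) * 2 ≤ ((a : ℝ) + b) * (-(δ * Real.log p)) :=
    mul_le_mul_of_nonneg_left h6 hab
  nlinarith [h5, h7, hPsi]

end Pool.Agent.J6H44.BP
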