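import Pool.Agent.J6H44.BP.Stm

/-! TRIV: every row and column is hit. -/

set_option autoImplicit false

open Finset

namespace Pool.Agent.J6H44.BP

namespace Trv

variable {α : Type*} [DecidableEq α]

theorem q_univ {p : ℝ} (Λ : Finset α) : q p Λ (Set.univ : Set (Finset α)) = 1 := by
  induction Λ using Finset.induction_on with
  | empty => simp [q, wt]
  | insert e Λ he ih =>
    rw [q_insert p he]
    have e1 : addE e (Set.univ : Set (Finset α)) = Set.univ := by
      ext S; simp [addE]
    rw [e1, ih]
    ring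

/-- the event that `F` is hit -/
def Hit (F : Finset α) : Set (Finset α) := {S | ∃ v ∈ F, v ∈ S}

omit [DecidableEq α] in
theorem Hit_up (F : Finset α) : Up (Hit F) := by
  rintro S T hST ⟨v, hv, hv'⟩
  exact ⟨v, hv, hST hv'⟩

theorem q_hit (p : ℝ) (F Λ : Finset α) : q p Λ (Hit F) = 1 - (1 - p) ^ (F ∩ Λ).card := by
  induction Λ using Finset.induction_on with
  | empty =>
    have : (∅ : Finset α) ∉ Hit F := by
      rintro ⟨v, _, hv⟩; simp at hv
    simp [q, this]
  | insert e Λ he ih =>
    rw [q_insert p he]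
    by_cases hF : e ∈ F
    · have e1 : addE e (Hit F) = Set.univ := by
        ext S; simp only [addE, Set.mem_ofPred_eq, Set.mem_univ, iff_true]
        exact ⟨e, hF, Finset.mem_insert_self _ _⟩
      rw [e1, q_univ, ih, Finset.inter_insert_of_mem hF, Finset.card_insert_of_notMem]
      · rw [pow_succ]; ring
      · intro h; exact he (Finset.mem_inter.1 h).2
    · have e1 : addE e (Hit F) = Hit F := by
        ext S
        constructor
        · rintro ⟨v, hv, hv'⟩
          rcases Finset.mem_insert.1 hv' with h | h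
          · exact absurd (h ▸ hv) hF
          · exact ⟨v, hv, h⟩
        · rintro ⟨v, hv, hv'⟩
          exact ⟨v, hv, Finset.mem_insert_of_mem hv'⟩
      rw [e1, ih, Finset.inter_insert_of_notMem hF]
      ring

theorem q_hit_le {p : ℝ} (h0 : 0 ≤ p) (h1 : p ≤ 1) (F Λ : Finset α) :
    q p Λ (Hit F) ≤ g p F.card := by
  rw [q_hit]
  unfold g
  have : (1 - p) ^ F.card ≤ (1 - p) ^ (F ∩ Λ).card :=
    pow_le_pow_of_le_one (by linarith) (by linarith) (Finset.card_le_card Finset.inter_subset_left)
  linarith

end Trv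

open Trv in
theorem triv : S_TRIV := by
  intro p hp0 hp1 Λ R hR
  constructor
  · -- rows
    set A : Fin R.b → Set (Finset (ℕ × ℕ)) := fun i =>
      Hit ((Finset.Ico R.x (R.x + R.a)) ×ˢ ({R.y + i} : Finset ℕ)) with hA
    have h1 : q p Λ (isp R) ≤ q p Λ (nbox R.b A) := by
      apply q_mono hp0.le hp1.le
      intro S hS
      refine nbox_of R.b A (fun i => S ∩ ((Finset.Ico R.x (R.x + R.a)) ×ˢ ({R.y + (i : ℕ)} : Finset ℕ)))
        S ?_ ?_ ?_
      · intro i j hij
        rw [Finset.disjoint_left]
        rintro ⟨vx, vy⟩ h1 h2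
        simp only [Finset.mem_inter, Finset.mem_product, Finset.mem_singleton] at h1 h2
        apply hij
        apply Fin.ext
        omega
      · intro i; exact Finset.inter_subset_left
      · intro i
        obtain ⟨x, hx1, hx2, hx3⟩ := IS.row hR (A := S) hS (R.y + i) (by omega) (by omega)
        have hm : (x, R.y + (i : ℕ)) ∈
            ((Finset.Ico R.x (R.x + R.a)) ×ˢ ({R.y + (i : ℕ)} : Finset ℕ)) :=
          Finset.mem_product.2 ⟨Finset.mem_Ico.2 ⟨hx1, hx2⟩, Finset.mem_singleton.2 rfl⟩
        exact ⟨(x, R.y + i), hm, Finset.mem_inter.2 ⟨hx3, hm⟩⟩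
    refine h1.trans ((bk_nbox hp0.le hp1.le Λ R.b A (fun i => Hit_up _)).trans ?_)
    calc ∏ i, q p Λ (A i) ≤ ∏ _i : Fin R.b, g p R.a := by
          apply Finset.prod_le_prod
          · intro i _; exact q_nonneg hp0.le hp1.le _ _
          · intro i _
            have := q_hit_le hp0.le hp1.le
              ((Finset.Ico R.x (R.x + R.a)) ×ˢ ({R.y + (i : ℕ)} : Finset ℕ)) Λ
            rw [Finset.card_product, Nat.card_Ico, Finset.card_singleton, mul_one,
              show R.x + R.a - R.x = R.a by omega] at this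
            exact this
      _ = g p R.a ^ R.b := by simp
  · set A : Fin R.a → Set (Finset (ℕ × ℕ)) := fun i =>
      Hit (({R.x + (i : ℕ)} : Finset ℕ) ×ˢ (Finset.Ico R.y (R.y + R.b))) with hA
    have h1 : q p Λ (isp R) ≤ q p Λ (nbox R.a A) := by
      apply q_mono hp0.le hp1.le
      intro S hS
      refine nbox_of R.a A (fun i => S ∩ (({R.x + (i : ℕ)} : Finset ℕ) ×ˢ (Finset.Ico R.y (R.y + R.b))))
        S ?_ ?_ ?_
      · intro i j hij
        rw [Finset.disjoint_left]
        rintro ⟨vx, vy⟩ h1 h2
        simp only [Finset.mem_inter, Finset.mem_product, Finset.mem_singleton] at h1 h2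
        apply hij
        apply Fin.ext
        omega
      · intro i; exact Finset.inter_subset_left
      · intro i
        obtain ⟨y, hy1, hy2, hy3⟩ := IS.col hR (A := S) hS (R.x + i) (by omega) (by omega)
        have hm : (R.x + (i : ℕ), y) ∈
            (({R.x + (i : ℕ)} : Finset ℕ) ×ˢ (Finset.Ico R.y (R.y + R.b))) :=
          Finset.mem_product.2 ⟨Finset.mem_singleton.2 rfl, Finset.mem_Ico.2 ⟨hy1, hy2⟩⟩
        exact ⟨(R.x + i, y), hm, Finset.mem_inter.2 ⟨hy3, hm⟩⟩
    refine h1.trans ((bk_nbox hp0.le hp1.le Λ R.a A (fun i => Hit_up _)).trans ?_)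
    calc ∏ i, q p Λ (A i) ≤ ∏ _i : Fin R.a, g p R.b := by
          apply Finset.prod_le_prod
          · intro i _; exact q_nonneg hp0.le hp1.le _ _
          · intro i _
            have := q_hit_le hp0.le hp1.le
              (({R.x + (i : ℕ)} : Finset ℕ) ×ˢ (Finset.Ico R.y (R.y + R.b))) Λ
            rw [Finset.card_product, Nat.card_Ico, Finset.card_singleton, one_mul,
              show R.y + R.b - R.y = R.b by omega] at this
            exact this
      _ = g p R.b ^ R.a := by simp

end Pool.Agent.J6H44.BP
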