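import Pool.Agent.J6H44.BP.Stm

/-!
# UDROP: the probability that a square grows from its corner
-/

set_option autoImplicit false

open Finset

namespace Pool.Agent.J6H44.BP

namespace UDrop

variable {p : ℝ}

theorem q_univ (p : ℝ) {α : Type*} [DecidableEq α] (Λ : Finset α) :
    q p Λ (Set.univ : Set (Finset α)) = 1 := by
  induction Λ using Finset.induction_on with
  | empty => simp [q, wt]
  | insert e Λ he ih =>
    rw [q_insert p he]
    have e1 : addE e (Set.univ : Set (Finset α)) = Set.univ := by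
      ext S
      simp [addE]
    rw [e1, ih]
    ring

/-- the point `e` is present, or the event `E` occurs -/
theorem q_or (h0 : 0 ≤ p) (h1 : p ≤ 1) {α : Type*} [DecidableEq α] {Λ : Finset α} {e : α}
    (he : e ∈ Λ) (E F : Set (Finset α)) (hE : ∀ S, S ∈ E → S ∈ F) (hF : ∀ S, e ∈ S → S ∈ F) :
    p + (1 - p) * q p (Λ.erase e) E ≤ q p Λ F := by
  rw [← Finset.insert_erase he, q_insert p (Finset.notMem_erase e Λ),
    Finset.insert_erase he]
  have e1 : q p (Λ.erase e) (addE e F) = 1 := by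
    have h2 : addE e F = Set.univ := by
      ext S
      simp only [addE, Set.mem_ofPred_eq, Set.mem_univ, iff_true]
      exact hF _ (Finset.mem_insert_self e S)
    rw [h2, q_univ]
  rw [e1]
  have h2 := q_mono h0 h1 (Λ.erase e) hE
  have h3 := mul_le_mul_of_nonneg_left h2 (show 0 ≤ 1 - p by linarith)
  linarith

/-- the probability that a finite set is hit -/
theorem q_hit (h0 : 0 ≤ p) (h1 : p ≤ 1) {α : Type*} [DecidableEq α] (F : Finset α) :
    ∀ Λ : Finset α, F ⊆ Λ → 1 - (1 - p) ^ F.card ≤ q p Λ {A | ∃ v ∈ F, v ∈ A} := by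
  induction F using Finset.induction_on with
  | empty =>
    intro Λ _
    rw [Finset.card_empty, pow_zero, sub_self]
    exact q_nonneg h0 h1 _ _
  | insert e F he ih =>
    intro Λ hΛ
    have heΛ : e ∈ Λ := hΛ (Finset.mem_insert_self _ _)
    have hF : F ⊆ Λ.erase e := fun v hv => Finset.mem_erase.2
      ⟨fun h => he (h ▸ hv), hΛ (Finset.mem_insert_of_mem hv)⟩
    have h2 := q_or h0 h1 heΛ {A | ∃ v ∈ F, v ∈ A} {A | ∃ v ∈ insert e F, v ∈ A}
      (fun S hS => by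
        obtain ⟨v, hv, hvS⟩ := hS
        exact ⟨v, Finset.mem_insert_of_mem hv, hvS⟩)
      (fun S hS => ⟨e, Finset.mem_insert_self _ _, hS⟩)
    refine le_trans ?_ h2
    have h3 := mul_le_mul_of_nonneg_left (ih (Λ.erase e) hF) (show 0 ≤ 1 - p by linarith)
    rw [Finset.card_insert_of_notMem he, pow_succ]
    linarith

/-- several increasing events -/
theorem harris_prod (hh : S_HARRIS) (h0 : 0 ≤ p) (h1 : p ≤ 1) (Λ : Finset (ℕ × ℕ)) (s : Finset ℕ)
    (E : ℕ → Set (Finset (ℕ × ℕ))) (hE : ∀ k ∈ s, Up (E k)) :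
    ∏ k ∈ s, q p Λ (E k) ≤ q p Λ {A | ∀ k ∈ s, A ∈ E k} := by
  classical
  induction s using Finset.induction_on with
  | empty =>
    rw [Finset.prod_empty]
    have e1 : {A : Finset (ℕ × ℕ) | ∀ k ∈ (∅ : Finset ℕ), A ∈ E k} = Set.univ := by
      ext A
      simp
    rw [e1, q_univ]
  | insert e s he ih =>
    rw [Finset.prod_insert he]
    have ih' := ih fun k hk => hE k (Finset.mem_insert_of_mem hk)
    have hU : Up {A : Finset (ℕ × ℕ) | ∀ k ∈ s, A ∈ E k} := fun S T hST hS k hk =>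
      hE k (Finset.mem_insert_of_mem hk) S T hST (hS k hk)
    calc q p Λ (E e) * ∏ k ∈ s, q p Λ (E k)
        ≤ q p Λ (E e) * q p Λ {A | ∀ k ∈ s, A ∈ E k} :=
          mul_le_mul_of_nonneg_left ih' (q_nonneg h0 h1 _ _)
      _ ≤ q p Λ (E e ∩ {A | ∀ k ∈ s, A ∈ E k}) :=
          hh p h0 h1 Λ _ _ (hE e (Finset.mem_insert_self _ _)) hU
      _ ≤ _ := q_mono h0 h1 Λ (by
          rintro S ⟨hS1, hS2⟩ k hk
          rcases Finset.mem_insert.1 hk with rfl | hk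
          · exact hS1
          · exact hS2 k hk)

/-- the events -/
def ev (x y k : ℕ) : Set (Finset (ℕ × ℕ)) :=
  {A | (x + k, y + k) ∈ A ∨ ((∃ v ∈ (Finset.Ico y (y + k)).image (fun j => (x + k, j)), v ∈ A) ∧
    ∃ v ∈ (Finset.Ico x (x + k)).image (fun i => (i, y + k)), v ∈ A)}

theorem ev_up (x y k : ℕ) : Up (ev x y k) := by
  rintro S T hST (h | ⟨⟨v, hv, hvS⟩, w, hw, hwS⟩)
  · exact Or.inl (hST h)
  · exact Or.inr ⟨⟨v, hv, hST hvS⟩, w, hw, hST hwS⟩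

theorem hit_up (F : Finset (ℕ × ℕ)) : Up {A : Finset (ℕ × ℕ) | ∃ v ∈ F, v ∈ A} := by
  rintro S T hST ⟨v, hv, hvS⟩
  exact ⟨v, hv, hST hvS⟩

theorem q_ev (hh : S_HARRIS) (h0 : 0 ≤ p) (h1 : p ≤ 1) {Λ : Finset (ℕ × ℕ)} {x y L k : ℕ}
    (hk : k < L) (hΛ : Rc.sites ⟨x, y, L, L⟩ ⊆ Λ) :
    p + (1 - p) * g p k ^ 2 ≤ q p Λ (ev x y k) := by
  have hmem : ∀ i j : ℕ, x ≤ i → i < x + L → y ≤ j → j < y + L → (i, j) ∈ Λ := by
    intro i j h1 h2 h3 h4
    apply hΛ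
    rw [mem_sites]
    exact ⟨⟨h1, h2⟩, h3, h4⟩
  have he : (x + k, y + k) ∈ Λ := hmem _ _ (by omega) (by omega) (by omega) (by omega)
  set F1 := (Finset.Ico y (y + k)).image (fun j => (x + k, j)) with hF1
  set F2 := (Finset.Ico x (x + k)).image (fun i => (i, y + k)) with hF2
  have hF1Λ : F1 ⊆ Λ.erase (x + k, y + k) := by
    intro v hv
    obtain ⟨j, hj, rfl⟩ := Finset.mem_image.1 hv
    rw [Finset.mem_Ico] at hj
    rw [Finset.mem_erase]
    refine ⟨fun h => ?_, hmem _ _ (by omega) (by omega) hj.1 (by omega)⟩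
    have := congrArg Prod.snd h
    dsimp only at this
    omega
  have hF2Λ : F2 ⊆ Λ.erase (x + k, y + k) := by
    intro v hv
    obtain ⟨i, hi, rfl⟩ := Finset.mem_image.1 hv
    rw [Finset.mem_Ico] at hi
    rw [Finset.mem_erase]
    refine ⟨fun h => ?_, hmem _ _ hi.1 (by omega) (by omega) (by omega)⟩
    have := congrArg Prod.fst h
    dsimp only at this
    omega
  have hc1 : F1.card = k := by
    rw [hF1, Finset.card_image_of_injective _ (fun a b h => by simpa using h), Nat.card_Ico]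
    omega
  have hc2 : F2.card = k := by
    rw [hF2, Finset.card_image_of_injective _ (fun a b h => by simpa using h), Nat.card_Ico]
    omega
  have h2 := q_or h0 h1 he ({A | ∃ v ∈ F1, v ∈ A} ∩ {A | ∃ v ∈ F2, v ∈ A}) (ev x y k)
    (fun S hS => Or.inr hS) (fun S hS => Or.inl hS)
  refine le_trans ?_ h2
  have h3 := hh p h0 h1 (Λ.erase (x + k, y + k)) _ _ (hit_up F1) (hit_up F2)
  have h4 := q_hit h0 h1 F1 _ hF1Λ
  have h5 := q_hit h0 h1 F2 _ hF2Λ
  rw [hc1] at h4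
  rw [hc2] at h5
  have hg0 : 0 ≤ 1 - (1 - p) ^ k := by
    have := pow_le_one₀ (show 0 ≤ 1 - p by linarith) (show 1 - p ≤ 1 by linarith) (n := k)
    linarith
  have h6 : (1 - (1 - p) ^ k) * (1 - (1 - p) ^ k) ≤
      q p (Λ.erase (x + k, y + k)) {A | ∃ v ∈ F1, v ∈ A} *
        q p (Λ.erase (x + k, y + k)) {A | ∃ v ∈ F2, v ∈ A} :=
    mul_le_mul h4 h5 hg0 (hg0.trans h4)
  have h7 := mul_le_mul_of_nonneg_left (h6.trans h3) (show 0 ≤ 1 - p by linarith)
  unfold g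
  rw [pow_two]
  linarith

/-- on the events the square is internally spanned -/
theorem is_sq (hfill : S_FILL) {x y : ℕ} {A : Finset (ℕ × ℕ)} (h0 : (x, y) ∈ A) :
    ∀ k : ℕ, (∀ j ∈ Finset.Ico 1 (k + 1), A ∈ ev x y j) → IS ⟨x, y, k + 1, k + 1⟩ A := by
  intro k
  induction k with
  | zero =>
    intro _ S hS hA v hv
    rw [mem_sites] at hv
    dsimp only at hv
    have h1 : v = (x, y) := by
      ext
      · dsimp only; omega
      · dsimp only; omega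
    rw [h1]
    apply hA _ h0
    rw [mem_sites]
    dsimp only
    omega
  | succ k ih =>
    intro hev S hS hA
    have ih' := ih fun j hj => hev j (by
      rw [Finset.mem_Ico] at hj ⊢
      omega)
    have hsub : Rc.Le ⟨x, y, k + 1, k + 1⟩ ⟨x, y, k + 1 + 1, k + 1 + 1⟩ := by
      refine ⟨?_, ?_, ?_, ?_⟩ <;> dsimp only <;> omega
    have h1 : ∀ v ∈ Rc.sites ⟨x, y, k + 1, k + 1⟩, v ∈ S :=
      ih' S hS fun v hv hv' => hA v hv (hsub.sites hv')
    have hsingle : ∀ i j : ℕ, (i, j) ∈ S → ∀ v ∈ Rc.sites ⟨i, j, 1, 1⟩, v ∈ S := by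
      intro i j hij v hv
      rw [mem_sites] at hv
      dsimp only at hv
      have h2 : v = (i, j) := by
        ext
        · dsimp only; omega
        · dsimp only; omega
      rw [h2]
      exact hij
    have hAS : ∀ i j : ℕ, (i, j) ∈ A → x ≤ i → i ≤ x + (k + 1) → y ≤ j → j ≤ y + (k + 1) →
        (i, j) ∈ S := by
      intro i j h a b c d
      apply hA _ h
      rw [mem_sites]
      dsimp only
      omega
    rcases hev (k + 1) (by rw [Finset.mem_Ico]; omega) with h | ⟨⟨v, hv, hvA⟩, w, hw, hwA⟩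
    · refine hfill S ⟨x, y, k + 1, k + 1⟩ ⟨x + (k + 1), y + (k + 1), 1, 1⟩
        ⟨x, y, k + 1 + 1, k + 1 + 1⟩ hS ⟨by dsimp only; omega, by dsimp only; omega⟩
        ⟨le_rfl, le_rfl⟩ ?_ h1 (hsingle _ _ (hAS _ _ h (by omega) le_rfl (by omega) le_rfl))
      refine ⟨⟨?_, ?_⟩, ⟨?_, ?_⟩, ⟨?_, ?_⟩, ?_, ?_⟩ <;> dsimp only <;> omega
    · obtain ⟨j, hj, rfl⟩ := Finset.mem_image.1 hv
      obtain ⟨i, hi, rfl⟩ := Finset.mem_image.1 hw
      rw [Finset.mem_Ico] at hj hi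
      have h2 : ∀ v ∈ Rc.sites ⟨x, y, k + 1 + 1, k + 1⟩, v ∈ S := by
        refine hfill S ⟨x, y, k + 1, k + 1⟩ ⟨x + (k + 1), j, 1, 1⟩
          ⟨x, y, k + 1 + 1, k + 1⟩ hS ⟨by dsimp only; omega, by dsimp only; omega⟩
          ⟨le_rfl, le_rfl⟩ ?_ h1 (hsingle _ _ (hAS _ _ hvA (by omega) le_rfl hj.1 (by omega)))
        refine ⟨⟨?_, ?_⟩, ⟨?_, ?_⟩, ⟨?_, ?_⟩, ?_, ?_⟩ <;> dsimp only <;> omega
      refine hfill S ⟨x, y, k + 1 + 1, k + 1⟩ ⟨i, y + (k + 1), 1, 1⟩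
        ⟨x, y, k + 1 + 1, k + 1 + 1⟩ hS ⟨by dsimp only; omega, by dsimp only; omega⟩
        ⟨le_rfl, le_rfl⟩ ?_ h2 (hsingle _ _ (hAS _ _ hwA hi.1 (by omega) (by omega) le_rfl))
      refine ⟨⟨?_, ?_⟩, ⟨?_, ?_⟩, ⟨?_, ?_⟩, ?_, ?_⟩ <;> dsimp only <;> omega

end UDrop

theorem udrop (hh : S_HARRIS) (hfill : S_FILL) : S_UDROP := by
  intro p h0 h1 Λ x y L hL hΛ
  have hxy : (x, y) ∈ Λ := by
    apply hΛ
    rw [mem_sites]
    dsimp only
    omega
  have hc : p ≤ q p Λ {A | (x, y) ∈ A} := by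
    have h := UDrop.q_or h0.le h1.le hxy ∅ {A | (x, y) ∈ A} (fun S hS => hS.elim)
      (fun S hS => hS)
    have h2 := q_nonneg h0.le h1.le (Λ.erase (x, y)) (∅ : Set (Finset (ℕ × ℕ)))
    have h3 := mul_nonneg (show 0 ≤ 1 - p by linarith) h2
    linarith
  have hev : ∀ k ∈ Finset.Ico 1 L, p + (1 - p) * g p k ^ 2 ≤ q p Λ (UDrop.ev x y k) :=
    fun k hk => UDrop.q_ev hh h0.le h1.le (Finset.mem_Ico.1 hk).2 hΛ
  have hprod : ∏ k ∈ Finset.Ico 1 L, (p + (1 - p) * g p k ^ 2) ≤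
      ∏ k ∈ Finset.Ico 1 L, q p Λ (UDrop.ev x y k) := by
    refine Finset.prod_le_prod (fun k _ => ?_) hev
    have : 0 ≤ 1 - p := by linarith
    positivity
  have hH := UDrop.harris_prod hh h0.le h1.le Λ (Finset.Ico 1 L) (UDrop.ev x y)
    (fun k _ => UDrop.ev_up x y k)
  have hnn : 0 ≤ ∏ k ∈ Finset.Ico 1 L, (p + (1 - p) * g p k ^ 2) := by
    have : 0 ≤ 1 - p := by linarith
    exact Finset.prod_nonneg fun k _ => by positivity
  calc p * ∏ k ∈ Finset.Ico 1 L, (p + (1 - p) * g p k ^ 2)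
      ≤ q p Λ {A | (x, y) ∈ A} * q p Λ {A | ∀ k ∈ Finset.Ico 1 L, A ∈ UDrop.ev x y k} :=
        mul_le_mul hc (hprod.trans hH) hnn (q_nonneg h0.le h1.le _ _)
    _ ≤ q p Λ ({A | (x, y) ∈ A} ∩ {A | ∀ k ∈ Finset.Ico 1 L, A ∈ UDrop.ev x y k}) :=
        hh p h0.le h1.le Λ _ _ (fun S T hST hS => hST hS)
          (fun S T hST hS k hk => UDrop.ev_up x y k S T hST (hS k hk))
    _ ≤ q p Λ (isp ⟨x, y, L, L⟩) := q_mono h0.le h1.le Λ (by
        rintro A ⟨hA1, hA2⟩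
        obtain ⟨k, rfl⟩ : ∃ k, L = k + 1 := ⟨L - 1, by omega⟩
        exact UDrop.is_sq hfill hA1 k hA2)

end Pool.Agent.J6H44.BP
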