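import Pool.Agent.J6H44.BP.Stm

/-! # BP-UGEO: growing a box to the whole square (helper84) -/

set_option autoImplicit false

open Finset

namespace Pool.Agent.J6H44.BP

namespace UG

/-- spreading along a row next to a full row -/
lemma spread {S : Set (ℕ × ℕ)} (hS : Stab S) {a b y y' x0 : ℕ} (hadj : y' = y + 1 ∨ y = y' + 1)
    (hrow : ∀ x, a ≤ x → x < b → (x, y) ∈ S) (ha : a ≤ x0) (hb : x0 < b) (h0 : (x0, y') ∈ S) :
    ∀ x, a ≤ x → x < b → (x, y') ∈ S := by
  have hadj' : y = y' + 1 ∨ y' = y + 1 := hadj.symm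
  have right : ∀ k, x0 + k < b → (x0 + k, y') ∈ S := by
    intro k
    induction k with
    | zero => intro _; exact h0
    | succ k ih =>
      intro hk
      exact hS (x0 + (k + 1)) y' (x0 + k) y (Or.inr rfl) hadj' (ih (by omega))
        (hrow _ (by omega) hk)
  have left : ∀ k, a + k ≤ x0 → (x0 - k, y') ∈ S := by
    intro k
    induction k with
    | zero => intro _; exact h0
    | succ k ih =>
      intro hk
      refine hS (x0 - (k + 1)) y' (x0 - k) y (Or.inl (by omega)) hadj' (ih (by omega))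
        (hrow _ (by omega) (by omega))
  intro x hax hxb
  rcases le_total x0 x with h | h
  · have := right (x - x0) (by omega)
    have e : x0 + (x - x0) = x := by omega
    rwa [e] at this
  · have := left (x0 - x) (by omega)
    have e : x0 - (x0 - x) = x := by omega
    rwa [e] at this

/-- growing in the vertical direction -/
lemma grow {S : Set (ℕ × ℕ)} (hS : Stab S) {n L x0 y0 w : ℕ} (hL : 1 ≤ L) (hw : L ≤ w)
    (hx : x0 + w ≤ n) (hy : y0 < n)
    (h0 : ∀ x, x0 ≤ x → x < x0 + w → (x, y0) ∈ S)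
    (hrow : ∀ x y : ℕ, x + L ≤ n → y < n → ∃ x', x ≤ x' ∧ x' < x + L ∧ (x', y) ∈ S) :
    ∀ y, y < n → ∀ x, x0 ≤ x → x < x0 + w → (x, y) ∈ S := by
  have up : ∀ k, y0 + k < n → ∀ x, x0 ≤ x → x < x0 + w → (x, y0 + k) ∈ S := by
    intro k
    induction k with
    | zero => intro _; exact h0
    | succ k ih =>
      intro hk
      obtain ⟨x', h1, h2, h3⟩ := hrow x0 (y0 + (k + 1)) (by omega) hk
      exact spread hS (Or.inl rfl : y0 + (k + 1) = (y0 + k) + 1 ∨ _) (ih (by omega)) h1 (by omega) h3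
  have down : ∀ k, k ≤ y0 → ∀ x, x0 ≤ x → x < x0 + w → (x, y0 - k) ∈ S := by
    intro k
    induction k with
    | zero => intro _; exact h0
    | succ k ih =>
      intro hk
      obtain ⟨x', h1, h2, h3⟩ := hrow x0 (y0 - (k + 1)) (by omega) (by omega)
      refine spread hS (y := y0 - k) (Or.inr (by omega)) (ih (by omega)) h1 (by omega) h3
  intro y hy'
  rcases le_total y0 y with h | h
  · have := up (y - y0) (by omega)
    have e : y0 + (y - y0) = y := by omega
    rwa [e] at this
  · have := down (y0 - y) (by omega)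
    have e : y0 - (y0 - y) = y := by omega
    rwa [e] at this

lemma transpose {S : Set (ℕ × ℕ)} (hS : Stab S) : Stab {v : ℕ × ℕ | (v.2, v.1) ∈ S} := by
  intro x y x' y' hx hy h1 h2
  exact hS y x y' x' hy hx h2 h1

end UG

open UG

theorem ugeo : S_UGEO := by
  intro n L x0 y0 A hL hx hy hIS hrow hcol S hS hA
  have hA' : ∀ x y : ℕ, x < n → y < n → (x, y) ∈ A → (x, y) ∈ S := by
    intro x y h1 h2 h3
    refine hA _ h3 ?_
    rw [mem_sites]
    dsimp only
    omega
  have hbox : ∀ v ∈ (⟨x0, y0, L, L⟩ : Rc).sites, v ∈ S := by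
    refine hIS S hS fun v hv hv' => ?_
    rw [mem_sites] at hv'
    dsimp only at hv'
    exact hA' v.1 v.2 (by omega) (by omega) hv
  have s1 : ∀ y, y < n → ∀ x, x0 ≤ x → x < x0 + L → (x, y) ∈ S := by
    refine grow hS hL le_rfl hx (by omega : y0 < n) ?_ ?_
    · intro x h1 h2
      refine hbox _ ?_
      rw [mem_sites]
      dsimp only
      omega
    · intro x y h1 h2
      obtain ⟨x', h3, h4, h5⟩ := hrow x y h1 h2
      exact ⟨x', h3, h4, hA' _ _ (by omega) h2 h5⟩
  have s2 : ∀ x, x < n → ∀ y, 0 ≤ y → y < 0 + n → (y, x) ∈ {v : ℕ × ℕ | (v.2, v.1) ∈ S} := by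
    refine grow (transpose hS) hL (by omega : L ≤ n) (by omega : 0 + n ≤ n) (by omega : x0 < n) ?_ ?_
    · intro y _ h2
      exact s1 y (by omega) x0 le_rfl (by omega)
    · intro y x h1 h2
      obtain ⟨y', h3, h4, h5⟩ := hcol x y h2 h1
      exact ⟨y', h3, h4, hA' _ _ h2 (by omega) h5⟩
  intro v hv
  rw [mem_sites] at hv
  dsimp only at hv
  exact s2 v.1 (by omega) v.2 (by omega) (by omega)

end Pool.Agent.J6H44.BP
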