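import Pool.Agent.J6H44.BP.Stm

set_option autoImplicit false

open Finset

namespace Pool.Agent.J6H44.BP

namespace Up17

/-- numerical facts about `y = p^(-1/2)` -/
lemma big {y : ℝ} (hy : 10 ^ 30 ≤ y) : 128 * y ^ 12 ≤ Real.exp ((5 / 100) * y) := by
  have h0 : 0 ≤ y := le_trans (by norm_num) hy
  have h1 := Real.pow_div_factorial_le_exp ((5 / 100) * y) (by positivity) 13
  refine le_trans ?_ h1
  rw [le_div_iff₀ (by positivity)]
  have h2 : ((5 / 100) * y) ^ 13 = (5 / 100) ^ 13 * y ^ 12 * y := by ring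
  rw [h2]
  have h3 : 128 * y ^ 12 * ((13 : ℕ).factorial : ℝ) = y ^ 12 * (128 * ((13 : ℕ).factorial : ℝ)) := by
    ring
  have h4 : (5 / 100 : ℝ) ^ 13 * y ^ 12 * y = y ^ 12 * ((5 / 100) ^ 13 * y) := by ring
  rw [h3, h4]
  refine mul_le_mul_of_nonneg_left ?_ (by positivity)
  have h5 : (128 : ℝ) * ((13 : ℕ).factorial : ℝ) ≤ (5 / 100) ^ 13 * 10 ^ 30 := by
    norm_num [Nat.factorial]
  refine h5.trans (mul_le_mul_of_nonneg_left hy (by positivity))

end Up17

open Up17

/-- MODULE UP -/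
theorem up (hH : S_HARRIS) (hBox : S_UPBOX) (hSeg : S_UPSEG) (hDrop : S_UDROP) (hProd : S_UPROD)
    (hGeo : S_UGEO) : S_UP := by
  obtain ⟨p1, hp1, hP⟩ := hProd
  refine ⟨min p1 (1 / 10 ^ 60), lt_min hp1 (by norm_num), fun p hp hpp n hn1 hn2 => ?_⟩
  have hpa : p ≤ p1 := hpp.trans (min_le_left _ _)
  have hpb : p ≤ 1 / 10 ^ 60 := hpp.trans (min_le_right _ _)
  have hplt : p < 1 := lt_of_le_of_lt hpb (by norm_num)
  set y : ℝ := p ^ (-(1 / 2 : ℝ)) with hy
  have hy0 : 0 < y := Real.rpow_pos_of_pos hp _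
  have hy2 : y ^ 2 = 1 / p := by
    rw [hy, ← Real.rpow_natCast, ← Real.rpow_mul hp.le]
    norm_num
    rw [Real.rpow_neg_one]
  have hy3 : p ^ (-(3 / 2 : ℝ)) = y ^ 3 := by
    rw [hy, ← Real.rpow_natCast, ← Real.rpow_mul hp.le]
    norm_num
  have hyb : 10 ^ 30 ≤ y := by
    by_contra h
    push Not at h
    have h1 : y ^ 2 < (10 ^ 30) ^ 2 := pow_lt_pow_left₀ h hy0.le (by norm_num)
    rw [hy2] at h1
    have h2 : (10 : ℝ) ^ 60 ≤ 1 / p := by
      rw [le_div_iff₀ hp]
      calc (10 : ℝ) ^ 60 * p ≤ 10 ^ 60 * (1 / 10 ^ 60) :=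
            mul_le_mul_of_nonneg_left hpb (by positivity)
        _ = 1 := by norm_num
    have h3 : ((10 : ℝ) ^ 30) ^ 2 = 10 ^ 60 := by norm_num
    linarith
  have hy1 : 1 ≤ y := le_trans (by norm_num) hyb
  rw [hy3] at hn2
  -- the main quantities
  have hpy : p = 1 / y ^ 2 := by rw [hy2]; field_simp
  have hpi : 3 * y ^ 2 ≤ Real.pi ^ 2 / (3 * p) := by
    have h1 : (9 : ℝ) ≤ Real.pi ^ 2 := by nlinarith [Real.pi_gt_three]
    have h2 : Real.pi ^ 2 / (3 * p) = Real.pi ^ 2 / 3 * (1 / p) := by field_simp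
    rw [h2, ← hy2]
    have : 0 < y ^ 2 := by positivity
    nlinarith
  have hyy : y ≤ y ^ 2 := by nlinarith
  have hlogn : 2 * y ^ 2 ≤ 2 * Real.log n := by
    have : (3 / 10) * y ≤ y ^ 2 := by nlinarith
    linarith
  have hnpos : (0 : ℝ) < n := by
    rcases Nat.eq_zero_or_pos n with h | h
    · rw [h, Nat.cast_zero, Real.log_zero, mul_zero] at hlogn
      have : 0 < y ^ 2 := by positivity
      linarith
    · exact_mod_cast h
  have hnexp : Real.exp (y ^ 2) ≤ n := by
    rw [← Real.exp_log hnpos]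
    exact Real.exp_le_exp.2 (by linarith)
  set L : ℕ := ⌈y ^ 6⌉₊ with hL
  have hL1 : y ^ 6 ≤ L := Nat.le_ceil _
  have hy6 : 1 ≤ y ^ 6 := one_le_pow₀ hy1
  have hL2 : (L : ℝ) ≤ 2 * y ^ 6 := by
    have := Nat.ceil_lt_add_one (show 0 ≤ y ^ 6 by positivity)
    linarith
  have hLpos : 1 ≤ L := by
    have : (1 : ℝ) ≤ L := hy6.trans hL1
    exact_mod_cast this
  have hL0 : (0 : ℝ) < L := by exact_mod_cast hLpos
  have hLn : L ≤ n := by
    have h1 : (L : ℝ) ≤ n := by
      refine hL2.trans (le_trans ?_ hnexp)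
      have h2 := Real.pow_div_factorial_le_exp (y ^ 2) (by positivity) 4
      refine le_trans ?_ h2
      rw [le_div_iff₀ (by positivity)]
      have h3 : (((4 : ℕ).factorial : ℕ) : ℝ) = 24 := by norm_num [Nat.factorial]
      rw [h3]
      have h4 : (y ^ 2) ^ 4 = y ^ 6 * y ^ 2 := by ring
      rw [h4]
      have h5 : (48 : ℝ) ≤ y ^ 2 := by nlinarith
      have h6 : 0 < y ^ 6 := by positivity
      nlinarith
    exact_mod_cast h1
  set P : ℝ := Real.exp (-(Real.pi ^ 2 / (3 * p)) + (35 / 100) * y) with hPd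
  have hP0 : 0 < P := Real.exp_pos _
  have hP1 : P ≤ 1 := by
    rw [hPd, ← Real.exp_zero]
    refine Real.exp_le_exp.2 ?_
    nlinarith
  have hLp : 1 / p ≤ (L : ℝ) := by
    rw [← hy2]
    refine le_trans ?_ hL1
    have h1 : y ^ 6 = y ^ 2 * y ^ 4 := by ring
    rw [h1]
    have h2 : 1 ≤ y ^ 4 := one_le_pow₀ hy1
    have h3 : 0 < y ^ 2 := by positivity
    nlinarith
  have hPq : ∀ x z : ℕ, x + L ≤ n → z + L ≤ n →
      P ≤ q p (Finset.range n ×ˢ Finset.range n) (isp ⟨x, z, L, L⟩) := by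
    intro x z hx hz
    refine (hP p hp hpa L hLp).trans (hDrop p hp hplt _ x z L hLpos ?_)
    rintro ⟨u, v⟩ huv
    rw [mem_sites] at huv
    dsimp only at huv
    rw [mem_product, mem_range, mem_range]
    dsimp only
    omega
  have e1 := hBox p hp.le hplt.le n L P hLpos hP0.le hP1 hPq
  have e2 := hSeg p hp.le hplt.le n L hLpos
  set E1 : Set (Finset (ℕ × ℕ)) := {A | ∃ x y : ℕ, x + L ≤ n ∧ y + L ≤ n ∧ IS ⟨x, y, L, L⟩ A}
    with hE1
  set E2 : Set (Finset (ℕ × ℕ)) :=
    {A | (∀ x y : ℕ, x + L ≤ n → y < n → ∃ x', x ≤ x' ∧ x' < x + L ∧ (x', y) ∈ A) ∧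
      (∀ x y : ℕ, x < n → y + L ≤ n → ∃ y', y ≤ y' ∧ y' < y + L ∧ (x, y') ∈ A)} with hE2
  have u1 : Up E1 := by
    rintro S T hST ⟨x, z, h1, h2, h3⟩
    exact ⟨x, z, h1, h2, h3.mono hST⟩
  have u2 : Up E2 := by
    rintro S T hST ⟨h1, h2⟩
    refine ⟨fun x z hx hz => ?_, fun x z hx hz => ?_⟩
    · obtain ⟨w, w1, w2, w3⟩ := h1 x z hx hz
      exact ⟨w, w1, w2, hST w3⟩
    · obtain ⟨w, w1, w2, w3⟩ := h2 x z hx hz
      exact ⟨w, w1, w2, hST w3⟩
  have e3 := hH p hp.le hplt.le (Finset.range n ×ˢ Finset.range n) E1 E2 u1 u2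
  have e4 : q p (Finset.range n ×ˢ Finset.range n) (E1 ∩ E2) ≤
      q p (Finset.range n ×ˢ Finset.range n) (isp ⟨0, 0, n, n⟩) := by
    refine q_mono hp.le hplt.le _ ?_
    rintro A ⟨⟨x, z, h1, h2, h3⟩, h4, h5⟩
    exact hGeo n L x z A hLpos h1 h2 h3 h4 h5
  refine le_trans ?_ (e3.trans e4)
  -- first factor
  have f1 : (3 / 4 : ℝ) ≤ q p (Finset.range n ×ˢ Finset.range n) E1 := by
    refine le_trans ?_ e1
    have h1 : (1 - P) ^ ((n / L) ^ 2) ≤ Real.exp (-(((n / L) ^ 2 : ℕ) : ℝ) * P) := by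
      have h2 : 1 - P ≤ Real.exp (-P) := by
        have := Real.add_one_le_exp (-P)
        linarith
      calc (1 - P) ^ ((n / L) ^ 2) ≤ (Real.exp (-P)) ^ ((n / L) ^ 2) :=
            pow_le_pow_left₀ (by linarith) h2 _
        _ = Real.exp (-(((n / L) ^ 2 : ℕ) : ℝ) * P) := by
            rw [← Real.exp_nat_mul]
            congr 1
            ring
    have h3 : 2 ≤ (((n / L) ^ 2 : ℕ) : ℝ) * P := by
      have h4 : (n : ℝ) / (2 * L) ≤ ((n / L : ℕ) : ℝ) := by
        have h5 : 1 ≤ n / L := (Nat.one_le_div_iff hLpos).2 hLn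
        have h6 : n < (n / L + 1) * L := by
          have := Nat.lt_div_mul_add (a := n) (b := L) hLpos
          calc n < n / L * L + L := this
            _ = (n / L + 1) * L := by ring
        have h7 : (n : ℝ) < (((n / L : ℕ) : ℝ) + 1) * L := by exact_mod_cast h6
        have h8 : (1 : ℝ) ≤ ((n / L : ℕ) : ℝ) := by exact_mod_cast h5
        rw [div_le_iff₀ (by positivity)]
        nlinarith
      have h9 : ((n : ℝ) / (2 * L)) ^ 2 ≤ (((n / L) ^ 2 : ℕ) : ℝ) := by
        push_cast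
        exact pow_le_pow_left₀ (by positivity) h4 2
      refine le_trans ?_ (mul_le_mul_of_nonneg_right h9 hP0.le)
      have h10 : (n : ℝ) ^ 2 = Real.exp (2 * Real.log n) := by
        rw [two_mul, Real.exp_add, Real.exp_log hnpos]
        ring
      have h11 : Real.exp ((5 / 100) * y) ≤ (n : ℝ) ^ 2 * P := by
        rw [h10, hPd, ← Real.exp_add]
        refine Real.exp_le_exp.2 ?_
        linarith
      have h12 := big hyb
      have h13 : ((n : ℝ) / (2 * L)) ^ 2 * P = (n : ℝ) ^ 2 * P / (4 * (L : ℝ) ^ 2) := by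
        field_simp
        ring
      rw [h13, le_div_iff₀ (by positivity)]
      have h14 : (L : ℝ) ^ 2 ≤ 4 * y ^ 12 := by
        calc (L : ℝ) ^ 2 ≤ (2 * y ^ 6) ^ 2 := pow_le_pow_left₀ hL0.le hL2 2
          _ = 4 * y ^ 12 := by ring
      have h15 : 0 ≤ y ^ 12 := by positivity
      linarith
    have h16 : Real.exp (-(((n / L) ^ 2 : ℕ) : ℝ) * P) ≤ 1 / 4 := by
      calc Real.exp (-(((n / L) ^ 2 : ℕ) : ℝ) * P) ≤ Real.exp (-2) :=
            Real.exp_le_exp.2 (by linarith)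
        _ ≤ 1 / 4 := by
            have h17 : (4 : ℝ) ≤ Real.exp 2 := by
              have h18 : Real.exp 2 = Real.exp 1 * Real.exp 1 := by
                rw [← Real.exp_add]; norm_num
              have h19 := Real.exp_one_gt_d9
              rw [h18]
              nlinarith
            rw [Real.exp_neg, inv_eq_one_div]
            exact one_div_le_one_div_of_le (by norm_num) h17
    linarith
  -- second factor
  have f2 : (9 / 10 : ℝ) ≤ q p (Finset.range n ×ˢ Finset.range n) E2 := by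
    refine le_trans ?_ e2
    have h1 : (1 - p) ^ L ≤ Real.exp (-(y ^ 4)) := by
      have h2 : 1 - p ≤ Real.exp (-p) := by
        have := Real.add_one_le_exp (-p)
        linarith
      calc (1 - p) ^ L ≤ (Real.exp (-p)) ^ L := pow_le_pow_left₀ (by linarith) h2 _
        _ = Real.exp (L * (-p)) := (Real.exp_nat_mul _ _).symm
        _ ≤ Real.exp (-(y ^ 4)) := by
            refine Real.exp_le_exp.2 ?_
            have h3 : y ^ 4 ≤ L * p := by
              have h4 : y ^ 4 = y ^ 6 * p := by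
                rw [hpy]
                field_simp
              rw [h4]
              exact mul_le_mul_of_nonneg_right hL1 hp.le
            linarith
    have h10 : (n : ℝ) ^ 2 = Real.exp (2 * Real.log n) := by
      rw [two_mul, Real.exp_add, Real.exp_log hnpos]
      ring
    have h11 : (n : ℝ) ^ 2 ≤ Real.exp (y ^ 3) := by
      rw [h10]
      exact Real.exp_le_exp.2 hn2
    have h12 : (n : ℝ) ^ 2 * (1 - p) ^ L ≤ Real.exp (-3) := by
      calc (n : ℝ) ^ 2 * (1 - p) ^ L ≤ Real.exp (y ^ 3) * Real.exp (-(y ^ 4)) :=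
            mul_le_mul h11 h1 (pow_nonneg (by linarith) _) (Real.exp_pos _).le
        _ = Real.exp (y ^ 3 - y ^ 4) := by rw [← Real.exp_add]; ring_nf
        _ ≤ Real.exp (-3) := by
            refine Real.exp_le_exp.2 ?_
            have h13 : (4 : ℝ) ≤ y := le_trans (by norm_num) hyb
            have h14 : 1 ≤ y ^ 3 := one_le_pow₀ hy1
            have h15 : y ^ 4 = y ^ 3 * y := by ring
            rw [h15]
            nlinarith
    have h17 : Real.exp (-3) ≤ 1 / 20 := by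
      have h18 : (20 : ℝ) ≤ Real.exp 3 := by
        have h18 : Real.exp 3 = Real.exp 1 * Real.exp 1 * Real.exp 1 := by
          rw [← Real.exp_add, ← Real.exp_add]; norm_num
        have h19 : (2.718 : ℝ) ≤ Real.exp 1 := by
          have := Real.exp_one_gt_d9
          linarith
        rw [h18]
        have h20 : (2.718 : ℝ) * 2.718 ≤ Real.exp 1 * Real.exp 1 :=
          mul_le_mul h19 h19 (by norm_num) (by positivity)
        have h21 : (2.718 : ℝ) * 2.718 * 2.718 ≤ Real.exp 1 * Real.exp 1 * Real.exp 1 :=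
          mul_le_mul h20 h19 (by norm_num) (by positivity)
        refine le_trans ?_ h21
        norm_num
      rw [Real.exp_neg, inv_eq_one_div]
      exact one_div_le_one_div_of_le (by norm_num) h18
    have h22 : 2 * (n : ℝ) ^ 2 * (1 - p) ^ L = 2 * ((n : ℝ) ^ 2 * (1 - p) ^ L) := by ring
    rw [h22]
    linarith
  calc (1 / 2 : ℝ) ≤ (3 / 4) * (9 / 10) := by norm_num
    _ ≤ _ := mul_le_mul f1 f2 (by norm_num) (le_trans (by norm_num) f1)

end Pool.Agent.J6H44.BP
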