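import Pool.Agent.J6H44.BP.PTRIV

/-! UPBOX, UPSEG: many disjoint boxes, all long segments are hit. -/

set_option autoImplicit false

open Finset

namespace Pool.Agent.J6H44.BP

namespace Upb

variable {α : Type*} [DecidableEq α]

theorem q_compl (p : ℝ) (Λ : Finset α) (A : Set (Finset α)) : q p Λ Aᶜ = 1 - q p Λ A := by
  classical
  have h1 : q p Λ A + q p Λ Aᶜ = q p Λ Set.univ := by
    unfold q
    rw [← Finset.sum_add_distrib]
    refine Finset.sum_congr rfl fun S _ => ?_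
    by_cases h : S ∈ A
    · simp [h]
    · simp [h]
  rw [Trv.q_univ] at h1
  linarith

/-- the box with index `t` -/
def Bx (L : ℕ) (t : ℕ × ℕ) : Rc := ⟨t.1 * L, t.2 * L, L, L⟩

/-- none of the boxes of `s` is internally spanned -/
def No (L : ℕ) (s : Finset (ℕ × ℕ)) : Set (Finset (ℕ × ℕ)) := {A | ∀ t ∈ s, A ∉ isp (Bx L t)}

/-- the sites of the boxes of `s` -/
def Si (L : ℕ) (s : Finset (ℕ × ℕ)) : Finset (ℕ × ℕ) := s.biUnion fun t => (Bx L t).sites

theorem No_local (L : ℕ) (s : Finset (ℕ × ℕ)) (A : Finset (ℕ × ℕ)) :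
    A ∈ No L s ↔ A ∩ Si L s ∈ No L s := by
  have h : ∀ t ∈ s, (A ∈ isp (Bx L t) ↔ A ∩ Si L s ∈ isp (Bx L t)) := by
    intro t ht
    rw [isp_local (Bx L t) A, isp_local (Bx L t) (A ∩ Si L s), Finset.inter_assoc]
    have h1 : Si L s ∩ (Bx L t).sites = (Bx L t).sites :=
      Finset.inter_eq_right.2 (Finset.subset_biUnion_of_mem (fun t => (Bx L t).sites) ht)
    rw [h1]
  constructor
  · intro hA t ht h2
    exact hA t ht ((h t ht).2 h2)
  · intro hA t ht h2
    exact hA t ht ((h t ht).1 h2)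

theorem Bx_disjoint {L : ℕ} {t t' : ℕ × ℕ} (h : t ≠ t') :
    Disjoint (Bx L t).sites (Bx L t').sites := by
  rw [Finset.disjoint_left]
  intro v hv hv'
  rw [mem_sites] at hv hv'
  simp only [Bx] at hv hv'
  apply h
  have key : ∀ a b c : ℕ, a * L ≤ c → c < a * L + L → b * L ≤ c → c < b * L + L → a = b := by
    intro a b c h1 h2 h3 h4
    rcases lt_trichotomy a b with h5 | h5 | h5
    · have h6 : (a + 1) * L ≤ b * L := Nat.mul_le_mul_right L h5
      rw [add_mul, one_mul] at h6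
      omega
    · exact h5
    · have h6 : (b + 1) * L ≤ a * L := Nat.mul_le_mul_right L h5
      rw [add_mul, one_mul] at h6
      omega
  exact Prod.ext (key _ _ v.1 hv.1.1 hv.1.2 hv'.1.1 hv'.1.2)
    (key _ _ v.2 hv.2.1 hv.2.2 hv'.2.1 hv'.2.2)

theorem q_No_le (hi : S_INDEP) {p : ℝ} (h0 : 0 ≤ p) (h1 : p ≤ 1) (Λ : Finset (ℕ × ℕ)) {L : ℕ}
    {P : ℝ} (hP : P ≤ 1) (s : Finset (ℕ × ℕ)) (hs : ∀ t ∈ s, P ≤ q p Λ (isp (Bx L t))) :
    q p Λ (No L s) ≤ (1 - P) ^ s.card := by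
  induction s using Finset.induction_on with
  | empty =>
    rw [Finset.card_empty, pow_zero]
    refine (q_mono h0 h1 Λ (B := Set.univ) fun S _ => Set.mem_univ S).trans ?_
    rw [Trv.q_univ]
  | insert t s ht ih =>
    have e1 : No L (insert t s) = (isp (Bx L t))ᶜ ∩ No L s := by
      ext A
      constructor
      · intro hA
        exact ⟨hA t (Finset.mem_insert_self t s), fun t' ht' => hA t' (Finset.mem_insert_of_mem ht')⟩
      · rintro ⟨h2, h3⟩ t' ht'
        rcases Finset.mem_insert.1 ht' with h4 | h4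
        · rw [h4]; exact h2
        · exact h3 t' h4
    have hd : Disjoint (Bx L t).sites (Si L s) := by
      rw [Si, Finset.disjoint_biUnion_right]
      intro t' ht'
      exact Bx_disjoint fun h => ht (h ▸ ht')
    rw [e1, hi p h0 h1 Λ (Bx L t).sites (Si L s) (isp (Bx L t))ᶜ (No L s) hd
      (fun S => not_congr (isp_local (Bx L t) S)) (fun S => No_local L s S), q_compl,
      Finset.card_insert_of_notMem ht, pow_succ']
    have h2 := hs t (Finset.mem_insert_self t s)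
    have h3 := ih fun t' ht' => hs t' (Finset.mem_insert_of_mem ht')
    have h4 := q_nonneg h0 h1 Λ (No L s)
    exact mul_le_mul (by linarith) h3 h4 (by linarith)

/-- the horizontal segment -/
def hseg (L x y : ℕ) : Finset (ℕ × ℕ) := Finset.Ico x (x + L) ×ˢ {y}

/-- the vertical segment -/
def vseg (L x y : ℕ) : Finset (ℕ × ℕ) := {x} ×ˢ Finset.Ico y (y + L)

theorem q_miss {p : ℝ} {Λ F : Finset (ℕ × ℕ)} (h : F ⊆ Λ) {L : ℕ} (hc : F.card = L) :
    q p Λ (Trv.Hit F)ᶜ = (1 - p) ^ L := by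
  rw [q_compl, Trv.q_hit, Finset.inter_eq_left.2 h, hc]
  ring

end Upb

open Upb in
theorem upbox (hi : S_INDEP) : S_UPBOX := by
  intro p h0 h1 n L P hL hP0 hP1 hP
  set Λ := Finset.range n ×ˢ Finset.range n with hΛ
  set k := n / L with hk
  set s : Finset (ℕ × ℕ) := Finset.range k ×ˢ Finset.range k with hs
  have hkL : k * L ≤ n := Nat.div_mul_le_self n L
  have hb : ∀ i, i < k → i * L + L ≤ n := by
    intro i hi'
    have h2 : (i + 1) * L ≤ k * L := Nat.mul_le_mul_right L hi'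
    rw [add_mul, one_mul] at h2
    omega
  have h2 : q p Λ (No L s) ≤ (1 - P) ^ s.card := by
    refine q_No_le hi h0 h1 Λ hP1 s fun t ht => ?_
    rw [hs, Finset.mem_product, Finset.mem_range, Finset.mem_range] at ht
    exact hP _ _ (hb _ ht.1) (hb _ ht.2)
  have hcard : s.card = k ^ 2 := by
    rw [hs, Finset.card_product, Finset.card_range]
    ring
  rw [hcard] at h2
  have h3 : q p Λ (No L s)ᶜ ≤ q p Λ
      {A | ∃ x y : ℕ, x + L ≤ n ∧ y + L ≤ n ∧ IS ⟨x, y, L, L⟩ A} := by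
    refine q_mono h0 h1 Λ fun A hA => ?_
    have hA' : ¬ ∀ t ∈ s, A ∉ isp (Bx L t) := hA
    push Not at hA'
    obtain ⟨t, ht, h4⟩ := hA'
    rw [hs, Finset.mem_product, Finset.mem_range, Finset.mem_range] at ht
    exact ⟨t.1 * L, t.2 * L, hb _ ht.1, hb _ ht.2, h4⟩
  rw [q_compl] at h3
  linarith

open Upb in
theorem upseg : S_UPSEG := by
  intro p h0 h1 n L hL
  set Λ := Finset.range n ×ˢ Finset.range n with hΛ
  set G : Set (Finset (ℕ × ℕ)) :=
    {A | (∀ x y : ℕ, x + L ≤ n → y < n → ∃ x', x ≤ x' ∧ x' < x + L ∧ (x', y) ∈ A) ∧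
      (∀ x y : ℕ, x < n → y + L ≤ n → ∃ y', y ≤ y' ∧ y' < y + L ∧ (x, y') ∈ A)} with hG
  set s1 : Finset (ℕ × ℕ) := Λ.filter fun t => t.1 + L ≤ n with hs1
  set s2 : Finset (ℕ × ℕ) := Λ.filter fun t => t.2 + L ≤ n with hs2
  have hsub : ∀ A ∈ Gᶜ, A ∈ (⋃ t ∈ s1, (Trv.Hit (hseg L t.1 t.2))ᶜ) ∪
      (⋃ t ∈ s2, (Trv.Hit (vseg L t.1 t.2))ᶜ) := by
    intro A hA
    have hA' : ¬ ((∀ x y : ℕ, x + L ≤ n → y < n → ∃ x', x ≤ x' ∧ x' < x + L ∧ (x', y) ∈ A) ∧
      (∀ x y : ℕ, x < n → y + L ≤ n → ∃ y', y ≤ y' ∧ y' < y + L ∧ (x, y') ∈ A)) := hA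
    rw [not_and_or] at hA'
    rcases hA' with h | h
    · left
      push Not at h
      obtain ⟨x, y, hx, hy, h⟩ := h
      refine Set.mem_iUnion₂.2 ⟨(x, y), ?_, ?_⟩
      · rw [hs1, Finset.mem_filter, hΛ, Finset.mem_product, Finset.mem_range, Finset.mem_range]
        exact ⟨⟨by dsimp only; omega, hy⟩, hx⟩
      · rintro ⟨v, hv, hv'⟩
        rw [hseg, Finset.mem_product, Finset.mem_Ico, Finset.mem_singleton] at hv
        refine h v.1 hv.1.1 hv.1.2 ?_
        have h7 : v = (v.1, y) := Prod.ext rfl hv.2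
        rwa [h7] at hv'
    · right
      push Not at h
      obtain ⟨x, y, hx, hy, h⟩ := h
      refine Set.mem_iUnion₂.2 ⟨(x, y), ?_, ?_⟩
      · rw [hs2, Finset.mem_filter, hΛ, Finset.mem_product, Finset.mem_range, Finset.mem_range]
        exact ⟨⟨hx, by dsimp only; omega⟩, hy⟩
      · rintro ⟨v, hv, hv'⟩
        rw [vseg, Finset.mem_product, Finset.mem_Ico, Finset.mem_singleton] at hv
        refine h v.2 hv.2.1 hv.2.2 ?_
        have h7 : v = (x, v.2) := Prod.ext hv.1 rfl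
        rwa [h7] at hv'
  have hor : ∀ B C : Set (Finset (ℕ × ℕ)), q p Λ (B ∪ C) ≤ q p Λ B + q p Λ C := by
    intro B C
    have h := q_iUnion_le h0 h1 Λ (Finset.univ : Finset Bool) (fun b => cond b B C)
    rw [Fintype.sum_bool] at h
    refine (q_mono h0 h1 Λ fun S hS => ?_).trans h
    rcases hS with hS | hS
    · exact Set.mem_iUnion₂.2 ⟨true, Finset.mem_univ _, hS⟩
    · exact Set.mem_iUnion₂.2 ⟨false, Finset.mem_univ _, hS⟩
  have hp1 : 0 ≤ (1 - p) ^ L := pow_nonneg (by linarith) L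
  have hcΛ : Λ.card = n ^ 2 := by
    rw [hΛ, Finset.card_product, Finset.card_range]
    ring
  have hc1 : (s1.card : ℝ) ≤ (n : ℝ) ^ 2 := by
    have h := Finset.card_filter_le Λ fun t => t.1 + L ≤ n
    rw [hcΛ] at h
    exact_mod_cast h
  have hc2 : (s2.card : ℝ) ≤ (n : ℝ) ^ 2 := by
    have h := Finset.card_filter_le Λ fun t => t.2 + L ≤ n
    rw [hcΛ] at h
    exact_mod_cast h
  have hb1 : q p Λ (⋃ t ∈ s1, (Trv.Hit (hseg L t.1 t.2))ᶜ) ≤ (n : ℝ) ^ 2 * (1 - p) ^ L := by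
    refine (q_iUnion_le h0 h1 Λ s1 _).trans ?_
    have h : ∀ t ∈ s1, q p Λ (Trv.Hit (hseg L t.1 t.2))ᶜ = (1 - p) ^ L := by
      intro t ht
      rw [hs1, Finset.mem_filter, hΛ, Finset.mem_product, Finset.mem_range, Finset.mem_range] at ht
      refine q_miss (fun v hv => ?_) ?_
      · rw [hseg, Finset.mem_product, Finset.mem_Ico, Finset.mem_singleton] at hv
        rw [hΛ, Finset.mem_product, Finset.mem_range, Finset.mem_range]
        omega
      · rw [hseg, Finset.card_product, Nat.card_Ico, Finset.card_singleton]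
        omega
    rw [Finset.sum_congr rfl h, Finset.sum_const, nsmul_eq_mul]
    exact mul_le_mul_of_nonneg_right hc1 hp1
  have hb2 : q p Λ (⋃ t ∈ s2, (Trv.Hit (vseg L t.1 t.2))ᶜ) ≤ (n : ℝ) ^ 2 * (1 - p) ^ L := by
    refine (q_iUnion_le h0 h1 Λ s2 _).trans ?_
    have h : ∀ t ∈ s2, q p Λ (Trv.Hit (vseg L t.1 t.2))ᶜ = (1 - p) ^ L := by
      intro t ht
      rw [hs2, Finset.mem_filter, hΛ, Finset.mem_product, Finset.mem_range, Finset.mem_range] at ht
      refine q_miss (fun v hv => ?_) ?_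
      · rw [vseg, Finset.mem_product, Finset.mem_Ico, Finset.mem_singleton] at hv
        rw [hΛ, Finset.mem_product, Finset.mem_range, Finset.mem_range]
        omega
      · rw [vseg, Finset.card_product, Nat.card_Ico, Finset.card_singleton]
        omega
    rw [Finset.sum_congr rfl h, Finset.sum_const, nsmul_eq_mul]
    exact mul_le_mul_of_nonneg_right hc2 hp1
  have h5 := q_mono h0 h1 Λ hsub
  have h6 := hor (⋃ t ∈ s1, (Trv.Hit (hseg L t.1 t.2))ᶜ) (⋃ t ∈ s2, (Trv.Hit (vseg L t.1 t.2))ᶜ)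
  rw [q_compl] at h5
  linarith

end Pool.Agent.J6H44.BP
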