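import Pool.Agent.J6H44.BP.Stm

/-! # UPROD: the growth product -/

set_option autoImplicit false

open Finset

namespace Pool.Agent.J6H44.BP

namespace PUPROD

lemma exp_four_tenths : Real.exp (2 / 5) ≤ 3 / 2 := by
  have h1 : Real.exp (2 / 5) ^ 5 = Real.exp 1 ^ 2 := by
    rw [← Real.exp_nat_mul, ← Real.exp_nat_mul]
    norm_num
  have h2 := Real.exp_one_lt_d9
  have h3 : Real.exp 1 ^ 2 ≤ 2.7182818286 ^ 2 := pow_le_pow_left₀ (Real.exp_pos _).le h2.le 2
  by_contra hc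
  push Not at hc
  have h4 : (3 / 2 : ℝ) ^ 5 < Real.exp (2 / 5) ^ 5 := pow_lt_pow_left₀ hc (by norm_num) (by norm_num)
  rw [h1] at h4
  norm_num at h3 h4
  linarith

lemma factor {p g c : ℝ} (hp : 0 < p) (hp1 : p ≤ 1 / 2) (hg : 0 < g) (hg1 : g < 1)
    (hc : c = 0 ∨ (c = 2 / 5 ∧ g ^ 2 ≤ p)) : g ^ 2 * Real.exp c ≤ p + (1 - p) * g ^ 2 := by
  have hg2 : g ^ 2 ≤ 1 := pow_le_one₀ hg.le hg1.le
  have hg0 : 0 < g ^ 2 := by positivity
  rcases hc with h | ⟨h, h2⟩
  · rw [h, Real.exp_zero, mul_one]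
    nlinarith
  · rw [h]
    have h3 := mul_le_mul_of_nonneg_left exp_four_tenths hg0.le
    nlinarith

end PUPROD

open PUPROD

theorem uprod (hser : S_SERUP) (hf : S_FPROP) : S_UPROD := by
  refine ⟨1 / 10 ^ 12, by norm_num, fun p hp hp0 L hL => ?_⟩
  have hp12 : p ≤ 1 / 2 := hp0.trans (by norm_num)
  have hp1 : p < 1 := by linarith
  obtain ⟨f1, f2, -, -, -, -, -, -⟩ := hf p hp hp12
  set s : ℝ := p ^ (-(1 / 2 : ℝ)) with hs
  have hs0 : 0 < s := Real.rpow_pos_of_pos hp _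
  have hss : s * s = 1 / p := by
    rw [hs, ← Real.rpow_add hp, show -(1 / 2 : ℝ) + -(1 / 2) = -1 by norm_num, Real.rpow_neg_one, one_div]
  have hinv : (10 : ℝ) ^ 12 ≤ 1 / p := by
    rw [le_div_iff₀ hp]
    calc (10 : ℝ) ^ 12 * p ≤ 10 ^ 12 * (1 / 10 ^ 12) := by gcongr
      _ = 1 := by norm_num
  have hs6 : (10 : ℝ) ^ 6 ≤ s := by
    by_contra hc
    push Not at hc
    have : s * s < 10 ^ 6 * 10 ^ 6 := by
      have := hs0
      nlinarith
    rw [hss] at this
    norm_num at this hinv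
    linarith
  have hps : p * (s * s) = 1 := by
    rw [hss]
    field_simp
  set K : ℕ := ⌊s⌋₊ with hK
  have hKs : (K : ℝ) ≤ s := Nat.floor_le hs0.le
  have hKs' : s < K + 1 := Nat.lt_floor_add_one s
  have hKL : K < L := by
    have h1 : s < s * s := by nlinarith
    have h2 : (K : ℝ) < L := by
      rw [hss] at h1
      linarith
    exact_mod_cast h2
  -- the factors
  set c : ℕ → ℝ := fun k => if k ≤ K then 2 / 5 else 0 with hc
  have hfac : ∀ k ∈ Finset.Ico 1 L, Real.exp (-2 * f p k + c k) ≤ p + (1 - p) * g p k ^ 2 := by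
    intro k hk
    rw [Finset.mem_Ico] at hk
    obtain ⟨g0, g1, -⟩ := f1 k hk.1
    have e1 : Real.exp (-2 * f p k) = g p k ^ 2 := by
      unfold f
      rw [show -2 * -Real.log (g p k) = ((2 : ℕ) : ℝ) * Real.log (g p k) by push_cast; ring,
        Real.exp_nat_mul, Real.exp_log g0]
    rw [Real.exp_add, e1]
    refine factor hp hp12 g0 g1 ?_
    by_cases h : k ≤ K
    · right
      refine ⟨by simp [hc, h], ?_⟩
      have h1 := f2 k
      have h2 : (k : ℝ) ≤ s := le_trans (by exact_mod_cast h) hKs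
      have h3 : g p k ≤ p * s := h1.trans (mul_le_mul_of_nonneg_left h2 hp.le)
      have h4 : g p k ^ 2 ≤ (p * s) ^ 2 := pow_le_pow_left₀ g0.le h3 2
      have h5 : (p * s) ^ 2 = p * (p * (s * s)) := by ring
      rw [h5, hps, mul_one] at h4
      exact h4
    · left
      simp [hc, h]
  have hprod : Real.exp (∑ k ∈ Finset.Ico 1 L, (-2 * f p k + c k)) ≤
      ∏ k ∈ Finset.Ico 1 L, (p + (1 - p) * g p k ^ 2) := by
    rw [Real.exp_sum]
    exact Finset.prod_le_prod (fun k _ => (Real.exp_pos _).le) hfac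
  have hsumf : ∑ k ∈ Finset.Ico 1 L, f p k ≤ Real.pi ^ 2 / (6 * p) := by
    have h1 := hser p hp hp1 (L - 1)
    have h2 : Finset.Icc 1 (L - 1) = Finset.Ico 1 L := by
      ext k
      simp only [Finset.mem_Icc, Finset.mem_Ico]
      omega
    rwa [h2] at h1
  have hsumc : ∑ k ∈ Finset.Ico 1 L, c k = 2 / 5 * K := by
    have h1 : ∑ k ∈ Finset.Ico 1 L, c k = ∑ k ∈ (Finset.Ico 1 L).filter (fun k => k ≤ K), (2 / 5 : ℝ) := by
      rw [Finset.sum_filter]
    have h2 : (Finset.Ico 1 L).filter (fun k => k ≤ K) = Finset.Icc 1 K := by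
      ext k
      simp only [Finset.mem_filter, Finset.mem_Ico, Finset.mem_Icc]
      omega
    rw [h1, h2, Finset.sum_const, Nat.card_Icc, nsmul_eq_mul]
    simp
    ring
  have hsum : -(Real.pi ^ 2 / (3 * p)) + 2 / 5 * K ≤ ∑ k ∈ Finset.Ico 1 L, (-2 * f p k + c k) := by
    rw [Finset.sum_add_distrib, ← Finset.mul_sum, hsumc]
    have : Real.pi ^ 2 / (3 * p) = 2 * (Real.pi ^ 2 / (6 * p)) := by field_simp; ring
    rw [this]
    linarith
  -- the logarithm
  have hlog : Real.log s ≤ 2 * Real.sqrt s := by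
    have h1 : Real.log s = 2 * Real.log (Real.sqrt s) := by
      rw [Real.log_sqrt hs0.le]
      ring
    have h2 : Real.log (Real.sqrt s) ≤ Real.sqrt s - 1 :=
      Real.log_le_sub_one_of_pos (Real.sqrt_pos.2 hs0)
    linarith
  have hsq : (1000 : ℝ) ≤ Real.sqrt s := by
    rw [show (1000 : ℝ) = Real.sqrt (1000 ^ 2) by rw [Real.sqrt_sq (by norm_num)]]
    exact Real.sqrt_le_sqrt (by norm_num at hs6 ⊢; linarith)
  have hsqs : Real.sqrt s * Real.sqrt s = s := Real.mul_self_sqrt hs0.le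
  have hlp : Real.log p = -(2 * Real.log s) := by
    have h1 : Real.log (s * s) = Real.log (1 / p) := by rw [hss]
    rw [Real.log_mul hs0.ne' hs0.ne', one_div, Real.log_inv] at h1
    linarith
  have hexp : -(Real.pi ^ 2 / (3 * p)) + 35 / 100 * s ≤
      Real.log p + (-(Real.pi ^ 2 / (3 * p)) + 2 / 5 * K) := by
    rw [hlp]
    nlinarith
  calc Real.exp (-(Real.pi ^ 2 / (3 * p)) + 35 / 100 * s) ≤
        Real.exp (Real.log p + (-(Real.pi ^ 2 / (3 * p)) + 2 / 5 * K)) := Real.exp_le_exp.2 hexp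
    _ = p * Real.exp (-(Real.pi ^ 2 / (3 * p)) + 2 / 5 * K) := by
      rw [Real.exp_add, Real.exp_log hp]
    _ ≤ p * Real.exp (∑ k ∈ Finset.Ico 1 L, (-2 * f p k + c k)) := by
      gcongr
    _ ≤ _ := mul_le_mul_of_nonneg_left hprod hp.le

end Pool.Agent.J6H44.BP
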