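import Mathlib

/-!
# Random subsets: `q p Λ E`, the van den Berg-Kesten inequality

(The two sections are copied from `Pool.Agent.Results.MP_950aae_pr.FirstOrder` and
`Pool.Agent.Y750.BT.Core`.)

`q p Λ E` is the probability that a random subset `S` of the finite set `Λ` (each point present
independently with probability `p`) belongs to the family `E : Set (Finset α)`.
`Up E`: `E` is increasing.  `box A B`: disjoint occurrence.  `bk`: the BK inequality.
-/

set_option autoImplicit false

open Finset

namespace Pool.Agent.J6H44.BP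

section BKsec

variable {α : Type*} [DecidableEq α]

/-- weight of the subset `S` of `Λ` when elements are present independently with prob. `p` -/
def wt (p : ℝ) (Λ S : Finset α) : ℝ := ∏ e ∈ Λ, if e ∈ S then p else 1 - p

open Classical in
/-- probability of the set family `A` for a random subset of `Λ` -/
noncomputable def q (p : ℝ) (Λ : Finset α) (A : Set (Finset α)) : ℝ :=
  ∑ S ∈ Λ.powerset, if S ∈ A then wt p Λ S else 0

/-- disjoint occurrence -/
def box (A B : Set (Finset α)) : Set (Finset α) :=
  {S | ∃ I J, Disjoint I J ∧ I ⊆ S ∧ J ⊆ S ∧ I ∈ A ∧ J ∈ B}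

/-- increasing families -/
def Up (A : Set (Finset α)) : Prop := ∀ S T, S ⊆ T → S ∈ A → T ∈ A

/-- the family obtained by adding `e` -/
def addE (e : α) (A : Set (Finset α)) : Set (Finset α) := {S | insert e S ∈ A}

theorem wt_nonneg {p : ℝ} (h0 : 0 ≤ p) (h1 : p ≤ 1) (Λ S : Finset α) : 0 ≤ wt p Λ S := by
  unfold wt
  apply Finset.prod_nonneg
  intro e _
  split_ifs <;> linarith

theorem wt_insert {p : ℝ} {e : α} {Λ S : Finset α} (he : e ∉ Λ) (hS : S ⊆ Λ) :
    wt p (insert e Λ) S = (1 - p) * wt p Λ S := by
  unfold wt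
  rw [Finset.prod_insert he, if_neg (fun h => he (hS h))]

theorem wt_insert' {p : ℝ} {e : α} {Λ S : Finset α} (he : e ∉ Λ) :
    wt p (insert e Λ) (insert e S) = p * wt p Λ S := by
  unfold wt
  rw [Finset.prod_insert he, if_pos (Finset.mem_insert_self _ _)]
  congr 1
  apply Finset.prod_congr rfl
  intro x hx
  have : x ≠ e := fun h => he (h ▸ hx)
  simp [Finset.mem_insert, this]

theorem q_insert (p : ℝ) {e : α} {Λ : Finset α} (he : e ∉ Λ) (A : Set (Finset α)) :
    q p (insert e Λ) A = (1 - p) * q p Λ A + p * q p Λ (addE e A) := by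
  classical
  unfold q
  rw [Finset.sum_powerset_insert he, Finset.mul_sum, Finset.mul_sum]
  congr 1
  · apply Finset.sum_congr rfl
    intro S hS
    rw [Finset.mem_powerset] at hS
    rw [wt_insert he hS]
    split_ifs <;> simp
  · apply Finset.sum_congr rfl
    intro S hS
    rw [wt_insert' he]
    by_cases h : insert e S ∈ A
    · have h' : S ∈ addE e A := h
      simp [h, h']
    · have h' : S ∉ addE e A := h
      simp [h, h']

theorem q_nonneg {p : ℝ} (h0 : 0 ≤ p) (h1 : p ≤ 1) (Λ : Finset α) (A : Set (Finset α)) :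
    0 ≤ q p Λ A := by
  unfold q
  apply Finset.sum_nonneg
  intro S _
  split_ifs
  · exact wt_nonneg h0 h1 _ _
  · exact le_refl _

theorem Up.addE {A : Set (Finset α)} (hA : Up A) (e : α) : Up (addE e A) := by
  intro S T hST hS
  exact hA _ _ (Finset.insert_subset_insert e hST) hS

theorem sub_addE {A : Set (Finset α)} (hA : Up A) (e : α) : A ⊆ addE e A := by
  intro S hS
  exact hA _ _ (Finset.subset_insert e S) hS

omit [DecidableEq α] in
theorem box_mono {A B A' B' : Set (Finset α)} (hA : A ⊆ A') (hB : B ⊆ B') :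
    box A B ⊆ box A' B' := by
  rintro S ⟨I, J, h1, h2, h3, h4, h5⟩
  exact ⟨I, J, h1, h2, h3, hA h4, hB h5⟩

theorem addE_box {A B : Set (Finset α)} {e : α} {S : Finset α}
    (h : S ∈ addE e (box A B)) : S ∈ box A B ∨ S ∈ box (addE e A) B ∨ S ∈ box A (addE e B) := by
  obtain ⟨I, J, h1, h2, h3, h4, h5⟩ := h
  have hsub : ∀ K : Finset α, K ⊆ insert e S → K.erase e ⊆ S := by
    intro K hK x hx
    rw [Finset.mem_erase] at hx
    rcases Finset.mem_insert.1 (hK hx.2) with h | h
    · exact absurd h hx.1
    · exact h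
  have hsub' : ∀ K : Finset α, K ⊆ insert e S → e ∉ K → K ⊆ S := by
    intro K hK he x hx
    rcases Finset.mem_insert.1 (hK hx) with h | h
    · exact absurd (h ▸ hx) he
    · exact h
  by_cases heI : e ∈ I
  · have heJ : e ∉ J := Finset.disjoint_left.1 h1 heI
    right; left
    refine ⟨I.erase e, J, Finset.disjoint_of_subset_left (Finset.erase_subset _ _) h1,
      hsub I h2, hsub' J h3 heJ, ?_, h5⟩
    simp only [addE, Set.mem_ofPred_eq, Finset.insert_erase heI]
    exact h4
  · by_cases heJ : e ∈ J
    · right; right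
      refine ⟨I, J.erase e, Finset.disjoint_of_subset_right (Finset.erase_subset _ _) h1,
        hsub' I h2 heI, hsub J h3, h4, ?_⟩
      simp only [addE, Set.mem_ofPred_eq, Finset.insert_erase heJ]
      exact h5
    · left
      exact ⟨I, J, h1, hsub' I h2 heI, hsub' J h3 heJ, h4, h5⟩

/-- The van den Berg–Kesten inequality for increasing families. -/
theorem bk {p : ℝ} (h0 : 0 ≤ p) (h1 : p ≤ 1) (Λ : Finset α) : ∀ A B : Set (Finset α),
    Up A → Up B → q p Λ (box A B) ≤ q p Λ A * q p Λ B := by
  classical
  induction Λ using Finset.induction_on with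
  | empty =>
    intro A B _ _
    simp only [q, Finset.powerset_empty, Finset.sum_singleton, wt, Finset.prod_empty]
    by_cases h : (∅ : Finset α) ∈ box A B
    · obtain ⟨I, J, -, h2, h3, h4, h5⟩ := h
      have hI : I = ∅ := Finset.subset_empty.1 h2
      have hJ : J = ∅ := Finset.subset_empty.1 h3
      subst hI; subst hJ
      simp only [h4, h5, if_true]
      split_ifs <;> norm_num
    · rw [if_neg h]
      split_ifs <;> norm_num
  | insert e Λ he ih =>
    intro A B hA hB
    have key : q p (insert e Λ) (box A B) ≤ (1 - p) * (1 - p) * q p Λ (box A B) +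
        p * (1 - p) * q p Λ (box (addE e A) B) + p * (1 - p) * q p Λ (box A (addE e B)) +
        p * p * q p Λ (box (addE e A) (addE e B)) := by
      rw [q_insert p he]
      unfold q
      simp only [Finset.mul_sum, ← Finset.sum_add_distrib]
      apply Finset.sum_le_sum
      intro S _
      have hw := wt_nonneg h0 h1 Λ S
      have m1 : S ∈ box A B → S ∈ box (addE e A) B := fun h => box_mono (sub_addE hA e) le_rfl h
      have m2 : S ∈ box A B → S ∈ box A (addE e B) := fun h => box_mono le_rfl (sub_addE hB e) h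
      have m3 : S ∈ box (addE e A) B → S ∈ box (addE e A) (addE e B) :=
        fun h => box_mono le_rfl (sub_addE hB e) h
      have m4 : S ∈ box A (addE e B) → S ∈ box (addE e A) (addE e B) :=
        fun h => box_mono (sub_addE hA e) le_rfl h
      have m5 : S ∈ addE e (box A B) → S ∈ box A B ∨ S ∈ box (addE e A) B ∨ S ∈ box A (addE e B) :=
        fun h => addE_box h
      have hq : 0 ≤ 1 - p := by linarith
      have t1 : 0 ≤ p * (1 - p) * wt p Λ S := by positivity
      have t2 : 0 ≤ p * p * wt p Λ S := by positivity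
      have t3 : 0 ≤ (1 - p) * (1 - p) * wt p Λ S := by positivity
      by_cases c1 : S ∈ box A B
      · have c2 := m1 c1
        have c3 := m2 c1
        have c4 := m3 c2
        simp only [c1, c2, c3, c4, if_true]
        split_ifs <;> nlinarith
      · by_cases c2 : S ∈ box (addE e A) B
        · have c4 := m3 c2
          by_cases c3 : S ∈ box A (addE e B)
          · simp only [c1, c2, c3, c4, if_true, if_false]
            split_ifs <;> nlinarith
          · simp only [c1, c2, c3, c4, if_true, if_false]
            split_ifs <;> nlinarith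
        · by_cases c3 : S ∈ box A (addE e B)
          · have c4 := m4 c3
            simp only [c1, c2, c3, c4, if_true, if_false]
            split_ifs <;> nlinarith
          · have c5 : S ∉ addE e (box A B) := by
              intro h
              rcases m5 h with h | h | h <;> contradiction
            simp only [c1, c2, c3, c5, if_false]
            split_ifs <;> nlinarith
    refine key.trans ?_
    rw [q_insert p he, q_insert p he]
    have i1 := ih A B hA hB
    have i2 := ih (addE e A) B (hA.addE e) hB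
    have i3 := ih A (addE e B) hA (hB.addE e)
    have i4 := ih (addE e A) (addE e B) (hA.addE e) (hB.addE e)
    have hq : 0 ≤ 1 - p := by linarith
    have j1 := mul_le_mul_of_nonneg_left i1 (mul_nonneg hq hq)
    have j2 := mul_le_mul_of_nonneg_left i2 (mul_nonneg h0 hq)
    have j3 := mul_le_mul_of_nonneg_left i3 (mul_nonneg h0 hq)
    have j4 := mul_le_mul_of_nonneg_left i4 (mul_nonneg h0 h0)
    calc _ ≤ (1 - p) * (1 - p) * (q p Λ A * q p Λ B) + p * (1 - p) * (q p Λ (addE e A) * q p Λ B) +
          p * (1 - p) * (q p Λ A * q p Λ (addE e B)) +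
          p * p * (q p Λ (addE e A) * q p Λ (addE e B)) := by linarith
      _ = _ := by ring

theorem q_mono {p : ℝ} (h0 : 0 ≤ p) (h1 : p ≤ 1) (Λ : Finset α) {A B : Set (Finset α)}
    (h : ∀ S ∈ A, S ∈ B) : q p Λ A ≤ q p Λ B := by
  classical
  unfold q
  apply Finset.sum_le_sum
  intro S _
  have := wt_nonneg h0 h1 Λ S
  by_cases hA : S ∈ A
  · rw [if_pos hA, if_pos (h S hA)]
  · rw [if_neg hA]; split_ifs <;> simp [this]

theorem q_iUnion_le {p : ℝ} (h0 : 0 ≤ p) (h1 : p ≤ 1) (Λ : Finset α) {ι : Type*} (s : Finset ι)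
    (A : ι → Set (Finset α)) : q p Λ (⋃ i ∈ s, A i) ≤ ∑ i ∈ s, q p Λ (A i) := by
  classical
  unfold q
  rw [Finset.sum_comm]
  apply Finset.sum_le_sum
  intro S _
  have hw := wt_nonneg h0 h1 Λ S
  by_cases hS : S ∈ ⋃ i ∈ s, A i
  · rw [if_pos hS]
    simp only [Set.mem_iUnion] at hS
    obtain ⟨i, hi, hSi⟩ := hS
    have := Finset.single_le_sum (f := fun i => if S ∈ A i then wt p Λ S else 0)
      (fun i _ => by split_ifs <;> simp [hw]) hi
    simpa [hSi] using this
  · rw [if_neg hS]
    apply Finset.sum_nonneg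
    intro i _
    split_ifs <;> simp [hw]

theorem q_continuous (Λ : Finset α) (A : Set (Finset α)) : Continuous (fun p : ℝ => q p Λ A) := by
  classical
  unfold q wt
  apply continuous_finsetSum
  intro S _
  by_cases h : S ∈ A
  · simp only [if_pos h]
    apply continuous_finsetProd
    intro e _
    split_ifs <;> fun_prop
  · simp only [if_neg h]; exact continuous_const

end BKsec

section BKn

variable {α : Type*} [DecidableEq α]

/-- disjoint occurrence of `d` families -/
def nbox : (d : ℕ) → (Fin d → Set (Finset α)) → Set (Finset α)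
  | 0, _ => Set.univ
  | d + 1, A => box (A 0) (nbox d (fun i => A i.succ))

omit [DecidableEq α] in
theorem nbox_up : ∀ (d : ℕ) (A : Fin d → Set (Finset α)), Up (nbox d A)
  | 0, _ => fun _ _ _ _ => trivial
  | d + 1, A => by
    rintro S T hST ⟨I, J, h1, h2, h3, h4, h5⟩
    exact ⟨I, J, h1, h2.trans hST, h3.trans hST, h4, h5⟩

theorem bk_nbox {p : ℝ} (h0 : 0 ≤ p) (h1 : p ≤ 1) (Λ : Finset α) : ∀ (d : ℕ)
    (A : Fin d → Set (Finset α)), (∀ i, Up (A i)) → q p Λ (nbox d A) ≤ ∏ i, q p Λ (A i)
  | 0, A, _ => by
    rw [Fin.prod_univ_zero]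
    have h := q_mono h0 h1 Λ (Set.subset_univ (nbox 0 A))
    refine h.trans ?_
    clear h
    induction Λ using Finset.induction_on with
    | empty => simp [q, wt]
    | insert e Λ he ih =>
      rw [q_insert p he]
      have e1 : addE e (Set.univ : Set (Finset α)) = Set.univ := by
        ext S; simp [addE]
      rw [e1]
      linarith
  | d + 1, A, hA => by
    rw [Fin.prod_univ_succ]
    refine (bk h0 h1 Λ _ _ (hA 0) (nbox_up d _)).trans ?_
    exact mul_le_mul_of_nonneg_left (bk_nbox h0 h1 Λ d _ (fun i => hA i.succ))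
      (q_nonneg h0 h1 _ _)

theorem nbox_of : ∀ (d : ℕ) (A : Fin d → Set (Finset α)) (I : Fin d → Finset α) (S : Finset α),
    (∀ i j, i ≠ j → Disjoint (I i) (I j)) → (∀ i, I i ⊆ S) → (∀ i, I i ∈ A i) → S ∈ nbox d A
  | 0, _, _, _, _, _, _ => trivial
  | d + 1, A, I, S, hd, hS, hA => by
    refine ⟨I 0, Finset.univ.biUnion (fun i : Fin d => I i.succ), ?_, hS 0, ?_, hA 0, ?_⟩
    · rw [Finset.disjoint_biUnion_right]
      intro i _
      exact hd 0 i.succ (Fin.succ_ne_zero i).symm
    · rw [Finset.biUnion_subset]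
      intro i _
      exact hS i.succ
    · refine nbox_of d _ (fun i => I i.succ) _ (fun i j hij => hd _ _ ?_) (fun i => ?_)
        (fun i => hA i.succ)
      · exact fun h => hij (Fin.succ_injective _ h)
      · exact Finset.subset_biUnion_of_mem (fun i : Fin d => I i.succ) (Finset.mem_univ i)

/-- monotonicity in `p` -/
theorem q_mono_p {p p' : ℝ} (h0 : 0 ≤ p) (hp : p ≤ p') (h1 : p' ≤ 1) (Λ : Finset α) :
    ∀ A : Set (Finset α), Up A → q p Λ A ≤ q p' Λ A := by
  induction Λ using Finset.induction_on with
  | empty => intro A _; simp [q, wt]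
  | insert e Λ he ih =>
    intro A hA
    rw [q_insert p he, q_insert p' he]
    have a1 := ih A hA
    have a2 := ih (addE e A) (hA.addE e)
    have a3 := q_mono (h0.trans hp) h1 Λ (sub_addE hA e)
    have b1 : (1 - p) * q p Λ A ≤ (1 - p) * q p' Λ A :=
      mul_le_mul_of_nonneg_left a1 (by linarith)
    have b2 : p * q p Λ (addE e A) ≤ p * q p' Λ (addE e A) := mul_le_mul_of_nonneg_left a2 h0
    have b3 : 0 ≤ (p' - p) * (q p' Λ (addE e A) - q p' Λ A) :=
      mul_nonneg (by linarith) (by linarith)
    have e1 : (p' - p) * (q p' Λ (addE e A) - q p' Λ A) =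
      ((1 - p') * q p' Λ A + p' * q p' Λ (addE e A)) -
      ((1 - p) * q p' Λ A + p * q p' Λ (addE e A)) := by ring
    rw [e1] at b3
    linarith

end BKn

end Pool.Agent.J6H44.BP
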