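import Pool.Agent.J6H44.BP.Defs

/-!
# The second-order term of modified bootstrap percolation (MP_4d46d2_pr, frozen S19299): blueprint

Notation: `g p k = 1-(1-p)^k`, `f p k = -log (g p k)`, `q p Λ E` = probability of `E` (file `Q`).
`IS R A`: the rectangle `R` is internally spanned by `A`.  `σ(R) = a + b` (`Rc.sg`).

PAPER PROOF, lower bound for `p_c` (the new part).  `δ` small fixed, `p → 0`,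
`N0 = p^(-1/2-4δ)`, `Z = p^(-1/2-6δ)`, `λ = p^(1/2-5δ)`, `κ = p^(10δ)`, `L = (8/p) log(1/p)`.

(1) SPLIT.  If `R` (not one site) is internally spanned (i.s.) by `A`, then `R` is the hull of two
touching rectangles `R1, R2 ≠ R` i.s. by disjoint subsets `A1, A2` of `A`.

(2) BASE.  For every rectangle with `min(a,b) ≤ N0`: `P(R i.s.) ≤ κ λ^(a+b) / (a² b²)`.  Induction on
`a + b`.  If `max ≥ (4/δ) min`: every row (column) is hit, `P ≤ g(min)^max`, enough.  Otherwise split: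
if one of the two parts has full width, the rows outside it are all hit; same for full height; else
both have smaller width and height and there are at most 4 positions for given dimensions; BK.

(3) MAIN.  For all `R` with sides `≤ L`: `P(R i.s.) ≤ exp(-Ψ(R))`, `Ψ = V - p^(1/2-δ) (a+b)`,
`V(a,b) = 2 ∑_{k≤m} φ(k) + (M-m) φ(m)`, `φ(k) = f(k+Z)`, `m = min`, `M = max`.  For thin rectangles this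
follows from BASE with a gain `e^{-(a+b)}`.  For `min > N0` put `T = ⌈p^(1/2) M⌉` and take an i.s.
subrectangle `R'` of `R` with `σ(R') > σ(R) - T` and `σ(R')` minimal; split it in `R1, R2`.
Either some `R_i` has `T ≤ σ(R)-σ(R_i) ≤ 2T`: then `P ≤ P(R_i i.s.) P(Gr(R_i,R))` (BK) and the gain of the
growth lemma over `Ψ(R)-Ψ(R_i)` beats the number `L^4` of choices; or both have `σ(R_i) ≤ σ(R')-T`: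
`P ≤ P(R1 i.s.) P(R2 i.s.) P(Gr(R',R))` and the gain of the merge `Ψ(R1)+Ψ(R2)-Ψ(R')` beats `L^12`.

(4) If `[n]²` is i.s. there is an i.s. rectangle with longer side in `[L/2, L]`, and
`Ψ ≥ π²/(3p) - p^(-1/2-8δ)` for these.  Union bound.

Upper bound for `p_c` (known; easy): `P([L]² i.s.) ≥ p ∏ (p + (1-p) g(k)²) ≥ exp(-π²/(3p) + 0.35 p^(-1/2))`,
boxes of side `p^(-3)`, all segments of that length are hit.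

Every `S_...` below is one module.  `theorem xxx : S_XXX` (possibly with earlier statements as
hypotheses, as indicated).
-/

set_option autoImplicit false

open Finset

namespace Pool.Agent.J6H44.BP

/-! ## Geometry -/

/-- FILL.  A stable set that contains two touching rectangles contains their hull.
Proof: let `Q` be a rectangle with `R1 ≤ Q ≤ R`, all sites in `S`, of maximal `a + b` (or induct on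
`R.sg - Q.sg`).  If `R2` is not inside `Q`, it sticks out of `Q` in some direction, say up: then
`R2` contains a site `(x, Q.y + Q.b)` with `Q.x ≤ x + 1` and `x ≤ Q.x + Q.a` (they touch); spreading
left and right from it, the whole row `[Q.x, Q.x+Q.a) × {Q.y+Q.b}` is in `S` (vertical neighbour
in `Q`), so `Q` can be enlarged.  If `R2 ≤ Q` then `Q = R`. -/
def S_FILL : Prop := ∀ (S : Set (ℕ × ℕ)) (R1 R2 R : Rc), Stab S → R1.Ok → R2.Ok → Join R1 R2 R →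
  (∀ v ∈ R1.sites, v ∈ S) → (∀ v ∈ R2.sites, v ∈ S) → ∀ v ∈ R.sites, v ∈ S

/-- SPLIT (from `S_FILL`).  Proof: consider finite families of pairs (rectangle `Q_i ≤ R`, `Q_i ≠ R`,
witness `A_i ⊆ A ∩ Q_i`), witnesses pairwise disjoint, `IS Q_i A_i`, every `v ∈ A ∩ R` in some `Q_i`;
e.g. the singletons (`R` is not a single site).  Take one with the least number of members.  If two
members touch, their hull `Q` is i.s. by `A_i ∪ A_j` (FILL); if `Q = R` we are done, else replacing the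
two by `Q` gives a smaller family.  If no two members touch, the union of the `Q_i` is stable (two
adjacent or diagonal sites lie in the same `Q_i`; note that `(x',y)` and `(x,y')` are diagonal) and
contains `A ∩ R`, so it contains `R`; since `R` is connected, one `Q_i` contains `R`: contradiction. -/
def S_SPLIT : Prop := ∀ (R : Rc) (A : Finset (ℕ × ℕ)), R.Ok → 3 ≤ R.sg → IS R A →
  ∃ (R1 R2 : Rc) (A1 A2 : Finset (ℕ × ℕ)), R1.Ok ∧ R2.Ok ∧ R1 ≠ R ∧ R2 ≠ R ∧ Join R1 R2 R ∧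
    A1 ⊆ A ∧ A2 ⊆ A ∧ Disjoint A1 A2 ∧ A1 ⊆ R1.sites ∧ A2 ⊆ R2.sites ∧ IS R1 A1 ∧ IS R2 A2

/-- UGEO.  If a box of side `L` inside `[n]²` is i.s. by `A` and all horizontal and vertical segments
of `L` sites in `[n]²` are hit by `A`, then `[n]²` is i.s. (grow the rectangle row by row). -/
def S_UGEO : Prop := ∀ (n L x0 y0 : ℕ) (A : Finset (ℕ × ℕ)), 1 ≤ L → x0 + L ≤ n → y0 + L ≤ n →
  IS ⟨x0, y0, L, L⟩ A →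
  (∀ x y : ℕ, x + L ≤ n → y < n → ∃ x', x ≤ x' ∧ x' < x + L ∧ (x', y) ∈ A) →
  (∀ x y : ℕ, x < n → y + L ≤ n → ∃ y', y ≤ y' ∧ y' < y + L ∧ (x, y') ∈ A) →
  IS ⟨0, 0, n, n⟩ A

/-! ## Probability -/

/-- GROW.  Let `Λ0` be the sites of `Λ` not in a corner (row outside `R1` and column outside `R1`),
`C` the corner sites of `Λ ∩ R`, at most `(a-a1)(b-b1)` of them.  For sets `U` of rows and `W` of columns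
(outside `R1`, inside `R`) put `E(U,W) = {every row of U and every column of W is hit inside R}`.
Claim: `q p (Λ0 ∪ C') E(U,W) ≤ g(a1)^|U| g(b1)^|W| (1-p+p/(g(a1) g(b1)))^|C'|` for `C' ⊆ C`, by induction
on `C'` with `q_insert` (adding the corner site `(c,r)` removes at most `r` from `U` and `c` from `W`;
`g ≤ 1`), and for `C' = ∅` the relevant row pieces and column pieces are pairwise disjoint segments with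
`a1`, resp. `b1`, sites: `bk_nbox` (or induction with `bk`), and `q` of the event that a set `F` is hit is
`1-(1-p)^|F ∩ Λ|`.  Finally `1 - p + p/(g g) ≤ exp(p/(g g))`. -/
def S_GROW : Prop := ∀ (p : ℝ), 0 < p → p < 1 → ∀ (Λ : Finset (ℕ × ℕ)) (R1 R : Rc), R1.Ok →
  R1.Le R → q p Λ (Gr R1 R) ≤ gr p R1.a R1.b R.a R.b

/-- TRIV.  Every row and every column of an i.s. rectangle is hit (`IS.row`, `IS.col`). -/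
def S_TRIV : Prop := ∀ (p : ℝ), 0 < p → p < 1 → ∀ (Λ : Finset (ℕ × ℕ)) (R : Rc), R.Ok →
  q p Λ (isp R) ≤ g p R.a ^ R.b ∧ q p Λ (isp R) ≤ g p R.b ^ R.a

/-- BREC (from `S_SPLIT`, `S_GROW`).  Union bound with BK.  Let `R = hull(R1,R2)` be the split.
If `R1` (or `R2`) has width `R.a` then its height `b1` is `< R.b`, there are `R.b - b1 + 1` positions, and
`isp R ∩ {IS R1} ⊆ box (isp R1) (Gr R1 R)` (`IS.inter`, `Gr_sdiff`, `IS.gr`), `gr p a b1 a b = g(a)^(b-b1)`.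
Same for full height.  Otherwise `a1, a2 < a`, `b1, b2 < b`: in each direction one of the two starts at
the left (bottom) end and the other one ends at the right (top) end, so there are at most 4 positions
for given `(a1,b1,a2,b2)`, and `a ≤ a1 + a2`, `b ≤ b1 + b2`. -/
def S_BREC : Prop := ∀ (p : ℝ), 0 < p → p < 1 → ∀ (Λ : Finset (ℕ × ℕ)) (R : Rc), R.Ok →
  3 ≤ R.sg → ∀ W : ℕ → ℕ → ℝ, (∀ a b, 0 ≤ W a b) →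
  (∀ R' : Rc, R'.Ok → R'.Le R → R' ≠ R → q p Λ (isp R') ≤ W R'.a R'.b) →
  q p Λ (isp R) ≤ brec p W R.a R.b

/-- MREC (from `S_SPLIT`, `S_GROW`).  Given `A` with `IS R A`, take `R' ∈ subs R` with `IS R' A`,
`σ(R') > σ(R) - T` and `σ(R')` minimal.  `σ(R') ≥ 3`, so it splits in `R1, R2`.  By minimality
`σ(R_i) ≤ σ(R) - T`.  If `σ(R_i) ≥ σ(R) - 2T` for some `i`: `A ∈ box (isp R_i) (Gr R_i R)`.  Else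
`A ∈ box (box (isp R1) (isp R2)) (Gr R' R)` and `σ(R_i) + T ≤ σ(R')`.  Union bound, `card_subs`, BK. -/
def S_MREC : Prop := ∀ (p : ℝ), 0 < p → p < 1 → ∀ (Λ : Finset (ℕ × ℕ)) (R : Rc), R.Ok →
  ∀ (T N : ℕ), 1 ≤ T → T + 2 ≤ R.sg → R.a ≤ N → R.b ≤ N →
  ∀ U : ℕ → ℕ → ℝ, (∀ a b, 0 ≤ U a b) →
  (∀ R' : Rc, R'.Ok → R'.Le R → R' ≠ R → q p Λ (isp R') ≤ U R'.a R'.b) →
  ∀ X1 X2 : ℝ, 0 ≤ X1 → 0 ≤ X2 →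
  (∀ a1 b1 : ℕ, 1 ≤ a1 → a1 ≤ R.a → 1 ≤ b1 → b1 ≤ R.b → T ≤ (R.a - a1) + (R.b - b1) →
    (R.a - a1) + (R.b - b1) ≤ 2 * T → U a1 b1 * gr p a1 b1 R.a R.b ≤ X1) →
  (∀ a' b' a1 b1 a2 b2 : ℕ, a' ≤ R.a → b' ≤ R.b → (R.a - a') + (R.b - b') < T →
    1 ≤ a1 → 1 ≤ b1 → 1 ≤ a2 → 1 ≤ b2 → a1 ≤ a' → a2 ≤ a' → a' ≤ a1 + a2 →
    b1 ≤ b' → b2 ≤ b' → b' ≤ b1 + b2 → a1 + b1 + T ≤ a' + b' → a2 + b2 + T ≤ a' + b' →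
    U a1 b1 * U a2 b2 * gr p a' b' R.a R.b ≤ X2) →
  q p Λ (isp R) ≤ (N : ℝ) ^ 4 * X1 + (N : ℝ) ^ 12 * X2

/-! ## Analysis -/

/-- PATH.  `V(a,b+1) - V(a,b) ≤ φ(a)`: equality if `a ≤ b`; if `b < a` it is
`φ(b+1) + (a-b)(φ(b+1)-φ(b)) ≤ φ(a)` by convexity (`φ(a) ≥ φ(b+1) + (a-b-1)(φ(b+1)-φ(b))`, and `φ`
decreasing).  `V` is symmetric.  Then add the steps (`φ` decreasing). -/
def S_PATH : Prop := ∀ φ : ℕ → ℝ, Antitone φ → (∀ k, φ (k + 1) - φ k ≤ φ (k + 2) - φ (k + 1)) →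
  ∀ a b a' b' : ℕ, 1 ≤ a → 1 ≤ b → a ≤ a' → b ≤ b' →
    Vf φ a' b' ≤ Vf φ a b + ((a' : ℝ) - a) * φ b + ((b' : ℝ) - b) * φ a

/-- MERGE (from `S_PATH`).  By symmetry (swap the two rectangles, swap the coordinates) let `b1` be the
largest of `a1, b1, a2, b2`.  PATH twice, `(a1,b1) → (a,b1) → (a,b)`:
`V(a,b) - V(a1,b1) ≤ (a-a1) φ(b1) + (b-b1) φ(a) ≤ a2 φ(b1) + b2 φ(a)`.  If `a2 ≤ b2`: this is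
`≤ (a2 + b2) φ(a2)` and `V(a2,b2) = 2 G(a2) + (b2-a2) φ(a2)`, difference `≥ 2 (G(a2) - a2 φ(a2))`.
If `b2 < a2` (`≤ b1`, `≤ a`): `≤ (a2 + b2) φ(a2) ≤ (a2+b2) φ(b2)`, `V(a2,b2) = 2 G(b2) + (a2-b2) φ(b2)`.
And `G(m) - m φ(m)` is nondecreasing in `m` (`G(m) = ∑_{k ∈ Icc 1 m} φ(k)`). -/
def S_MERGE : Prop := ∀ φ : ℕ → ℝ, Antitone φ → (∀ k, 0 ≤ φ k) →
  (∀ k, φ (k + 1) - φ k ≤ φ (k + 2) - φ (k + 1)) →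
  ∀ a1 b1 a2 b2 a b m : ℕ, 1 ≤ m → m ≤ a1 → m ≤ b1 → m ≤ a2 → m ≤ b2 →
    a1 ≤ a → a2 ≤ a → a ≤ a1 + a2 → b1 ≤ b → b2 ≤ b → b ≤ b1 + b2 →
    Vf φ a b + 2 * (∑ k ∈ Finset.Icc 1 m, φ k - m * φ m) ≤ Vf φ a1 b1 + Vf φ a2 b2

/-- FPROP.  Elementary properties of `g` and `f`.  Convexity: with `w = 1-p`, `x = w^k`:
`(1 - x)(1 - w² x) ≤ (1 - w x)²`.  The difference bound: `g(k+Z)/g(k) = 1 + w^k g(Z)/g(k)`,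
`w^k ≥ 1/4` for `k ≤ 1/p`, `p ≤ 1/2`; `g(Z) ≥ min(1,pZ)/2`, `g(k) ≤ p k`; `log(1+x) ≥ x/(1+x)`. -/
def S_FPROP : Prop := ∀ p : ℝ, 0 < p → p ≤ 1 / 2 →
  (∀ k : ℕ, 1 ≤ k → 0 < g p k ∧ g p k < 1 ∧ 0 ≤ f p k) ∧
  (∀ k : ℕ, g p k ≤ p * k) ∧
  (∀ k : ℕ, min 1 (p * k) / 2 ≤ g p k) ∧
  (∀ k l : ℕ, 1 ≤ k → k ≤ l → f p l ≤ f p k) ∧
  (∀ k : ℕ, 1 ≤ k → f p (k + 1) - f p k ≤ f p (k + 2) - f p (k + 1)) ∧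
  (∀ k Z : ℕ, 1 ≤ k → 1 ≤ Z → p * k ≤ 1 → p * Z ≤ 1 →
    (Z : ℝ) / (8 * k + Z) ≤ f p k - f p (k + Z)) ∧
  (∀ k : ℕ, 1 ≤ k → f p k ≤ Real.log (1 / p)) ∧
  (∀ k : ℕ, 1 ≤ k → p * k ≤ 1 → f p k ≤ Real.log 2 + Real.log (1 / (p * k)))

/-- the base weight `W a b = p^(10δ) p^((1/2-5δ)(a+b)) / (a² b²)` (symmetric) -/
noncomputable def Wf (δ p : ℝ) (a b : ℕ) : ℝ :=
  p ^ (10 * δ) * p ^ ((1 / 2 - 5 * δ) * (a + b)) / (a ^ 2 * b ^ 2)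

/-- AN1A.  If `M ≥ (4/δ) m`: `g(m)^M ≤ (p m)^M ≤ p^((1/2-4δ) M)`, and
`m² M² ≤ M⁴ ≤ p^(-δM/2) ≤ p^(-(δ M - 10 δ - (1/2-5δ) m))` for `log(1/p) ≥ 8/δ` (`log M ≤ M`). -/
def S_AN1A : Prop := ∀ δ : ℝ, 0 < δ → δ ≤ 1 / 100 → ∃ p0 : ℝ, 0 < p0 ∧ ∀ p : ℝ, 0 < p → p ≤ p0 →
  ∀ m M : ℕ, 1 ≤ m → (m : ℝ) ≤ p ^ (-(1 / 2) - 4 * δ) → 4 / δ * m ≤ (M : ℝ) →
    g p m ^ M ≤ Wf δ p m M

/-- AN1B.  `p a ≤ (4/δ) p^(1/2-4δ) ≤ λ p^(δ/2)`, `λ = p^(1/2-5δ)`.  Put `k = b - b1`: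
the sum is `≤ W a b ∑_{1≤k<b} (k+1) p^(δk/2) b²/(b-k)²` and `b ≤ (b-k)(k+1)`, so it is
`≤ W a b ∑_{k≥1} (k+1)³ p^(δk/2) ≤ W a b / 3`. -/
def S_AN1B : Prop := ∀ δ : ℝ, 0 < δ → δ ≤ 1 / 100 → ∃ p0 : ℝ, 0 < p0 ∧ ∀ p : ℝ, 0 < p → p ≤ p0 →
  ∀ a b : ℕ, 1 ≤ a → 1 ≤ b → (a : ℝ) ≤ 4 / δ * p ^ (-(1 / 2) - 4 * δ) →
    ∑ b1 ∈ Finset.Ico 1 b, ((b - b1 + 1 : ℕ) : ℝ) * Wf δ p a b1 * g p a ^ (b - b1) ≤
      Wf δ p a b / 3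

/-- AN1C.  `1/(a1² a2²) ≤ 2 (1/a1² + 1/a2²)/(a1+a2)² ≤ 2 (1/a1² + 1/a2²)/a²`, and for fixed `a1` the sum of
`l^(a1+a2-a)` over `a2 ≥ a - a1` is `≤ 1/(1-l) ≤ 2`; `∑ 1/a1² ≤ π²/6 ≤ 1.65`. -/
def S_AN1C : Prop := ∀ (l : ℝ), 0 < l → l ≤ 1 / 2 → ∀ a : ℕ, 1 ≤ a →
  ∑ a1 ∈ Finset.Ico 1 a, ∑ a2 ∈ (Finset.Ico 1 a).filter (fun a2 => a ≤ a1 + a2),
    l ^ (a1 + a2) / ((a1 : ℝ) ^ 2 * (a2 : ℝ) ^ 2) ≤ 14 * l ^ a / (a : ℝ) ^ 2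

/-- AN1 (from `S_AN1A`, `S_AN1B`, `S_AN1C`).  The base recursion preserves `Wf` as long as
`min a b ≤ p^(-1/2-4δ)`, or the trivial bound is enough (`max ≥ (4/δ) min`, AN1A).  First and second
sum: AN1B (and symmetry of `Wf`).  The third sum is the product
`4 p^(20δ) S(a) S(b)`, `S(a) = ∑ λ^(a1+a2)/(a1² a2²) ≤ 14 λ^a/a²` (AN1C, `l = λ = p^(1/2-5δ)`),
so it is `≤ 800 p^(10δ) W a b ≤ W a b / 3`. -/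
def S_AN1 : Prop := ∀ δ : ℝ, 0 < δ → δ ≤ 1 / 100 → ∃ p0 : ℝ, 0 < p0 ∧ ∀ p : ℝ, 0 < p → p ≤ p0 →
  ∀ a b : ℕ, 1 ≤ a → 1 ≤ b → 3 ≤ a + b → ((min a b : ℕ) : ℝ) ≤ p ^ (-(1 / 2) - 4 * δ) →
    g p (min a b) ^ (max a b) ≤ Wf δ p a b ∨ brec p (Wf δ p) a b ≤ Wf δ p a b

/-- BASE (from `S_TRIV`, `S_BREC`, `S_AN1`): strong induction on `R.sg`, with the `W` of AN1 (which is
`≤ p^((1/2-5δ)(a+b))`); one site: `q p Λ (isp R) ≤ g p 1 = p`, by TRIV. -/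
def S_BASE : Prop := ∀ δ : ℝ, 0 < δ → δ ≤ 1 / 100 → ∃ p0 : ℝ, 0 < p0 ∧ ∀ p : ℝ, 0 < p → p ≤ p0 →
  ∀ (Λ : Finset (ℕ × ℕ)) (R : Rc), R.Ok → ((min R.a R.b : ℕ) : ℝ) ≤ p ^ (-(1 / 2) - 4 * δ) →
    q p Λ (isp R) ≤ p ^ ((1 / 2 - 5 * δ) * (R.a + R.b))

/-- THIN (from `S_FPROP`).  `Ψ(a,b) ≤ V(a,b) ≤ φ(1) (a+b)`, `φ(1) ≤ f p Z ≤ log 2 + (1/2-6δ) log(1/p)`
(`Z = Zz δ p ≥ p^(-1/2-6δ)`), so the thin bound has a gain. -/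
def S_THIN : Prop := ∀ δ : ℝ, 0 < δ → δ ≤ 1 / 100 → ∃ p0 : ℝ, 0 < p0 ∧ ∀ p : ℝ, 0 < p → p ≤ p0 →
  ∀ a b : ℕ, 1 ≤ a → 1 ≤ b →
    p ^ ((1 / 2 - 5 * δ) * (a + b)) ≤ Real.exp (- Psi δ p a b) * Real.exp (-((a : ℝ) + b))

/-- the gain of the growth: `t (f(a1) - f(a1+Z)) + s (f(b1) - f(b1+Z)) + C0 (s+t)` -/
noncomputable def Bf (δ p : ℝ) (a1 b1 s t : ℕ) : ℝ :=
  t * (f p a1 - f p (a1 + Zz δ p)) + s * (f p b1 - f p (b1 + Zz δ p)) + p ^ (1 / 2 - δ) * (s + t)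

/-- BUDK (from `S_FPROP`).  Increments `s`, `t`, `s + t ≤ 2T`, `T = TT p M`, `M = max (a1+s) (b1+t) ≤ L`,
`min (a1+s) (b1+t) > N0 = p^(-1/2-4δ)`.  With `e(k) = Z/(8k+Z)` if `p k ≤ 1`, FPROP gives
`Bf ≥ t e(a1) + s e(b1) + C0 (s+t)` (drop the terms with `p k > 1`), `C0 = p^(1/2-δ)`.
Corner term `K = p s t/(g(a1) g(b1))`: let `m1 = min(a1,b1)`, `M1 = max(a1,b1)`; `m1 ≥ N0/2`
(`2T ≤ 2 p^(1/2) L + 2` is much smaller than `N0`),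
`s, t ≤ 2T ≤ 8 p^(1/2) M1`; `K ≤ 4 p s t max(1,1/(p m1)) max(1,1/(p M1))`.  If `p M1 ≤ 1` and say
`m1 = a1`: `K ≤ (t/a1) (4 s/(p M1)) ≤ (t/a1) 32 p^(-1/2) ≤ t e(a1)/2` (cases `a1 ≥ Z`, `a1 < Z`).  If
`p M1 > 1 ≥ p m1`, `m1 = a1`: `K ≤ 4 s t/a1 ≤ (t/a1) 32 p^(1/2) L ≤ t e(a1)/2`.  If `p m1 > 1`:
`K ≤ 4 p s t ≤ 32 t p^(3/2) L ≤ C0 t/2`. -/
def S_BUDK : Prop := ∀ δ : ℝ, 0 < δ → δ ≤ 1 / 100 → ∃ p0 : ℝ, 0 < p0 ∧ ∀ p : ℝ, 0 < p → p ≤ p0 →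
  ∀ a1 b1 s t : ℕ, 1 ≤ a1 → 1 ≤ b1 → a1 + s ≤ LL p → b1 + t ≤ LL p →
    p ^ (-(1 / 2) - 4 * δ) < ((min (a1 + s) (b1 + t) : ℕ) : ℝ) →
    s + t ≤ 2 * TT p (max (a1 + s) (b1 + t)) →
    p * s * t / (g p a1 * g p b1) ≤ Bf δ p a1 b1 s t / 2

/-- BUDB (from `S_FPROP`).  Same situation, `s + t ≥ T`: for `p M1 ≤ 1`,
`Bf ≥ (s+t) Z/(8 M1 + Z) ≥ T Z/(8 M1 + Z) ≥ p^(-4δ)/20` (`T ≥ p^(1/2) M1`, cases `M1 ≥ Z`, `M1 < Z`,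
`M1 ≥ N0/2`); for `p M1 > 1`, `Bf ≥ C0 T ≥ p^(-δ)`. -/
def S_BUDB : Prop := ∀ δ : ℝ, 0 < δ → δ ≤ 1 / 100 → ∃ p0 : ℝ, 0 < p0 ∧ ∀ p : ℝ, 0 < p → p ≤ p0 →
  ∀ a1 b1 s t : ℕ, 1 ≤ a1 → 1 ≤ b1 → a1 + s ≤ LL p → b1 + t ≤ LL p →
    p ^ (-(1 / 2) - 4 * δ) < ((min (a1 + s) (b1 + t) : ℕ) : ℝ) →
    s + t ≤ 2 * TT p (max (a1 + s) (b1 + t)) → TT p (max (a1 + s) (b1 + t)) ≤ s + t →
    2 * Real.log (2 * (LL p : ℝ) ^ 4) ≤ Bf δ p a1 b1 s t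

/-- BUDGET (from `S_FPROP`, `S_PATH`, `S_BUDK`, `S_BUDB`).  With `s = a - a1`, `t = b - b1`:
`gr p a1 b1 a b = exp(-t f(a1) - s f(b1) + K)`, PATH: `Ψ(a,b) - Ψ(a1,b1) ≤ t f(a1) + s f(b1) - Bf`. -/
def S_BUDGET : Prop := ∀ δ : ℝ, 0 < δ → δ ≤ 1 / 100 → ∃ p0 : ℝ, 0 < p0 ∧ ∀ p : ℝ, 0 < p → p ≤ p0 →
  ∀ a b a1 b1 : ℕ, 1 ≤ a1 → 1 ≤ b1 → a1 ≤ a → b1 ≤ b → a ≤ LL p → b ≤ LL p →
    p ^ (-(1 / 2) - 4 * δ) < ((min a b : ℕ) : ℝ) →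
    (a - a1) + (b - b1) ≤ 2 * TT p (max a b) →
    Real.exp (- Psi δ p a1 b1) * gr p a1 b1 a b ≤ Real.exp (- Psi δ p a b) ∧
    (TT p (max a b) ≤ (a - a1) + (b - b1) →
      Real.exp (- Psi δ p a1 b1) * gr p a1 b1 a b ≤
        Real.exp (- Psi δ p a b) * (1 / (2 * (LL p : ℝ) ^ 4)))

/-- GAIN (from `S_FPROP`): for `m > p^(-1/2-4δ)`, `m ≤ L`, `φ(k) = f p (k + Z)`:
`2 (∑_{k ≤ m} φ(k) - m φ(m)) ≥ p^(-1/2-2δ)/200`.  It is nondecreasing in `m`, so take `m` least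
(`m ≤ 2 N0 ≤ Z`); then `φ(k) - φ(m) = log(1 + w^(k+Z) g(m-k)/g(k+Z)) ≥ (m-k)/(64 Z)`
(`g(m-k) ≥ p(m-k)/2`, `g(k+Z) ≤ 2pZ`, `w^(k+Z) ≥ 1/2`), sum `≥ m²/(256 Z)`.  (Constants to taste: only
the stated inequality matters, `p0` may be tiny.) -/
def S_GAIN : Prop := ∀ δ : ℝ, 0 < δ → δ ≤ 1 / 100 → ∃ p0 : ℝ, 0 < p0 ∧ ∀ p : ℝ, 0 < p → p ≤ p0 →
  ∀ m : ℕ, p ^ (-(1 / 2) - 4 * δ) < (m : ℝ) →
    p ^ (-(1 / 2) - (3 / 2) * δ) ≤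
      2 * (∑ k ∈ Finset.Icc 1 m, f p (k + Zz δ p) - m * f p (m + Zz δ p))

/-- JOIN (from `S_FPROP`, `S_MERGE`, `S_THIN`, `S_GAIN`).  `T ≥ p^(1/2) N0 = p^(-4δ)`.
If both rectangles are thick (`min > N0`): MERGE and GAIN with `m` the least of the four sides; the
`C0` part costs `C0 (a1+b1+a2+b2-a-b) ≤ C0 2 L = 16 p^(-1/2-δ) log(1/p) + ...`, less than half of
`p^(-1/2-3δ/2)`.  If, say, the second is thin: `U(a2,b2) ≤ exp(-Ψ(a2,b2) - (a2+b2))` (THIN), `U(a1,b1) ≤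
exp(-Ψ(a1,b1))` (THIN or equality), MERGE with `m = 1` (gain `0`), the `C0` part costs at most
`C0 (a2+b2) ≤ (a2+b2)/2` (as `a1 + b1 ≤ a + b`), and `a2 + b2 ≥ T ≥ p^(-4δ)` (from
`a + b ≤ a1+b1+a2+b2 ≤ a + b - T + a2 + b2`). -/
def S_JOIN : Prop := ∀ δ : ℝ, 0 < δ → δ ≤ 1 / 100 → ∃ p0 : ℝ, 0 < p0 ∧ ∀ p : ℝ, 0 < p → p ≤ p0 →
  ∀ a b a1 b1 a2 b2 T : ℕ, 1 ≤ a1 → 1 ≤ b1 → 1 ≤ a2 → 1 ≤ b2 → a1 ≤ a → a2 ≤ a → a ≤ a1 + a2 →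
    b1 ≤ b → b2 ≤ b → b ≤ b1 + b2 → a ≤ LL p → b ≤ LL p →
    p ^ (-(4 * δ)) ≤ (T : ℝ) → a1 + b1 + T ≤ a + b → a2 + b2 + T ≤ a + b →
    Uf δ p a1 b1 * Uf δ p a2 b2 ≤ Real.exp (- Psi δ p a b) * (1 / (2 * (LL p : ℝ) ^ 12))

/-- MAIN (from `S_BASE`, `S_MREC`, `S_THIN`, `S_BUDGET`, `S_JOIN`): strong induction on `R.sg`: for
`min ≤ N0` by BASE, else MREC with `N = LL p`, `T = TT p (max R.a R.b)`, `U = Uf δ p`,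
`X1 = exp(-Ψ)/(2 L^4)`, `X2 = exp(-Ψ)/(2 L^12)` (`Uf ≤ exp(-Ψ)` by THIN). -/
def S_MAIN : Prop := ∀ δ : ℝ, 0 < δ → δ ≤ 1 / 100 → ∃ p0 : ℝ, 0 < p0 ∧ ∀ p : ℝ, 0 < p → p ≤ p0 →
  ∀ (Λ : Finset (ℕ × ℕ)) (R : Rc), R.Ok → R.a ≤ LL p → R.b ≤ LL p →
    q p Λ (isp R) ≤ Real.exp (- Psi δ p R.a R.b)

/-- SERLO.  `f p k = ∑_i w^(ik)/i`, `w = 1-p`.  Keep `i ≤ I = ⌈1/p⌉`:
`∑_{k ≤ N} f p k ≥ ∑_{i ≤ I} (1/i) (w^i - w^(i(N+1)))/(1-w^i) ≥ (1/p) ∑_{i ≤ I} (w^i - w^N)/i²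
≥ (1/p) (∑_{i≤I} 1/i² - p ∑_{i ≤ I} 1/i - 2 w^N)`, `∑_{i ≤ I} 1/i² ≥ π²/6 - 1/I`. -/
def S_SERLO : Prop := ∀ (p : ℝ), 0 < p → p ≤ 1 / 2 → ∀ N : ℕ,
  Real.pi ^ 2 / (6 * p) - 10 * Real.log (1 / p) - 10 - 2 * (1 - p) ^ N / p ≤
    ∑ k ∈ Finset.Icc 1 N, f p k

/-- SERUP.  `∑_{k ≤ N} f p k = ∑_i (1/i) ∑_{k ≤ N} w^(ik) ≤ ∑_i (1/i) w^i/(1-w^i) ≤ ∑_i 1/(i² p)`,
as `1 - w^i ≥ p i w^(i-1)`. -/
def S_SERUP : Prop := ∀ (p : ℝ), 0 < p → p < 1 → ∀ N : ℕ,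
  ∑ k ∈ Finset.Icc 1 N, f p k ≤ Real.pi ^ 2 / (6 * p)

/-- ENDV (from `S_SERLO`, `S_FPROP`).  `X = ⌊L/4⌋`-ish.  `V(a,b) ≥ 2 ∑_{k ≤ X} φ(k)` when
`2X ≤ max a b`: if `m ≥ X` clear, if `m < X`: `(M - m) φ(m) ≥ 2 (X - m) φ(m) ≥ 2 ∑_{m<k≤X} φ(k)`.
`∑_{k ≤ X} φ(k) ≥ ∑_{j ≤ X} f(j) - (Z+1) log(1/p)`; `w^X ≤ e^(-pX) ≤ e p^2`; `C0 (a+b) ≤ 2 C0 L`. -/
def S_ENDV : Prop := ∀ δ : ℝ, 0 < δ → δ ≤ 1 / 100 → ∃ p0 : ℝ, 0 < p0 ∧ ∀ p : ℝ, 0 < p → p ≤ p0 →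
  ∀ a b : ℕ, 1 ≤ a → 1 ≤ b → a ≤ LL p → b ≤ LL p → LL p ≤ 2 * max a b →
    Real.pi ^ 2 / (3 * p) - p ^ (-(1 / 2) - 8 * δ) ≤ Psi δ p a b

/-- LOW (from `S_SPLIT`, `S_MAIN`, `S_ENDV`).  If `IS ⟨0,0,n,n⟩ A`, take an i.s. (by `A`) rectangle
`R ∈ subs ⟨0,0,n,n⟩` with `LL p ≤ 2 max` and `R.sg` minimal; if `max > LL p`, split it: one of the two
parts has `2 max ≥ LL p` (`max(R) ≤ max(R1) + max(R2)`), contradiction.  There are at most `n² L²`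
such `R` with sides `≤ L` (choose `x`, `y`, `a`, `b`); union bound and MAIN, ENDV:
`n² L² exp(-π²/(3p) + p^(-1/2-8δ)) < 1/2`. -/
def S_LOW : Prop := ∀ δ : ℝ, 0 < δ → δ ≤ 1 / 100 → ∃ p0 : ℝ, 0 < p0 ∧ ∀ p : ℝ, 0 < p → p ≤ p0 →
  ∀ n : ℕ, LL p ≤ n → 2 * Real.log n ≤ Real.pi ^ 2 / (3 * p) - p ^ (-(1 / 2) - 9 * δ) →
    ∀ Λ : Finset (ℕ × ℕ), q p Λ (isp ⟨0, 0, n, n⟩) < 1 / 2

/-! ## The upper bound for `p_c` -/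

/-- HARRIS: increasing events are positively correlated (induction on `Λ` with `q_insert`). -/
def S_HARRIS : Prop := ∀ (p : ℝ), 0 ≤ p → p ≤ 1 → ∀ (Λ : Finset (ℕ × ℕ))
  (E F : Set (Finset (ℕ × ℕ))), Up E → Up F → q p Λ E * q p Λ F ≤ q p Λ (E ∩ F)

/-- INDEP: events depending on disjoint sets of sites are independent (induction on `Λ`). -/
def S_INDEP : Prop := ∀ (p : ℝ), 0 ≤ p → p ≤ 1 → ∀ (Λ Λ1 Λ2 : Finset (ℕ × ℕ))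
  (E F : Set (Finset (ℕ × ℕ))), Disjoint Λ1 Λ2 → (∀ S, S ∈ E ↔ S ∩ Λ1 ∈ E) →
  (∀ S, S ∈ F ↔ S ∩ Λ2 ∈ F) → q p Λ (E ∩ F) = q p Λ E * q p Λ F

/-- UDROP (from `S_HARRIS`, `S_FILL`).  The corner `(x,y)` is in `A` (probability `p`), and for every `k` in
`[1, L)`: `(x+k, y+k) ∈ A`, or (`{x+k} × [y,y+k)` is hit and `[x,x+k) × {y+k}` is hit): this event has
probability `≥ p + (1-p) g(k)²` (insert `(x+k,y+k)`: `q_insert`; HARRIS).  On these events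
`⟨x,y,k,k⟩` is i.s. for all `k ≤ L` (induction: FILL for the corner site; spreading along the row and
the column otherwise).  HARRIS for the intersection. -/
def S_UDROP : Prop := ∀ (p : ℝ), 0 < p → p < 1 → ∀ (Λ : Finset (ℕ × ℕ)) (x y L : ℕ), 1 ≤ L →
  Rc.sites ⟨x, y, L, L⟩ ⊆ Λ →
  p * ∏ k ∈ Finset.Ico 1 L, (p + (1 - p) * g p k ^ 2) ≤ q p Λ (isp ⟨x, y, L, L⟩)

/-- UPROD (from `S_SERUP`, `S_FPROP`).  `log(p + (1-p) g²) = -2 f + log(1 + p (1-g²)/g²)`, and for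
`k ≤ p^(-1/2)` the last term is `≥ log(3/2) ≥ 0.4` as `g ≤ p k ≤ p^(1/2)`.  (`⌊p^(-1/2)⌋ < L`.) -/
def S_UPROD : Prop := ∃ p0 : ℝ, 0 < p0 ∧ ∀ p : ℝ, 0 < p → p ≤ p0 → ∀ L : ℕ, 1 / p ≤ (L : ℝ) →
  Real.exp (-(Real.pi ^ 2 / (3 * p)) + (35 / 100) * p ^ (-(1 / 2 : ℝ))) ≤
    p * ∏ k ∈ Finset.Ico 1 L, (p + (1 - p) * g p k ^ 2)

/-- UPBOX (from `S_INDEP`).  The boxes `⟨i L, j L, L, L⟩`, `i, j < n / L`, are disjoint; the events that they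
are not i.s. are independent (`isp_local`), so none is i.s. with probability `≤ (1-P)^((n/L)^2)`. -/
def S_UPBOX : Prop := ∀ (p : ℝ), 0 ≤ p → p ≤ 1 → ∀ (n L : ℕ) (P : ℝ), 1 ≤ L → 0 ≤ P → P ≤ 1 →
  (∀ x y : ℕ, x + L ≤ n → y + L ≤ n →
    P ≤ q p (Finset.range n ×ˢ Finset.range n) (isp ⟨x, y, L, L⟩)) →
  1 - (1 - P) ^ ((n / L) ^ 2) ≤ q p (Finset.range n ×ˢ Finset.range n)
    {A | ∃ x y : ℕ, x + L ≤ n ∧ y + L ≤ n ∧ IS ⟨x, y, L, L⟩ A}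

/-- UPSEG.  Union bound over at most `n²` horizontal and `n²` vertical segments. -/
def S_UPSEG : Prop := ∀ (p : ℝ), 0 ≤ p → p ≤ 1 → ∀ (n L : ℕ), 1 ≤ L →
  1 - 2 * (n : ℝ) ^ 2 * (1 - p) ^ L ≤ q p (Finset.range n ×ˢ Finset.range n)
    {A | (∀ x y : ℕ, x + L ≤ n → y < n → ∃ x', x ≤ x' ∧ x' < x + L ∧ (x', y) ∈ A) ∧
      (∀ x y : ℕ, x < n → y + L ≤ n → ∃ y', y ≤ y' ∧ y' < y + L ∧ (x, y') ∈ A)}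

/-- UP (from `S_HARRIS`, `S_UPBOX`, `S_UPSEG`, `S_UDROP`, `S_UPROD`, `S_UGEO`).  `L = ⌈p^(-3)⌉`,
`K = (n/L)^2`, `P` the bound of UPROD (it is `≤ 1`, being `≤` a probability): no box is i.s. with
probability `≤ (1-P)^K ≤ e^(-KP) ≤ e^(-2)`, `K P ≥ (n/(2L))² P ≥ exp(p^(-1/2)/20)/(4 L²) ≥ 2`; all segments
of length `L` are hit with probability `≥ 1 - 2 n² (1-p)^L ≥ 1 - 2 exp(p^(-3/2) - p^(-2)) ≥ 9/10`.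
HARRIS and UGEO: `(1 - e^(-2)) 9/10 ≥ 1/2`. -/
def S_UP : Prop := ∃ p0 : ℝ, 0 < p0 ∧ ∀ p : ℝ, 0 < p → p ≤ p0 → ∀ n : ℕ,
  Real.pi ^ 2 / (3 * p) - (3 / 10) * p ^ (-(1 / 2 : ℝ)) ≤ 2 * Real.log n →
  2 * Real.log n ≤ p ^ (-(3 / 2 : ℝ)) →
  1 / 2 ≤ q p (Finset.range n ×ˢ Finset.range n) (isp ⟨0, 0, n, n⟩)

/-! ## The frozen statement -/

/-- The probability of the frozen statement. -/
noncomputable def Pf (n : ℕ) (p : ℝ) : ℝ := by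
  classical exact
  ∑ A : Finset (Fin n × Fin n),
    (if (∀ S : Finset (Fin n × Fin n), A ⊆ S →
          (∀ v : Fin n × Fin n,
            ((∃ u ∈ S, u.2 = v.2 ∧ ((u.1 : ℕ) + 1 = v.1 ∨ (v.1 : ℕ) + 1 = u.1)) ∧
             (∃ u ∈ S, u.1 = v.1 ∧ ((u.2 : ℕ) + 1 = v.2 ∨ (v.2 : ℕ) + 1 = u.2))) →
            v ∈ S) →
          S = Finset.univ)
      then p ^ A.card * (1 - p) ^ (n ^ 2 - A.card) else 0)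

/-- BRIDGE.  Map `Finset (Fin n × Fin n)` to the subsets of `range n ×ˢ range n` (bijection of
powersets); a stable set `S ⊆ ℕ × ℕ` restricts to a stable subset of the grid and conversely a
stable subset of the grid is stable in `ℕ × ℕ` (a site outside the grid with a horizontal and a
vertical neighbour in the grid does not exist). -/
def S_BRIDGE : Prop := ∀ (n : ℕ) (p : ℝ), 1 ≤ n → 0 ≤ p → p ≤ 1 →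
  Pf n p = q p (Finset.range n ×ˢ Finset.range n) (isp ⟨0, 0, n, n⟩)

/-- ASMU.  `ℓ = log n`, `p_u = π²/(6ℓ) - ℓ^(-3/2)/20 = (π²/(6ℓ)) (1-ξ)`, `ξ = (3/(10 π²)) ℓ^(-1/2)`:
`π²/(3 p_u) = 2ℓ/(1-ξ) ≤ 2ℓ + 4ℓξ = 2ℓ + (12/(10 π²)) ℓ^(1/2)` and
`(3/10) p_u^(-1/2) ≥ (3/10) (6/π²)^(1/2) ℓ^(1/2)`, `12/(10π²) < 0.122 < 0.23 < (3/10)(6/π²)^(1/2)`. -/
def S_ASMU : Prop := ∀ p0 : ℝ, 0 < p0 → ∀ᶠ n : ℕ in Filter.atTop,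
  0 < Real.pi ^ 2 / (6 * Real.log n) - Real.log n ^ (-(3 / 2 : ℝ)) / 20 ∧
  Real.pi ^ 2 / (6 * Real.log n) - Real.log n ^ (-(3 / 2 : ℝ)) / 20 ≤ p0 ∧
  Real.pi ^ 2 / (3 * (Real.pi ^ 2 / (6 * Real.log n) - Real.log n ^ (-(3 / 2 : ℝ)) / 20)) -
    (3 / 10) * (Real.pi ^ 2 / (6 * Real.log n) - Real.log n ^ (-(3 / 2 : ℝ)) / 20) ^ (-(1 / 2 : ℝ))
      ≤ 2 * Real.log n ∧
  2 * Real.log n ≤
    (Real.pi ^ 2 / (6 * Real.log n) - Real.log n ^ (-(3 / 2 : ℝ)) / 20) ^ (-(3 / 2 : ℝ))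

/-- ASML.  `p_l = π²/(6ℓ) - ℓ^(-3/2+δ') = (π²/(6ℓ)) (1-ξ)`, `ξ = (6/π²) ℓ^(-1/2+δ')`:
`π²/(3 p_l) = 2ℓ/(1-ξ) ≥ 2ℓ + 2ℓξ ≥ 2ℓ + ℓ^(1/2+δ')`, and `p_l ≥ 1/ℓ` (as `π²/6 > 1`) so
`p_l^(-1/2-9δ) ≤ ℓ^(1/2+9δ) ≤ ℓ^(1/2+δ')`.  `LL p_l ≤ 8 ℓ log ℓ + 1 ≤ n`. -/
def S_ASML : Prop := ∀ δ δ' : ℝ, 0 < δ → δ ≤ 1 / 100 → 20 * δ ≤ δ' → δ' ≤ 1 / 4 →
  ∀ p0 : ℝ, 0 < p0 → ∀ᶠ n : ℕ in Filter.atTop,
  0 < Real.pi ^ 2 / (6 * Real.log n) - Real.log n ^ (-(3 / 2 : ℝ) + δ') ∧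
  Real.pi ^ 2 / (6 * Real.log n) - Real.log n ^ (-(3 / 2 : ℝ) + δ') ≤ p0 ∧
  LL (Real.pi ^ 2 / (6 * Real.log n) - Real.log n ^ (-(3 / 2 : ℝ) + δ')) ≤ n ∧
  2 * Real.log n ≤
    Real.pi ^ 2 / (3 * (Real.pi ^ 2 / (6 * Real.log n) - Real.log n ^ (-(3 / 2 : ℝ) + δ'))) -
    (Real.pi ^ 2 / (6 * Real.log n) - Real.log n ^ (-(3 / 2 : ℝ) + δ')) ^ (-(1 / 2) - 9 * δ)

/-- ASM (from `S_LOW`, `S_UP`, `S_BRIDGE`, `S_ASMU`, `S_ASML`; `q_mono_p`, `isp_up`).  `ℓ = log n`.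
`p_u` is in the set, so the infimum is `≤ p_u`; for `δ' > 0` no `p ≤ p_l` is in the set (`q_mono_p`), so the
infimum is `≥ p_l`.  `D = π²/(6ℓ) - p_c ∈ [ℓ^(-3/2)/20, ℓ^(-3/2+δ')]`,
`ε n = -log D/log ℓ - 3/2`. -/
def S_ASM : Prop :=
  ∃ ε : ℕ → ℝ, Filter.Tendsto ε Filter.atTop (nhds 0) ∧
    ∀ᶠ n : ℕ in Filter.atTop,
      sInf {p : ℝ | 0 ≤ p ∧ p ≤ 1 ∧ (1 : ℝ) / 2 ≤ Pf n p}
      = Real.pi ^ 2 / (6 * Real.log n) - 1 / Real.log n ^ ((3 : ℝ) / 2 + ε n)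

end Pool.Agent.J6H44.BP
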